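import Pool.Agent.X85.HFdef

set_option autoImplicit false
open Filter Topology Polynomial

namespace Pool.Agent.X85.HF

/-! ### The combinatorial part -/

/-- a Bohr-type set -/
def EE (α δ : ℝ) (q : ℕ) : Set ℕ :=
  {m | 1 ≤ m ∧ ∃ j : ℕ, m = q * j ∧ ∃ z : ℤ, |(j : ℝ) * α - z| ≤ δ}

lemma not_thick (α δ : ℝ) (q : ℕ) (hq : 0 < q)
    (hsmall : 2 * δ + (1 + |α|) / q < 1 / 4) (hq2 : (1 : ℝ) / q < 1 / 4) :
    ¬ Thick (⋂ i, returnSet (ff α i) (EE α δ q)) := by
  intro hthick
  obtain ⟨a, ha⟩ := hthick q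
  have hqR : (0 : ℝ) < q := by exact_mod_cast hq
  -- find `n = a + i ≡ ⌊q/2⌋ mod q`
  obtain ⟨i, hi, hmod⟩ : ∃ i < q, (a + i) % q = q / 2 := by
    refine ⟨(q / 2 + (q - a % q)) % q, Nat.mod_lt _ hq, ?_⟩
    have h1 : a % q < q := Nat.mod_lt _ hq
    rw [Nat.add_mod, Nat.mod_mod, ← Nat.add_mod]
    have h2 : a = q * (a / q) + a % q := (Nat.div_add_mod a q).symm
    have h3 : a + (q / 2 + (q - a % q)) = q / 2 + q * (a / q + 1) := by
      rw [mul_add]; omega
    rw [h3, Nat.add_mul_mod_self_left]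
    exact Nat.mod_eq_of_lt (Nat.div_lt_self hq (by norm_num))
  have hn := ha i hi
  rw [Set.mem_iInter] at hn
  set n : ℕ := a + i with hn'
  obtain ⟨hn1, e, ⟨_, j, rfl, z, hz⟩, e', ⟨_, j', rfl, z', hz'⟩, he⟩ := hn 0
  obtain ⟨_, e2, ⟨_, l, rfl, _⟩, e2', ⟨_, l', rfl, _⟩, he2⟩ := hn 1
  have f0 : ff α 0 n = (n : ℝ) ^ (3 / 2 : ℝ) := rfl
  have f1 : ff α 1 n = α * (n : ℝ) ^ (3 / 2 : ℝ) + n := rfl
  set x : ℝ := (n : ℝ) ^ (3 / 2 : ℝ) with hx
  rw [f0] at he
  rw [f1] at he2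
  have g1 : ((⌊x⌋ : ℤ) : ℝ) = q * ((j' : ℝ) - j) := by
    have : (⌊x⌋ : ℤ) = (q : ℤ) * ((j' : ℤ) - j) := by push_cast at he; linarith
    rw [this]; push_cast; ring
  have g2 : ((⌊α * x + n⌋ : ℤ) : ℝ) = q * ((l' : ℝ) - l) := by
    have : (⌊α * x + n⌋ : ℤ) = (q : ℤ) * ((l' : ℤ) - l) := by push_cast at he2; linarith
    rw [this]; push_cast; ring
  have x1 := Int.floor_le x
  have x2 := Int.lt_floor_add_one x
  have y1 := Int.floor_le (α * x + n)
  have y2 := Int.lt_floor_add_one (α * x + n)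
  -- `n / q` is close to an integer
  set w : ℤ := (l' : ℤ) - l - (z' - z) with hw
  have key : |(n : ℝ) / q - w| < 1 / 4 := by
    have e1 : (n : ℝ) / q - w = ((α * x + n) - ⌊α * x + n⌋) / q - α * (x - ⌊x⌋) / q
        - (((j' : ℝ) * α - z') - ((j : ℝ) * α - z)) := by
      rw [g1, g2, hw]; push_cast
      field_simp
      ring
    have b1 : |((α * x + n) - ⌊α * x + n⌋) / (q : ℝ)| ≤ 1 / q := by
      rw [abs_div, abs_of_pos hqR]
      gcongr
      rw [abs_le]; constructor <;> linarith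
    have b2 : |α * (x - ⌊x⌋) / (q : ℝ)| ≤ |α| / q := by
      rw [abs_div, abs_of_pos hqR, abs_mul]
      gcongr
      have : |x - ⌊x⌋| ≤ 1 := by rw [abs_le]; constructor <;> linarith
      calc |α| * |x - ⌊x⌋| ≤ |α| * 1 := mul_le_mul_of_nonneg_left this (abs_nonneg _)
        _ = |α| := mul_one _
    rw [e1]
    have b3 := abs_sub (((α * x + n) - ⌊α * x + n⌋) / (q : ℝ) - α * (x - ⌊x⌋) / q)
      (((j' : ℝ) * α - z') - ((j : ℝ) * α - z))
    have b4 := abs_sub (((α * x + n) - ⌊α * x + n⌋) / (q : ℝ)) (α * (x - ⌊x⌋) / q)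
    have b5 := abs_sub ((j' : ℝ) * α - z') ((j : ℝ) * α - z)
    have b6 : (1 + |α|) / (q : ℝ) = 1 / q + |α| / q := by rw [add_div]
    linarith
  -- but `n ≡ ⌊q/2⌋`
  obtain ⟨r, hr⟩ : ∃ r : ℕ, r = n / q := ⟨_, rfl⟩
  have hnq : (n : ℝ) = q * (r : ℝ) + ((q / 2 : ℕ) : ℝ) := by
    have := Nat.div_add_mod n q
    rw [hmod, ← hr] at this
    exact_mod_cast this.symm
  have hhalf1 : ((q / 2 : ℕ) : ℝ) / q ≤ 1 / 2 := by
    rw [div_le_iff₀ hqR]
    have : 2 * (q / 2) ≤ q := Nat.mul_div_le q 2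
    have : (2 : ℝ) * ((q / 2 : ℕ) : ℝ) ≤ q := by exact_mod_cast this
    linarith
  have hhalf2 : 1 / 4 < ((q / 2 : ℕ) : ℝ) / q := by
    rw [lt_div_iff₀ hqR]
    have h5 : q ≤ 2 * (q / 2) + 1 := by omega
    have h6 : (q : ℝ) ≤ 2 * ((q / 2 : ℕ) : ℝ) + 1 := by exact_mod_cast h5
    have h7 : 4 < (q : ℝ) := by
      rw [div_lt_div_iff₀ hqR (by norm_num)] at hq2
      linarith
    linarith
  have hdiv : (n : ℝ) / q = (r : ℝ) + ((q / 2 : ℕ) : ℝ) / q := by
    rw [div_eq_iff hqR.ne', add_mul, div_mul_cancel₀ _ hqR.ne']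
    linarith
  rw [hdiv, abs_lt] at key
  obtain ⟨k1, k2⟩ := key
  -- the integer `w - n/q` is in `(0, 1)`
  have k3 : (0 : ℝ) < ((w - (r : ℤ) : ℤ) : ℝ) := by push_cast; linarith
  have k4 : ((w - (r : ℤ) : ℤ) : ℝ) < 1 := by push_cast; linarith
  have k5 : 0 < w - (r : ℤ) := by exact_mod_cast k3
  have k6 : w - (r : ℤ) < 1 := by exact_mod_cast k4
  omega

open Classical in
/-- a Bohr set has many elements in every initial interval -/
lemma bohr_count (α : ℝ) (K : ℕ) (hK : 0 < K) (N : ℕ) :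
    (N : ℝ) / K ≤ (((Finset.range N).filter fun j : ℕ => ∃ z : ℤ, |(j : ℝ) * α - z| ≤ 1 / K).card : ℝ) := by
  classical
  have hKR : (0 : ℝ) < K := by exact_mod_cast hK
  -- colour `j` by the cell of `fract (j α)`
  set c : ℕ → ℕ := fun j => ⌊(K : ℝ) * Int.fract ((j : ℝ) * α)⌋₊ with hc
  have hcK : ∀ j ∈ Finset.range N, c j ∈ Finset.range K := by
    intro j _
    rw [Finset.mem_range, hc]
    simp only
    rw [Nat.floor_lt (by have := Int.fract_nonneg ((j : ℝ) * α); positivity)]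
    have := Int.fract_lt_one ((j : ℝ) * α)
    nlinarith
  obtain ⟨i, hi, hle⟩ := Finset.exists_le_card_fiber_of_nsmul_le_card_of_maps_to
    (M := ℝ) (b := (N : ℝ) / K) hcK ⟨0, Finset.mem_range.2 hK⟩ (by
      rw [Finset.card_range, Finset.card_range, nsmul_eq_mul]
      rw [mul_div_cancel₀ _ hKR.ne'])
  refine hle.trans ?_
  norm_cast
  set F := (Finset.range N).filter fun j => c j = i with hF
  rcases F.eq_empty_or_nonempty with h0 | h0
  · rw [h0]; simp
  · set m := F.min' h0 with hm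
    have hmF := F.min'_mem h0
    rw [← hm] at hmF
    refine Finset.card_le_card_of_injOn (fun j => j - m) ?_ ?_
    · intro j hj
      have hj' : j ∈ F := hj
      have hmj : m ≤ j := F.min'_le j hj'
      rw [hF, Finset.mem_filter, Finset.mem_range] at hj' hmF
      simp only [Finset.coe_filter, Finset.mem_range, Set.mem_ofPred_eq]
      refine ⟨by omega, ⌊(j : ℝ) * α⌋ - ⌊(m : ℝ) * α⌋, ?_⟩
      have e1 : (((j - m : ℕ) : ℝ)) * α - ((⌊(j : ℝ) * α⌋ - ⌊(m : ℝ) * α⌋ : ℤ) : ℝ) =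
          Int.fract ((j : ℝ) * α) - Int.fract ((m : ℝ) * α) := by
        rw [Nat.cast_sub hmj, Int.fract, Int.fract]; push_cast; ring
      rw [e1]
      have h1 : c j = c m := by rw [hj'.2, hmF.2]
      simp only [hc] at h1
      have p1 := Nat.floor_le (by have := Int.fract_nonneg ((j : ℝ) * α); positivity :
        0 ≤ (K : ℝ) * Int.fract ((j : ℝ) * α))
      have p2 := Nat.lt_floor_add_one ((K : ℝ) * Int.fract ((j : ℝ) * α))
      have p3 := Nat.floor_le (by have := Int.fract_nonneg ((m : ℝ) * α); positivity :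
        0 ≤ (K : ℝ) * Int.fract ((m : ℝ) * α))
      have p4 := Nat.lt_floor_add_one ((K : ℝ) * Int.fract ((m : ℝ) * α))
      rw [h1] at p1 p2
      rw [abs_le]
      constructor
      · have e2 : (K : ℝ) * (1 / K) = 1 := by field_simp
        by_contra hcon
        push Not at hcon
        have := mul_lt_mul_of_pos_left hcon hKR
        have e3 : (K : ℝ) * -(1 / K) = -1 := by rw [mul_neg, e2]
        rw [e3] at this
        nlinarith
      · rw [le_div_iff₀ hKR]
        nlinarith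
    · intro j hj j' hj' h
      have h1 : m ≤ j := F.min'_le j hj
      have h2 : m ≤ j' := F.min'_le j' hj'
      simp only at h
      omega

lemma density_pos (α : ℝ) (K q : ℕ) (hK : 0 < K) (hq : 0 < q) :
    0 < upperDensity (EE α (1 / K) q) := by
  classical
  have hKR : (0 : ℝ) < K := by exact_mod_cast hK
  have hqR : (0 : ℝ) < q := by exact_mod_cast hq
  have hfreq : ∃ᶠ N : ℕ in atTop, 1 / (2 * q * K : ℝ) ≤
      ((EE α (1 / K) q ∩ Set.Icc 1 N).ncard : ℝ) / N := by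
    rw [frequently_atTop]
    intro a
    -- take `N = q M`, `M` large
    set M : ℕ := a + 4 * K with hM
    refine ⟨q * M, by rw [hM]; nlinarith, ?_⟩
    have hfin : (EE α (1 / K) q ∩ Set.Icc 1 (q * M)).Finite := (Set.finite_Icc _ _).inter_of_right _
    have h1 := bohr_count α K hK M
    set G := (Finset.range M).filter fun j : ℕ => ∃ z : ℤ, |(j : ℝ) * α - z| ≤ 1 / K with hG
    have h2 : G.card ≤ (EE α (1 / K) q ∩ Set.Icc 1 (q * M)).ncard + 1 := by
      have h3 : (G.erase 0).card ≤ (EE α (1 / K) q ∩ Set.Icc 1 (q * M)).ncard := by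
        rw [Set.ncard_eq_toFinset_card _ hfin]
        refine Finset.card_le_card_of_injOn (fun j => q * j) ?_ ?_
        · intro j hj
          simp only [Finset.coe_erase, Set.mem_sdiff, Finset.mem_coe, Set.mem_singleton_iff, hG,
            Finset.mem_filter, Finset.mem_range] at hj
          simp only [Set.Finite.coe_toFinset]
          obtain ⟨⟨hjM, hz⟩, hj0⟩ := hj
          have : 1 ≤ q * j := Nat.mul_pos hq (by omega)
          exact ⟨⟨this, j, rfl, hz⟩, this, Nat.mul_le_mul_left _ hjM.le⟩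
        · intro j _ j' _ h
          exact Nat.eq_of_mul_eq_mul_left hq h
      have h4 : G.card ≤ (G.erase 0).card + 1 := by
        have := Finset.pred_card_le_card_erase (s := G) (a := 0)
        omega
      omega
    have h5 : (G.card : ℝ) ≤ (EE α (1 / K) q ∩ Set.Icc 1 (q * M)).ncard + 1 := by exact_mod_cast h2
    have hM0 : (0 : ℝ) < M := by
      have : 0 < M := by omega
      exact_mod_cast this
    have hMK : (4 : ℝ) * K ≤ M := by
      rw [hM]; push_cast; have : (0 : ℝ) ≤ a := by positivity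
      linarith
    push_cast
    rw [le_div_iff₀ (by positivity)]
    have e : 1 / (2 * (q : ℝ) * K) * (q * M) = M / K / 2 := by field_simp
    rw [e]
    have h6 : 4 ≤ (M : ℝ) / K := by rw [le_div_iff₀ hKR]; exact hMK
    linarith
  have hbdd : IsBoundedUnder (· ≤ ·) atTop
      fun N : ℕ => ((EE α (1 / K) q ∩ Set.Icc 1 N).ncard : ℝ) / N := by
    refine isBoundedUnder_of ⟨1, fun N => ?_⟩
    rcases Nat.eq_zero_or_pos N with h | h
    · rw [h]; simp
    · have hN : (0 : ℝ) < N := by exact_mod_cast h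
      rw [div_le_one hN]
      have : (EE α (1 / K) q ∩ Set.Icc 1 N).ncard ≤ (Set.Icc 1 N).ncard :=
        Set.ncard_le_ncard Set.inter_subset_right (Set.finite_Icc _ _)
      have h2 : (Set.Icc 1 N).ncard = N := by
        rw [Set.ncard_eq_toFinset_card' (Set.Icc 1 N)]; simp
      have h3 : (EE α (1 / K) q ∩ Set.Icc 1 N).ncard ≤ N := by
        rw [h2] at this; exact this
      exact_mod_cast h3
  have := le_limsup_of_frequently_le hfreq hbdd
  exact lt_of_lt_of_le (by positivity) this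

end Pool.Agent.X85.HF
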