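import Pool.Agent.X85.HFdef

set_option autoImplicit false
open Filter Topology Polynomial

namespace Pool.Agent.X85.HF

/-- rational functions of the square root -/
noncomputable def rr (P Q : ℝ[X]) (t : ℝ) : ℝ := P.eval (√t) / Q.eval (√t)

/-- the germ of a rational function of the square root -/
noncomputable def gg (P Q : ℝ[X]) : Germ (atTop : Filter ℝ) ℝ := (rr P Q : ℝ → ℝ)

lemma ev_ne {Q : ℝ[X]} (hQ : Q ≠ 0) : ∀ᶠ t : ℝ in atTop, Q.eval (√t) ≠ 0 :=
  Real.tendsto_sqrt_atTop.eventually (Polynomial.eventually_atTop_not_isRoot Q hQ)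

lemma gg_add {P Q P' Q' : ℝ[X]} (hQ : Q ≠ 0) (hQ' : Q' ≠ 0) :
    gg P Q + gg P' Q' = gg (P * Q' + P' * Q) (Q * Q') := by
  refine Germ.coe_eq.2 ?_
  filter_upwards [ev_ne hQ, ev_ne hQ'] with t h1 h2
  simp only [rr, eval_add, eval_mul]
  field_simp

lemma gg_mul (P Q P' Q' : ℝ[X]) : gg P Q * gg P' Q' = gg (P * P') (Q * Q') := by
  refine Germ.coe_eq.2 (Eventually.of_forall fun t => ?_)
  simp only [rr, eval_mul]
  rw [div_mul_div_comm]

lemma gg_neg (P Q : ℝ[X]) : -gg P Q = gg (-P) Q := by
  refine Germ.coe_eq.2 (Eventually.of_forall fun t => ?_)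
  show -(eval (√t) P / eval (√t) Q) = _
  simp only [rr, eval_neg, neg_div]

/-- the Hardy field of rational functions of `√t` -/
noncomputable def HH : Subring (Germ (atTop : Filter ℝ) ℝ) where
  carrier := {g | ∃ P Q : ℝ[X], Q ≠ 0 ∧ g = gg P Q}
  mul_mem' := by
    rintro _ _ ⟨P, Q, hQ, rfl⟩ ⟨P', Q', hQ', rfl⟩
    exact ⟨_, _, mul_ne_zero hQ hQ', gg_mul _ _ _ _⟩
  one_mem' := by
    refine ⟨1, 1, one_ne_zero, ?_⟩
    refine Germ.coe_eq.2 (Eventually.of_forall fun t => ?_)
    simp [rr]
  add_mem' := by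
    rintro _ _ ⟨P, Q, hQ, rfl⟩ ⟨P', Q', hQ', rfl⟩
    exact ⟨_, _, mul_ne_zero hQ hQ', gg_add hQ hQ'⟩
  zero_mem' := by
    refine ⟨0, 1, one_ne_zero, ?_⟩
    refine Germ.coe_eq.2 (Eventually.of_forall fun t => ?_)
    simp [rr]
  neg_mem' := by
    rintro _ ⟨P, Q, hQ, rfl⟩
    exact ⟨_, _, hQ, gg_neg _ _⟩

lemma rr_hasDeriv (P Q : ℝ[X]) {t : ℝ} (ht : 0 < t) (hQ : Q.eval (√t) ≠ 0) :
    HasDerivAt (rr P Q) (rr (derivative P * Q - P * derivative Q) (2 * X * Q ^ 2) t) t := by
  have h1 : HasDerivAt (fun s : ℝ => √s) (1 / (2 * √t)) t := Real.hasDerivAt_sqrt ht.ne'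
  have h2 := (P.hasDerivAt (√t)).comp t h1
  have h3 := (Q.hasDerivAt (√t)).comp t h1
  have h4 := h2.div h3 hQ
  have hs : √t ≠ 0 := (Real.sqrt_pos.2 ht).ne'
  have e : rr (derivative P * Q - P * derivative Q) (2 * X * Q ^ 2) t =
      (eval (√t) (derivative P) * (1 / (2 * √t)) * eval (√t) Q -
        eval (√t) P * (eval (√t) (derivative Q) * (1 / (2 * √t)))) / eval (√t) Q ^ 2 := by
    simp only [rr, eval_mul, eval_sub, eval_X, eval_pow, eval_ofNat]
    field_simp
  rw [e]
  exact h4

lemma hardy : IsHardyField HH where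
  inv := by
    rintro _ ⟨P, Q, hQ, rfl⟩ hne
    have hP : P ≠ 0 := by
      rintro rfl
      apply hne
      refine Germ.coe_eq.2 (Eventually.of_forall fun t => ?_)
      simp [rr]
    refine ⟨gg Q P, ⟨Q, P, hP, rfl⟩, ?_⟩
    rw [gg_mul]
    refine Germ.coe_eq.2 ?_
    filter_upwards [ev_ne hQ, ev_ne hP] with t h1 h2
    simp only [rr, eval_mul]
    rw [mul_comm (Q.eval (√t))]
    exact div_self (mul_ne_zero h2 h1)
  diff := by
    rintro f ⟨P, Q, hQ, hf⟩
    have h1 : f =ᶠ[atTop] rr P Q := Germ.coe_eq.1 hf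
    -- the same near every large point
    have h2 : ∀ᶠ t in atTop, f =ᶠ[𝓝 t] rr P Q := by
      obtain ⟨a, ha⟩ := eventually_atTop.1 h1
      filter_upwards [eventually_gt_atTop a] with t ht
      filter_upwards [lt_mem_nhds ht] with s hs
      exact ha s hs.le
    constructor
    · filter_upwards [h2, ev_ne hQ, eventually_gt_atTop 0] with t h3 h4 h5
      exact ((rr_hasDeriv P Q h5 h4).congr_of_eventuallyEq h3).differentiableAt
    · refine ⟨derivative P * Q - P * derivative Q, 2 * X * Q ^ 2, ?_, ?_⟩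
      · exact mul_ne_zero (mul_ne_zero two_ne_zero X_ne_zero) (pow_ne_zero 2 hQ)
      · refine Germ.coe_eq.2 ?_
        filter_upwards [h2, ev_ne hQ, eventually_gt_atTop 0] with t h3 h4 h5
        exact ((rr_hasDeriv P Q h5 h4).congr_of_eventuallyEq h3).deriv

lemma rpow_three_half {t : ℝ} (ht : 0 ≤ t) : t ^ (3 / 2 : ℝ) = (√t) ^ 3 := by
  rw [Real.sqrt_eq_rpow, ← Real.rpow_natCast, ← Real.rpow_mul ht]
  norm_num

lemma ff_mem (α : ℝ) (i : Fin 2) : ((ff α i : ℝ → ℝ) : Germ (atTop : Filter ℝ) ℝ) ∈ HH := by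
  fin_cases i
  · refine ⟨X ^ 3, 1, one_ne_zero, Germ.coe_eq.2 ?_⟩
    filter_upwards [eventually_ge_atTop 0] with t ht
    show t ^ (3 / 2 : ℝ) = _
    rw [rpow_three_half ht]; simp [rr]
  · refine ⟨C α * X ^ 3 + X ^ 2, 1, one_ne_zero, Germ.coe_eq.2 ?_⟩
    filter_upwards [eventually_ge_atTop 0] with t ht
    show α * t ^ (3 / 2 : ℝ) + t = _
    rw [rpow_three_half ht]; simp [rr, Real.sq_sqrt ht]

/-! ### The limit hypothesis -/

/-- coefficients of the derivatives of `t ^ (3/2)` -/
noncomputable def cc : ℕ → ℝ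
  | 0 => 1
  | m + 1 => cc m * (3 / 2 - m)

/-- derivatives of `t` -/
def ee : ℕ → ℝ → ℝ
  | 0 => fun t => t
  | 1 => fun _ => 1
  | _ + 2 => fun _ => 0

lemma ee_deriv (m : ℕ) (t : ℝ) : HasDerivAt (ee m) (ee (m + 1) t) t := by
  match m with
  | 0 => exact hasDerivAt_id t
  | 1 => exact hasDerivAt_const t 1
  | _ + 2 => exact hasDerivAt_const t 0

lemma iter_deriv (a b : ℝ) (m : ℕ) : ∀ t : ℝ, 0 < t →
    iteratedDeriv m (fun t : ℝ => a * t ^ (3 / 2 : ℝ) + b * t) t =
      a * (cc m * t ^ (3 / 2 - m : ℝ)) + b * ee m t := by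
  induction m with
  | zero => intro t _; simp [cc, ee]
  | succ m ih =>
    intro t ht
    rw [iteratedDeriv_succ]
    have h1 : iteratedDeriv m (fun t : ℝ => a * t ^ (3 / 2 : ℝ) + b * t) =ᶠ[𝓝 t]
        fun t => a * (cc m * t ^ (3 / 2 - m : ℝ)) + b * ee m t := by
      filter_upwards [lt_mem_nhds ht] with s hs
      exact ih s hs
    rw [h1.deriv_eq]
    have h2 := Real.hasDerivAt_rpow_const (x := t) (p := (3 / 2 - m : ℝ)) (Or.inl ht.ne')
    have h3 := ((h2.const_mul (cc m)).const_mul a).add ((ee_deriv m t).const_mul b)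
    have h5 : deriv (fun t : ℝ => a * (cc m * t ^ (3 / 2 - m : ℝ)) + b * ee m t) t =
        a * (cc m * ((3 / 2 - m) * t ^ (3 / 2 - m - 1 : ℝ))) + b * ee (m + 1) t := h3.deriv
    rw [h5]
    have e : (3 / 2 - ((m + 1 : ℕ) : ℝ)) = 3 / 2 - m - 1 := by push_cast; ring
    rw [e, cc]; ring

lemma ff_eq (α : ℝ) (i : Fin 2) : ff α i =
    fun t => (![1, α] : Fin 2 → ℝ) i * t ^ (3 / 2 : ℝ) + (![0, 1] : Fin 2 → ℝ) i * t := by
  fin_cases i
  · funext t; simp [ff]
  · funext t; simp [ff]

/-- the polynomial part in `√t` -/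
noncomputable def pc (m : ℕ) : ℝ[X] := if m = 0 then X ^ 3 else if m = 1 then C (3 / 2) * X else 0

/-- the polynomial part of `ee` in `√t` -/
noncomputable def pe (m : ℕ) : ℝ[X] := if m = 0 then X ^ 2 else if m = 1 then 1 else 0

lemma cc_lim (m : ℕ) : Tendsto (fun t : ℝ => cc m * t ^ (3 / 2 - m : ℝ) - (pc m).eval (√t)) atTop
    (𝓝 0) := by
  match m with
  | 0 =>
    refine tendsto_const_nhds.congr' ?_
    filter_upwards [eventually_ge_atTop 0] with t ht
    simp only [pc, cc, if_true, eval_pow, eval_X, Nat.cast_zero, sub_zero]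
    rw [rpow_three_half ht]; ring
  | 1 =>
    refine tendsto_const_nhds.congr' ?_
    filter_upwards [eventually_ge_atTop 0] with t ht
    simp only [pc, cc, one_ne_zero, if_false, if_true, eval_mul, eval_C, eval_X, Nat.cast_one,
      Nat.cast_zero, sub_zero, one_mul]
    rw [Real.sqrt_eq_rpow]
    norm_num
  | m + 2 =>
    have h1 : ∀ t : ℝ, (pc (m + 2)).eval (√t) = 0 := by
      intro t; simp [pc]
    simp only [h1, sub_zero]
    have h2 : Tendsto (fun t : ℝ => t ^ (-((m : ℝ) + 1 / 2))) atTop (𝓝 0) :=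
      tendsto_rpow_neg_atTop (by positivity)
    have h3 := h2.const_mul (cc (m + 2))
    rw [mul_zero] at h3
    refine h3.congr fun t => ?_
    congr 2
    push_cast; ring

lemma ee_eq (m : ℕ) {t : ℝ} (ht : 0 ≤ t) : ee m t = (pe m).eval (√t) := by
  match m with
  | 0 => simp [ee, pe, Real.sq_sqrt ht]
  | 1 => simp [ee, pe]
  | m + 2 => simp [ee, pe]

lemma limit_hyp (α : ℝ) (hα : Irrational α) : LimitHypothesis (ff α) := by
  intro c m
  -- the sum as a polynomial in `√t` plus a null function
  set u : ℝ → ℝ := fun t => ∑ i, (c i : ℝ) * iteratedDeriv (m i) (ff α i) t with hu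
  set W : ℝ[X] := C (c 0 : ℝ) * pc (m 0) + C (c 1 : ℝ) * (C α * pc (m 1) + pe (m 1)) with hW
  have hlim : Tendsto (fun t => u t - W.eval (√t)) atTop (𝓝 0) := by
    have h0 := (cc_lim (m 0)).const_mul (c 0 : ℝ)
    have h1 := (cc_lim (m 1)).const_mul ((c 1 : ℝ) * α)
    have h2 := h0.add h1
    simp only [mul_zero, add_zero] at h2
    refine h2.congr' ?_
    filter_upwards [eventually_gt_atTop 0] with t ht
    have e0 : iteratedDeriv (m 0) (ff α 0) t = cc (m 0) * t ^ (3 / 2 - m 0 : ℝ) := by
      rw [ff_eq, iter_deriv _ _ _ t ht]; simp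
    have e1 : iteratedDeriv (m 1) (ff α 1) t =
        α * (cc (m 1) * t ^ (3 / 2 - m 1 : ℝ)) + ee (m 1) t := by
      rw [ff_eq, iter_deriv _ _ _ t ht]; simp
    simp only [hu, hW, Fin.sum_univ_two, e0, e1, eval_add, eval_mul, eval_C]
    rw [ee_eq _ ht.le]
    ring
  by_cases hdeg : 0 < W.degree
  · right
    have h1 : Tendsto (fun t : ℝ => |W.eval (√t)|) atTop atTop :=
      (W.abs_tendsto_atTop hdeg).comp Real.tendsto_sqrt_atTop
    have h2 : Tendsto (fun t => |W.eval (√t)| - |u t - W.eval (√t)|) atTop atTop := by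
      have h3 := hlim.abs
      rw [abs_zero] at h3
      have h4 := h1.atTop_add h3.neg
      exact h4
    refine tendsto_atTop_mono (fun t => ?_) h2
    have := abs_sub_abs_le_abs_sub (W.eval (√t)) (u t)
    rw [abs_sub_comm (W.eval (√t)) (u t)] at this
    linarith
  · left
    -- all coefficients vanish
    have hW0 : W = 0 := by
      have hdeg' : W.degree ≤ 0 := not_lt.1 hdeg
      have hco : ∀ n : ℕ, 1 ≤ n → W.coeff n = 0 := by
        intro n hn
        apply Polynomial.coeff_eq_zero_of_degree_lt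
        refine lt_of_le_of_lt hdeg' ?_
        exact_mod_cast hn
      have hc3 := hco 3 (by norm_num)
      have hc1 := hco 1 (by norm_num)
      have irr : ∀ a b : ℤ, (a : ℝ) + b * α = 0 → b = 0 := by
        intro a b hab
        by_contra hb
        have hbR : (b : ℝ) ≠ 0 := by exact_mod_cast hb
        apply hα
        refine ⟨-a / b, ?_⟩
        push_cast
        rw [div_eq_iff hbR]
        linarith
      -- coefficients of the pieces
      have p3 : ∀ k : ℕ, (pc k).coeff 3 = if k = 0 then 1 else 0 := by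
        intro k; unfold pc; split_ifs with h1 h2
        · simp
        · simp
        · simp
      have p1 : ∀ k : ℕ, (pc k).coeff 1 = if k = 1 then 3 / 2 else 0 := by
        intro k; unfold pc
        by_cases h1 : k = 0
        · subst h1; simp
        · by_cases h2 : k = 1
          · subst h2; simp
          · simp [h1, h2]
      have q3 : ∀ k : ℕ, (pe k).coeff 3 = 0 := by
        intro k; unfold pe; split_ifs
        · simp [coeff_X_pow]
        · simp [coeff_one]
        · simp
      have q1 : ∀ k : ℕ, (pe k).coeff 1 = 0 := by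
        intro k; unfold pe; split_ifs
        · simp [coeff_X_pow]
        · simp [coeff_one]
        · simp
      simp only [hW, coeff_add, coeff_C_mul, p3, q3, add_zero] at hc3
      simp only [hW, coeff_add, coeff_C_mul, p1, q1, add_zero] at hc1
      have hc10 : c 1 ≠ 0 → m 1 ≠ 0 ∧ m 1 ≠ 1 := by
        intro hne
        constructor
        · intro h0
          rw [h0] at hc3
          refine hne (irr (if m 0 = 0 then c 0 else 0) (c 1) ?_)
          rw [if_pos rfl] at hc3
          by_cases h5 : m 0 = 0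
          · rw [if_pos h5] at hc3 ⊢
            linarith
          · rw [if_neg h5] at hc3 ⊢
            push_cast
            linarith
        · intro h1'
          rw [h1'] at hc1
          refine hne (irr (if m 0 = 1 then c 0 else 0) (c 1) ?_)
          rw [if_pos rfl] at hc1
          by_cases h5 : m 0 = 1
          · rw [if_pos h5] at hc1 ⊢
            linarith
          · rw [if_neg h5] at hc1 ⊢
            push_cast
            linarith
      have hpe : (c 1 : ℝ) = 0 ∨ (pe (m 1) = 0 ∧ pc (m 1) = 0) := by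
        by_cases hne : c 1 = 0
        · left; exact_mod_cast hne
        · right
          obtain ⟨h1, h2⟩ := hc10 hne
          constructor
          · simp [pe, h1, h2]
          · simp [pc, h1, h2]
      have h10 : (c 0 : ℝ) = 0 ∨ pc (m 0) = 0 := by
        by_cases hne : (c 0 : ℝ) = 0
        · left; exact hne
        · right
          have r3 : (c 1 : ℝ) * (α * if m 1 = 0 then 1 else 0) = 0 := by
            rcases hpe with h | h
            · rw [h, zero_mul]
            · have : m 1 ≠ 0 := by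
                intro h0
                have := h.1
                rw [h0] at this
                simp [pe] at this
              simp [this]
          have r1 : (c 1 : ℝ) * (α * if m 1 = 1 then 3 / 2 else 0) = 0 := by
            rcases hpe with h | h
            · rw [h, zero_mul]
            · have : m 1 ≠ 1 := by
                intro h0
                have := h.1
                rw [h0] at this
                simp [pe] at this
              simp [this]
          rw [r3, add_zero] at hc3
          rw [r1, add_zero] at hc1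
          have s1 : m 0 ≠ 0 := by
            intro h0; rw [if_pos h0, mul_one] at hc3; exact hne hc3
          have s2 : m 0 ≠ 1 := by
            intro h0; rw [if_pos h0] at hc1
            rcases mul_eq_zero.1 hc1 with h | h
            · exact hne h
            · norm_num at h
          simp [pc, s1, s2]
      rw [hW]
      rcases h10 with h | h <;> rcases hpe with h' | h' <;> simp [h, h']
    rw [hW0] at hlim
    simp only [eval_zero, sub_zero] at hlim
    have := hlim.abs
    rwa [abs_zero] at this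

end Pool.Agent.X85.HF
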