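import Pool.Agent.X85.KhC

set_option autoImplicit false
open MeasureTheory Filter Topology Set
open scoped ENNReal

namespace Pool.Agent.X85.Kh

/-- `λ_1, λ_2, …` is an `L^p`-Khintchin sequence -/
def LpKhintchin (p : ℝ≥0∞) (lam : ℕ → ℕ) : Prop :=
  ∀ f : UnitAddCircle → ℝ, MemLp f p volume →
    ∀ᵐ x : UnitAddCircle, Tendsto (fun N : ℕ => (1 / (N : ℝ)) * ∑ n ∈ Finset.Icc 1 N, f (lam n • x))
      atTop (𝓝 (∫ x, f x))

section baire

variable {α : Type} [TopologicalSpace α] [DiscreteTopology α] (val : α → ℕ)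

/-- partial products -/
def PP (ω : ℕ → α) (n : ℕ) : ℕ := ∏ i ∈ Finset.range n, val (ω i)

open Classical in
/-- number of hits of the product sequence -/
noncomputable def cnt (ω : ℕ → α) (A : Set UnitAddCircle) (n : ℕ) (x : UnitAddCircle) : ℕ :=
  ((Finset.Icc 1 n).filter fun i => PP val ω i • x ∈ A).card

/-- the property of the open sets -/
def UU (k : ℕ) : Set (ℕ → α) :=
  {ω | ∃ (A : Set UnitAddCircle) (N : ℕ), MeasurableSet A ∧ vol.real A ≤ (1 / 2) ^ k ∧
    vol.real {x | ¬ ∃ n, k ≤ n ∧ 1 ≤ n ∧ n ≤ N ∧ (1 - (1 / 2 : ℝ) ^ k) * n ≤ cnt val ω A n x} ≤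
      (1 / 2) ^ k}

omit [TopologicalSpace α] [DiscreteTopology α] in
lemma PP_congr {ω ω' : ℕ → α} {N : ℕ} (h : ∀ i < N, ω i = ω' i) {n : ℕ} (hn : n ≤ N) :
    PP val ω n = PP val ω' n := by
  unfold PP
  refine Finset.prod_congr rfl fun i hi => ?_
  rw [h i (lt_of_lt_of_le (Finset.mem_range.1 hi) hn)]

omit [TopologicalSpace α] [DiscreteTopology α] in
lemma cnt_congr {ω ω' : ℕ → α} {N : ℕ} (h : ∀ i < N, ω i = ω' i) {n : ℕ} (hn : n ≤ N)
    (A : Set UnitAddCircle) (x : UnitAddCircle) : cnt val ω A n x = cnt val ω' A n x := by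
  classical
  unfold cnt
  congr 1
  refine Finset.filter_congr fun i hi => ?_
  rw [PP_congr val h ((Finset.mem_Icc.1 hi).2.trans hn)]

lemma cyl_open (ω : ℕ → α) (N : ℕ) : IsOpen {ω' : ℕ → α | ∀ i < N, ω i = ω' i} := by
  have : {ω' : ℕ → α | ∀ i < N, ω i = ω' i} = ⋂ i ∈ Finset.range N, {ω' : ℕ → α | ω' i = ω i} := by
    ext ω'
    simp [eq_comm]
  rw [this]
  refine isOpen_biInter_finset fun i _ => ?_
  exact (isOpen_discrete ({ω i} : Set α)).preimage
    (continuous_apply i : Continuous fun ω' : ℕ → α => ω' i)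

lemma UU_open (k : ℕ) : IsOpen (UU val k) := by
  rw [isOpen_iff_mem_nhds]
  rintro ω ⟨A, N, hA, hA2, hx⟩
  refine mem_of_superset ((cyl_open ω N).mem_nhds (fun i _ => rfl)) ?_
  intro ω' hω'
  refine ⟨A, N, hA, hA2, ?_⟩
  refine le_trans (measureReal_mono ?_ (measure_ne_top _ _)) hx
  intro x hx' hx2
  apply hx'
  obtain ⟨n, h1, h2, h3, h4⟩ := hx2
  exact ⟨n, h1, h2, h3, by rwa [← cnt_congr val hω' h3]⟩

omit [DiscreteTopology α] in
lemma UU_dense (a2 a3 : α) (h2 : val a2 = 2) (h3 : val a3 = 3) (hval : ∀ a, 0 < val a) (k : ℕ) :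
    Dense (UU val k) := by
  classical
  intro ω
  rw [mem_closure_iff_nhds]
  intro V hV
  -- a cylinder contained in `V`
  obtain ⟨M, hM⟩ : ∃ M : ℕ, {ω' : ℕ → α | ∀ i < M, ω i = ω' i} ⊆ V := by
    rw [nhds_pi, Filter.mem_pi] at hV
    obtain ⟨I, hI, t, ht, hsub⟩ := hV
    obtain ⟨M, hM⟩ := hI.bddAbove
    refine ⟨M + 1, fun ω' hω' => hsub fun i hi => ?_⟩
    have h1 : i < M + 1 := Nat.lt_succ_iff.2 (hM hi)
    rw [← hω' i h1]
    exact mem_of_mem_nhds (ht i)
  set n0 : ℕ := max M k with hn0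
  obtain ⟨w, A, hw, hA, hA2, hbad⟩ := core k n0
  -- the new sequence
  set g : ℕ → α := fun m => if m = 3 then a3 else a2 with hg
  set ω' : ℕ → α := fun i => if i < n0 then ω i else g (w.getD (i - n0) 2) with hω'
  refine ⟨ω', hM fun i hi => ?_, A, n0 + w.length, hA, hA2, ?_⟩
  · have : i < n0 := lt_of_lt_of_le hi (le_max_left _ _)
    simp only [hω', if_pos this]
  · -- products
    have hP0 : 0 < PP val ω n0 := Finset.prod_pos fun i _ => hval _
    have hprod : ∀ i ≤ w.length, PP val ω' (n0 + i) = PP val ω n0 * (w.take i).prod := by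
      intro i hi
      induction i with
      | zero =>
        simp only [add_zero, List.take_zero, List.prod_nil, mul_one]
        refine PP_congr val (N := n0) (fun j hj => ?_) le_rfl
        simp only [hω', if_pos hj]
      | succ i ih =>
        have h4 : i < w.length := hi
        have h5 : PP val ω' (n0 + (i + 1)) = PP val ω' (n0 + i) * val (ω' (n0 + i)) := by
          unfold PP
          rw [← add_assoc, Finset.prod_range_succ]
        rw [h5, ih (by omega), List.prod_take_succ _ _ h4, mul_assoc]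
        congr 2
        simp only [hω', if_neg (by omega : ¬ n0 + i < n0), add_tsub_cancel_left]
        rw [List.getD_eq_getElem _ _ h4]
        rcases hw _ (List.getElem_mem h4) with h6 | h6
        · rw [h6]; simp only [hg]; rw [if_neg (by norm_num), h2]
        · rw [h6]; simp only [hg, if_true]; rw [h3]
    -- compare the bad sets
    set P : ℕ := PP val ω n0 with hP
    set B : Set UnitAddCircle := {y | ¬ ∃ i ≤ w.length, 1 ≤ i ∧
      (1 - (1 / 2 : ℝ) ^ k) * ((n0 : ℝ) + i) ≤ hits w A i y} with hB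
    have hsub : {x | ¬ ∃ n, k ≤ n ∧ 1 ≤ n ∧ n ≤ n0 + w.length ∧
        (1 - (1 / 2 : ℝ) ^ k) * n ≤ cnt val ω' A n x} ⊆ (fun x => P • x) ⁻¹' B := by
      intro x hx
      rw [mem_preimage, hB, mem_ofPred_eq]
      rintro ⟨i, hi, hi1, hh⟩
      apply hx
      refine ⟨n0 + i, (le_max_right M k).trans (Nat.le_add_right _ _), by omega, by omega, ?_⟩
      push_cast
      refine hh.trans ?_
      norm_cast
      unfold hits cnt
      refine Finset.card_le_card_of_injOn (fun i' => n0 + i') ?_ ?_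
      · intro i' hi'
        have hi'' := Finset.mem_filter.1 hi'
        rw [Finset.mem_Icc] at hi''
        simp only [Finset.coe_filter, Finset.mem_Icc, mem_ofPred_eq]
        refine ⟨⟨by omega, by omega⟩, ?_⟩
        rw [hprod i' (by omega), mul_comm, mul_smul]
        exact hi''.2
      · intro a _ a' _ h
        simpa using h
    -- measurability of `B`
    have hBm : MeasurableSet B := by
      have h7 : ∀ i : ℕ, Measurable fun y : UnitAddCircle => (hits w A i y : ℝ) := by
        intro i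
        have : (fun y : UnitAddCircle => (hits w A i y : ℝ)) = fun y =>
            ∑ i' ∈ Finset.Icc 1 i, A.indicator (fun _ => (1 : ℝ)) ((w.take i').prod • y) := by
          funext y
          unfold hits
          rw [Finset.card_filter]
          push_cast
          refine Finset.sum_congr rfl fun i' _ => ?_
          by_cases h : (w.take i').prod • y ∈ A
          · rw [if_pos h, indicator_of_mem h]
          · rw [if_neg h, indicator_of_notMem h]
        rw [this]
        exact Finset.measurable_fun_sum _ fun i' _ =>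
          (measurable_const.indicator hA).comp (continuous_nsmul _).measurable
      have h8 : B = (⋃ i ∈ {i : ℕ | i ≤ w.length ∧ 1 ≤ i},
          {y : UnitAddCircle | (1 - (1 / 2 : ℝ) ^ k) * ((n0 : ℝ) + i) ≤ hits w A i y})ᶜ := by
        ext y
        simp only [hB, mem_ofPred_eq, mem_compl_iff, mem_iUnion, not_exists, exists_prop]
        constructor
        · rintro h i ⟨hi, hh⟩
          exact h i ⟨hi.1, hi.2, hh⟩
        · rintro h i ⟨hi, hi1, hh⟩
          exact h i ⟨⟨hi, hi1⟩, hh⟩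
      rw [h8]
      refine (MeasurableSet.biUnion (Set.to_countable _) fun i _ => ?_).compl
      exact measurableSet_le measurable_const (h7 i)
    refine (measureReal_mono hsub (measure_ne_top _ _)).trans ?_
    rw [Measure.real, (mp_nsmul P hP0).measure_preimage hBm.nullMeasurableSet]
    exact hbad

/-- **Main theorem.** -/
theorem meagre (a2 a3 : α) (h2 : val a2 = 2) (h3 : val a3 = 3) (hval : ∀ a, 0 < val a)
    (p : ℝ≥0∞) : IsMeagre {ω : ℕ → α | LpKhintchin p (PP val ω)} := by
  classical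
  have hres : (⋂ k : ℕ, UU val k) ∈ residual (ℕ → α) :=
    countable_iInter_mem.2 fun k => residual_of_dense_open (UU_open val k)
      (UU_dense val a2 a3 h2 h3 hval k)
  refine mem_of_superset hres ?_
  intro ω hω
  rw [mem_compl_iff]
  intro hK
  rw [mem_iInter] at hω
  choose A N hA hA2 hbad using hω
  -- the set
  set S : Set UnitAddCircle := ⋃ k : ℕ, A (k + 3) with hS
  have hSm : MeasurableSet S := MeasurableSet.iUnion fun k => hA _
  have hSv : vol.real S ≤ 1 / 4 := by
    have h1 : vol S ≤ ∑' k : ℕ, vol (A (k + 3)) := measure_iUnion_le _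
    have h2 : ∑' k : ℕ, vol (A (k + 3)) ≤ ∑' k : ℕ, ENNReal.ofReal ((1 / 2) ^ (k + 3)) := by
      refine ENNReal.tsum_le_tsum fun k => ?_
      rw [← ofReal_measureReal]
      exact ENNReal.ofReal_le_ofReal (hA2 _)
    have h3 : ∑' k : ℕ, ENNReal.ofReal ((1 / 2) ^ (k + 3)) = ENNReal.ofReal (1 / 4) := by
      have hs : HasSum (fun k : ℕ => (1 / 2 : ℝ) ^ (k + 3)) (1 / 4) := by
        have := (hasSum_geometric_two).mul_left ((1 / 2 : ℝ) ^ 3)
        have e : (1 / 2 : ℝ) ^ 3 * 2 = 1 / 4 := by norm_num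
        rw [e] at this
        refine this.congr_fun fun k => ?_
        rw [pow_add]; ring
      rw [← ENNReal.ofReal_tsum_of_nonneg (fun k => by positivity) hs.summable, hs.tsum_eq]
    have h4 : vol S ≤ ENNReal.ofReal (1 / 4) := h1.trans (h2.trans h3.le)
    rw [Measure.real]
    exact ENNReal.toReal_le_of_le_ofReal (by norm_num) h4
  -- almost every point is eventually good
  set B : ℕ → Set UnitAddCircle := fun k => {x | ¬ ∃ n, k ≤ n ∧ 1 ≤ n ∧ n ≤ N k ∧
    (1 - (1 / 2 : ℝ) ^ k) * n ≤ cnt val ω (A k) n x} with hB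
  have hBC : ∀ᵐ x ∂vol, ∀ᶠ k in atTop, x ∉ B k := by
    refine ae_eventually_notMem ?_
    have h1 : ∑' k : ℕ, vol (B k) ≤ ∑' k : ℕ, ENNReal.ofReal ((1 / 2) ^ k) := by
      refine ENNReal.tsum_le_tsum fun k => ?_
      rw [← ofReal_measureReal]
      exact ENNReal.ofReal_le_ofReal (hbad k)
    refine (lt_of_le_of_lt h1 ?_).ne
    have hs := summable_geometric_two
    rw [← ENNReal.ofReal_tsum_of_nonneg (fun k => by positivity) hs]
    exact ENNReal.ofReal_lt_top
  -- the test function
  set f : UnitAddCircle → ℝ := S.indicator (fun _ => (1 : ℝ)) with hf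
  have hfm : MemLp f p vol := by
    have hm : Measurable f := measurable_const.indicator hSm
    refine MemLp.of_bound hm.aestronglyMeasurable 1 (Eventually.of_forall fun x => ?_)
    by_cases h : x ∈ S
    · simp only [hf, indicator_of_mem h]; simp
    · simp only [hf, indicator_of_notMem h]; simp
  have hint : ∫ x, f x ∂vol = vol.real S := by
    rw [hf, integral_indicator_const _ hSm]; simp
  have hconv := hK f hfm
  obtain ⟨x, hx1, hx2⟩ := (hconv.and hBC).exists
  have hlim : ∀ᶠ n : ℕ in atTop, (1 / (n : ℝ)) * ∑ i ∈ Finset.Icc 1 n, f (PP val ω i • x) < 1 / 2 := by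
    refine hx1.eventually_lt_const ?_
    change ∫ x, f x ∂vol < 1 / 2
    rw [hint]
    linarith
  obtain ⟨n1, hn1⟩ := eventually_atTop.1 hlim
  obtain ⟨k1, hk1⟩ := eventually_atTop.1 hx2
  set k : ℕ := max (max n1 k1) 3 with hk
  have hkB : x ∉ B k := hk1 k ((le_max_right n1 k1).trans (le_max_left _ _))
  have hkB' : ∃ n, k ≤ n ∧ 1 ≤ n ∧ n ≤ N k ∧
    (1 - (1 / 2 : ℝ) ^ k) * n ≤ cnt val ω (A k) n x := not_not.1 hkB
  obtain ⟨n, hn, hn0, _, hcnt⟩ := hkB'
  have hlt := hn1 n ((le_max_left n1 k1).trans ((le_max_left _ 3).trans hn))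
  have hnR : (0 : ℝ) < n := by exact_mod_cast hn0
  have hAS : A k ⊆ S := by
    have h3 : 3 ≤ k := le_max_right _ _
    have : k = (k - 3) + 3 := by omega
    rw [this]
    exact subset_iUnion (fun k => A (k + 3)) (k - 3)
  have hge : (cnt val ω (A k) n x : ℝ) ≤ ∑ i ∈ Finset.Icc 1 n, f (PP val ω i • x) := by
    unfold cnt
    rw [Finset.card_filter]
    push_cast
    refine Finset.sum_le_sum fun i _ => ?_
    by_cases h : PP val ω i • x ∈ A k
    · rw [if_pos h]; simp only [hf, indicator_of_mem (hAS h)]; exact le_rfl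
    · rw [if_neg h]; exact indicator_nonneg (fun _ _ => zero_le_one) _
  have hhalf : (1 / 2 : ℝ) ≤ 1 - (1 / 2) ^ k := by
    have : (1 / 2 : ℝ) ^ k ≤ (1 / 2) ^ 1 :=
      pow_le_pow_of_le_one (by norm_num) (by norm_num) ((by norm_num : 1 ≤ 3).trans (le_max_right _ _))
    linarith
  have h5 : (1 / 2 : ℝ) * n ≤ ∑ i ∈ Finset.Icc 1 n, f (PP val ω i • x) :=
    (mul_le_mul_of_nonneg_right hhalf hnR.le).trans (hcnt.trans hge)
  rw [one_div, inv_mul_lt_iff₀ hnR] at hlt
  linarith

end baire

end Pool.Agent.X85.Kh
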