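import Pool.Agent.X85.Bern

/-! The system for the question on under-recurrent functions and sets. -/

set_option autoImplicit false
open MeasureTheory Filter Topology ProbabilityTheory Set
open scoped ENNReal symmDiff

namespace Pool.Agent.X85.UR

open Pool.Agent.X85.Bern

instance instProbCircle : IsProbabilityMeasure (volume : Measure UnitAddCircle) :=
  ⟨by rw [AddCircle.measure_univ, ENNReal.ofReal_one]⟩

/-- sequences in the circle -/
abbrev Om : Type := ℤ → UnitAddCircle

/-- the product of the Haar measures -/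
noncomputable abbrev Q : Measure Om := P (volume : Measure UnitAddCircle)

/-- translation of all coordinates -/
def rot (t : UnitAddCircle) (ω : Om) : Om := fun i => ω i + t

lemma rot_rot (s t : UnitAddCircle) (ω : Om) : rot s (rot t ω) = rot (s + t) ω := by
  funext i; simp only [rot]; rw [add_assoc, add_comm t s]

lemma rot_zero (ω : Om) : rot 0 ω = ω := by funext i; simp [rot]

lemma measurable_rot (t : UnitAddCircle) : Measurable (rot t) :=
  measurable_pi_lambda _ fun i =>
    ((measurable_pi_apply i : Measurable fun ω : Om => ω i).add_const t :)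

lemma mp_rot (t : UnitAddCircle) : MeasurePreserving (rot t) Q Q := by
  classical
  refine ⟨measurable_rot t, ?_⟩
  unfold Q P
  apply Measure.eq_infinitePi
  intro s u hu
  rw [Measure.map_apply (measurable_rot t) (MeasurableSet.pi s.countable_toSet fun i _ => hu i)]
  have e : (rot t) ⁻¹' (Set.pi s u) = Set.pi s (fun i => (fun y => y + t) ⁻¹' u i) := rfl
  rw [e, Measure.infinitePi_pi]
  · refine Finset.prod_congr rfl (fun i _ => ?_)
    exact (measurePreserving_add_right (volume : Measure UnitAddCircle) t).measure_preimage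
      (hu i).nullMeasurableSet
  · intro i _
    exact (measurable_id.add_const t) (hu i)

/-- the rotation number -/
noncomputable def al : UnitAddCircle := ((Real.sqrt 2 : ℝ) : UnitAddCircle)

lemma al_free (n : ℕ) (hn : 1 ≤ n) : n • al ≠ 0 := by
  intro h
  have h1 : ((n * Real.sqrt 2 : ℝ) : UnitAddCircle) = 0 := by
    rw [← h, al, ← AddCircle.coe_nsmul, nsmul_eq_mul]
  obtain ⟨k, hk⟩ := (AddCircle.coe_eq_zero_iff (1 : ℝ)).1 h1
  have hirr : Irrational (n * Real.sqrt 2) := irrational_sqrt_two.natCast_mul (by omega)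
  apply hirr
  refine ⟨k, ?_⟩
  rw [← hk]; simp

lemma exists_times : ∃ φ : ℕ → ℕ, StrictMono φ ∧ Tendsto (fun k => φ k • al) atTop (𝓝 0) := by
  have hfreq : ∀ k : ℕ, ∃ᶠ n : ℕ in atTop, ‖n • al‖ < 1 / ((k : ℝ) + 1) := by
    intro k
    rw [frequently_atTop]
    intro N
    obtain ⟨j, hj0, _, hj⟩ := Real.exists_nat_abs_mul_sub_round_le
      (((N + 1 : ℕ) : ℝ) * Real.sqrt 2) (n := k + 1) (by omega)
    refine ⟨j * (N + 1), by nlinarith, ?_⟩
    have e : (j * (N + 1)) • al = (((j : ℝ) * (((N + 1 : ℕ) : ℝ) * Real.sqrt 2) : ℝ) :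
        UnitAddCircle) := by
      rw [al, ← AddCircle.coe_nsmul, nsmul_eq_mul]
      congr 1
      push_cast; ring
    rw [e, UnitAddCircle.norm_eq]
    refine lt_of_le_of_lt hj ?_
    push_cast
    apply one_div_lt_one_div_of_lt (by positivity)
    linarith
  obtain ⟨φ, hφ, hφ2⟩ := extraction_forall_of_frequently hfreq
  refine ⟨φ, hφ, ?_⟩
  rw [tendsto_zero_iff_norm_tendsto_zero]
  exact squeeze_zero (fun _ => norm_nonneg _) (fun k => (hφ2 k).le)
    tendsto_one_div_add_atTop_nhds_zero_nat

/-- the translations as a continuous family of continuous maps -/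
noncomputable def rotC : C(UnitAddCircle, C(Om, Om)) :=
  ContinuousMap.curry ⟨fun p : UnitAddCircle × Om => fun i => p.2 i + p.1, by fun_prop⟩

lemma rotC_apply (t : UnitAddCircle) : (rotC t : Om → Om) = rot t := rfl

lemma rigid {A : Set Om} (hA : MeasurableSet A) {φ : ℕ → ℕ}
    (hφ : Tendsto (fun k => φ k • al) atTop (𝓝 0)) :
    Tendsto (fun k => Q.real (A ∩ rot (φ k • al) ⁻¹' A)) atTop (𝓝 (Q.real A)) := by
  have h1 : Tendsto (fun k => rotC (φ k • al)) atTop (𝓝 (rotC 0)) :=
    (rotC.continuous.tendsto 0).comp hφ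
  have h2 := tendsto_measure_symmDiff_preimage_nhds_zero (μ := Q) (ν := Q) (s := A) h1
    (Eventually.of_forall fun k => by rw [rotC_apply]; exact mp_rot _)
    (by rw [rotC_apply]; exact mp_rot _) hA.nullMeasurableSet (measure_ne_top _ _)
  have h3 : Tendsto (fun k => Q.real (((rotC (φ k • al) : Om → Om) ⁻¹' A) ∆ ((rotC 0 : Om → Om) ⁻¹' A))) atTop (𝓝 0) := by
    have := (ENNReal.tendsto_toReal ENNReal.zero_ne_top).comp h2
    simpa [Measure.real, Function.comp_def] using this
  rw [tendsto_iff_norm_sub_tendsto_zero]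
  refine squeeze_zero (fun _ => norm_nonneg _) (fun k => ?_) h3
  rw [Real.norm_eq_abs]
  refine (real_sub_le _ _ _).trans (measureReal_mono ?_ (measure_ne_top _ _))
  have e0 : (rotC 0 : Om → Om) ⁻¹' A = A := by
    rw [rotC_apply]; ext ω; simp [rot_zero]
  rw [e0, rotC_apply]
  intro x hx
  rcases hx with ⟨⟨h1, h2⟩, h3⟩ | ⟨h1, h2⟩
  · exact absurd h1 h3
  · by_cases h4 : x ∈ rot (φ k • al) ⁻¹' A
    · exact absurd ⟨h1, h4⟩ h2
    · exact Or.inr ⟨h1, h4⟩

/-! ### the system -/

/-- the space -/
abbrev XX : Type := Bool × Om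

/-- the measure -/
noncomputable def mu : Measure XX :=
  (2 : ℝ≥0∞)⁻¹ • (Q.map (Prod.mk true) + Q.map (Prod.mk false))

lemma mk_meas (b : Bool) : Measurable (Prod.mk b : Om → XX) := measurable_prodMk_left

instance : IsProbabilityMeasure mu := by
  constructor
  rw [mu, Measure.smul_apply, Measure.add_apply, Measure.map_apply (mk_meas _) .univ,
    Measure.map_apply (mk_meas _) .univ, Set.preimage_univ, Set.preimage_univ, measure_univ,
    smul_eq_mul]
  rw [show (1 : ℝ≥0∞) + 1 = 2 by norm_num]
  exact ENNReal.inv_mul_cancel (by norm_num) (by norm_num)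

lemma mu_apply {A : Set XX} (hA : MeasurableSet A) :
    mu A = (2 : ℝ≥0∞)⁻¹ * (Q (Prod.mk true ⁻¹' A) + Q (Prod.mk false ⁻¹' A)) := by
  rw [mu, Measure.smul_apply, Measure.add_apply, Measure.map_apply (mk_meas _) hA,
    Measure.map_apply (mk_meas _) hA, smul_eq_mul]

lemma mu_real {A : Set XX} (hA : MeasurableSet A) :
    mu.real A = (Q.real (Prod.mk true ⁻¹' A) + Q.real (Prod.mk false ⁻¹' A)) / 2 := by
  rw [Measure.real, mu_apply hA, ENNReal.toReal_mul, ENNReal.toReal_add (measure_ne_top _ _)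
    (measure_ne_top _ _)]
  simp only [ENNReal.toReal_inv, ENNReal.toReal_ofNat, Measure.real]
  ring

lemma integral_mu {f : XX → ℝ} (hf : Measurable f) (hb : ∀ x, |f x| ≤ 1) :
    ∫ x, f x ∂mu = ((∫ ω, f (true, ω) ∂Q) + ∫ ω, f (false, ω) ∂Q) / 2 := by
  have hint : ∀ ρ : Measure XX, IsFiniteMeasure ρ → Integrable f ρ := fun ρ _ =>
    Integrable.of_bound hf.aestronglyMeasurable 1 (Eventually.of_forall hb)
  rw [mu, integral_smul_measure, integral_add_measure (hint _ inferInstance) (hint _ inferInstance),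
    integral_map (mk_meas _).aemeasurable hf.aestronglyMeasurable,
    integral_map (mk_meas _).aemeasurable hf.aestronglyMeasurable]
  simp only [ENNReal.toReal_inv, ENNReal.toReal_ofNat, smul_eq_mul]
  ring

/-- the map on the fibres -/
noncomputable def fib (n : ℤ) : Bool → Om → Om
  | true => rot (n • al)
  | false => sh n

lemma fib_fib (m n : ℤ) (b : Bool) (ω : Om) : fib m b (fib n b ω) = fib (m + n) b ω := by
  cases b
  · exact sh_sh m n ω
  · show rot (m • al) (rot (n • al) ω) = rot ((m + n) • al) ω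
    rw [rot_rot, add_zsmul]

lemma fib_zero (b : Bool) (ω : Om) : fib 0 b ω = ω := by
  cases b
  · exact sh_zero ω
  · show rot ((0 : ℤ) • al) ω = ω
    rw [zero_zsmul, rot_zero]

lemma mp_fib (n : ℤ) (b : Bool) : MeasurePreserving (fib n b) Q Q := by
  cases b
  · exact mp_sh _ n
  · exact mp_rot _

/-- the system: a rotation on one half of the space and a Bernoulli shift on the other -/
noncomputable def TT : XX ≃ᵐ XX where
  toFun p := (p.1, fib 1 p.1 p.2)
  invFun p := (p.1, fib (-1) p.1 p.2)
  left_inv p := by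
    refine Prod.ext rfl ?_
    show fib (-1) p.1 (fib 1 p.1 p.2) = p.2
    rw [fib_fib]; exact fib_zero _ _
  right_inv p := by
    refine Prod.ext rfl ?_
    show fib 1 p.1 (fib (-1) p.1 p.2) = p.2
    rw [fib_fib]; exact fib_zero _ _
  measurable_toFun := by
    refine measurable_fst.prodMk ?_
    exact measurable_from_prod_countable_right fun b => (mp_fib 1 b).measurable
  measurable_invFun := by
    refine measurable_fst.prodMk ?_
    exact measurable_from_prod_countable_right fun b => (mp_fib (-1) b).measurable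

lemma iter (n : ℕ) (b : Bool) (ω : Om) : TT^[n] (b, ω) = (b, fib n b ω) := by
  induction n with
  | zero => simp [fib_zero]
  | succ n ih =>
    rw [Function.iterate_succ_apply', ih]
    show (b, fib 1 b (fib n b ω)) = _
    rw [fib_fib]
    congr 2
    push_cast; ring

lemma pre_iter (n : ℕ) (b : Bool) (A : Set XX) :
    Prod.mk b ⁻¹' (TT^[n] ⁻¹' A) = fib n b ⁻¹' (Prod.mk b ⁻¹' A) := by
  ext ω
  simp only [mem_preimage, iter]

lemma mp_TT : MeasurePreserving TT mu mu := by
  refine ⟨TT.measurable, ?_⟩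
  ext A hA
  rw [Measure.map_apply TT.measurable hA, mu_apply hA, mu_apply (TT.measurable hA)]
  have h : ∀ b : Bool, Q (Prod.mk b ⁻¹' (TT ⁻¹' A)) = Q (Prod.mk b ⁻¹' A) := by
    intro b
    have := pre_iter 1 b A
    rw [Function.iterate_one] at this
    rw [this]
    exact (mp_fib _ b).measure_preimage (mk_meas b hA).nullMeasurableSet
  rw [h, h]

lemma Q_atom (ω : Om) : Q {ω} = 0 := by
  have h1 : Q ((fun ω : Om => ω 0) ⁻¹' {ω 0}) = 0 := by
    rw [← Measure.map_apply (measurable_pi_apply 0) (measurableSet_singleton _), map_eval]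
    have h3 := AddCircle.volume_closedBall (1 : ℝ) (x := ω 0) 0
    rw [Metric.closedBall_zero] at h3
    rw [h3]
    simp
  refine measure_mono_null ?_ h1
  rintro _ rfl
  rfl

lemma mu_atom (x : XX) : mu {x} = 0 := by
  rw [mu_apply (measurableSet_singleton x)]
  have h : ∀ b : Bool, Q (Prod.mk b ⁻¹' ({x} : Set XX)) = 0 := by
    intro b
    refine measure_mono_null ?_ (Q_atom x.2)
    intro ω hω
    have : (b, ω) = x := hω
    rw [← this]
    rfl
  rw [h, h]; simp

/-- half of the circle -/
def half : Set UnitAddCircle := Metric.closedBall 0 (1 / 4)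

lemma half_meas : MeasurableSet half := measurableSet_closedBall

lemma vol_half : (volume : Measure UnitAddCircle).real half = 1 / 2 := by
  rw [Measure.real, half, AddCircle.volume_closedBall]
  rw [ENNReal.toReal_ofReal (by positivity)]
  norm_num

/-- the event that the coordinate at zero is in the half circle -/
def HH : Set Om := (fun ω : Om => ω 0) ⁻¹' half

lemma HH_meas : MeasurableSet HH := measurable_pi_apply 0 half_meas

lemma Q_HH : Q.real HH = 1 / 2 := by
  rw [← vol_half, Measure.real, Measure.real, HH,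
    ← Measure.map_apply (measurable_pi_apply 0) half_meas, map_eval]

lemma Q_HH_shift (n : ℤ) (hn : n ≠ 0) : Q.real (HH ∩ sh n ⁻¹' HH) = 1 / 4 := by
  have hind := (iIndep (volume : Measure UnitAddCircle)).indepFun hn.symm
  have h := hind.measure_inter_preimage_eq_mul half half half_meas half_meas
  have e : sh n ⁻¹' HH = (fun ω : Om => ω n) ⁻¹' half := by
    ext ω
    simp [HH, sh]
  have h2 : Q ((fun ω : Om => ω n) ⁻¹' half) = Q HH := by
    rw [← e]
    exact (mp_sh _ n).measure_preimage HH_meas.nullMeasurableSet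
  rw [e, Measure.real]
  have h3 : Q (HH ∩ (fun ω : Om => ω n) ⁻¹' half) = Q HH * Q HH := by
    rw [← h2]
    exact (by simpa [HH, h2] using h)
  rw [h3, ENNReal.toReal_mul]
  have := Q_HH
  rw [Measure.real] at this
  rw [this]; norm_num

/-- the under-recurrent function -/
noncomputable def ff (x : XX) : ℝ :=
  if x.1 = true then 1 / 2 else HH.indicator (fun _ => 1) x.2

lemma ff_true (ω : Om) : ff (true, ω) = 1 / 2 := by simp [ff]
lemma ff_false (ω : Om) : ff (false, ω) = HH.indicator (fun _ => (1 : ℝ)) ω := by simp [ff]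

lemma ff_meas : Measurable ff :=
  measurable_from_prod_countable_right fun b => by
    cases b
    · simp only [ff_false]; exact measurable_const.indicator HH_meas
    · simp only [ff_true]; exact measurable_const

lemma ff_nonneg (x : XX) : 0 ≤ ff x := by
  obtain ⟨b, ω⟩ := x
  cases b
  · rw [ff_false]; exact indicator_nonneg (fun _ _ => zero_le_one) _
  · rw [ff_true]; norm_num

lemma ff_le (x : XX) : ff x ≤ 1 := by
  obtain ⟨b, ω⟩ := x
  cases b
  · rw [ff_false]; exact indicator_le_self' (fun _ _ => zero_le_one) _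
  · rw [ff_true]; norm_num

lemma ff_int : ∫ x, ff x ∂mu = 1 / 2 := by
  rw [integral_mu ff_meas fun x => by rw [abs_of_nonneg (ff_nonneg x)]; exact ff_le x]
  simp only [ff_true, ff_false]
  rw [integral_indicator_const _ HH_meas, Q_HH]
  simp

lemma ff_corr (n : ℕ) (hn : 1 ≤ n) : ∫ x, ff x * ff (TT^[n] x) ∂mu = 1 / 4 := by
  have hm : Measurable fun x => ff x * ff (TT^[n] x) :=
    ff_meas.mul (ff_meas.comp (TT.measurable.iterate n))
  rw [integral_mu hm fun x => by
    rw [abs_of_nonneg (mul_nonneg (ff_nonneg _) (ff_nonneg _))]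
    exact mul_le_one₀ (ff_le _) (ff_nonneg _) (ff_le _)]
  have h1 : ∀ ω : Om, ff (true, ω) * ff (TT^[n] (true, ω)) = 1 / 4 := by
    intro ω; rw [iter, ff_true, ff_true]; norm_num
  have h2 : ∀ ω : Om, ff (false, ω) * ff (TT^[n] (false, ω)) =
      (HH ∩ sh n ⁻¹' HH).indicator (fun _ => (1 : ℝ)) ω := by
    intro ω
    rw [iter, ff_false, ff_false]
    by_cases h3 : ω ∈ HH
    · by_cases h4 : fib n false ω ∈ HH
      · have h5 : ω ∈ HH ∩ sh n ⁻¹' HH := ⟨h3, h4⟩
        rw [indicator_of_mem h3, indicator_of_mem h4, indicator_of_mem h5]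
        norm_num
      · have h5 : ω ∉ HH ∩ sh n ⁻¹' HH := fun h => h4 h.2
        rw [indicator_of_notMem h4, indicator_of_notMem h5]
        norm_num
    · have h5 : ω ∉ HH ∩ sh n ⁻¹' HH := fun h => h3 h.1
      rw [indicator_of_notMem h3, indicator_of_notMem h5]
      norm_num
  simp only [h1, h2]
  rw [integral_indicator_const _ (HH_meas.inter (measurable_sh _ HH_meas)),
    Q_HH_shift _ (by omega)]
  simp

lemma ff_not_const (c : ℝ) : ¬ ff =ᵐ[mu] fun _ => c := by
  intro h
  have h1 : ∫ x, (ff x - c) ^ 2 ∂mu = 0 := by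
    rw [integral_eq_zero_of_ae]
    filter_upwards [h] with x hx
    rw [hx]; simp
  -- integrate: the function is 1/2 on one part and 0 or 1 on the other
  have h2 : ∀ᵐ x ∂mu, ff x = c := h
  have h3 : ∀ b : Bool, ∀ᵐ ω ∂Q, ff (b, ω) = c := by
    intro b
    have hs : MeasurableSet {x : XX | ff x ≠ c} :=
      (ff_meas (measurableSet_singleton c)).compl
    have h4 : mu {x : XX | ff x ≠ c} = 0 := h2
    rw [mu_apply hs] at h4
    have h5 : Q (Prod.mk true ⁻¹' {x : XX | ff x ≠ c}) +
        Q (Prod.mk false ⁻¹' {x : XX | ff x ≠ c}) = 0 := by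
      rcases mul_eq_zero.1 h4 with h6 | h6
      · exact absurd h6 (by norm_num)
      · exact h6
    rw [add_eq_zero] at h5
    cases b
    · exact h5.2
    · exact h5.1
  obtain ⟨ω, hω⟩ := (h3 true).exists
  rw [ff_true] at hω
  obtain ⟨ω', hω'⟩ := (h3 false).exists
  rw [ff_false, ← hω] at hω'
  by_cases h6 : ω' ∈ HH
  · rw [indicator_of_mem h6] at hω'; norm_num at hω'
  · rw [indicator_of_notMem h6] at hω'; norm_num at hω'

/-- periodic points of the shift form a null set -/
lemma sh_aper (n : ℕ) (hn : 1 ≤ n) : Q {ω : Om | sh n ω = ω} = 0 := by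
  have hm : MeasurableSet {ω : Om | sh n ω = ω} :=
    measurableSet_eq_fun (measurable_sh _) measurable_id
  have hpow : ∀ (k : ℕ) (ω : Om), sh n ω = ω → sh ((n * k : ℕ) : ℤ) ω = ω := by
    intro k ω h
    induction k with
    | zero => simp [sh_zero]
    | succ k ih =>
      have e : ((n * (k + 1) : ℕ) : ℤ) = n + ((n * k : ℕ) : ℤ) := by push_cast; ring
      rw [e, ← sh_sh, ih, h]
  have key : ∀ B : Set Om, MeasurableSet B → B ⊆ {ω : Om | sh n ω = ω} →
      Q.real B = Q.real B ^ 2 := by
    intro B hB hsub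
    have h1 := (mixing (volume : Measure UnitAddCircle) hB).comp
      (tendsto_id.const_mul_atTop' (by omega : 0 < n) : Tendsto (fun k : ℕ => n * k) atTop atTop)
    refine tendsto_nhds_unique (tendsto_const_nhds.congr fun k => ?_) h1
    show Q.real B = Q.real (B ∩ sh ((n * k : ℕ) : ℤ) ⁻¹' B)
    congr 1
    ext ω
    constructor
    · intro h
      refine ⟨h, ?_⟩
      show sh _ ω ∈ B
      rw [hpow k ω (hsub h)]
      exact h
    · exact fun h => h.1
  have e1 := key _ (hm.inter HH_meas) inter_subset_left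
  have e2 := key _ (hm.diff HH_meas) sdiff_subset
  have e3 : Q.real ({ω : Om | sh n ω = ω} ∩ HH) ≤ 1 / 2 := by
    rw [← Q_HH]; exact measureReal_mono inter_subset_right (measure_ne_top _ _)
  have e4 : Q.real ({ω : Om | sh n ω = ω} \ HH) ≤ 1 / 2 := by
    have : Q.real HHᶜ = 1 / 2 := by
      rw [probReal_compl_eq_one_sub HH_meas, Q_HH]; norm_num
    rw [← this]
    exact measureReal_mono (fun x hx => hx.2) (measure_ne_top _ _)
  have e5 : ∀ t : ℝ, 0 ≤ t → t ≤ 1 / 2 → t = t ^ 2 → t = 0 := by
    intro t h0 h1 h2; nlinarith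
  have e6 := e5 _ measureReal_nonneg e3 e1
  have e7 := e5 _ measureReal_nonneg e4 e2
  have e8 : Q.real {ω : Om | sh n ω = ω} = 0 := by
    rw [← measureReal_inter_add_sdiff (s := {ω : Om | sh n ω = ω}) HH_meas, e6, e7, add_zero]
  rw [Measure.real, ENNReal.toReal_eq_zero_iff] at e8
  exact e8.resolve_right (measure_ne_top _ _)

lemma aper (n : ℕ) (hn : 1 ≤ n) : mu {x : XX | TT^[n] x = x} = 0 := by
  have hm : MeasurableSet {x : XX | TT^[n] x = x} :=
    measurableSet_eq_fun (TT.measurable.iterate n) measurable_id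
  rw [mu_apply hm]
  have h1 : Prod.mk true ⁻¹' {x : XX | TT^[n] x = x} = (∅ : Set Om) := by
    rw [Set.eq_empty_iff_forall_notMem]
    intro ω hω
    have h2 : TT^[n] (true, ω) = (true, ω) := hω
    rw [iter] at h2
    have h3 : fib n true ω = ω := (Prod.mk.inj h2).2
    have h4 : ω 0 + (n : ℤ) • al = ω 0 := congrFun h3 0
    have h5 : (n : ℤ) • al = 0 := by simpa using h4
    rw [natCast_zsmul] at h5
    exact al_free n hn h5
  have h2 : Q (Prod.mk false ⁻¹' {x : XX | TT^[n] x = x}) = 0 := by
    refine measure_mono_null ?_ (sh_aper n hn)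
    intro ω hω
    have h2 : TT^[n] (false, ω) = (false, ω) := hω
    rw [iter] at h2
    exact (Prod.mk.inj h2).2
  rw [h1, h2]; simp

/-- there is no under-recurrent set -/
lemma no_set (A : Set XX) (hA : MeasurableSet A) (h0 : 0 < mu.real A) (h1 : mu.real A < 1) :
    ∃ n : ℕ, 1 ≤ n ∧ mu.real A ^ 2 < mu.real (A ∩ TT^[n] ⁻¹' A) := by
  by_contra hcon
  push Not at hcon
  obtain ⟨φ, hφ, hφ2⟩ := exists_times
  set A1 : Set Om := Prod.mk true ⁻¹' A with hA1
  set A2 : Set Om := Prod.mk false ⁻¹' A with hA2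
  have m1 : MeasurableSet A1 := mk_meas true hA
  have m2 : MeasurableSet A2 := mk_meas false hA
  have t1 := rigid m1 hφ2
  have t2 := (mixing (volume : Measure UnitAddCircle) m2).comp hφ.tendsto_atTop
  have t3 : Tendsto (fun k => mu.real (A ∩ TT^[φ k] ⁻¹' A)) atTop
      (𝓝 ((Q.real A1 + Q.real A2 ^ 2) / 2)) := by
    refine ((t1.add t2).div_const 2).congr fun k => ?_
    rw [mu_real (hA.inter ((TT.measurable.iterate _) hA)), preimage_inter, preimage_inter,
      pre_iter, pre_iter]
    simp only [Function.comp_apply, fib, natCast_zsmul]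
    rfl
  have t4 : (Q.real A1 + Q.real A2 ^ 2) / 2 ≤ mu.real A ^ 2 := by
    refine le_of_tendsto t3 ?_
    filter_upwards [hφ.tendsto_atTop.eventually_ge_atTop 1] with k hk
    exact hcon _ hk
  rw [mu_real hA] at t4 h0 h1
  have a0 : 0 ≤ Q.real A1 := measureReal_nonneg
  have a1 : Q.real A1 ≤ 1 := measureReal_le_one
  have b0 : 0 ≤ Q.real A2 := measureReal_nonneg
  have b1 : Q.real A2 ≤ 1 := measureReal_le_one
  set a := Q.real A1
  set b := Q.real A2
  have k1 : 2 * (a * (1 - a)) + (a - b) ^ 2 ≤ 0 := by nlinarith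
  have k2 : 0 ≤ a * (1 - a) := mul_nonneg a0 (by linarith)
  have k3 : (a - b) ^ 2 = 0 := le_antisymm (by linarith) (sq_nonneg _)
  have k4 : a = b := by
    have := pow_eq_zero_iff (two_ne_zero) |>.1 k3
    linarith
  have k5 : a * (1 - a) = 0 := le_antisymm (by nlinarith) k2
  rcases mul_eq_zero.1 k5 with h | h
  · rw [← k4, h] at h0; norm_num at h0
  · have : a = 1 := by linarith
    rw [← k4, this] at h1; norm_num at h1

end Pool.Agent.X85.UR
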