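import Pool.Agent.X85.Max

set_option autoImplicit false
open MeasureTheory Filter Topology Set
open scoped ENNReal

namespace Pool.Agent.X85.Max

variable {X : Type*} [MeasurableSpace X] {μ : Measure X} [IsProbabilityMeasure μ]

/-- distributional inequality for the maximal function of an `L^s` function -/
lemma distr {T : X → X} (hT : MeasurePreserving T μ μ) {g : X → ℝ} (hg : Measurable g)
    (hg0 : ∀ x, 0 ≤ g x) {s : ℝ} (hs : 1 < s) (hi : Integrable g μ)
    (his : Integrable (fun x => g x ^ s) μ) {t : ℝ} (ht : 0 < t) :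
    μ.real {x | ∃ k : ℕ, t < Av T g k x} ≤ (∫ x, g x ^ s ∂μ) * (t / 2) ^ (-s) := by
  have ht2 : 0 < t / 2 := by linarith
  set g1 : X → ℝ := fun x => if t / 2 < g x then g x else 0 with hg1
  have hg1m : Measurable g1 :=
    Measurable.ite (measurableSet_lt measurable_const hg) hg measurable_const
  have hg10 : ∀ x, 0 ≤ g1 x := by
    intro x; simp only [hg1]; split_ifs
    · exact hg0 x
    · exact le_rfl
  have hg1le : ∀ x, g1 x ≤ g x := by
    intro x; simp only [hg1]; split_ifs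
    · exact le_rfl
    · exact hg0 x
  have hg1i : Integrable g1 μ := by
    refine hi.mono' hg1m.aestronglyMeasurable (Eventually.of_forall fun x => ?_)
    rw [Real.norm_eq_abs, abs_of_nonneg (hg10 x)]
    exact hg1le x
  have hsub : {x | ∃ k : ℕ, t < Av T g k x} ⊆ {x | ∃ k : ℕ, t / 2 < Av T g1 k x} := by
    rintro x ⟨k, hk⟩
    refine ⟨k, ?_⟩
    have h1 : Av T g k x ≤ Av T (fun y => g1 y + t / 2) k x := by
      refine Av_mono T (fun y => ?_) k x
      simp only [hg1]; split_ifs with h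
      · linarith
      · linarith [not_lt.1 h]
    rw [Av_add T g1 (fun _ => t / 2)] at h1
    have h2 := Av_const_le T ht2.le k x
    linarith
  refine (measureReal_mono hsub (measure_ne_top _ _)).trans ?_
  refine (weak hT hg1m hg1i hg10 ht2).trans ?_
  rw [div_le_iff₀ ht2, mul_assoc, ← integral_mul_const]
  refine integral_mono hg1i (his.mul_const _) fun x => ?_
  simp only [hg1]
  split_ifs with h
  · have e : (t / 2) ^ (-s) * (t / 2) = (t / 2) ^ (1 - s) := by
      rw [← Real.rpow_add_one ht2.ne']; congr 1; ring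
    rw [e]
    have h3 : 0 < g x := lt_trans ht2 h
    have h4 : g x ^ (1 - s) ≤ (t / 2) ^ (1 - s) :=
      Real.rpow_le_rpow_of_nonpos ht2 h.le (by linarith)
    calc g x = g x ^ s * g x ^ (1 - s) := by
          rw [← Real.rpow_add h3, show s + (1 - s) = 1 by ring, Real.rpow_one]
      _ ≤ g x ^ s * (t / 2) ^ (1 - s) := by
          apply mul_le_mul_of_nonneg_left h4 (Real.rpow_nonneg h3.le _)
  · exact mul_nonneg (Real.rpow_nonneg (hg0 x) _) (by positivity)

/-- finite maximal functions -/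
noncomputable def Mn (T : X → X) (g : X → ℝ) : ℕ → X → ℝ
  | 0, _ => 0
  | n + 1, x => max (Mn T g n x) (Av T g n x)

omit [IsProbabilityMeasure μ] in
lemma Mn_nonneg (T : X → X) (g : X → ℝ) (n : ℕ) (x : X) : 0 ≤ Mn T g n x := by
  induction n with
  | zero => exact le_rfl
  | succ n ih => exact ih.trans (le_max_left _ _)

omit [IsProbabilityMeasure μ] in
lemma Mn_mono (T : X → X) (g : X → ℝ) (x : X) : Monotone fun n => Mn T g n x :=
  monotone_nat_of_le_succ fun _ => le_max_left _ _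

omit [IsProbabilityMeasure μ] in
lemma Mn_meas {T : X → X} (hT : Measurable T) {g : X → ℝ} (hg : Measurable g) (n : ℕ) :
    Measurable (Mn T g n) := by
  induction n with
  | zero => exact (measurable_const : Measurable fun _ : X => (0 : ℝ))
  | succ n ih => exact ih.max (Av_meas hT hg n)

omit [IsProbabilityMeasure μ] in
lemma Mn_lt {T : X → X} {g : X → ℝ} {t : ℝ} (ht : 0 ≤ t) (n : ℕ) (x : X) (h : t < Mn T g n x) :
    ∃ k : ℕ, t < Av T g k x := by
  induction n with
  | zero => exact absurd h (not_lt.2 ht)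
  | succ n ih =>
    rcases lt_max_iff.1 h with h | h
    · exact ih h
    · exact ⟨n, h⟩

/-- the maximal function of an `L^s` function is integrable -/
lemma maximal {T : X → X} (hT : MeasurePreserving T μ μ) {f : X → ℝ} (hf : Measurable f)
    {s : ℝ} (hs : 1 < s) (hi : Integrable f μ) (his : Integrable (fun x => |f x| ^ s) μ) :
    ∃ G : X → ℝ, Measurable G ∧ Integrable G μ ∧ ∀ᵐ x ∂μ, ∀ k : ℕ, |Av T f k x| ≤ G x := by
  set g : X → ℝ := fun x => |f x| with hg
  have hgm : Measurable g := hf.abs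
  have hg0 : ∀ x, 0 ≤ g x := fun x => abs_nonneg _
  have hgi : Integrable g μ := hi.abs
  set I : ℝ := ∫ x, g x ^ s ∂μ with hI
  have hI0 : 0 ≤ I := integral_nonneg fun x => Real.rpow_nonneg (hg0 x) _
  set B : ℝ≥0∞ := 1 + ∫⁻ t in Ioi (1 : ℝ), ENNReal.ofReal (I * (t / 2) ^ (-s)) with hB
  have hBfin : B < ∞ := by
    have h1 : IntegrableOn (fun t : ℝ => t ^ (-s)) (Ioi 1) :=
      integrableOn_Ioi_rpow_of_lt (by linarith) one_pos
    have h2 : IntegrableOn (fun t : ℝ => I * (t / 2) ^ (-s)) (Ioi 1) := by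
      have h3 : IntegrableOn (fun t : ℝ => (I * (1 / 2) ^ (-s)) * t ^ (-s)) (Ioi 1) :=
        h1.const_mul _
      refine h3.congr_fun (fun t ht => ?_) measurableSet_Ioi
      have ht' : (0 : ℝ) < t := lt_trans one_pos ht
      simp only
      rw [div_eq_mul_one_div t 2, Real.mul_rpow ht'.le (by norm_num)]; ring
    have h4 : ∫⁻ t in Ioi (1 : ℝ), ENNReal.ofReal (I * (t / 2) ^ (-s)) < ∞ := by
      refine lt_of_le_of_lt (lintegral_mono fun t => ?_) h2.2
      exact Real.ofReal_le_enorm _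
    exact ENNReal.add_lt_top.2 ⟨ENNReal.one_lt_top, h4⟩
  have hbound : ∀ n : ℕ, ∫⁻ x, ENNReal.ofReal (Mn T g n x) ∂μ ≤ B := by
    intro n
    rw [lintegral_eq_lintegral_meas_lt μ (Eventually.of_forall fun x => Mn_nonneg T g n x)
      (Mn_meas hT.measurable hgm n).aemeasurable]
    have hsplit : Ioi (0 : ℝ) = Ioc 0 1 ∪ Ioi 1 := (Ioc_union_Ioi_eq_Ioi zero_le_one).symm
    rw [hsplit]
    refine (lintegral_union_le _ _ _).trans ?_
    rw [hB]
    gcongr ?_ + ?_
    · calc ∫⁻ t in Ioc (0 : ℝ) 1, μ {a | t < Mn T g n a} ≤ ∫⁻ t in Ioc (0 : ℝ) 1, 1 :=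
            lintegral_mono fun t => prob_le_one
        _ = 1 := by simp
    · refine setLIntegral_mono' measurableSet_Ioi fun t ht => ?_
      have ht' : (0 : ℝ) < t := lt_trans one_pos ht
      rw [← ofReal_measureReal]
      refine ENNReal.ofReal_le_ofReal ?_
      refine le_trans (measureReal_mono (fun x hx => ?_) (measure_ne_top _ _))
        (distr hT hgm hg0 hs hgi his ht')
      exact Mn_lt ht'.le n x hx
  set H : X → ℝ≥0∞ := fun x => ⨆ n, ENNReal.ofReal (Mn T g n x) with hH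
  have hHm : Measurable H :=
    Measurable.iSup fun n => ENNReal.measurable_ofReal.comp (Mn_meas hT.measurable hgm n)
  have hHint : ∫⁻ x, H x ∂μ ≤ B := by
    rw [hH, lintegral_iSup]
    · exact iSup_le hbound
    · exact fun n => ENNReal.measurable_ofReal.comp (Mn_meas hT.measurable hgm n)
    · intro m n hmn x
      exact ENNReal.ofReal_le_ofReal (Mn_mono T g x hmn)
  have hHfin : ∀ᵐ x ∂μ, H x < ∞ := ae_lt_top hHm (lt_of_le_of_lt hHint hBfin).ne
  refine ⟨fun x => (H x).toReal, hHm.ennreal_toReal,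
    integrable_toReal_of_lintegral_ne_top hHm.aemeasurable (lt_of_le_of_lt hHint hBfin).ne, ?_⟩
  filter_upwards [hHfin] with x hx k
  refine (Av_abs T f k x).trans ?_
  have h1 : Av T g k x ≤ Mn T g (k + 1) x := le_max_right _ _
  refine h1.trans ?_
  have h2 : ENNReal.ofReal (Mn T g (k + 1) x) ≤ H x :=
    le_iSup (fun n => ENNReal.ofReal (Mn T g n x)) (k + 1)
  exact (ENNReal.ofReal_le_iff_le_toReal hx.ne).1 h2

/-! ### differentiation -/

section diff

variable {X : Type*} [PseudoMetricSpace X] [MeasurableSpace X] [BorelSpace X]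

/-- the Lebesgue differentiation property -/
def LebesgueDiff (μ : Measure X) : Prop :=
  ∀ f : X → ℝ, Integrable f μ → ∀ᵐ x ∂μ,
    Tendsto (fun r : ℝ => (μ.real (Metric.ball x r))⁻¹ * ∫ y in Metric.ball x r, f y ∂μ)
      (𝓝[>] 0) (𝓝 (f x))

variable {μ : Measure X} [IsProbabilityMeasure μ]

theorem main_meas (hL : LebesgueDiff μ) {T : X → X} (hT : MeasurePreserving T μ μ) {f : X → ℝ}
    (hf : Measurable f) {s : ℝ} (hs : 1 < s) (hi : Integrable f μ)
    (his : Integrable (fun x => |f x| ^ s) μ) :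
    ∀ᵐ x ∂μ, ∀ ε : ℝ, 0 < ε → ∃ δ : ℝ, 0 < δ ∧ ∃ K : ℕ, ∀ r : ℝ, ∀ k : ℕ, 0 < r → r < δ → K ≤ k →
      |(μ.real (Metric.ball x r))⁻¹ * (∫ y in Metric.ball x r, Av T f k y ∂μ) -
        (μ[f | MeasurableSpace.invariants T]) x| < ε := by
  set F : X → ℝ := μ[f | MeasurableSpace.invariants T] with hF
  have hFi : Integrable F μ := integrable_condExp
  have hFm : Measurable F :=
    (stronglyMeasurable_condExp.measurable).mono (MeasurableSpace.invariants_le T) le_rfl
  obtain ⟨G, hGm, hGi, hG⟩ := maximal hT hf hs hi his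
  have hB := birkhoff hT hf hi
  set g : ℕ → X → ℝ := fun K x => ⨆ k : ℕ, |Av T f (K + k) x - F x| with hg
  have hgm : ∀ K, Measurable (g K) := fun K =>
    Measurable.iSup fun k => ((Av_meas hT.measurable hf _).sub hFm).abs
  have hbdd : ∀ᵐ x ∂μ, ∀ K k : ℕ, |Av T f (K + k) x - F x| ≤ G x + |F x| := by
    filter_upwards [hG] with x hx K k
    refine (abs_sub _ _).trans ?_
    linarith [hx (K + k)]
  have hgle : ∀ᵐ x ∂μ, ∀ K k : ℕ, K ≤ k → |Av T f k x - F x| ≤ g K x := by
    filter_upwards [hbdd] with x hx K k hKk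
    obtain ⟨j, rfl⟩ := Nat.exists_eq_add_of_le hKk
    exact le_ciSup (f := fun k : ℕ => |Av T f (K + k) x - F x|)
      ⟨G x + |F x|, by rintro _ ⟨k, rfl⟩; exact hx K k⟩ j
  have hgi : ∀ K, Integrable (g K) μ := by
    intro K
    refine (hGi.add hFi.abs).mono' (hgm K).aestronglyMeasurable ?_
    filter_upwards [hbdd] with x hx
    rw [Real.norm_eq_abs, abs_of_nonneg (Real.iSup_nonneg fun k => abs_nonneg _)]
    exact ciSup_le fun k => hx K k
  have hg0 : ∀ᵐ x ∂μ, Tendsto (fun K => g K x) atTop (𝓝 0) := by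
    filter_upwards [hB] with x hx
    rw [Metric.tendsto_atTop]
    intro ε hε
    obtain ⟨N, hN⟩ := Metric.tendsto_atTop.1 hx (ε / 2) (by linarith)
    refine ⟨N, fun K hK => ?_⟩
    rw [Real.dist_eq, sub_zero, abs_of_nonneg (Real.iSup_nonneg fun k => abs_nonneg _)]
    refine lt_of_le_of_lt (ciSup_le fun k => ?_) (by linarith : ε / 2 < ε)
    have := hN (K + k) (by omega)
    rw [Real.dist_eq] at this
    exact this.le
  have hLg : ∀ᵐ x ∂μ, ∀ K : ℕ,
      Tendsto (fun r : ℝ => (μ.real (Metric.ball x r))⁻¹ * ∫ y in Metric.ball x r, g K y ∂μ)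
        (𝓝[>] 0) (𝓝 (g K x)) := by
    rw [ae_all_iff]
    exact fun K => hL _ (hgi K)
  filter_upwards [hL F hFi, hLg, hg0] with x hx1 hx2 hx3 ε hε
  obtain ⟨K, hK⟩ := (Metric.tendsto_nhds.1 hx3 (ε / 3) (by linarith)).exists
  have e1 := Metric.tendsto_nhds.1 hx1 (ε / 3) (by linarith)
  have e2 := Metric.tendsto_nhds.1 (hx2 K) (ε / 3) (by linarith)
  have e3 := e1.and e2
  rw [eventually_nhdsWithin_iff, Metric.eventually_nhds_iff] at e3
  obtain ⟨δ, hδ, hδ2⟩ := e3
  refine ⟨δ, hδ, K, fun r k hr0 hrδ hk => ?_⟩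
  obtain ⟨h1, h2⟩ := hδ2 (y := r) (by rw [Real.dist_eq, sub_zero, abs_of_pos hr0]; exact hrδ) hr0
  rw [Real.dist_eq] at h1 h2 hK
  rw [sub_zero] at hK
  set b := (μ.real (Metric.ball x r))⁻¹ with hb
  have hb0 : 0 ≤ b := inv_nonneg.2 measureReal_nonneg
  have hAi : Integrable (Av T f k) μ := by
    unfold Av
    refine Integrable.const_mul ?_ _
    refine integrable_finsetSum _ fun j _ => ?_
    exact ((hT.iterate j).integrable_comp hf.aestronglyMeasurable).2 hi
  have h3 : |b * (∫ y in Metric.ball x r, Av T f k y ∂μ) - b * ∫ y in Metric.ball x r, F y ∂μ| ≤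
      b * ∫ y in Metric.ball x r, g K y ∂μ := by
    rw [← mul_sub, abs_mul, abs_of_nonneg hb0]
    refine mul_le_mul_of_nonneg_left ?_ hb0
    rw [← integral_sub hAi.integrableOn hFi.integrableOn]
    refine (abs_integral_le_integral_abs).trans ?_
    refine integral_mono_ae (hAi.sub hFi).abs.integrableOn (hgi K).integrableOn ?_
    refine ae_restrict_of_ae ?_
    filter_upwards [hgle] with y hy
    exact hy K k hk
  have h4 : g K x < ε / 3 := lt_of_le_of_lt (le_abs_self _) hK
  rw [abs_lt] at *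
  rw [abs_le] at h3
  constructor <;> linarith [h3.1, h3.2, h1.1, h1.2, h2.1, h2.2]

theorem main (hL : LebesgueDiff μ) {T : X → X} (hT : MeasurePreserving T μ μ) {p : ℝ≥0∞}
    (hp : 1 < p) {f : X → ℝ} (hf : MemLp f p μ) :
    ∀ᵐ x ∂μ, ∀ ε : ℝ, 0 < ε → ∃ δ : ℝ, 0 < δ ∧ ∃ K : ℕ, ∀ r : ℝ, ∀ k : ℕ, 0 < r → r < δ → K ≤ k →
      |(μ.real (Metric.ball x r))⁻¹ * (∫ y in Metric.ball x r, Av T f k y ∂μ) -
        (μ[f | MeasurableSpace.invariants T]) x| < ε := by
  -- a measurable version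
  set f' : X → ℝ := hf.1.mk f with hf'
  have hf'm : Measurable f' := hf.1.stronglyMeasurable_mk.measurable
  have hff : f =ᵐ[μ] f' := hf.1.ae_eq_mk
  have hf'p : MemLp f' p μ := hf.ae_eq hff
  -- a real exponent
  set q : ℝ≥0∞ := min p 2 with hq
  have hq1 : 1 < q := lt_min hp (by norm_num)
  have hq2 : q ≠ ∞ := (lt_of_le_of_lt (min_le_right _ _) (by norm_num)).ne
  have hf'q : MemLp f' q μ := hf'p.mono_exponent (min_le_left _ _)
  have hs : 1 < q.toReal := by
    rw [← ENNReal.toReal_one]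
    exact (ENNReal.toReal_lt_toReal ENNReal.one_ne_top hq2).2 hq1
  have his : Integrable (fun x => |f' x| ^ q.toReal) μ := by
    have := hf'q.integrable_norm_rpow (by
      intro h; rw [h] at hq1; exact absurd hq1 (by simp)) hq2
    simpa using this
  have hi : Integrable f' μ := memLp_one_iff_integrable.1 (hf'p.mono_exponent hp.le)
  have hmain := main_meas hL hT hf'm hs hi his
  have hce : μ[f | MeasurableSpace.invariants T] =ᵐ[μ] μ[f' | MeasurableSpace.invariants T] :=
    condExp_congr_ae hff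
  filter_upwards [hmain, hce] with x hx hx2 ε hε
  obtain ⟨δ, hδ, K, h⟩ := hx ε hε
  refine ⟨δ, hδ, K, fun r k hr hrδ hk => ?_⟩
  have e : ∫ y in Metric.ball x r, Av T f k y ∂μ = ∫ y in Metric.ball x r, Av T f' k y ∂μ := by
    refine integral_congr_ae (ae_restrict_of_ae ?_)
    have h1 : ∀ᵐ y ∂μ, ∀ j : ℕ, f (T^[j] y) = f' (T^[j] y) := by
      rw [ae_all_iff]
      exact fun j => (hT.iterate j).quasiMeasurePreserving.ae hff
    filter_upwards [h1] with y hy
    unfold Av
    simp only [hy]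
  rw [e, hx2]
  exact h r k hr hrδ hk

end diff

end Pool.Agent.X85.Max
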