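import Pool.Agent.X85.BL

set_option autoImplicit false
open MeasureTheory Filter Topology Set

namespace Pool.Agent.X85.BL

lemma T_broken : MapsTo T (Icc 0 1) (Icc 0 1) ∧ ContinuousOn T (Icc 0 1) ∧
    ∃ (m : ℕ) (a : Fin (m + 1) → ℝ), StrictMono a ∧ a 0 = 0 ∧ a (Fin.last m) = 1 ∧
      ∀ j : Fin m, ∃ c d : ℝ, ∀ x ∈ Icc (a j.castSucc) (a j.succ), T x = c * x + d := by
  refine ⟨T_Icc, T_cont.continuousOn, 2, ![0, 1 / 2, 1], ?_, rfl, rfl, ?_⟩
  · rw [Fin.strictMono_iff_lt_succ]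
    intro i
    fin_cases i
    · show (0 : ℝ) < 1 / 2
      norm_num
    · show (1 / 2 : ℝ) < 1
      norm_num
  · intro j
    fin_cases j
    · refine ⟨1 / 2, 0, fun x hx => ?_⟩
      have h : x ≤ 1 / 2 := hx.2
      rw [T_low h]; ring
    · refine ⟨3 / 2, -1 / 2, fun x hx => ?_⟩
      have h : 1 / 2 ≤ x := hx.1
      rw [T_high h]; ring

end Pool.Agent.X85.BL
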