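import Mathlib

set_option autoImplicit false
open MeasureTheory

namespace Pool.Agent.X85.Ratio

/-- splitting off the part coprime to `c` -/
lemma split_coprime (c : ℕ) (_ : 0 < c) : ∀ D : ℕ, 0 < D →
    ∃ U V k : ℕ, D = U * V ∧ Nat.Coprime V c ∧ U ∣ c ^ k := by
  intro D
  induction D using Nat.strong_induction_on with
  | _ D ih =>
    intro hD
    by_cases h : Nat.Coprime D c
    · exact ⟨1, D, 0, by simp, h, by simp⟩
    · have hg : 1 < Nat.gcd D c := by
        have h1 : 0 < Nat.gcd D c := Nat.gcd_pos_of_pos_left _ hD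
        have h2 : Nat.gcd D c ≠ 1 := h
        omega
      obtain ⟨E, hE⟩ := Nat.gcd_dvd_left D c
      have hE0 : 0 < E := by
        rcases Nat.eq_zero_or_pos E with h0 | h0
        · rw [h0] at hE; omega
        · exact h0
      have hlt : E < D := by
        calc E < Nat.gcd D c * E := by nlinarith
          _ = D := hE.symm
      obtain ⟨U, V, k, h1, h2, h3⟩ := ih E hlt hE0
      refine ⟨Nat.gcd D c * U, V, k + 1, ?_, h2, ?_⟩
      · rw [mul_assoc, ← h1]; exact hE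
      · rw [pow_succ, mul_comm (c ^ k)]
        exact mul_dvd_mul (Nat.gcd_dvd_right D c) h3

/-- the combinatorial property of the finite sets used in the pigeonhole argument -/
def Good (a1 a2 K : ℕ) (S : Finset ℕ) : Prop :=
  (∀ x ∈ S, 0 < x) ∧ ∀ x ∈ S, ∀ y ∈ S, x < y →
    ∃ t e : ℕ, x = t * e ∧ y = (t + 1) * e ∧ K ≤ t ∧ a1 ∣ t + 1 ∧ a2 ∣ t

lemma good_scale {a1 a2 K : ℕ} {S : Finset ℕ} (h : Good a1 a2 K S) {c : ℕ} (hc : 0 < c) :
    Good a1 a2 K (S.image fun x => c * x) := by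
  refine ⟨?_, ?_⟩
  · intro x hx
    obtain ⟨s, hs, rfl⟩ := Finset.mem_image.1 hx
    exact Nat.mul_pos hc (h.1 s hs)
  · intro x hx y hy hxy
    obtain ⟨s, hs, rfl⟩ := Finset.mem_image.1 hx
    obtain ⟨s', hs', rfl⟩ := Finset.mem_image.1 hy
    have hlt : s < s' := lt_of_mul_lt_mul_left hxy (Nat.zero_le c)
    obtain ⟨t, e, h1, h2, h3, h4, h5⟩ := h.2 s hs s' hs' hlt
    refine ⟨t, c * e, ?_, ?_, h3, h4, h5⟩
    · rw [h1]; ring
    · rw [h2]; ring

lemma good_step {a1 a2 K : ℕ} (h1 : 0 < a1) (h2 : 0 < a2) (hco : Nat.Coprime a1 a2) (hK : 0 < K)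
    {S : Finset ℕ} (h : Good a1 a2 K S) (hdiv : ∀ s ∈ S, a1 ∣ s) :
    ∃ S' : Finset ℕ, S'.card = S.card + 1 ∧ Good a1 a2 K S' := by
  classical
  set D : ℕ := ∏ x ∈ S, ∏ y ∈ S, (if x < y then y - x else 1) with hD
  have hDpos : 0 < D := by
    rw [hD]
    refine Finset.prod_pos fun x _ => Finset.prod_pos fun y _ => ?_
    split_ifs with hxy
    · omega
    · exact one_pos
  have hdD : ∀ x ∈ S, ∀ y ∈ S, x < y → (y - x) ∣ D := by
    intro x hx y hy hxy
    have e1 : (∏ y ∈ S, (if x < y then y - x else 1)) ∣ D := by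
      rw [hD]
      exact Finset.dvd_prod_of_mem (fun x => ∏ y ∈ S, (if x < y then y - x else 1)) hx
    have e2 : (if x < y then y - x else 1) ∣ ∏ y ∈ S, (if x < y then y - x else 1) :=
      Finset.dvd_prod_of_mem (fun y => (if x < y then y - x else 1)) hy
    rw [if_pos hxy] at e2
    exact e2.trans e1
  obtain ⟨U, V, k, hUV, hVc, hU⟩ := split_coprime a1 h1 D hDpos
  have hVpos : 0 < V := by
    rcases Nat.eq_zero_or_pos V with h0 | h0
    · rw [h0] at hUV; omega
    · exact h0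
  set Z : ℕ := a2 * V with hZ
  have hZpos : 0 < Z := Nat.mul_pos h2 hVpos
  have hZco : Nat.Coprime Z a1 := Nat.Coprime.mul_left hco.symm hVc
  have hZs : ∀ s ∈ S, Nat.Coprime (Z + s) a1 := by
    intro s hs
    obtain ⟨w, rfl⟩ := hdiv s hs
    rw [Nat.coprime_add_mul_left_left]
    exact hZco
  set L : ℕ := ∏ s ∈ S, (Z + s) with hL
  have hLpos : 0 < L := Finset.prod_pos fun s _ => by omega
  have hLco : Nat.Coprime L a1 := Nat.Coprime.prod_left fun s hs => hZs s hs
  set m : ℕ := a1 ^ (k + 1) with hm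
  have hmpos : 0 < m := pow_pos h1 _
  have hLm : Nat.Coprime L m := Nat.Coprime.pow_right _ hLco
  -- a solution of `1 + L k' ≡ 0 mod m` with `k' ≥ K`, `k' ≥ 1`
  obtain ⟨k', hk'K, hk'⟩ : ∃ k' : ℕ, K ≤ k' ∧ m ∣ 1 + L * k' := by
    obtain ⟨z, hz1, hz2⟩ := Nat.chineseRemainder hLm.symm 0 1
    -- z ≡ 0 mod m, z ≡ 1 mod L
    have hz1' : m ∣ z := (Nat.modEq_zero_iff_dvd).1 hz1
    -- take `M = z + m * L * (K + 1)`
    have hM1 : m ∣ z + m * L * (K + 1) := dvd_add hz1' ⟨L * (K + 1), by ring⟩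
    have hM2 : z + m * L * (K + 1) ≡ 1 [MOD L] := by
      have : z + m * L * (K + 1) ≡ z [MOD L] := by
        have h0 : m * L * (K + 1) ≡ 0 [MOD L] := (Nat.modEq_zero_iff_dvd).2 ⟨m * (K + 1), by ring⟩
        simpa using (Nat.ModEq.refl z).add h0
      exact this.trans hz2
    have hge : 1 ≤ z + m * L * (K + 1) := by
      have : 0 < m * L * (K + 1) := by positivity
      omega
    obtain ⟨k', hk'⟩ := (Nat.modEq_iff_dvd' hge).1 hM2.symm
    refine ⟨k', ?_, ?_⟩
    · by_contra hcon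
      push Not at hcon
      have e1 : L * (k' + 1) ≤ L * K := Nat.mul_le_mul_left _ hcon
      have e1' : L * (k' + 1) = L * k' + L := by ring
      have e2 : L * (K + 1) ≤ m * L * (K + 1) := by
        have : 1 * L ≤ m * L := Nat.mul_le_mul_right _ hmpos
        rw [one_mul] at this
        exact Nat.mul_le_mul_right _ this
      have e3 : L * (K + 1) = L * K + L := by ring
      omega
    · have : 1 + L * k' = z + m * L * (K + 1) := by omega
      rw [this]; exact hM1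
  set X : ℕ := Z * (1 + L * k') with hX
  have hXX : X = Z * L * k' + Z := by rw [hX]; ring
  have haX : a1 * a2 * D ∣ X := by
    have e1 : a1 * U ∣ m := by
      rw [hm, pow_succ, mul_comm (a1 ^ k)]
      exact mul_dvd_mul_left _ hU
    have e2 : a1 * U ∣ 1 + L * k' := e1.trans hk'
    have e3 : Z * (a1 * U) ∣ X := mul_dvd_mul_left _ e2
    have e4 : a1 * a2 * D = Z * (a1 * U) := by rw [hUV, hZ]; ring
    rw [e4]; exact e3
  have hnot : Z * L * k' ∉ S.image (fun s => X + s) := by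
    intro hmem
    obtain ⟨s, _, hs⟩ := Finset.mem_image.1 hmem
    omega
  refine ⟨insert (Z * L * k') (S.image fun s => X + s), ?_, ?_, ?_⟩
  · rw [Finset.card_insert_of_notMem hnot, Finset.card_image_of_injective]
    intro p q hpq
    simpa using hpq
  · intro x hx
    rcases Finset.mem_insert.1 hx with rfl | hx
    · have : 0 < k' := lt_of_lt_of_le hK hk'K
      positivity
    · obtain ⟨s, _, rfl⟩ := Finset.mem_image.1 hx
      omega
  · intro x hx y hy hxy
    rcases Finset.mem_insert.1 hx with hx0 | hx1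
    · rcases Finset.mem_insert.1 hy with hy0 | hy1
      · omega
      · obtain ⟨s, hs, rfl⟩ := Finset.mem_image.1 hy1
        obtain ⟨Ls, hLs⟩ : (Z + s) ∣ L := Finset.dvd_prod_of_mem (fun s => Z + s) hs
        have hLs0 : 0 < Ls := by
          rcases Nat.eq_zero_or_pos Ls with h0 | h0
          · rw [h0] at hLs; omega
          · exact h0
        have hy : X + s = (Z * k' * Ls + 1) * (Z + s) := by
          have : Z * L * k' = Z * k' * Ls * (Z + s) := by
            conv_lhs => rw [hLs]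
            ring
          rw [hXX, this]; ring
        refine ⟨Z * k' * Ls, Z + s, ?_, hy, ?_, ?_, ?_⟩
        · rw [hx0]
          conv_lhs => rw [hLs]
          ring
        · calc K ≤ k' := hk'K
            _ = 1 * k' * 1 := by ring
            _ ≤ Z * k' * Ls := by gcongr <;> omega
        · have e1 : a1 ∣ X + s := by
            refine dvd_add ?_ (hdiv s hs)
            exact (Dvd.intro _ (by ring : a1 * (a2 * D) = a1 * a2 * D)).trans haX
          rw [hy] at e1
          exact Nat.Coprime.dvd_of_dvd_mul_right (hZs s hs).symm e1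
        · exact ⟨V * k' * Ls, by rw [hZ]; ring⟩
    · obtain ⟨s, hs, rfl⟩ := Finset.mem_image.1 hx1
      rcases Finset.mem_insert.1 hy with hy0 | hy1
      · omega
      · obtain ⟨s', hs', rfl⟩ := Finset.mem_image.1 hy1
        have hlt : s < s' := by omega
        obtain ⟨t, e, h3, h4, h5, h6, h7⟩ := h.2 s hs s' hs' hlt
        have heD : e ∣ D := by
          have : s' - s = e := by rw [h3, h4]; have : (t + 1) * e = t * e + e := by ring
                                  omega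
          rw [← this]; exact hdD s hs s' hs' hlt
        obtain ⟨w, hw⟩ : a1 * a2 * e ∣ X := (mul_dvd_mul_left _ heD).trans haX
        refine ⟨a1 * a2 * w + t, e, ?_, ?_, by omega, ?_, ?_⟩
        · beta_reduce; rw [hw]; nth_rw 1 [h3]; ring
        · beta_reduce; rw [hw]; nth_rw 1 [h4]; ring
        · have : a1 * a2 * w + t + 1 = a1 * (a2 * w) + (t + 1) := by ring
          rw [this]
          exact dvd_add ⟨_, rfl⟩ h6
        · exact dvd_add ⟨a1 * w, by ring⟩ h7

lemma exists_good {a1 a2 K : ℕ} (h1 : 0 < a1) (h2 : 0 < a2) (hco : Nat.Coprime a1 a2)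
    (hK : 0 < K) (r : ℕ) : ∃ S : Finset ℕ, S.card = r ∧ Good a1 a2 K S := by
  induction r with
  | zero => exact ⟨∅, rfl, by simp [Good]⟩
  | succ r ih =>
    obtain ⟨S, hS, hg⟩ := ih
    obtain ⟨S', h3, h4⟩ := good_step h1 h2 hco hK (good_scale hg h1) (by
      intro s hs
      obtain ⟨x, _, rfl⟩ := Finset.mem_image.1 hs
      exact ⟨x, rfl⟩)
    refine ⟨S', ?_, h4⟩
    rw [h3, Finset.card_image_of_injective, hS]
    intro p q hpq
    exact Nat.eq_of_mul_eq_mul_left h1 hpq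

/-- pigeonhole principle for sets of the same measure -/
lemma exists_inter_pos {X : Type*} [MeasurableSpace X] (μ : Measure X) [IsProbabilityMeasure μ]
    (c : ENNReal) (hc : c ≠ 0) :
    ∃ r : ℕ, ∀ (S : Finset ℕ) (B : ℕ → Set X), S.card = r → (∀ s ∈ S, MeasurableSet (B s)) →
      (∀ s ∈ S, μ (B s) = c) → ∃ x ∈ S, ∃ y ∈ S, x < y ∧ 0 < μ (B x ∩ B y) := by
  obtain ⟨r, hr⟩ := ENNReal.exists_nat_mul_gt hc ENNReal.one_ne_top
  refine ⟨r, fun S B hS hm hB => ?_⟩
  by_contra hcon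
  push Not at hcon
  have hdis : (S : Set ℕ).Pairwise (Function.onFun (AEDisjoint μ) B) := by
    intro x hx y hy hxy
    rcases lt_or_gt_of_ne hxy with hlt | hlt
    · exact le_antisymm (hcon x hx y hy hlt) zero_le
    · have := le_antisymm (hcon y hy x hx hlt) zero_le
      rw [Set.inter_comm] at this
      exact this
  have h1 : μ (⋃ s ∈ S, B s) = ∑ s ∈ S, μ (B s) :=
    measure_biUnion_finset₀ hdis fun s hs => (hm s hs).nullMeasurableSet
  rw [Finset.sum_congr rfl hB, Finset.sum_const, hS, nsmul_eq_mul] at h1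
  have h2 : μ (⋃ s ∈ S, B s) ≤ 1 := prob_le_one
  rw [h1] at h2
  exact absurd hr (not_lt.2 h2)

section
variable {X : Type} [MeasurableSpace X] {μ : Measure X} [IsProbabilityMeasure μ]
  {T : ℚ → X → X}

lemma pos_main (hT : ∀ q r : ℚ, 0 < q → 0 < r → T (q * r) = T q ∘ T r)
    (hmp : ∀ q : ℚ, 0 < q → MeasurePreserving (T q) μ μ)
    {A : Set X} (hA : MeasurableSet A) (hA0 : 0 < μ A)
    (a : ℕ) (b d : ℤ) (ha : 0 < a)
    (hgcd : ∀ k : ℤ, k ∣ (a : ℤ) → k ∣ b → k ∣ d → IsUnit k) (hdvd : (a : ℤ) ∣ b * d) (hbd : d < b) :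
    ∃ n : ℕ, 0 < n ∧ 0 < (a : ℤ) * n + b ∧ 0 < (a : ℤ) * n + d ∧
      0 < μ (A ∩ T (((a : ℚ) * n + b) / ((a : ℚ) * n + d)) ⁻¹' A) ∧
      0 < μ (A ∩ T (((a : ℚ) * n + d) / ((a : ℚ) * n + b)) ⁻¹' A) := by
  set a1 : ℕ := Int.gcd a b with ha1
  set a2 : ℕ := Int.gcd a d with ha2
  have h1 : 0 < a1 := Int.gcd_pos_of_ne_zero_left _ (by exact_mod_cast ha.ne')
  have h2 : 0 < a2 := Int.gcd_pos_of_ne_zero_left _ (by exact_mod_cast ha.ne')
  have hco : Nat.Coprime a1 a2 := by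
    have hu : IsUnit ((Nat.gcd a1 a2 : ℕ) : ℤ) := by
      refine hgcd _ ?_ ?_ ?_
      · exact (Int.natCast_dvd_natCast.2 (Nat.gcd_dvd_left _ _)).trans (Int.gcd_dvd_left _ _)
      · exact (Int.natCast_dvd_natCast.2 (Nat.gcd_dvd_left _ _)).trans (Int.gcd_dvd_right _ _)
      · exact (Int.natCast_dvd_natCast.2 (Nat.gcd_dvd_right _ _)).trans (Int.gcd_dvd_right _ _)
    exact_mod_cast Int.ofNat_isUnit.1 hu |> Nat.isUnit_iff.1
  have hprod : a ∣ a1 * a2 := by
    have h0 : a ∣ b.natAbs * d.natAbs := by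
      rw [← Int.natAbs_mul]
      exact Int.natCast_dvd.1 hdvd
    have := Nat.dvd_gcd_mul_gcd_iff_dvd_mul.2 h0
    rw [ha1, ha2, Int.gcd, Int.gcd, Int.natAbs_natCast]
    exact this
  set K : ℕ := a + d.natAbs + 1 with hK
  obtain ⟨r, hr⟩ := exists_inter_pos μ (μ A) hA0.ne'
  obtain ⟨S, hS, hSg⟩ := exists_good h1 h2 hco (K := K) (by omega) r
  obtain ⟨x, hx, y, hy, hxy, hpos⟩ := hr S (fun s => T (s : ℚ) ⁻¹' A) hS
    (fun s hs => (hmp s (by exact_mod_cast hSg.1 s hs)).measurable hA)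
    (fun s hs => (hmp s (by exact_mod_cast hSg.1 s hs)).measure_preimage hA.nullMeasurableSet)
  obtain ⟨t, e, hxt, hyt, hKt, ht1, ht2⟩ := hSg.2 x hx y hy hxy
  have hx0 : 0 < x := hSg.1 x hx
  have he0 : 0 < e := by
    rcases Nat.eq_zero_or_pos e with h0 | h0
    · rw [h0] at hxt; omega
    · exact h0
  -- the integer `n`
  have hdiv : (a : ℤ) ∣ (b - d) * t - d := by
    have e1 : (a1 : ℤ) ∣ (b - d) * t - d := by
      have : (b - d) * t - d = (b - d) * ((t + 1 : ℕ) : ℤ) - b := by push_cast; ring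
      rw [this]
      exact dvd_sub (dvd_mul_of_dvd_right (Int.natCast_dvd_natCast.2 ht1) _) (Int.gcd_dvd_right _ _)
    have e2 : (a2 : ℤ) ∣ (b - d) * t - d :=
      dvd_sub (dvd_mul_of_dvd_right (Int.natCast_dvd_natCast.2 ht2) _) (Int.gcd_dvd_right _ _)
    have e3 : ((a1 : ℤ) * a2) ∣ (b - d) * t - d :=
      IsCoprime.mul_dvd (Nat.isCoprime_iff_coprime.2 hco) e1 e2
    refine dvd_trans ?_ e3
    exact_mod_cast hprod
  obtain ⟨n', hn'⟩ := hdiv
  have htK : (K : ℤ) ≤ t := by exact_mod_cast hKt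
  have hKd : (a : ℤ) + |d| + 1 ≤ K := by
    rw [hK]; push_cast; exact le_rfl
  have ha' : (0 : ℤ) < a := by exact_mod_cast ha
  have hbd' : 1 ≤ b - d := by omega
  have ht0 : (0 : ℤ) < t := by have := abs_nonneg d; omega
  have hge : (a : ℤ) < (b - d) * t - d := by
    have : (t : ℤ) ≤ (b - d) * t := by nlinarith
    have h3 := le_abs_self d
    omega
  have hn'0 : 0 < n' := by
    rw [hn'] at hge
    by_contra hcon
    push Not at hcon
    nlinarith
  obtain ⟨n, rfl⟩ : ∃ n : ℕ, (n : ℤ) = n' := ⟨n'.toNat, Int.toNat_of_nonneg hn'0.le⟩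
  have hd' : (a : ℤ) * n + d = (b - d) * t := by linarith
  have hb' : (a : ℤ) * n + b = (b - d) * (t + 1) := by linarith
  have hdpos : 0 < (a : ℤ) * n + d := by rw [hd']; positivity
  have hbpos : 0 < (a : ℤ) * n + b := by rw [hb']; positivity
  have hxQ : (0 : ℚ) < x := by exact_mod_cast hx0
  have hyQ : (0 : ℚ) < y := by exact_mod_cast (hx0.trans hxy)
  have eq1 : (y : ℚ) = (((a : ℚ) * n + b) / ((a : ℚ) * n + d)) * x := by
    have e1 : ((a : ℚ) * n + d) = (b - d) * t := by exact_mod_cast hd'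
    have e2 : ((a : ℚ) * n + b) = (b - d) * (t + 1) := by exact_mod_cast hb'
    have e3 : ((b : ℚ) - d) ≠ 0 := by
      have : (0 : ℚ) < b - d := by exact_mod_cast (by omega : 0 < b - d)
      exact this.ne'
    have e4 : (t : ℚ) ≠ 0 := by
      have : (0 : ℚ) < t := by exact_mod_cast ht0
      exact this.ne'
    rw [e1, e2, hxt, hyt]
    push_cast
    field_simp
  have hdQ : (0 : ℚ) < (a : ℚ) * n + d := by exact_mod_cast hdpos
  have hbQ : (0 : ℚ) < (a : ℚ) * n + b := by exact_mod_cast hbpos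
  have eq2 : (x : ℚ) = (((a : ℚ) * n + d) / ((a : ℚ) * n + b)) * y := by
    rw [eq1]
    field_simp
  refine ⟨n, by exact_mod_cast hn'0, hbpos, hdpos, ?_, ?_⟩
  · have hq : (0 : ℚ) < ((a : ℚ) * n + b) / ((a : ℚ) * n + d) := div_pos hbQ hdQ
    have hm : MeasurableSet (A ∩ T (((a : ℚ) * n + b) / ((a : ℚ) * n + d)) ⁻¹' A) :=
      hA.inter ((hmp _ hq).measurable hA)
    rw [← (hmp x hxQ).measure_preimage hm.nullMeasurableSet]
    rw [Set.preimage_inter, ← Set.preimage_comp, ← hT _ _ hq hxQ, ← eq1]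
    exact hpos
  · have hq : (0 : ℚ) < ((a : ℚ) * n + d) / ((a : ℚ) * n + b) := div_pos hdQ hbQ
    have hm : MeasurableSet (A ∩ T (((a : ℚ) * n + d) / ((a : ℚ) * n + b)) ⁻¹' A) :=
      hA.inter ((hmp _ hq).measurable hA)
    rw [← (hmp y hyQ).measure_preimage hm.nullMeasurableSet]
    rw [Set.preimage_inter, ← Set.preimage_comp, ← hT _ _ hq hyQ, ← eq2, Set.inter_comm]
    exact hpos

theorem main : ∀ (a : ℕ) (b d : ℤ), 0 < a →
      (∀ k : ℤ, k ∣ (a : ℤ) → k ∣ b → k ∣ d → IsUnit k) →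
      (b = d ∨ (a : ℤ) ∣ b * d) →
      ∀ (X : Type) [MeasurableSpace X] (μ : Measure X) [IsProbabilityMeasure μ]
        (T : ℚ → X → X),
        T 1 = id →
        (∀ q r : ℚ, 0 < q → 0 < r → T (q * r) = T q ∘ T r) →
        (∀ q : ℚ, 0 < q → MeasurePreserving (T q) μ μ) →
        ∀ A : Set X, MeasurableSet A → 0 < μ A →
          ∃ n : ℕ, 0 < n ∧ 0 < (a : ℤ) * n + b ∧ 0 < (a : ℤ) * n + d ∧
            0 < μ (A ∩ T (((a : ℚ) * n + b) / ((a : ℚ) * n + d)) ⁻¹' A) := by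
  intro a b d ha hgcd hor X _ μ _ T hT1 hT hmp A hA hA0
  rcases lt_trichotomy b d with hlt | heq | hgt
  · have hdvd : (a : ℤ) ∣ d * b := by
      rw [mul_comm]
      exact hor.resolve_left hlt.ne
    obtain ⟨n, h1, h2, h3, _, h4⟩ := pos_main hT hmp hA hA0 a d b ha
      (fun k h1 h2 h3 => hgcd k h1 h3 h2) hdvd hlt
    exact ⟨n, h1, h3, h2, h4⟩
  · subst heq
    have hn : 0 < (a : ℤ) * ((b.natAbs + 1 : ℕ) : ℤ) + b := by
      have h1 : (1 : ℤ) ≤ a := by exact_mod_cast ha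
      have h2 := neg_abs_le b
      have h3 : (1 : ℤ) * (|b| + 1) ≤ a * (|b| + 1) :=
        mul_le_mul_of_nonneg_right h1 (by positivity)
      push_cast
      linarith
    refine ⟨b.natAbs + 1, by omega, hn, hn, ?_⟩
    have hq : (0 : ℚ) < (a : ℚ) * ((b.natAbs + 1 : ℕ) : ℚ) + b := by
      have h5 : ((0 : ℤ) : ℚ) < (((a : ℤ) * ((b.natAbs + 1 : ℕ) : ℤ) + b : ℤ) : ℚ) := Int.cast_lt.2 hn
      rw [Int.cast_add, Int.cast_mul, Int.cast_natCast, Int.cast_natCast, Int.cast_zero] at h5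
      exact h5
    rw [div_self hq.ne', hT1]
    simpa using hA0
  · obtain ⟨n, h1, h2, h3, h4, _⟩ := pos_main hT hmp hA hA0 a b d ha hgcd
      (hor.resolve_left hgt.ne') hgt
    exact ⟨n, h1, h2, h3, h4⟩
end

end Pool.Agent.X85.Ratio
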