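import Mathlib

/-! A broken-linear homeomorphism of the interval with an attracting fixed point. -/

set_option autoImplicit false
open MeasureTheory Filter Topology Set

namespace Pool.Agent.X85.BL

/-- the map: slope `1/2` on `[0, 1/2]` and slope `3/2` on `[1/2, 1]` -/
noncomputable def T (x : ℝ) : ℝ := if x ≤ 1 / 2 then x / 2 else (3 * x - 1) / 2

lemma T_low {x : ℝ} (h : x ≤ 1 / 2) : T x = x / 2 := if_pos h

lemma T_high {x : ℝ} (h : 1 / 2 ≤ x) : T x = (3 * x - 1) / 2 := by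
  rcases h.lt_or_eq with h | h
  · exact if_neg (not_le.2 h)
  · rw [← h, T_low le_rfl]; norm_num

lemma T_cont : Continuous T := by
  unfold T
  refine Continuous.if_le (by fun_prop) (by fun_prop) continuous_id continuous_const ?_
  intro x hx
  have hx' : x = 1 / 2 := hx
  rw [hx']; norm_num

lemma T_strictMono : StrictMono T := by
  intro x y h
  rcases le_or_gt x (1 / 2) with hx | hx <;> rcases le_or_gt y (1 / 2) with hy | hy
  · rw [T_low hx, T_low hy]; linarith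
  · rw [T_low hx, T_high hy.le]; linarith
  · linarith
  · rw [T_high hx.le, T_high hy.le]; linarith

lemma T_zero : T 0 = 0 := by rw [T_low (by norm_num)]; norm_num
lemma T_one : T 1 = 1 := by rw [T_high (by norm_num)]; norm_num

lemma T_Icc : MapsTo T (Icc 0 1) (Icc 0 1) := fun x hx =>
  ⟨by rw [← T_zero]; exact T_strictMono.monotone hx.1,
   by rw [← T_one]; exact T_strictMono.monotone hx.2⟩

lemma T_bij : BijOn T (Icc 0 1) (Icc 0 1) := by
  refine ⟨T_Icc, T_strictMono.injective.injOn, ?_⟩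
  have := intermediate_value_Icc (zero_le_one (α := ℝ)) T_cont.continuousOn
  rwa [T_zero, T_one] at this

lemma T_Ioo {x : ℝ} (hx : x ∈ Ioo (0 : ℝ) 1) : T x ∈ Ioo (0 : ℝ) 1 :=
  ⟨by rw [← T_zero]; exact T_strictMono hx.1, by rw [← T_one]; exact T_strictMono hx.2⟩

lemma iter_low {x : ℝ} (h0 : 0 ≤ x) (h : x ≤ 1 / 2) (i : ℕ) : T^[i] x = x / 2 ^ i := by
  induction i with
  | zero => simp
  | succ i ih =>
    rw [Function.iterate_succ_apply', ih, T_low, pow_succ]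
    · field_simp
    · refine (div_le_self h0 (one_le_pow₀ (by norm_num))).trans h

lemma enter {p : ℝ} (hp : p ∈ Ioo (0 : ℝ) 1) : ∃ n : ℕ, 0 < T^[n] p ∧ T^[n] p ≤ 1 / 2 := by
  by_contra hcon
  push Not at hcon
  have hmem : ∀ n : ℕ, T^[n] p ∈ Ioo (0 : ℝ) 1 := by
    intro n
    induction n with
    | zero => exact hp
    | succ n ih => rw [Function.iterate_succ_apply']; exact T_Ioo ih
  have hf : ∀ n : ℕ, 1 - T^[n] p = (3 / 2) ^ n * (1 - p) := by
    intro n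
    induction n with
    | zero => simp
    | succ n ih =>
      rw [Function.iterate_succ_apply', T_high (hcon n (hmem n).1).le, pow_succ]
      have : 1 - (3 * T^[n] p - 1) / 2 = (3 / 2) * (1 - T^[n] p) := by ring
      rw [this, ih]; ring
  obtain ⟨n, hn⟩ := pow_unbounded_of_one_lt (1 / (1 - p)) (by norm_num : (1 : ℝ) < 3 / 2)
  have h1 := hf n
  have h2 := (hmem n).1
  have h3 : 0 < 1 - p := by linarith [hp.2]
  rw [div_lt_iff₀ h3] at hn
  linarith

lemma level {x : ℝ} (h0 : 0 < x) (h : x ≤ 1 / 2) : ∃ k : ℕ, 1 / 2 < 2 ^ k * x ∧ 2 ^ k * x ≤ 1 := by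
  have hex : ∃ k : ℕ, 1 / 2 < 2 ^ k * x := by
    obtain ⟨k, hk⟩ := pow_unbounded_of_one_lt (1 / (2 * x)) (by norm_num : (1 : ℝ) < 2)
    refine ⟨k, ?_⟩
    rw [div_lt_iff₀ (by positivity)] at hk
    linarith
  classical
  refine ⟨Nat.find hex, Nat.find_spec hex, ?_⟩
  rcases Nat.eq_zero_or_pos (Nat.find hex) with h1 | h1
  · rw [h1]; linarith
  · have h2 := Nat.find_min hex (Nat.sub_lt h1 one_pos)
    push Not at h2
    have h3 : (2 : ℝ) ^ Nat.find hex = 2 * 2 ^ (Nat.find hex - 1) := by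
      rw [← pow_succ']; congr 1; omega
    rw [h3]; linarith

/-- the set built from the pieces `E k` of the fundamental domain `(1/2, 1]` -/
def R (E : ℕ → Set ℝ) : Set ℝ := {x | ∃ k : ℕ, 1 / 2 < 2 ^ k * x ∧ 2 ^ k * x ≤ 1 ∧ 2 ^ k * x ∈ E k}

lemma mem_R {E : ℕ → Set ℝ} {x : ℝ} {k : ℕ} (h1 : 1 / 2 < 2 ^ k * x) (h2 : 2 ^ k * x ≤ 1) :
    x ∈ R E ↔ 2 ^ k * x ∈ E k := by
  constructor
  · rintro ⟨j, h3, h4, h5⟩
    have hx : 0 < x := by
      by_contra hcon
      push Not at hcon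
      have : (2 : ℝ) ^ k * x ≤ 0 := mul_nonpos_of_nonneg_of_nonpos (by positivity) hcon
      linarith
    have key : ∀ i l : ℕ, 1 / 2 < 2 ^ i * x → 2 ^ l * x ≤ 1 → ¬ i < l := by
      intro i l h6 h7 hlt
      have h8 : (2 : ℝ) ^ (i + 1) ≤ 2 ^ l := pow_le_pow_right₀ (by norm_num) hlt
      have h9 : (2 : ℝ) ^ (i + 1) * x ≤ 2 ^ l * x := mul_le_mul_of_nonneg_right h8 hx.le
      have h10 : (2 : ℝ) ^ (i + 1) * x = 2 * (2 ^ i * x) := by ring
      linarith
    have : j = k := by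
      have := key j k h3 h2
      have := key k j h1 h4
      omega
    rw [← this]; exact h5
  · exact fun h => ⟨k, h1, h2, h⟩

lemma R_meas {E : ℕ → Set ℝ} (hE : ∀ k, MeasurableSet (E k)) : MeasurableSet (R E) := by
  have : R E = ⋃ k : ℕ, ((fun x : ℝ => (2 : ℝ) ^ k * x) ⁻¹' (Ioc (1 / 2) 1 ∩ E k)) := by
    ext x
    simp only [R, mem_ofPred_eq, mem_iUnion, mem_preimage, mem_inter_iff, mem_Ioc, and_assoc]
  rw [this]
  refine MeasurableSet.iUnion fun k => ?_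
  exact (measurable_const_mul _) (measurableSet_Ioc.inter (hE k))

lemma R_sub {E : ℕ → Set ℝ} : R E ⊆ Icc 0 1 := by
  rintro x ⟨k, h1, h2, _⟩
  have h3 : (0 : ℝ) < 2 ^ k := by positivity
  have h4 : (1 : ℝ) ≤ 2 ^ k := one_le_pow₀ (by norm_num)
  constructor
  · by_contra hcon
    push Not at hcon
    have : (2 : ℝ) ^ k * x ≤ 0 := mul_nonpos_of_nonneg_of_nonpos h3.le hcon.le
    linarith
  · by_contra hcon
    push Not at hcon
    nlinarith

/-- the averages -/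
noncomputable def A (R : Set ℝ) (p : ℝ) (N : ℕ) : ℝ :=
  (1 / (N : ℝ)) * ∑ i ∈ Finset.Icc 1 N, R.indicator (fun _ => (1 : ℝ)) (T^[i] p)

open Classical in
/-- the coding sequence -/
noncomputable def v (E : ℕ → Set ℝ) (y : ℝ) (k : ℕ) : ℝ := if y ∈ E k then 1 else 0

lemma v_abs (E : ℕ → Set ℝ) (y : ℝ) (k : ℕ) : |v E y k| ≤ 1 := by
  unfold v; split_ifs <;> simp

lemma sum_diff {u w : ℕ → ℝ} (hu : ∀ i, |u i| ≤ 1) (hw : ∀ i, |w i| ≤ 1) {a b : ℕ}
    (h : ∀ i, u (a + i) = w (b + i)) (N : ℕ) :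
    |∑ i ∈ Finset.range N, u i - ∑ i ∈ Finset.range N, w i| ≤ 2 * (a + b) := by
  have key : ∀ (z : ℕ → ℝ), (∀ i, |z i| ≤ 1) → ∀ n m : ℕ,
      |∑ i ∈ Finset.range (n + m), z i - ∑ i ∈ Finset.range n, z i| ≤ m := by
    intro z hz n m
    rw [Finset.sum_range_add, add_sub_cancel_left]
    refine (Finset.abs_sum_le_sum_abs _ _).trans ?_
    refine (Finset.sum_le_sum fun i _ => hz _).trans ?_
    simp
  have key0 : ∀ (z : ℕ → ℝ), (∀ i, |z i| ≤ 1) → ∀ m : ℕ, |∑ i ∈ Finset.range m, z i| ≤ m := by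
    intro z hz m
    have := key z hz 0 m
    simpa using this
  have e1 : ∑ i ∈ Finset.range (a + N), u i = ∑ i ∈ Finset.range a, u i +
      ∑ i ∈ Finset.range N, u (a + i) := Finset.sum_range_add _ _ _
  have e2 : ∑ i ∈ Finset.range (b + N), w i = ∑ i ∈ Finset.range b, w i +
      ∑ i ∈ Finset.range N, w (b + i) := Finset.sum_range_add _ _ _
  have e3 : ∑ i ∈ Finset.range N, u (a + i) = ∑ i ∈ Finset.range N, w (b + i) :=
    Finset.sum_congr rfl fun i _ => h i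
  have h1 := key u hu N a
  have h2 := key w hw N b
  rw [add_comm N a] at h1
  rw [add_comm N b] at h2
  have h3 := key0 u hu a
  have h4 := key0 w hw b
  rw [abs_le] at *
  constructor <;> linarith [h1.1, h1.2, h2.1, h2.2, h3.1, h3.2, h4.1, h4.2]

/-- the averages along the orbit are asymptotically those of the coding sequence -/
lemma avg_close (E : ℕ → Set ℝ) {p : ℝ} (hp : p ∈ Ioo (0 : ℝ) 1) :
    ∃ (n0 k0 : ℕ) (y : ℝ), 1 / 2 < y ∧ y ≤ 1 ∧ y = 2 ^ k0 * T^[n0] p ∧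
      Tendsto (fun N : ℕ => A (R E) p N - (∑ k ∈ Finset.range (N + 1), v E y k) / N) atTop (𝓝 0) := by
  obtain ⟨n0, hn0, hn1⟩ := enter hp
  obtain ⟨k0, hk0, hk1⟩ := level hn0 hn1
  refine ⟨n0, k0, 2 ^ k0 * T^[n0] p, hk0, hk1, rfl, ?_⟩
  set y : ℝ := 2 ^ k0 * T^[n0] p with hy
  set u : ℕ → ℝ := fun i => (R E).indicator (fun _ => (1 : ℝ)) (T^[i] p) with hu
  have hu1 : ∀ i, |u i| ≤ 1 := by
    intro i
    simp only [hu, indicator]
    split_ifs <;> simp
  have huv : ∀ i, u (n0 + i) = v E y (k0 + i) := by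
    intro i
    have e1 : T^[n0 + i] p = T^[n0] p / 2 ^ i := by
      rw [add_comm, Function.iterate_add_apply, iter_low hn0.le hn1]
    have e2 : (2 : ℝ) ^ (k0 + i) * (T^[n0] p / 2 ^ i) = y := by
      rw [hy, pow_add]; field_simp
    have h1 : T^[n0 + i] p ∈ R E ↔ y ∈ E (k0 + i) := by
      rw [e1, mem_R (k := k0 + i) (by rw [e2]; exact hk0) (by rw [e2]; exact hk1), e2]
    simp only [hu, v]
    by_cases h2 : y ∈ E (k0 + i)
    · rw [if_pos h2, indicator_of_mem (h1.2 h2)]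
    · rw [if_neg h2, indicator_of_notMem (fun h => h2 (h1.1 h))]
  have hb : ∀ N : ℕ, |A (R E) p N - (∑ k ∈ Finset.range (N + 1), v E y k) / N| ≤
      (2 * (n0 + k0) + 1) / N := by
    intro N
    have h1 := sum_diff hu1 (v_abs E y) huv (N + 1)
    have h2 : ∑ i ∈ Finset.Icc 1 N, u i = ∑ i ∈ Finset.range (N + 1), u i - u 0 := by
      rw [Finset.sum_range_succ', add_sub_cancel_right]
      rw [Finset.range_eq_Ico, Finset.sum_Ico_add' u 0 N 1]
      rfl
    have h3 : A (R E) p N - (∑ k ∈ Finset.range (N + 1), v E y k) / N =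
        (∑ i ∈ Finset.range (N + 1), u i - ∑ k ∈ Finset.range (N + 1), v E y k - u 0) / N := by
      unfold A
      change (1 / (N : ℝ)) * ∑ i ∈ Finset.Icc 1 N, u i - _ = _
      rw [h2]; ring
    rw [h3, abs_div, Nat.abs_cast]
    gcongr
    have h4 := hu1 0
    rw [abs_le] at *
    constructor <;> linarith [h1.1, h1.2, h4.1, h4.2]
  rw [tendsto_zero_iff_abs_tendsto_zero]
  refine squeeze_zero (fun _ => abs_nonneg _) hb ?_
  exact tendsto_const_div_atTop_nhds_zero_nat _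

/-! ### first question -/

/-- the levels used for the first question -/
def S1 : ℕ → Set ℝ := fun k => if Even (Nat.log 2 k) then univ else ∅

lemma cnt (j : ℕ) : (∑ k ∈ Finset.range (2 ^ (2 * j + 1)), v S1 1 k) ≥ 4 ^ j ∧
    3 * (∑ k ∈ Finset.range (2 ^ (2 * j)), v S1 1 k) ≤ 4 ^ j + 2 := by
  have v1 : ∀ k, Even (Nat.log 2 k) → v S1 1 k = 1 := fun k h => by simp [v, S1, h]
  have v0 : ∀ k, ¬ Even (Nat.log 2 k) → v S1 1 k = 0 := fun k h => by simp [v, S1, h]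
  have vn : ∀ k, 0 ≤ v S1 1 k := fun k => by unfold v; split_ifs <;> norm_num
  have h1 : ∀ j : ℕ, ∑ k ∈ Finset.Ico (2 ^ (2 * j)) (2 ^ (2 * j + 1)), v S1 1 k = 4 ^ j := by
    intro j
    rw [Finset.sum_congr rfl (g := fun _ => (1 : ℝ))]
    · rw [Finset.sum_const, Nat.card_Ico, nsmul_eq_mul, mul_one, pow_succ]
      have : 2 ^ (2 * j) * 2 - 2 ^ (2 * j) = 4 ^ j := by
        rw [pow_mul]; norm_num; omega
      rw [this]; push_cast; rfl
    · intro k hk
      rw [Finset.mem_Ico] at hk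
      have : Nat.log 2 k = 2 * j := Nat.log_eq_of_pow_le_of_lt_pow hk.1 hk.2
      exact v1 k (by rw [this]; exact even_two_mul j)
  have h2 : ∀ j : ℕ, ∑ k ∈ Finset.Ico (2 ^ (2 * j + 1)) (2 ^ (2 * (j + 1))), v S1 1 k = 0 := by
    intro j
    apply Finset.sum_eq_zero
    intro k hk
    rw [Finset.mem_Ico] at hk
    have : Nat.log 2 k = 2 * j + 1 := Nat.log_eq_of_pow_le_of_lt_pow hk.1 hk.2
    refine v0 k ?_
    rw [this, Nat.not_even_iff_odd]; exact odd_two_mul_add_one j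
  refine ⟨?_, ?_⟩
  · rw [← Finset.sum_range_add_sum_Ico _ (pow_le_pow_right₀ (by norm_num) (by omega) :
      2 ^ (2 * j) ≤ 2 ^ (2 * j + 1)), h1]
    have : 0 ≤ ∑ k ∈ Finset.range (2 ^ (2 * j)), v S1 1 k := Finset.sum_nonneg fun k _ => vn k
    linarith
  · induction j with
    | zero =>
      simp only [mul_zero, pow_zero, Finset.sum_range_one]
      have := v_abs S1 1 0
      rw [abs_le] at this
      linarith [this.2]
    | succ j ih =>
      rw [← Finset.sum_range_add_sum_Ico _ (pow_le_pow_right₀ (by norm_num) (by omega) :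
        2 ^ (2 * j + 1) ≤ 2 ^ (2 * (j + 1))), h2,
        ← Finset.sum_range_add_sum_Ico _ (pow_le_pow_right₀ (by norm_num) (by omega) :
        2 ^ (2 * j) ≤ 2 ^ (2 * j + 1)), h1, pow_succ]
      linarith

lemma v_S1 (y : ℝ) (k : ℕ) : v S1 y k = v S1 1 k := by
  unfold v S1
  by_cases h : Even (Nat.log 2 k) <;> simp [h]

lemma no_limit {p : ℝ} (hp : p ∈ Ioo (0 : ℝ) 1) (L : ℝ) : ¬ Tendsto (A (R S1) p) atTop (𝓝 L) := by
  intro hL
  obtain ⟨n0, k0, y, _, _, _, hclose⟩ := avg_close S1 hp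
  have hC : Tendsto (fun N : ℕ => (∑ k ∈ Finset.range (N + 1), v S1 1 k) / (N : ℝ)) atTop (𝓝 L) := by
    have := hL.sub hclose
    rw [sub_zero] at this
    refine this.congr fun N => ?_
    rw [sub_sub_cancel]
    congr 1
    exact Finset.sum_congr rfl fun k _ => v_S1 y k
  have t1 : Tendsto (fun j : ℕ => 2 ^ (2 * j + 1) - 1) atTop atTop := by
    refine tendsto_atTop_mono (fun j => ?_) tendsto_id
    have := (Nat.lt_two_pow_self : 2 * j + 1 < 2 ^ (2 * j + 1))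
    simp only [id]; omega
  have t2 : Tendsto (fun j : ℕ => 2 ^ (2 * (j + 1)) - 1) atTop atTop := by
    refine tendsto_atTop_mono (fun j => ?_) tendsto_id
    have := (Nat.lt_two_pow_self : 2 * (j + 1) < 2 ^ (2 * (j + 1)))
    simp only [id]; omega
  have l1 : 1 / 2 ≤ L := by
    refine ge_of_tendsto (hC.comp t1) (Eventually.of_forall fun j => ?_)
    simp only [Function.comp_apply]
    have h1 := (cnt j).1
    have h2 : 1 ≤ 2 ^ (2 * j + 1) := Nat.one_le_two_pow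
    rw [Nat.sub_add_cancel h2, Nat.cast_sub h2]
    have h3 : ((2 ^ (2 * j + 1) : ℕ) : ℝ) = 2 * 4 ^ j := by
      push_cast; rw [pow_succ, pow_mul]; norm_num; ring
    rw [h3]
    have h4 : (1 : ℝ) ≤ 4 ^ j := one_le_pow₀ (by norm_num)
    rw [le_div_iff₀ (by push_cast; linarith)]
    push_cast
    linarith
  have l2 : L ≤ 1 / 3 := by
    have hlim : Tendsto (fun j : ℕ => 1 / 3 + (1 : ℝ) / (4 ^ (j + 1) - 1)) atTop (𝓝 (1 / 3)) := by
      have h0 : Tendsto (fun j : ℕ => (1 : ℝ) / (4 ^ (j + 1) - 1)) atTop (𝓝 0) := by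
        have h5 : Tendsto (fun j : ℕ => (4 : ℝ) ^ (j + 1) - 1) atTop atTop := by
          have := (tendsto_pow_atTop_atTop_of_one_lt (by norm_num : (1 : ℝ) < 4)).comp
            (tendsto_add_atTop_nat 1)
          exact tendsto_atTop_add_const_right _ (-1) this
        exact tendsto_const_nhds.div_atTop h5
      have h6 := h0.const_add (1 / 3)
      rwa [add_zero] at h6
    refine le_of_tendsto_of_tendsto (hC.comp t2) hlim (Eventually.of_forall fun j => ?_)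
    simp only [Function.comp_apply]
    have h1 := (cnt (j + 1)).2
    have h2 : 1 ≤ 2 ^ (2 * (j + 1)) := Nat.one_le_two_pow
    rw [Nat.sub_add_cancel h2, Nat.cast_sub h2]
    have h3 : ((2 ^ (2 * (j + 1)) : ℕ) : ℝ) = 4 ^ (j + 1) := by
      push_cast; rw [pow_mul]; norm_num
    rw [h3]
    have h4 : (4 : ℝ) ≤ 4 ^ (j + 1) := by
      have : (1 : ℝ) ≤ 4 ^ j := one_le_pow₀ (by norm_num)
      rw [pow_succ]; linarith
    have h5 : (0 : ℝ) < 4 ^ (j + 1) - 1 := by linarith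
    rw [Nat.cast_one, div_le_iff₀ h5, add_mul, div_mul_cancel₀ _ h5.ne']
    linarith
  linarith

/-! ### second question -/

/-- the levels used for the second question -/
def S2 : ℕ → Set ℝ := fun k => {y | ⌊((k : ℝ) + 1) * (2 * y - 1)⌋ = ⌊(k : ℝ) * (2 * y - 1)⌋ + 1}

lemma S2_meas (k : ℕ) : MeasurableSet (S2 k) := by
  have h1 : Measurable fun y : ℝ => ⌊((k : ℝ) + 1) * (2 * y - 1)⌋ := by fun_prop
  have h2 : Measurable fun y : ℝ => ⌊(k : ℝ) * (2 * y - 1)⌋ + 1 := by fun_prop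
  exact measurableSet_eq_fun h1 h2

lemma v_S2 {y : ℝ} (h1 : 1 / 2 < y) (h2 : y ≤ 1) (k : ℕ) :
    v S2 y k = ((⌊((k + 1 : ℕ) : ℝ) * (2 * y - 1)⌋ - ⌊(k : ℝ) * (2 * y - 1)⌋ : ℤ) : ℝ) := by
  set g := 2 * y - 1 with hg
  have hg0 : 0 < g := by rw [hg]; linarith
  have hg1 : g ≤ 1 := by rw [hg]; linarith
  have h3 : ((k + 1 : ℕ) : ℝ) * g = (k : ℝ) * g + g := by push_cast; ring
  have h4 : ⌊(k : ℝ) * g⌋ ≤ ⌊((k + 1 : ℕ) : ℝ) * g⌋ := by
    rw [h3]; exact Int.floor_le_floor (by linarith)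
  have h5 : ⌊((k + 1 : ℕ) : ℝ) * g⌋ ≤ ⌊(k : ℝ) * g⌋ + 1 := by
    rw [h3, ← Int.floor_add_one]; exact Int.floor_le_floor (by linarith)
  have e : ((k : ℝ) + 1) = ((k + 1 : ℕ) : ℝ) := by push_cast; ring
  unfold v S2
  by_cases h : ⌊((k + 1 : ℕ) : ℝ) * g⌋ = ⌊(k : ℝ) * g⌋ + 1
  · rw [if_pos (by rw [mem_ofPred_eq, ← hg, e]; exact h), h]
    simp
  · rw [if_neg (by rw [mem_ofPred_eq, ← hg, e]; exact h)]
    have : ⌊((k + 1 : ℕ) : ℝ) * g⌋ = ⌊(k : ℝ) * g⌋ := by omega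
    rw [this]; simp

lemma sum_S2 {y : ℝ} (h1 : 1 / 2 < y) (h2 : y ≤ 1) (N : ℕ) :
    ∑ k ∈ Finset.range N, v S2 y k = ((⌊(N : ℝ) * (2 * y - 1)⌋ : ℤ) : ℝ) := by
  induction N with
  | zero => simp
  | succ N ih =>
    rw [Finset.sum_range_succ, ih, v_S2 h1 h2]
    push_cast; ring

lemma lim_S2 {y : ℝ} (h1 : 1 / 2 < y) (h2 : y ≤ 1) :
    Tendsto (fun N : ℕ => (∑ k ∈ Finset.range (N + 1), v S2 y k) / (N : ℝ)) atTop
      (𝓝 (2 * y - 1)) := by
  have h3 : Tendsto (fun N : ℕ => (⌊(2 * y - 1) * ((N : ℝ) + 1)⌋ : ℝ) / ((N : ℝ) + 1)) atTop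
      (𝓝 (2 * y - 1)) := by
    rw [tendsto_iff_norm_sub_tendsto_zero]
    refine squeeze_zero (fun _ => norm_nonneg _) (fun N => ?_)
      tendsto_one_div_add_atTop_nhds_zero_nat
    have hN : (0 : ℝ) < (N : ℝ) + 1 := by positivity
    have e : (⌊(2 * y - 1) * ((N : ℝ) + 1)⌋ : ℝ) / ((N : ℝ) + 1) - (2 * y - 1) =
        ((⌊(2 * y - 1) * ((N : ℝ) + 1)⌋ : ℝ) - (2 * y - 1) * ((N : ℝ) + 1)) / ((N : ℝ) + 1) := by
      field_simp
    rw [e, norm_div, Real.norm_eq_abs, Real.norm_eq_abs, abs_of_pos hN]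
    gcongr
    have k1 := Int.floor_le ((2 * y - 1) * ((N : ℝ) + 1))
    have k2 := Int.lt_floor_add_one ((2 * y - 1) * ((N : ℝ) + 1))
    rw [abs_le]; constructor <;> linarith
  have h4 : Tendsto (fun N : ℕ => ((N : ℝ) + 1) / (N : ℝ)) atTop (𝓝 1) := by
    have h5 : Tendsto (fun N : ℕ => 1 + 1 / (N : ℝ)) atTop (𝓝 (1 + 0)) :=
      tendsto_one_div_atTop_nhds_zero_nat.const_add 1
    rw [add_zero] at h5
    refine h5.congr' ?_
    filter_upwards [eventually_gt_atTop 0] with N hN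
    have : (N : ℝ) ≠ 0 := by positivity
    field_simp
  have h6 := h3.mul h4
  rw [mul_one] at h6
  refine h6.congr' ?_
  filter_upwards [eventually_gt_atTop 0] with N hN
  have : (N : ℝ) ≠ 0 := by positivity
  have h7 : (N : ℝ) + 1 ≠ 0 := by positivity
  rw [sum_S2 h1 h2, mul_comm (2 * y - 1)]
  push_cast
  field_simp

lemma iter_inj (n : ℕ) : Function.Injective T^[n] := T_strictMono.injective.iterate n

lemma limit_exists {p : ℝ} (hp : p ∈ Ioo (0 : ℝ) 1) :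
    ∃ (n k : ℕ) (l : ℝ), Tendsto (A (R S2) p) atTop (𝓝 l) ∧ (l + 1) / 2 = 2 ^ k * T^[n] p := by
  obtain ⟨n0, k0, y, hy0, hy1, hy, hclose⟩ := avg_close S2 hp
  refine ⟨n0, k0, 2 * y - 1, ?_, by rw [← hy]; ring⟩
  have := hclose.add (lim_S2 hy0 hy1)
  rw [zero_add] at this
  refine this.congr fun N => ?_
  ring

lemma limit_end {p : ℝ} (hp : T p = p) (R : Set ℝ) :
    Tendsto (A R p) atTop (𝓝 (R.indicator (fun _ => (1 : ℝ)) p)) := by
  refine tendsto_const_nhds.congr' ?_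
  filter_upwards [eventually_gt_atTop 0] with N hN
  unfold A
  have hN' : (N : ℝ) ≠ 0 := by positivity
  have : ∀ i ∈ Finset.Icc 1 N, R.indicator (fun _ => (1 : ℝ)) (T^[i] p) =
      R.indicator (fun _ => (1 : ℝ)) p := by
    intro i _
    rw [Function.iterate_fixed hp]
  rw [Finset.sum_congr rfl this, Finset.sum_const, Nat.card_Icc, nsmul_eq_mul]
  simp only [add_tsub_cancel_right]
  field_simp

lemma second : ∃ L : ℝ → ℝ, (∀ p ∈ Icc (0 : ℝ) 1, Tendsto (A (R S2) p) atTop (𝓝 (L p))) ∧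
    ∀ Z ⊆ Icc (0 : ℝ) 1, volume Z ≠ 0 → ¬ (L '' Z).Countable := by
  have hex : ∀ p : ℝ, ∃ l : ℝ, p ∈ Icc (0 : ℝ) 1 → Tendsto (A (R S2) p) atTop (𝓝 l) := by
    intro p
    by_cases hp : p ∈ Ioo (0 : ℝ) 1
    · obtain ⟨_, _, l, hl, _⟩ := limit_exists hp
      exact ⟨l, fun _ => hl⟩
    · by_cases hp2 : p ∈ Icc (0 : ℝ) 1
      · have hp3 : T p = p := by
          rcases hp2.1.lt_or_eq with h | h
          · rcases hp2.2.lt_or_eq with h' | h'
            · exact absurd ⟨h, h'⟩ hp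
            · rw [h']; exact T_one
          · rw [← h]; exact T_zero
        exact ⟨_, fun _ => limit_end hp3 _⟩
      · exact ⟨0, fun h => absurd h hp2⟩
  choose L hL using hex
  refine ⟨L, fun p hp => hL p hp, fun Z hZ hvol hc => hvol ?_⟩
  -- `Z` is contained in a countable set
  have hsub : Z ⊆ {0, 1} ∪ ⋃ l ∈ L '' Z, ⋃ n : ℕ, ⋃ k : ℕ, {p | (l + 1) / 2 = 2 ^ k * T^[n] p} := by
    intro p hp
    by_cases hp1 : p ∈ Ioo (0 : ℝ) 1
    · right
      obtain ⟨n, k, l, hl, hlk⟩ := limit_exists hp1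
      have e : l = L p := tendsto_nhds_unique hl (hL p (hZ hp))
      simp only [mem_iUnion]
      exact ⟨L p, mem_image_of_mem L hp, n, k, by rw [mem_ofPred_eq, ← e]; exact hlk⟩
    · left
      have hp2 := hZ hp
      rcases hp2.1.lt_or_eq with h | h
      · rcases hp2.2.lt_or_eq with h' | h'
        · exact absurd ⟨h, h'⟩ hp1
        · right; exact h'
      · left; exact h.symm
  refine measure_mono_null hsub (Set.Countable.measure_zero ?_ _)
  refine ((countable_singleton (1 : ℝ)).insert 0).union ?_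
  refine hc.biUnion fun l _ => countable_iUnion fun n => countable_iUnion fun k => ?_
  refine Set.Subsingleton.countable ?_
  intro p hp q hq
  have h1 : (2 : ℝ) ^ k * T^[n] p = 2 ^ k * T^[n] q := by
    rw [mem_ofPred_eq] at hp hq
    rw [← hp, ← hq]
  have h2 : T^[n] p = T^[n] q := mul_left_cancel₀ (by positivity) h1
  exact iter_inj n h2

end Pool.Agent.X85.BL
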