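import Mathlib

/-! The two-sided Bernoulli shift is mixing. -/

set_option autoImplicit false
open MeasureTheory Filter Topology ProbabilityTheory Set
open scoped ENNReal symmDiff

namespace Pool.Agent.X85.Bern

variable {Y : Type*} [MeasurableSpace Y] (ν : Measure Y) [IsProbabilityMeasure ν]

/-- the product measure on two-sided sequences -/
noncomputable def P : Measure (ℤ → Y) := Measure.infinitePi (fun _ : ℤ => ν)

instance : IsProbabilityMeasure (P ν) := by unfold P; infer_instance

/-- the shift by `n` -/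
def sh (n : ℤ) (ω : ℤ → Y) : ℤ → Y := fun i => ω (i + n)

omit [MeasurableSpace Y] in
lemma sh_zero (ω : ℤ → Y) : sh 0 ω = ω := by funext i; simp [sh]

omit [MeasurableSpace Y] in
lemma sh_sh (m n : ℤ) (ω : ℤ → Y) : sh m (sh n ω) = sh (m + n) ω := by
  funext i; simp only [sh]; congr 1; ring

lemma measurable_sh (n : ℤ) : Measurable (sh n : (ℤ → Y) → (ℤ → Y)) :=
  measurable_pi_lambda _ fun _ => measurable_pi_apply _

lemma mp_sh (n : ℤ) : MeasurePreserving (sh n) (P ν) (P ν) := by
  classical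
  refine ⟨measurable_sh n, ?_⟩
  unfold P
  apply Measure.eq_infinitePi
  intro s t ht
  rw [Measure.map_apply (measurable_sh n) (MeasurableSet.pi s.countable_toSet fun i _ => ht i)]
  have e : (sh n) ⁻¹' (Set.pi s t) =
      Set.pi (s.map (Equiv.addRight n).toEmbedding : Finset ℤ) (fun y => t (y - n)) := by
    ext v
    simp only [Set.mem_preimage, Set.mem_pi, Finset.mem_coe, Finset.mem_map,
      Equiv.coe_toEmbedding, Equiv.coe_addRight]
    constructor
    · rintro h _ ⟨y, hy, rfl⟩
      rw [add_sub_cancel_right]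
      exact h y hy
    · intro h y hy
      have := h (y + n) ⟨y, hy, rfl⟩
      rwa [add_sub_cancel_right] at this
  rw [e, Measure.infinitePi_pi]
  · rw [Finset.prod_map]
    refine Finset.prod_congr rfl (fun y _ => ?_)
    have h0 : y + n - n = y := add_sub_cancel_right y n
    change ν (t (y + n - n)) = _
    rw [h0]
  · intro y hy
    rw [Finset.mem_map] at hy
    obtain ⟨y', hy', rfl⟩ := hy
    exact ht _

lemma iIndep : iIndepFun (fun (i : ℤ) (ω : ℤ → Y) => ω i) (P ν) := by
  have := iIndepFun_infinitePi (P := fun _ : ℤ => ν) (X := fun (_ : ℤ) (y : Y) => y)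
    (fun _ => measurable_id)
  exact this

lemma map_eval (i : ℤ) : (P ν).map (fun ω => ω i) = ν :=
  Measure.infinitePi_map_eval (fun _ : ℤ => ν) i

/-- a cylinder set is independent of its far translates -/
lemma cyl_indep (I : Finset ℤ) (S : Set (I → Y)) (hS : MeasurableSet S) :
    ∀ᶠ n : ℕ in atTop, P ν (cylinder I S ∩ sh n ⁻¹' cylinder I S) =
      P ν (cylinder I S) * P ν (cylinder I S) := by
  classical
  obtain ⟨M, hM⟩ : ∃ M : ℕ, ∀ i ∈ I, |i| ≤ M := by
    refine ⟨I.sup fun i => i.natAbs, fun i hi => ?_⟩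
    have : i.natAbs ≤ I.sup fun i => i.natAbs := Finset.le_sup (f := fun i : ℤ => i.natAbs) hi
    rw [Int.abs_eq_natAbs]
    exact_mod_cast this
  filter_upwards [eventually_gt_atTop (2 * M)] with n hn
  set J : Finset ℤ := I.map (Equiv.addRight (n : ℤ)).toEmbedding with hJ
  have hdisj : Disjoint I J := by
    rw [Finset.disjoint_left]
    intro i hi hiJ
    rw [hJ, Finset.mem_map] at hiJ
    obtain ⟨j, hj, hji⟩ := hiJ
    have h1 := hM i hi
    have h2 := hM j hj
    have h3 : j + (n : ℤ) = i := hji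
    rw [abs_le] at h1 h2
    omega
  have hind := (iIndep ν).indepFun_finset I J hdisj (fun i => measurable_pi_apply i)
  -- the translated cylinder as a function of the coordinates in `J`
  let g : (J → Y) → (I → Y) := fun v i => v ⟨i.1 + n, by
    rw [hJ, Finset.mem_map]; exact ⟨i.1, i.2, rfl⟩⟩
  have hg : Measurable g := measurable_pi_lambda _ fun i => measurable_pi_apply _
  have hpre : sh (n : ℤ) ⁻¹' cylinder I S = (fun (ω : ℤ → Y) (i : J) => ω i) ⁻¹' (g ⁻¹' S) := by
    ext ω
    rfl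
  have hcyl : cylinder I S = (fun (ω : ℤ → Y) (i : I) => ω i) ⁻¹' S := rfl
  have h := hind.measure_inter_preimage_eq_mul S (g ⁻¹' S) hS (hg hS)
  have h2 : P ν (sh (n : ℤ) ⁻¹' cylinder I S) = P ν (cylinder I S) :=
    (mp_sh ν n).measure_preimage (MeasurableSet.cylinder I hS).nullMeasurableSet
  have h3 : P ν (cylinder I S ∩ sh (n : ℤ) ⁻¹' cylinder I S) =
      P ν (cylinder I S) * P ν (sh (n : ℤ) ⁻¹' cylinder I S) := by
    rw [hpre, hcyl]; exact h
  rw [h3, h2]

lemma approx {A : Set (ℤ → Y)} (hA : MeasurableSet A) {ε : ℝ} (hε : 0 < ε) :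
    ∃ (I : Finset ℤ) (S : Set (I → Y)), MeasurableSet S ∧
      (P ν).real (A ∆ cylinder I S) < ε := by
  have hdense := Measure.MeasureDense.of_generateFrom_isSetAlgebra_finite (P ν)
    (𝒜 := measurableCylinders (fun _ : ℤ => Y))
    ⟨empty_mem_measurableCylinders _, fun s hs => compl_mem_measurableCylinders hs,
      fun s t hs ht => union_mem_measurableCylinders hs ht⟩ generateFrom_measurableCylinders.symm
  obtain ⟨B, hB, hAB⟩ := hdense.approx A hA (measure_ne_top _ A) (ε / 2) (by linarith)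
  obtain ⟨I, S, hS, rfl⟩ := (mem_measurableCylinders B).1 hB
  refine ⟨I, S, hS, ?_⟩
  rw [Measure.real]
  refine lt_of_le_of_lt (ENNReal.toReal_le_of_le_ofReal (by linarith) hAB.le) (by linarith)

omit [IsProbabilityMeasure ν] in
lemma real_sub_le {X : Type*} [MeasurableSpace X] (μ : Measure X) [IsFiniteMeasure μ] (A B : Set X) : |μ.real A - μ.real B| ≤ μ.real (A ∆ B) := by
  have h1 : μ.real A ≤ μ.real B + μ.real (A ∆ B) := by
    calc μ.real A ≤ μ.real (B ∪ A ∆ B) := measureReal_mono (by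
          intro x hx
          by_cases hxB : x ∈ B
          · exact Or.inl hxB
          · exact Or.inr (Or.inl ⟨hx, hxB⟩)) (measure_ne_top _ _)
      _ ≤ _ := measureReal_union_le _ _
  have h2 : μ.real B ≤ μ.real A + μ.real (A ∆ B) := by
    calc μ.real B ≤ μ.real (A ∪ A ∆ B) := measureReal_mono (by
          intro x hx
          by_cases hxA : x ∈ A
          · exact Or.inl hxA
          · exact Or.inr (Or.inr ⟨hx, hxA⟩)) (measure_ne_top _ _)
      _ ≤ _ := measureReal_union_le _ _
  rw [abs_le]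
  constructor <;> linarith

/-- **mixing of the Bernoulli shift** -/
theorem mixing {A : Set (ℤ → Y)} (hA : MeasurableSet A) :
    Tendsto (fun n : ℕ => (P ν).real (A ∩ sh n ⁻¹' A)) atTop (𝓝 ((P ν).real A ^ 2)) := by
  rw [Metric.tendsto_atTop]
  intro ε hε
  obtain ⟨I, S, hS, hlt⟩ := approx ν hA (ε := ε / 8) (by linarith)
  have hC : MeasurableSet (cylinder I S : Set (ℤ → Y)) := MeasurableSet.cylinder I hS
  obtain ⟨N, hN⟩ := eventually_atTop.1 (cyl_indep ν I S hS)
  refine ⟨N, fun n hn => ?_⟩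
  have h0 := hN n hn
  set C : Set (ℤ → Y) := cylinder I S with hCdef
  have h1 : (P ν).real (C ∩ sh n ⁻¹' C) = (P ν).real C ^ 2 := by
    rw [Measure.real, h0, ENNReal.toReal_mul, Measure.real]; ring
  have h2 : |(P ν).real A - (P ν).real C| ≤ (P ν).real (A ∆ C) := real_sub_le _ A C
  have h3 : |(P ν).real (A ∩ sh n ⁻¹' A) - (P ν).real (C ∩ sh n ⁻¹' C)| ≤
      2 * (P ν).real (A ∆ C) := by
    refine (real_sub_le _ _ _).trans ?_
    calc (P ν).real ((A ∩ sh n ⁻¹' A) ∆ (C ∩ sh n ⁻¹' C))
        ≤ (P ν).real (A ∆ C ∪ sh n ⁻¹' (A ∆ C)) := measureReal_mono (by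
          intro x hx
          rcases hx with ⟨⟨h1, h2⟩, h3⟩ | ⟨⟨h1, h2⟩, h3⟩
          · by_cases hx1 : x ∈ C
            · right; left
              exact ⟨h2, fun h => h3 ⟨hx1, h⟩⟩
            · left; left; exact ⟨h1, hx1⟩
          · by_cases hx1 : x ∈ A
            · right; right
              exact ⟨h2, fun h => h3 ⟨hx1, h⟩⟩
            · left; right; exact ⟨h1, hx1⟩) (measure_ne_top _ _)
      _ ≤ (P ν).real (A ∆ C) + (P ν).real (sh n ⁻¹' (A ∆ C)) := measureReal_union_le _ _
      _ = 2 * (P ν).real (A ∆ C) := by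
          have : (P ν).real (sh n ⁻¹' (A ∆ C)) = (P ν).real (A ∆ C) := by
            rw [Measure.real, Measure.real,
              (mp_sh ν n).measure_preimage (hA.symmDiff hC).nullMeasurableSet]
          rw [this]; ring
  have ha1 : (P ν).real A ≤ 1 := measureReal_le_one
  have ha0 : 0 ≤ (P ν).real A := measureReal_nonneg
  have hc1 : (P ν).real C ≤ 1 := measureReal_le_one
  have hc0 : 0 ≤ (P ν).real C := measureReal_nonneg
  rw [Real.dist_eq]
  have h4 : |(P ν).real C ^ 2 - (P ν).real A ^ 2| ≤ 2 * (P ν).real (A ∆ C) := by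
    have : (P ν).real C ^ 2 - (P ν).real A ^ 2 =
        -((P ν).real A - (P ν).real C) * ((P ν).real C + (P ν).real A) := by ring
    rw [this, abs_mul, abs_neg]
    have h5 : |(P ν).real C + (P ν).real A| ≤ 2 := by
      rw [abs_of_nonneg (by linarith)]; linarith
    calc _ ≤ (P ν).real (A ∆ C) * 2 := mul_le_mul h2 h5 (abs_nonneg _) measureReal_nonneg
      _ = _ := by ring
  have h6 : |(P ν).real (A ∩ sh n ⁻¹' A) - (P ν).real A ^ 2| ≤
      |(P ν).real (A ∩ sh n ⁻¹' A) - (P ν).real (C ∩ sh n ⁻¹' C)| +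
        |(P ν).real C ^ 2 - (P ν).real A ^ 2| := by
    have := abs_add_le ((P ν).real (A ∩ sh n ⁻¹' A) - (P ν).real (C ∩ sh n ⁻¹' C))
      ((P ν).real C ^ 2 - (P ν).real A ^ 2)
    rw [h1] at this ⊢
    refine le_trans (le_of_eq ?_) this
    congr 1; ring
  linarith

end Pool.Agent.X85.Bern
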