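import Pool.Agent.Y957.MC.Box
import Pool.Agent.Y957.MC.Fin4

set_option autoImplicit false

/-!
# Unrestricted boxes: arbitrary bounded weights and generic times of flows

`flw_Linf` extends `Pool.Agent.Y957.MC.flwc_all` to complex functions in `L^∞` and to all bounded arrays of
weights; `sysbox` is the version for several flows and weights which depend on the point.
-/

namespace Pool.Agent.X85.BoxW

open MeasureTheory Filter Finset Pool.Agent.Y957.MC

universe u

/-- complex functions -/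
theorem flw_cx {X : Type u} [MeasurableSpace X] {μ : Measure X} [IsProbabilityMeasure μ] {τ : ℝ → X → X}
    (hτ : IsFlow μ τ) {k : ℕ} (c : Fin k → ℝ) {h : X → ℂ} (hh : Measurable h)
    (hhb : ∃ C : ℝ, ∀ x, ‖h x‖ ≤ C) :
    ∀ᵐ x ∂μ, ∀ B : (Fin k → ℕ) → ℂ, (∀ m, ‖B m‖ ≤ 1) → ∀ᵐ a : ℝ, ∀ i, c i ≠ 0 →
      TZ i (fun M => bavg M (fun m => B m * (h (τ (a * lin c m) x) - (μ[h | flowInv τ]) x))) := by
  obtain ⟨C, hC⟩ := hhb
  have hint : Integrable h μ := Integrable.of_bound hh.aestronglyMeasurable C (ae_of_all _ hC)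
  have h1 : ∀ᵐ x ∂μ, ∀ i, c i ≠ 0 → ∀ B : (Fin k → ℕ) → ℂ, (∀ m, ‖B m‖ ≤ 1) → ∀ᵐ a : ℝ,
      TZ i (fun M => bavg M (fun m => B m * ((((h (τ (a * lin c m) x)).re -
        (μ[fun y => (h y).re | flowInv τ]) x : ℝ)) : ℂ))) := by
    rw [ae_all_iff]
    intro i
    by_cases hi : c i = 0
    · exact ae_of_all _ fun x h => absurd hi h
    · filter_upwards [flwc_all k c i hi X μ τ (fun y => (h y).re) hτ (Complex.measurable_re.comp hh)
        ⟨C, fun x => (Complex.abs_re_le_norm _).trans (hC x)⟩] with x hx _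
      exact hx
  have h2 : ∀ᵐ x ∂μ, ∀ i, c i ≠ 0 → ∀ B : (Fin k → ℕ) → ℂ, (∀ m, ‖B m‖ ≤ 1) → ∀ᵐ a : ℝ,
      TZ i (fun M => bavg M (fun m => B m * ((((h (τ (a * lin c m) x)).im -
        (μ[fun y => (h y).im | flowInv τ]) x : ℝ)) : ℂ))) := by
    rw [ae_all_iff]
    intro i
    by_cases hi : c i = 0
    · exact ae_of_all _ fun x h => absurd hi h
    · filter_upwards [flwc_all k c i hi X μ τ (fun y => (h y).im) hτ (Complex.measurable_im.comp hh)
        ⟨C, fun x => (Complex.abs_im_le_norm _).trans (hC x)⟩] with x hx _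
      exact hx
  filter_upwards [h1, h2, condExp_re_im (m := flowInv τ) hint] with x hx1 hx2 hx3 B hB
  rw [ae_all_iff]
  intro i
  by_cases hi : c i = 0
  · exact ae_of_all _ fun x h => absurd hi h
  filter_upwards [hx1 i hi B hB, hx2 i hi B hB] with a ha1 ha2 _
  have h3 := Pool.Agent.Y405.MC3.TZ_add ha1 (Pool.Agent.Y259.MC.TZ_smul ha2 Complex.I)
  convert h3 using 2 with M
  unfold bavg
  have e0 : ∑ m ∈ box M, B m * (h (τ (a * lin c m) x) - (μ[h | flowInv τ]) x) =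
      ∑ m ∈ box M, B m * ((((h (τ (a * lin c m) x)).re - (μ[fun y => (h y).re | flowInv τ]) x : ℝ)) : ℂ) +
      Complex.I * ∑ m ∈ box M, B m *
        ((((h (τ (a * lin c m) x)).im - (μ[fun y => (h y).im | flowInv τ]) x : ℝ)) : ℂ) := by
    rw [hx3, mul_sum, ← sum_add_distrib]
    refine sum_congr rfl fun m _ => ?_
    have e : h (τ (a * lin c m) x) = (((h (τ (a * lin c m) x)).re : ℝ) : ℂ) +
        (((h (τ (a * lin c m) x)).im : ℝ) : ℂ) * Complex.I := (Complex.re_add_im _).symm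
    rw [e]
    simp only [Complex.add_re, Complex.ofReal_re, Complex.mul_re, Complex.I_re, Complex.I_im, Complex.add_im,
      Complex.ofReal_im, Complex.mul_im]
    push_cast
    ring
  rw [e0]
  ring

/-- scaling of the weights -/
lemma bavg_smul {k : ℕ} (M : Fin k → ℕ) (D : ℂ) (h : (Fin k → ℕ) → ℂ) :
    bavg M (fun m => D * h m) = D * bavg M h := by
  unfold bavg
  rw [← mul_sum]
  ring

/-- all bounded weights -/
theorem flw_bd {X : Type u} [MeasurableSpace X] {μ : Measure X} [IsProbabilityMeasure μ] {τ : ℝ → X → X}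
    (hτ : IsFlow μ τ) {k : ℕ} (c : Fin k → ℝ) {h : X → ℂ} (hh : Measurable h)
    (hhb : ∃ C : ℝ, ∀ x, ‖h x‖ ≤ C) :
    ∀ᵐ x ∂μ, ∀ B : (Fin k → ℕ) → ℂ, (∃ C : ℝ, ∀ m, ‖B m‖ ≤ C) → ∀ᵐ a : ℝ, ∀ i, c i ≠ 0 →
      TZ i (fun M => bavg M (fun m => B m * (h (τ (a * lin c m) x) - (μ[h | flowInv τ]) x))) := by
  filter_upwards [flw_cx hτ c hh hhb] with x hx B hB
  obtain ⟨C0, hC0⟩ := hB
  set D : ℝ := max C0 1 with hD
  have hD1 : 1 ≤ D := le_max_right _ _
  have hDpos : 0 < D := by linarith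
  have hDne : (D : ℂ) ≠ 0 := by exact_mod_cast hDpos.ne'
  have h4 := hx (fun m => B m / D) (fun m => by
    rw [norm_div, Complex.norm_real, Real.norm_of_nonneg hDpos.le, div_le_one hDpos]
    exact (hC0 m).trans (le_max_left _ _))
  filter_upwards [h4] with a ha i hi
  have h5 := Pool.Agent.Y259.MC.TZ_smul (ha i hi) (D : ℂ)
  convert h5 using 2 with M
  rw [← bavg_smul]
  congr 1
  funext m
  field_simp

/-- `L^∞` functions, all bounded weights -/
theorem flw_Linf {X : Type u} [MeasurableSpace X] {μ : Measure X} [IsProbabilityMeasure μ] {τ : ℝ → X → X}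
    (hτ : IsFlow μ τ) {k : ℕ} (c : Fin k → ℝ) {h : X → ℂ} (hh : AEStronglyMeasurable h μ)
    (hhb : ∃ C : ℝ, ∀ᵐ x ∂μ, ‖h x‖ ≤ C) :
    ∀ᵐ x ∂μ, ∀ B : (Fin k → ℕ) → ℂ, (∃ C : ℝ, ∀ m, ‖B m‖ ≤ C) → ∀ᵐ a : ℝ, ∀ i, c i ≠ 0 →
      TZ i (fun M => bavg M (fun m => B m * (h (τ (a * lin c m) x) - (μ[h | flowInv τ]) x))) := by
  obtain ⟨g, hgm, hgb, hhg⟩ := exists_version hh hhb
  have h2 : ∀ᵐ x ∂μ, (μ[h | flowInv τ]) x = (μ[g | flowInv τ]) x := condExp_congr_ae hhg
  -- for a.e. point, for a.e. time, the two functions agree at all points of the orbit which occur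
  have h3 : ∀ᵐ x ∂μ, ∀ᵐ a : ℝ, ∀ m : Fin k → ℕ, h (τ (a * lin c m) x) = g (τ (a * lin c m) x) := by
    obtain ⟨s, hs1, hs2, hs3⟩ : ∃ s : Set X, {y | h y ≠ g y} ⊆ s ∧ MeasurableSet s ∧ μ s = 0 := by
      refine ⟨toMeasurable μ {y | h y ≠ g y}, subset_toMeasurable _ _, measurableSet_toMeasurable _ _, ?_⟩
      rw [measure_toMeasurable]
      exact hhg
    have hms : ∀ m : Fin k → ℕ, MeasurableSet {q : X × ℝ | τ (q.2 * lin c m) q.1 ∉ s} := by
      intro m
      have h1 : Measurable fun q : X × ℝ => (q.2 * lin c m, q.1) :=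
        (measurable_snd.mul_const _).prodMk measurable_fst
      exact (hτ.meas.comp h1) hs2.compl
    have h4 : ∀ m : Fin k → ℕ, ∀ᵐ x ∂μ, ∀ᵐ a : ℝ, τ (a * lin c m) x ∉ s := by
      intro m
      refine (Measure.ae_ae_comm (hms m)).mpr (Eventually.of_forall fun a => ?_)
      have h5 : ∀ᵐ y ∂μ, y ∉ s := by
        rw [ae_iff]
        simpa using hs3
      exact (hτ.mp (a * lin c m)).quasiMeasurePreserving.ae h5
    rw [← ae_all_iff] at h4
    filter_upwards [h4] with x hx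
    rw [← ae_all_iff] at hx
    filter_upwards [hx] with a ha m
    by_contra hne
    exact ha m (hs1 hne)
  filter_upwards [flw_bd hτ c hgm hgb, h2, h3] with x hx hx2 hx3 B hB
  filter_upwards [hx B hB, hx3] with a ha ha3 i hi
  have h5 := ha i hi
  simp only [← ha3, ← hx2] at h5
  exact h5

lemma condExp_bdc {X : Type u} {m : MeasurableSpace X} [mX : MeasurableSpace X] {μ : Measure X}
    [IsProbabilityMeasure μ] {f : X → ℂ} (hf : Measurable f) {C : ℝ} (hC0 : 0 ≤ C) (hC : ∀ x, ‖f x‖ ≤ C) :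
    ∀ᵐ x ∂μ, ‖(μ[f | m]) x‖ ≤ 2 * C := by
  have hint : Integrable f μ := Integrable.of_bound hf.aestronglyMeasurable C (ae_of_all _ hC)
  filter_upwards [condExp_re_im (m := m) hint,
    condExp_bd (m := m) (μ := μ) (g := fun y => (f y).re) hC0 (fun x => (Complex.abs_re_le_norm _).trans (hC x)),
    condExp_bd (m := m) (μ := μ) (g := fun y => (f y).im) hC0 (fun x => (Complex.abs_im_le_norm _).trans (hC x))]
    with x h1 h2 h3
  rw [h1]
  refine (norm_add_le _ _).trans ?_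
  rw [norm_mul, Complex.norm_I, one_mul, Complex.norm_real, Complex.norm_real, Real.norm_eq_abs, Real.norm_eq_abs]
  linarith

/-- telescoping -/
lemma telescope {r : ℕ} (p q : Fin r → ℂ) :
    ∏ s, p s - ∏ s, q s = ∑ s, ((∏ j ∈ univ.filter (· < s), p j) * ∏ j ∈ univ.filter (s < ·), q j) * (p s - q s) := by
  have h := Finset.prod_add_ordered (univ : Finset (Fin r)) q (fun s => p s - q s)
  have e : ∏ s, (q s + (p s - q s)) = ∏ s, p s := Finset.prod_congr rfl fun s _ => by ring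
  rw [e] at h
  rw [h, add_sub_cancel_left]
  refine sum_congr rfl fun s _ => ?_
  have e2 : ∏ j ∈ univ.filter (· < s), (q j + (p j - q j)) = ∏ j ∈ univ.filter (· < s), p j :=
    Finset.prod_congr rfl fun s _ => by ring
  rw [e2]
  ring

lemma bavg_sum {k r : ℕ} (M : Fin k → ℕ) (h : Fin r → (Fin k → ℕ) → ℂ) :
    bavg M (fun m => ∑ s, h s m) = ∑ s, bavg M (h s) := by
  unfold bavg
  rw [sum_comm, mul_sum]

lemma TZ_sum {k r : ℕ} {i : Fin k} (s : Finset (Fin r)) {h : Fin r → (Fin k → ℕ) → ℂ} (H : ∀ j, TZ i (h j)) :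
    TZ i (fun M => ∑ j ∈ s, h j M) := by
  classical
  induction s using Finset.induction_on with
  | empty =>
    intro ε hε
    exact ⟨0, fun M _ _ => by simp [hε.le]⟩
  | insert a s ha ih =>
    simp only [Finset.sum_insert ha]
    exact Pool.Agent.Y405.MC3.TZ_add (H a) ih

/-- several flows, weights which depend on the point, measurable bounded functions -/
theorem sysbox0 {X : Type u} [MeasurableSpace X] {μ : Measure X} [IsProbabilityMeasure μ] {k r : ℕ}
    {τ : Fin r → ℝ → X → X} (hτ : ∀ s, IsFlow μ (τ s)) (c : Fin r → Fin k → ℝ)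
    {h : Fin r → X → ℂ} (hh : ∀ s, Measurable (h s)) {C : ℝ} (hhb : ∀ s x, ‖h s x‖ ≤ C)
    {W : (Fin k → ℕ) → X → ℂ} (hW : ∀ m, Measurable (W m)) {D : ℝ} (hWb : ∀ m x, ‖W m x‖ ≤ D) (i : Fin k)
    (hi : ∀ s, c s i ≠ 0) :
    ∀ᵐ a : Fin r → ℝ, ∀ᵐ x ∂μ, TZ i (fun M => bavg M (fun m => W m x *
      (∏ s, h s (τ s (a s * lin (c s) m) x) - ∏ s, (μ[h s | flowInv (τ s)]) x))) := by
  have hEm : ∀ s, Measurable (μ[h s | flowInv (τ s)]) := fun s =>
    (stronglyMeasurable_condExp.mono (flowInv_le (τ s))).measurable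
  have hterm : ∀ (s : Fin r) (m : Fin k → ℕ), Measurable fun q : X × (Fin r → ℝ) =>
      h s (τ s (q.2 s * lin (c s) m) q.1) := by
    intro s m
    have h1 : Measurable fun q : X × (Fin r → ℝ) => (q.2 s * lin (c s) m, q.1) :=
      (((measurable_pi_apply s).comp measurable_snd).mul_const _).prodMk measurable_fst
    exact (hh s).comp ((hτ s).meas.comp h1)
  have hset : MeasurableSet {q : X × (Fin r → ℝ) | TZ i (fun M => bavg M (fun m => W m q.1 *
      (∏ s, h s (τ s (q.2 s * lin (c s) m) q.1) - ∏ s, (μ[h s | flowInv (τ s)]) q.1)))} := by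
    refine Pool.Agent.Y259.MC.measTZ i _ fun M => ?_
    unfold bavg
    refine measurable_const.mul (Finset.measurable_sum _ fun m _ => ?_)
    refine ((hW m).comp measurable_fst).mul (Measurable.sub ?_ ?_)
    · exact Finset.measurable_prod _ fun s _ => hterm s m
    · exact Finset.measurable_prod _ fun s _ => (hEm s).comp measurable_fst
  refine (Measure.ae_ae_comm hset).mp ?_
  have hC0 : 0 ≤ max C 0 := le_max_right _ _
  have hE : ∀ᵐ x ∂μ, ∀ s, ‖(μ[h s | flowInv (τ s)]) x‖ ≤ 2 * max C 0 := by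
    rw [ae_all_iff]
    exact fun s => condExp_bdc (hh s) hC0 fun x => (hhb s x).trans (le_max_left _ _)
  have hall : ∀ᵐ x ∂μ, ∀ s, ∀ B : (Fin k → ℕ) → ℂ, (∃ C : ℝ, ∀ m, ‖B m‖ ≤ C) → ∀ᵐ a : ℝ, ∀ i, c s i ≠ 0 →
      TZ i (fun M => bavg M (fun m => B m * (h s (τ s (a * lin (c s) m) x) - (μ[h s | flowInv (τ s)]) x))) := by
    rw [ae_all_iff]
    exact fun s => flw_bd (hτ s) (c s) (hh s) ⟨C, hhb s⟩
  filter_upwards [hE, hall] with x hx1 hx2
  -- the weights of the term `s`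
  set Bs : Fin r → (Fin r → ℝ) → (Fin k → ℕ) → ℂ := fun s a m => W m x *
    ((∏ j ∈ univ.filter (· < s), h j (τ j (a j * lin (c j) m) x)) *
      ∏ j ∈ univ.filter (s < ·), (μ[h j | flowInv (τ j)]) x) with hBs
  have hBb : ∀ s a m, ‖Bs s a m‖ ≤ D * ((∏ j ∈ univ.filter (· < s), max C 0) *
      ∏ j ∈ univ.filter (s < ·), (2 * max C 0)) := by
    intro s a m
    have hD0 : 0 ≤ D := (norm_nonneg _).trans (hWb m x)
    simp only [hBs]
    rw [norm_mul, norm_mul, norm_prod, norm_prod]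
    refine mul_le_mul (hWb m x) (mul_le_mul ?_ ?_ ?_ ?_) (by positivity) hD0
    · exact Finset.prod_le_prod (fun j _ => norm_nonneg _) fun j _ => (hhb j _).trans (le_max_left _ _)
    · exact Finset.prod_le_prod (fun j _ => norm_nonneg _) fun j _ => hx1 j
    · exact Finset.prod_nonneg fun j _ => norm_nonneg _
    · exact Finset.prod_nonneg fun j _ => hC0
  have hst : ∀ s : Fin r, ∀ᵐ a : Fin r → ℝ, TZ i (fun M => bavg M (fun m => Bs s a m *
      (h s (τ s (a s * lin (c s) m) x) - (μ[h s | flowInv (τ s)]) x))) := by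
    intro s
    refine Pool.Agent.Y259.MC.slice (volume : Measure ℝ) s (fun t a => TZ i (fun M => bavg M (fun m => Bs s a m *
      (h s (τ s (t * lin (c s) m) x) - (μ[h s | flowInv (τ s)]) x)))) ?_ ?_ ?_
    · intro t a a' haa' H
      have e : ∀ m, Bs s a m = Bs s a' m := by
        intro m
        simp only [hBs]
        congr 2
        refine Finset.prod_congr rfl fun j hj => ?_
        rw [haa' j (ne_of_lt (Finset.mem_filter.mp hj).2)]
      simpa only [e] using H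
    · refine Pool.Agent.Y259.MC.measTZ i _ fun M => ?_
      unfold bavg
      refine measurable_const.mul (Finset.measurable_sum _ fun m _ => ?_)
      have hf : Measurable fun a : Fin r → ℝ => (x, a) := measurable_const.prodMk measurable_id
      refine Measurable.mul ?_ (Measurable.sub ((hterm s m).comp hf) measurable_const)
      simp only [hBs]
      refine measurable_const.mul (Measurable.mul ?_ measurable_const)
      exact Finset.measurable_prod _ fun j _ => (hterm j m).comp hf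
    · intro a
      filter_upwards [hx2 s (Bs s a) ⟨_, hBb s a⟩] with t ht
      exact ht i (hi s)
  rw [← ae_all_iff] at hst
  filter_upwards [hst] with a ha
  have h6 := TZ_sum (univ : Finset (Fin r)) ha
  convert h6 using 2 with M
  rw [← bavg_sum]
  congr 1
  funext m
  rw [telescope, mul_sum]
  refine sum_congr rfl fun s _ => ?_
  simp only [hBs]
  ring

/-- several flows, weights which depend on the point -/
theorem sysbox {X : Type u} [MeasurableSpace X] {μ : Measure X} [IsProbabilityMeasure μ] {k r : ℕ}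
    {τ : Fin r → ℝ → X → X} (hτ : ∀ s, IsFlow μ (τ s)) (c : Fin r → Fin k → ℝ)
    {h : Fin r → X → ℂ} (hh : ∀ s, AEStronglyMeasurable (h s) μ) (hhb : ∀ s, ∃ C : ℝ, ∀ᵐ x ∂μ, ‖h s x‖ ≤ C)
    {W : (Fin k → ℕ) → X → ℂ} (hW : ∀ m, AEStronglyMeasurable (W m) μ)
    (hWb : ∃ C : ℝ, ∀ m, ∀ᵐ x ∂μ, ‖W m x‖ ≤ C) :
    ∀ᵐ a : Fin r → ℝ, ∀ᵐ x ∂μ, ∀ i, (∀ s, c s i ≠ 0) → TZ i (fun M => bavg M (fun m => W m x *
      (∏ s, h s (τ s (a s * lin (c s) m) x) - ∏ s, (μ[h s | flowInv (τ s)]) x))) := by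
  choose g hgm hgb hhg using fun s => exists_version (hh s) (hhb s)
  choose C1 hC1 using hgb
  have hb : ∀ s x, ‖g s x‖ ≤ ∑ j, |C1 j| := fun s x => (hC1 s x).trans ((le_abs_self _).trans
    (Finset.single_le_sum (f := fun j => |C1 j|) (fun i _ => abs_nonneg _) (Finset.mem_univ s)))
  obtain ⟨D0, hD0⟩ := hWb
  have hver : ∀ n, ∃ V : X → ℂ, Measurable V ∧ (∀ x, ‖V x‖ ≤ max D0 0) ∧ W n =ᵐ[μ] V := by
    intro n
    have hm : Measurable ((hW n).mk (W n)) := (hW n).stronglyMeasurable_mk.measurable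
    refine ⟨fun x => if ‖(hW n).mk (W n) x‖ ≤ D0 then (hW n).mk (W n) x else 0, ?_, fun x => ?_, ?_⟩
    · exact Measurable.ite (measurableSet_le hm.norm measurable_const) hm measurable_const
    · dsimp only
      split_ifs with h
      · exact h.trans (le_max_left _ _)
      · simp
    · filter_upwards [hD0 n, (hW n).ae_eq_mk] with x h1 h2
      rw [← h2, if_pos h1]
  choose V hVm hV1 hVW using hver
  have h8 : ∀ᵐ x ∂μ, ∀ n, W n x = V n x := by
    rw [ae_all_iff]
    exact hVW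
  have h2 : ∀ᵐ x ∂μ, ∀ s, (μ[h s | flowInv (τ s)]) x = (μ[g s | flowInv (τ s)]) x := by
    rw [ae_all_iff]
    exact fun s => condExp_congr_ae (hhg s)
  have h7 : ∀ᵐ a : Fin r → ℝ, ∀ i, (∀ s, c s i ≠ 0) → ∀ᵐ x ∂μ, TZ i (fun M => bavg M (fun m => V m x *
      (∏ s, g s (τ s (a s * lin (c s) m) x) - ∏ s, (μ[g s | flowInv (τ s)]) x))) := by
    rw [ae_all_iff]
    intro i
    by_cases hi : ∀ s, c s i ≠ 0
    · filter_upwards [sysbox0 hτ c hgm hb hVm hV1 i hi] with a ha _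
      exact ha
    · exact ae_of_all _ fun a h => absurd h hi
  filter_upwards [h7] with a ha
  have h3 : ∀ᵐ x ∂μ, ∀ (m : Fin k → ℕ) (s : Fin r), h s (τ s (a s * lin (c s) m) x) =
      g s (τ s (a s * lin (c s) m) x) := by
    rw [ae_all_iff]
    intro m
    rw [ae_all_iff]
    intro s
    exact ((hτ s).mp (a s * lin (c s) m)).quasiMeasurePreserving.ae (hhg s)
  have h9 : ∀ᵐ x ∂μ, ∀ i, (∀ s, c s i ≠ 0) → TZ i (fun M => bavg M (fun m => V m x *
      (∏ s, g s (τ s (a s * lin (c s) m) x) - ∏ s, (μ[g s | flowInv (τ s)]) x))) := by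
    rw [ae_all_iff]
    intro i
    by_cases hi : ∀ s, c s i ≠ 0
    · filter_upwards [ha i hi] with x hx _
      exact hx
    · exact ae_of_all _ fun x h => absurd h hi
  filter_upwards [h9, h2, h3, h8] with x hx hx2 hx3 hx8 i hi
  have := hx i hi
  simpa only [hx2, hx3, hx8] using this

end Pool.Agent.X85.BoxW

namespace Pool.Agent.X85.BoxW

open MeasureTheory Filter Finset Pool.Agent.Y957.MC

universe u

/-- all boxes have a longest side -/
lemma tendsto_of_TZ {k : ℕ} (hk : 0 < k) {F : (Fin k → ℕ) → ℂ} (h : ∀ i, TZ i F) :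
    Tendsto F atTop (nhds 0) := by
  haveI : Nonempty (Fin k) := ⟨⟨0, hk⟩⟩
  rw [Metric.tendsto_atTop]
  intro ε hε
  choose N hN using fun i => h i (ε / 2) (by positivity)
  refine ⟨fun _ => univ.sup N, fun M hM => ?_⟩
  obtain ⟨i, -, hi⟩ := Finset.exists_max_image (univ : Finset (Fin k)) M ⟨⟨0, hk⟩, mem_univ _⟩
  have h1 := hN i M (fun l => (Finset.le_sup (mem_univ i)).trans (hM l)) (fun l => hi l (mem_univ l))
  rw [dist_zero_right]
  linarith

/-- invertible measure preserving maps -/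
def Inv {X : Type u} [MeasurableSpace X] (μ : Measure X) (S : Equiv.Perm X) : Prop :=
  MeasurePreserving S μ μ ∧ MeasurePreserving S.symm μ μ

lemma Inv.mk' {X : Type u} [MeasurableSpace X] {μ : Measure X} {S : Equiv.Perm X} (h : MeasurePreserving S μ μ)
    (hm : Measurable S.symm) : Inv μ S := by
  refine ⟨h, hm, ?_⟩
  have e : μ.map S = μ := h.map_eq
  conv_lhs => rw [← e]
  rw [Measure.map_map hm h.measurable]
  have : (S.symm : X → X) ∘ S = id := by funext x; simp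
  rw [this, Measure.map_id]

lemma Inv.one {X : Type u} [MeasurableSpace X] {μ : Measure X} : Inv μ (1 : Equiv.Perm X) :=
  ⟨MeasurePreserving.id μ, MeasurePreserving.id μ⟩

lemma Inv.mul {X : Type u} [MeasurableSpace X] {μ : Measure X} {S T : Equiv.Perm X} (hS : Inv μ S) (hT : Inv μ T) :
    Inv μ (S * T) := ⟨hS.1.comp hT.1, hT.2.comp hS.2⟩

lemma Inv.inv {X : Type u} [MeasurableSpace X] {μ : Measure X} {S : Equiv.Perm X} (hS : Inv μ S) :
    Inv μ S⁻¹ := ⟨hS.2, hS.1⟩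

lemma Inv.pow {X : Type u} [MeasurableSpace X] {μ : Measure X} {S : Equiv.Perm X} (hS : Inv μ S) (n : ℕ) :
    Inv μ (S ^ n) := by
  induction n with
  | zero => rw [pow_zero]; exact Inv.one
  | succ n ih => rw [pow_succ]; exact ih.mul hS

lemma Inv.zpow {X : Type u} [MeasurableSpace X] {μ : Measure X} {S : Equiv.Perm X} (hS : Inv μ S) (z : ℤ) :
    Inv μ (S ^ z) := by
  cases z with
  | ofNat n => rw [Int.ofNat_eq_natCast, zpow_natCast]; exact hS.pow n
  | negSucc n => rw [zpow_negSucc]; exact (hS.pow _).inv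

lemma Inv.list {X : Type u} [MeasurableSpace X] {μ : Measure X} (l : List (Equiv.Perm X)) (h : ∀ S ∈ l, Inv μ S) :
    Inv μ l.prod := by
  induction l with
  | nil => rw [List.prod_nil]; exact Inv.one
  | cons a l ih =>
    rw [List.prod_cons]
    exact (h a (List.mem_cons_self ..)).mul (ih fun S hS => h S (List.mem_cons_of_mem _ hS))

lemma Inv.word {X : Type u} [MeasurableSpace X] {μ : Measure X} {d : ℕ} {T : Fin d → Equiv.Perm X}
    (h : ∀ i, Inv μ (T i)) (z : Fin d → ℤ) : Inv μ (List.ofFn fun i => T i ^ z i).prod := by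
  refine Inv.list _ fun S hS => ?_
  obtain ⟨i, rfl⟩ := (List.mem_ofFn' _ _).mp hS
  exact (h i).zpow _

lemma prod_bd {X : Type u} [MeasurableSpace X] {μ : Measure X} {n : ℕ} {f : Fin n → X → ℂ}
    (hf : ∀ j, AEStronglyMeasurable (f j) μ) (hfb : ∀ j, ∃ C : ℝ, ∀ᵐ x ∂μ, ‖f j x‖ ≤ C)
    {ι : Type*} {S : Fin n → ι → X → X} (hS : ∀ j m, MeasurePreserving (S j m) μ μ) :
    (∀ m, AEStronglyMeasurable (fun x => ∏ j, f j (S j m x)) μ) ∧
    ∃ C : ℝ, ∀ m, ∀ᵐ x ∂μ, ‖∏ j, f j (S j m x)‖ ≤ C := by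
  choose C hC using hfb
  refine ⟨fun m => ?_, ∏ j, max (C j) 0, fun m => ?_⟩
  · exact Finset.aestronglyMeasurable_fun_prod _ fun j _ => (hf j).comp_measurePreserving (hS j m)
  · have h1 : ∀ᵐ x ∂μ, ∀ j, ‖f j (S j m x)‖ ≤ C j := by
      rw [ae_all_iff]
      exact fun j => (hS j m).quasiMeasurePreserving.ae (hC j)
    filter_upwards [h1] with x hx
    rw [norm_prod]
    exact Finset.prod_le_prod (fun j _ => norm_nonneg _) fun j _ => (hx j).trans (le_max_left _ _)

/-- additional generic factors, unrestricted boxes -/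
theorem extra {X : Type u} [MeasurableSpace X] {μ : Measure X} [IsProbabilityMeasure μ] {k r : ℕ} (hk : 0 < k)
    {τ : Fin r → ℝ → X → X} (hτ : ∀ s, IsFlow μ (τ s)) {c : Fin r → Fin k → ℝ} (hc : ∀ s i, c s i ≠ 0)
    {h : Fin r → X → ℂ} (hh : ∀ s, AEStronglyMeasurable (h s) μ) (hhb : ∀ s, ∃ C : ℝ, ∀ᵐ x ∂μ, ‖h s x‖ ≤ C)
    {W : (Fin k → ℕ) → X → ℂ} (hW : ∀ m, AEStronglyMeasurable (W m) μ)
    (hWb : ∃ C : ℝ, ∀ m, ∀ᵐ x ∂μ, ‖W m x‖ ≤ C) :
    ∀ᵐ a : Fin r → ℝ, ∀ᵐ x ∂μ, Tendsto (fun M => bavg M (fun m => W m x * ∏ s, h s (τ s (a s * lin (c s) m) x)) -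
      (∏ s, (μ[h s | flowInv (τ s)]) x) * bavg M (fun m => W m x)) atTop (nhds 0) := by
  filter_upwards [sysbox hτ c hh hhb hW hWb] with a ha
  filter_upwards [ha] with x hx
  refine (tendsto_of_TZ hk fun i => hx i fun s => hc s i).congr fun M => ?_
  rw [← bavg_smul, ← sub_eq_zero]
  unfold bavg
  rw [← mul_sub, ← mul_sub, ← sum_sub_distrib, ← sum_sub_distrib]
  have : ∑ m ∈ box M, (W m x * (∏ s, h s (τ s (a s * lin (c s) m) x) - ∏ s, (μ[h s | flowInv (τ s)]) x) -
      (W m x * ∏ s, h s (τ s (a s * lin (c s) m) x) - (∏ s, (μ[h s | flowInv (τ s)]) x) * W m x)) = 0 := by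
    refine Finset.sum_eq_zero fun m _ => ?_
    ring
  rw [this, mul_zero]

end Pool.Agent.X85.BoxW
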