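import Pool.Agent.Y302.Trunc.Main
import Pool.Agent.Y302.Tri.Count
import Pool.Agent.Y302.Tri.Main

/-!
# The Euler equations with removed modes: all intermediate sets of modes
-/

set_option autoImplicit false

open Set Filter Topology MeasureTheory
open scoped ContDiff

namespace Pool.Agent.X85.EulerMod

open Pool.Agent.H708R2.EulerSign (V Periodic3 Dom divergence grad sq3 sq3_contDiff contDiff_slice)
open Pool.Agent.H708R2.EulerModes
open Pool.Agent.H708R2.EulerTypeI (nrm vort)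
open Pool.Agent.Y302.KP Pool.Agent.Y302.Trunc

/-- The zero solution. -/
lemma zero_sol (R : Set (Fin 3 → ℤ)) (I : Set ℝ) :
    IsSolutionWithout R I (fun _ _ => (0 : V)) (fun _ _ => (0 : ℝ)) where
  contDiffOn_u := contDiffOn_const
  contDiffOn_p := contDiffOn_const
  periodic_u _ _ _ _ := rfl
  periodic_p _ _ _ _ := rfl
  div_free t _ x := by
    rw [H708R2.EulerSign.divergence_eq_sum]
    simp
  modes t _ k _ i := by
    constructor <;> simp [cosCoeff, sinCoeff]
  momentum t _ k _ i := by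
    have : momentumTerm I (fun _ _ => (0 : V)) (fun _ _ => (0 : ℝ)) t i = fun _ => 0 := by
      funext x
      simp [momentumTerm]
    rw [this]
    constructor <;> simp [cosCoeff, sinCoeff]

/-- Conservation of energy. -/
theorem energy {R : Set (Fin 3 → ℤ)} {T : ℝ} {w : ℝ → V → V} {q : ℝ → V → ℝ}
    (hw : IsSolutionWithout R (Ico 0 T) w q) {t : ℝ} (ht : t ∈ Ico 0 T) :
    ∫ x in cube, ∑ i, w t x i ^ 2 = ∫ x in cube, ∑ i, w 0 x i ^ 2 := by
  have hu := zero_sol R (Ico 0 T)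
  have h00 : (0 : ℝ) ∈ Ico 0 T := ⟨le_rfl, ht.1.trans_lt ht.2⟩
  have hper : ∀ s ∈ Ico 0 T, Periodic3 (fun x => ∑ i, w s x i ^ 2) := by
    intro s hs j x
    simp only
    rw [hw.periodic_u s hs j x]
  have hen : ∀ s ∈ Ico 0 T, en w (fun _ _ => (0 : V)) s = ∫ x in cube, ∑ i, w s x i ^ 2 := by
    intro s hs
    rw [integral_cube (hper s hs)]
    unfold en sq3
    simp
  rw [← hen t ht, ← hen 0 h00]
  have hcont := en_continuousOn hw hu
  have hder : ∀ s ∈ Ioo 0 T, HasDerivAt (en w (fun _ _ => (0 : V))) 0 s := by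
    intro s hs
    have h1 := en_hasDerivAt hw hu hs
    have h2 := en_deriv_le hw hu (K := 0) (fun t _ x i j => by simp [grad]) hs
    rw [mul_zero, zero_mul] at h2
    have h3 := abs_nonpos_iff.1 h2
    rwa [h3] at h1
  rcases ht.1.eq_or_lt with h0 | h0
  · rw [← h0]
  refine constant_of_has_deriv_right_zero (a := 0) (b := t) (hcont.mono (Icc_subset_Ico_right ht.2))
    ?_ t ⟨ht.1, le_rfl⟩
  intro s hs
  rcases hs.1.eq_or_lt with h1 | h1
  · -- the derivative at the left end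
    subst h1
    have hc : ContinuousWithinAt (en w (fun _ _ => (0 : V))) (Ioo 0 t) 0 :=
      (hcont 0 h00).mono (fun s hs => ⟨hs.1.le, hs.2.trans ht.2⟩)
    refine hasDerivWithinAt_Ici_of_tendsto_deriv (s := Ioo 0 t) ?_ hc (Ioo_mem_nhdsGT h0) ?_
    · intro s hs
      exact (hder s ⟨hs.1, hs.2.trans ht.2⟩).differentiableAt.differentiableWithinAt
    · refine tendsto_const_nhds.congr' ?_
      filter_upwards [Ioo_mem_nhdsGT h0] with s hs
      exact (hder s ⟨hs.1, hs.2.trans ht.2⟩).deriv.symm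
  · exact (hder s ⟨h1, hs.2.trans ht.2⟩).hasDerivWithinAt

/-- If no modes are removed, the solutions are the classical solutions of the Euler equations. -/
theorem none_iff {T : ℝ} {u : ℝ → V → V} {p : ℝ → V → ℝ} :
    IsSolutionWithout ∅ (Ico 0 T) u p ↔ H708R2.EulerSign.IsClassicalSolution (Ico 0 T) u p := by
  constructor
  · intro h
    refine ⟨h.contDiffOn_u, h.contDiffOn_p, h.periodic_u, h.periodic_p, h.div_free,
      fun t ht x i => ?_⟩
    have hb : Pool.Agent.Y302.Tri.Base (Ico 0 T) u p :=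
      ⟨h.contDiffOn_u, h.contDiffOn_p, h.periodic_u, h.periodic_p, h.div_free⟩
    have hut : ContDiff ℝ 1 (u t) := contDiff_slice h.contDiffOn_u ht
    have hc1 := Pool.Agent.Y302.Tri.lin_continuous' hb ht i
    have hc2 : Continuous (fun x => ∑ j, u t x j * fderiv ℝ (u t) x (Pi.single j 1) i) := by
      refine continuous_finsetSum _ fun j _ => ?_
      exact ((continuous_apply j).comp hut.continuous).mul
        ((continuous_apply i).comp ((hut.continuous_fderiv one_ne_zero).clm_apply continuous_const))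
    have hc : Continuous (momentumTerm (Ico 0 T) u p t i) := by
      have e : momentumTerm (Ico 0 T) u p t i = fun x => Pool.Agent.Y302.Tri.lin (Ico 0 T) u p t i x
          + ∑ j, u t x j * fderiv ℝ (u t) x (Pi.single j 1) i := by
        funext x
        unfold momentumTerm Pool.Agent.Y302.Tri.lin
        ring
      rw [e]
      exact hc1.add hc2
    have hp : Periodic3 (momentumTerm (Ico 0 T) u p t i) := momentum_periodic h ht i
    have h1 : ∫ x in Dom, momentumTerm (Ico 0 T) u p t i x * momentumTerm (Ico 0 T) u p t i x = 0 :=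
      integral_mul_eq_zero hp hc hp hc fun k => Or.inl (by
        obtain ⟨a1, a2⟩ := h.momentum t ht k (Set.notMem_empty k) i
        rw [cosCoeff_eq hp] at a1
        rw [sinCoeff_eq hp] at a2
        exact ⟨a1, a2⟩)
    have hpp : Periodic3 (fun x => momentumTerm (Ico 0 T) u p t i x
        * momentumTerm (Ico 0 T) u p t i x) := by
      intro j x
      simp only
      rw [hp j x]
    have h2 := H708R2.EulerSign.eq_zero_of_integral_eq_zero hpp (hc.mul hc)
      (fun x => mul_self_nonneg _) h1 x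
    have h3 := mul_self_eq_zero.1 h2
    unfold momentumTerm at h3
    linarith
  · intro h
    refine ⟨h.contDiffOn_u, h.contDiffOn_p, h.periodic_u, h.periodic_p, h.div_free,
      fun t ht k hk => absurd hk (Set.notMem_empty k), fun t ht k _ i => ?_⟩
    have : momentumTerm (Ico 0 T) u p t i = fun _ => 0 := by
      funext x
      have := h.momentum t ht x i
      unfold momentumTerm
      linarith
    rw [this]
    constructor <;> simp [cosCoeff, sinCoeff]

/-- The frequencies of the chain are sparse. -/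
theorem count_C {M : ℕ} (hM : 0 < M) {N : ℕ} (hN : 2 ≤ N) :
    ({l ∈ Cset M | ∀ p, |l p| ≤ N}.ncard : ℝ) ≤ 240 * Real.log N := by
  have hsub : {l ∈ Cset M | ∀ p, |l p| ≤ N} ⊆ (Pool.Agent.Y302.Tri.LL M N : Set (Fin 3 → ℤ)) := by
    rintro l ⟨h1, h2⟩
    exact Pool.Agent.Y302.Tri.mem_LL hM h1 fun p => (h2 p).trans (by
      have : (0 : ℤ) ≤ N := by positivity
      linarith)
  have h1 : {l ∈ Cset M | ∀ p, |l p| ≤ N}.ncard ≤ (Pool.Agent.Y302.Tri.LL M N).card := by
    rw [← Set.ncard_coe_finset]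
    exact Set.ncard_le_ncard hsub (Finset.finite_toSet _)
  have h2 := h1.trans (Pool.Agent.Y302.Tri.card_LL M N)
  have h3 := Pool.Agent.Y302.Tri.m1_le hN
  calc ({l ∈ Cset M | ∀ p, |l p| ≤ N}.ncard : ℝ) ≤ (24 * Pool.Agent.Y302.Tri.m1 N : ℕ) := by
        exact_mod_cast h2
    _ = 24 * (Pool.Agent.Y302.Tri.m1 N : ℝ) := by push_cast; ring
    _ ≤ 24 * (10 * Real.log N) := by gcongr
    _ = _ := by ring

lemma zero_notMem_C {M : ℕ} (hM : 0 < M) : (0 : Fin 3 → ℤ) ∉ Cset M := by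
  rintro ⟨n, hn⟩
  obtain ⟨p, hp⟩ := Lev_low hM hn
  have := sg_pos hM n
  simp at hp
  linarith

lemma low_C {M : ℕ} (hM : 0 < M) {k : Fin 3 → ℤ} (hk : k ∈ Cset M) : ∃ i, (M : ℤ) ≤ |k i| := by
  refine Pool.Agent.Y302.Tri.low_of_dvd (fun h => zero_notMem_C hM (h ▸ hk)) fun i => dvd_Cset hk i

/-- All intermediate sets of modes. -/
theorem main_all (M : ℕ) (hM : 0 < M) :
    ∃ C R : Set (Fin 3 → ℤ),
      (∀ k ∈ C, -k ∈ C) ∧ (∀ k ∈ R, -k ∈ R) ∧ Disjoint C R ∧ (∀ k ∈ C ∪ R, ∃ i, (M : ℤ) ≤ |k i|) ∧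
      (∀ N : ℕ, 2 ≤ N → ({k ∈ C | ∀ i, |k i| ≤ N}.ncard : ℝ) ≤ 240 * Real.log N) ∧
      (∀ N : ℕ, 2 ≤ N → ({k ∈ R | ∀ i, |k i| ≤ N}.ncard : ℝ) ≤ 230400 * Real.log N ^ 2) ∧
      ∃ (T : ℝ) (u : ℝ → V → V) (p : ℝ → V → ℝ),
        0 < T ∧ T ≤ 56 / M ∧ u 0 = datum M ∧
        (∀ t ∈ Ico 0 T, ContDiff ℝ ∞ (u t)) ∧
        (∀ t ∈ Ico 0 T, ∀ k ∉ C, ∀ i, NoMode k (fun x => u t x i)) ∧
        (∀ t ∈ Ico 0 T, 39 / (T - t) ≤ ∫ x in cube, nrm (vort (u t) x)) ∧
        ∀ R' : Set (Fin 3 → ℤ), R ⊆ R' → Disjoint C R' →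
          IsSolutionWithout R' (Ico 0 T) u p ∧
          ∀ (T' : ℝ) (w : ℝ → V → V) (q : ℝ → V → ℝ),
            IsSolutionWithout R' (Ico 0 T') w q → w 0 = datum M →
              T' ≤ T ∧ ∀ t ∈ Ico 0 T', w t = u t := by
  obtain ⟨a, Ts, T, h, h0, hn, hTs, hTs', hT, hdec, hrate⟩ := main_ode hM (δ := 1 / 8) (by norm_num)
  have hu0 := uu_zero hM h0 hn
  refine ⟨Cset M, Rset M, fun k hk => neg_mem_Cset hM hk, fun k hk => neg_mem_Rset hM hk, ?_, ?_,
    fun N hN => count_C hM hN, fun N hN => count hM hN, Ts, uu M a, pp M a, hTs, ?_, hu0,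
    fun t ht => uu_smooth h hM hT hdec ht, ?_, fun t ht => blowup_rate h hM hT hdec hrate ht, ?_⟩
  · rw [Set.disjoint_left]
    exact fun k h1 h2 => h2.2.1 h1
  · rintro k (hk | hk)
    · exact low_C hM hk
    · exact low_Rset hk
  · refine hTs'.trans (le_of_eq ?_)
    have : (M : ℝ) ≠ 0 := by exact_mod_cast hM.ne'
    field_simp
    norm_num
  · intro t ht k hk i
    refine ⟨odd_cosCoeff (fun x => ?_) k, ?_⟩
    · rw [uu_odd]; rfl
    · rw [sinCoeff_eq (comp_periodic (uu_periodic t) i)]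
      exact uu_coeff_zero h hM hT hdec ht hk i
  · intro R' hR' hd
    have hR1 : ∀ k ∈ R', k ∉ Cset M := fun k hk hC => (Set.disjoint_left.1 hd) hC hk
    refine ⟨isSolution h hM hT hdec hR1 hR', fun T' w q hw hw0 => ?_⟩
    rw [← hu0] at hw0
    have h1 := no_extension h hM hT hdec hrate hR1 hR' hTs hw hw0
    exact ⟨h1, fun t ht => unique_before h hM hT hdec hR1 hR' hw hw0 ht (ht.2.trans_le h1)⟩

end Pool.Agent.X85.EulerMod
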