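import Pool.Agent.H708R2.EulerTypeI.Main
import Pool.Agent.H708R2.EulerTypeI.Sharp

/-!
# One-sided Type I thresholds for the Euler equations
-/

open MeasureTheory Set Filter
open scoped ENNReal NNReal Topology

namespace Pool.Agent.X85.EulerOne

open Pool.Agent.H708R2.EulerSign Pool.Agent.H708R2.EulerTypeI

variable {T : ℝ} {u : ℝ → V → V} {p : ℝ → V → ℝ}

/-- The one-sided criterion with the family of thresholds `θ + 1`, `2 θ + 1`. -/
theorem one_sided (hT : 0 < T) (h : IsC2Solution T u p) {θ κ : ℝ} (hθ : 0 < θ)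
    (hκ : 2 * θ + 1 < κ)
    (hyp : ∀ᶠ t in 𝓝[<] T, ∀ x, vort (u t) x ≠ 0 →
      (T - t) ^ 2 * crit θ (u t) (p t) x ≤ θ + 1 - κ / Real.log (1 / (T - t))) :
    (∃ C : ℝ, ∀ᶠ t in 𝓝[<] T, ∀ x,
      nrm (vort (u t) x) ≤ C / ((T - t) * Real.log (1 / (T - t)) ^ (κ / (2 * θ + 1)))) ∧
    BKMFinite T u := by
  have h2θ : 0 < 2 * θ + 1 := by linarith
  have hκ0 : 0 < κ := h2θ.trans hκ
  obtain ⟨t₀, ht₀, hP⟩ := exists_start hT hyp (max 1 κ)
  have hL : ∀ t ∈ Ico t₀ T, 1 ≤ Lf T t ∧ κ ≤ Lf T t := fun t ht =>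
    ⟨(le_max_left _ _).trans (hP t ht).2, (le_max_right _ _).trans (hP t ht).2⟩
  have hLpos : ∀ t ∈ Ico t₀ T, 0 < Lf T t := fun t ht => lt_of_lt_of_le one_pos (hL t ht).1
  have hκL : ∀ t ∈ Ico t₀ T, κ / Lf T t ≤ 1 := fun t ht =>
    (div_le_one (hLpos t ht)).2 (hL t ht).2
  set β := κ * θ / (2 * θ + 1) with hβ
  have hβ0 : 0 < β := by positivity
  have hγ : 1 < β / θ := by
    rw [hβ, div_div, mul_comm (2 * θ + 1) θ, mul_comm κ θ, mul_div_mul_left _ _ hθ.ne',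
      one_lt_div h2θ]
    exact hκ
  have hβθ : β / θ = κ / (2 * θ + 1) := by
    rw [hβ]
    field_simp
  have hβL : ∀ t ∈ Ico t₀ T, β / Lf T t ≤ θ := by
    intro t ht
    have h1 := hκL t ht
    have h2 : β / Lf T t = (κ / Lf T t) * (θ / (2 * θ + 1)) := by rw [hβ]; ring
    have h3 : θ / (2 * θ + 1) ≤ θ := div_le_self hθ.le (by linarith)
    have h4 : 0 ≤ θ / (2 * θ + 1) := by positivity
    rw [h2]
    calc κ / Lf T t * (θ / (2 * θ + 1)) ≤ 1 * (θ / (2 * θ + 1)) := by gcongr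
      _ ≤ θ := by rw [one_mul]; exact h3
  have hR1pos : ∀ t ∈ Ico t₀ T, 0 ≤ Rf T θ β t * ((θ - β / Lf T t) / (T - t)) := by
    intro t ht
    have h1 := hβL t ht
    have h4 : 0 < T - t := sub_pos.2 ht.2
    have h5 := Rf_pos T θ β t
    have h6 : 0 ≤ θ - β / Lf T t := by linarith
    positivity
  have hq : ∀ t ∈ Ico t₀ T, ∀ x, vort (u t) x ≠ 0 → θ * crit θ (u t) (p t) x ≤
      Rf T θ β t * ((θ * (θ + 1) - (2 * θ + 1) * β / Lf T t
      + β * (β + 1) / (Lf T t) ^ 2) / (T - t) ^ 2) / Rf T θ β t := by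
    intro t ht x hx
    have h4 : 0 < T - t := sub_pos.2 ht.2
    have h5 := Rf_pos T θ β t
    have h6 := (hP t ht).1 x hx
    rw [← Lf_eq] at h6
    have hl := hLpos t ht
    rw [mul_div_cancel_left₀ _ h5.ne', le_div_iff₀ (by positivity)]
    have e1 : (2 * θ + 1) * β / Lf T t = θ * (κ / Lf T t) := by
      rw [hβ]
      field_simp
    have e2 : 0 ≤ β * (β + 1) / (Lf T t) ^ 2 := by positivity
    rw [e1]
    have e3 : θ * crit θ (u t) (p t) x * (T - t) ^ 2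
        = θ * ((T - t) ^ 2 * crit θ (u t) (p t) x) := by ring
    rw [e3]
    have e4 : θ * ((T - t) ^ 2 * crit θ (u t) (p t) x) ≤ θ * (θ + 1 - κ / Lf T t) := by gcongr
    have e5 : θ * (θ + 1 - κ / Lf T t) = θ * (θ + 1) - θ * (κ / Lf T t) := by ring
    linarith
  obtain ⟨C, hC0, hC⟩ := vort_comp_one_sided h ht₀ hθ (R := Rf T θ β)
    (R1 := fun t => Rf T θ β t * ((θ - β / Lf T t) / (T - t)))
    (R2 := fun t => Rf T θ β t * ((θ * (θ + 1) - (2 * θ + 1) * β / Lf T t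
      + β * (β + 1) / (Lf T t) ^ 2) / (T - t) ^ 2))
    (fun t ht => Rf_hasDerivAt ht.2 (hLpos t ht)) (fun t ht => Rf_hasDerivAt2 ht.2 (hLpos t ht))
    (fun t _ => Rf_pos T θ β t) hR1pos hq
  -- rewriting the bound
  have hform : ∀ t ∈ Ico t₀ T, (Rf T θ β t) ^ (1 / θ) = 1 / (T - t) * (Lf T t) ^ (-(β / θ)) := by
    intro t ht
    have h1 := hLpos t ht
    have h4 : 0 < T - t := sub_pos.2 ht.2
    have e1 : (Rf T θ β t) ^ (1 / θ) = Real.exp (Lf T t - β / θ * Real.log (Lf T t)) := by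
      unfold Rf
      rw [← Real.exp_mul]
      congr 1
      field_simp
    rw [e1, Real.exp_sub, mul_comm (β / θ), ← Real.rpow_def_of_pos h1, Real.rpow_neg h1.le,
      div_eq_mul_inv]
    congr 1
    rw [Lf, Real.exp_neg, Real.exp_log h4, one_div]
  have hfin : ∀ t ∈ Ico t₀ T, ∀ x,
      nrm (vort (u t) x) ≤ C ^ (1 / θ) * (1 / (T - t) * (Lf T t) ^ (-(β / θ))) := by
    intro t ht x
    rw [← hform t ht, ← Real.mul_rpow hC0 (Rf_pos T θ β t).le]
    have h1 := hC t ht x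
    have h2 := Real.rpow_le_rpow (Real.rpow_nonneg (nrm_nonneg _) θ) h1
      (show 0 ≤ 1 / θ by positivity)
    rwa [← Real.rpow_mul (nrm_nonneg _), mul_one_div_cancel hθ.ne', Real.rpow_one] at h2
  refine ⟨⟨C ^ (1 / θ), ?_⟩, bkm_of_rate h.sol ht₀ hγ hLpos hfin⟩
  have hmem : Ico t₀ T ∈ 𝓝[<] T := Ico_mem_nhdsLT ht₀.2
  filter_upwards [hmem] with t ht x
  refine (hfin t ht x).trans (le_of_eq ?_)
  rw [← Lf_eq, ← hβθ, Real.rpow_neg (hLpos t ht).le]
  have h4 : 0 < T - t := sub_pos.2 ht.2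
  have h5 : 0 < (Lf T t) ^ (β / θ) := Real.rpow_pos_of_pos (hLpos t ht) _
  field_simp

/-- The quantity `crit θ` for the linear flow. -/
lemma uf_crit (θ : ℝ) {t : ℝ} (ht : t ∈ Ico 0 T) (x : V) :
    crit θ (uf T t) (pf T t) x
      = (θ + 1 - (2 * θ + 1) / lf T t + (θ + 1) / (lf T t) ^ 2) / (T - t) ^ 2 := by
  have hy := yf_pos ht
  have hl := lf_ge ht
  have hs : 0 < T - t := sub_pos.2 ht.2
  have d1 : dirv (uf T t) x = ![0, 0, 1] := by
    unfold dirv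
    rw [uf_vort, nrm_e2, abs_of_pos hy]
    ext i
    fin_cases i <;> simp [hy.ne']
  have d2 : stretch (uf T t) x = af T t := by
    unfold stretch
    rw [d1, uf_grad]
    simp [Matrix.mulVec, dotProduct, Fin.sum_univ_three, Af]
  have d3 : turn (uf T t) x = 0 := by
    unfold turn
    rw [d2, d1, uf_grad]
    ext i
    fin_cases i <;> simp [Matrix.mulVec, dotProduct, Fin.sum_univ_three, Af]
  have d4 : dirv (uf T t) x ⬝ᵥ (hess (pf T t) x).mulVec (dirv (uf T t) x)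
      = -(bf T t + af T t ^ 2) := by
    rw [d1, pf_hess]
    simp [Matrix.mulVec_diagonal, dotProduct, Fin.sum_univ_three, df]
  unfold crit
  rw [d2, d3, d4]
  simp only [dotProduct_zero]
  unfold bf af
  field_simp
  ring

/-- The linear flow satisfies the hypothesis of the criterion for every `κ < 2 θ + 1`. -/
theorem uf_hyp_one (hT : 0 < T) {θ κ : ℝ} (hκ : κ < 2 * θ + 1) :
    ∀ᶠ t in 𝓝[<] T, ∀ x, (T - t) ^ 2 * crit θ (uf T t) (pf T t) x
      ≤ θ + 1 - κ / Real.log (1 / (T - t)) := by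
  have h1 : Tendsto (fun t => Lf T t / lf T t) (𝓝[<] T) (𝓝 1) := by
    have e : Tendsto (fun t => 1 - (1 + Real.log T) / lf T t) (𝓝[<] T) (𝓝 (1 - 0)) :=
      tendsto_const_nhds.sub ((tendsto_lf T).const_div_atTop _)
    rw [sub_zero] at e
    refine e.congr' ?_
    filter_upwards [(tendsto_lf T).eventually (eventually_gt_atTop 0)] with t ht
    have : Lf T t = lf T t - (1 + Real.log T) := by unfold lf; ring
    rw [this, sub_div, div_self ht.ne']
  have h2 : Tendsto (fun t => (2 * θ + 1) * (Lf T t / lf T t)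
      - (θ + 1) * (Lf T t / lf T t) * (1 / lf T t))
      (𝓝[<] T) (𝓝 ((2 * θ + 1) * 1 - (θ + 1) * 1 * 0)) :=
    (h1.const_mul (2 * θ + 1)).sub ((h1.const_mul (θ + 1)).mul ((tendsto_lf T).const_div_atTop 1))
  have h3 := h2.eventually (lt_mem_nhds
    (show κ < (2 * θ + 1) * 1 - (θ + 1) * 1 * 0 by linarith))
  filter_upwards [h3, (tendsto_Lf T).eventually (eventually_gt_atTop 0), Ico_mem_nhdsLT hT]
    with t ht hL htI x
  have hl := lf_ge htI
  have hs : 0 < T - t := sub_pos.2 htI.2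
  rw [uf_crit θ htI, ← Lf_eq]
  have e4 : (T - t) ^ 2 * ((θ + 1 - (2 * θ + 1) / lf T t + (θ + 1) / lf T t ^ 2) / (T - t) ^ 2)
      = θ + 1 - (2 * θ + 1) / lf T t + (θ + 1) / lf T t ^ 2 := by
    field_simp
  rw [e4]
  have : κ / Lf T t ≤ (2 * θ + 1) / lf T t - (θ + 1) / lf T t ^ 2 := by
    rw [div_le_iff₀ hL]
    refine ht.le.trans (le_of_eq ?_)
    field_simp
  linarith

end Pool.Agent.X85.EulerOne
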