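import Pool.Agent.W786.Max4
import Pool.Agent.TH340.RC.Sharp

/-!
# The pressure at a point of maximal vorticity
-/

set_option autoImplicit false

open MeasureTheory Set Filter
open scoped ENNReal NNReal Topology

namespace Pool.Agent.X85.EulerQ

open Pool.Agent.H708R2.EulerSign Pool.Agent.H708R2.EulerTypeI Pool.Agent.W786.Max
  Pool.Agent.W786.Dir Pool.Agent.W786.Sv

/-! ## The algebraic inequality -/

lemma poly_id (a b c d e x y z : ℝ) :
    4*(x^2+y^2+z^2)^2*((x^2+y^2+z^2)^2*(a^2+d^2+(a+d)^2+2*b^2+2*c^2+2*e^2)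
      - 2*(x^2+y^2+z^2)*((a*x+b*y+c*z)^2+(b*x+d*y+e*z)^2+(c*x+e*y-(a+d)*z)^2)
      + (x*(a*x+b*y+c*z)+y*(b*x+d*y+e*z)+z*(c*x+e*y-(a+d)*z))^2/2) =
    (2*(x^2+y^2+z^2)^2*a - 2*(x^2+y^2+z^2)*(2*x*(a*x+b*y+c*z))
      + (x*(a*x+b*y+c*z)+y*(b*x+d*y+e*z)+z*(c*x+e*y-(a+d)*z))*x^2
      + (x*(a*x+b*y+c*z)+y*(b*x+d*y+e*z)+z*(c*x+e*y-(a+d)*z))*(x^2+y^2+z^2))^2
    + (2*(x^2+y^2+z^2)^2*d - 2*(x^2+y^2+z^2)*(2*y*(b*x+d*y+e*z))
      + (x*(a*x+b*y+c*z)+y*(b*x+d*y+e*z)+z*(c*x+e*y-(a+d)*z))*y^2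
      + (x*(a*x+b*y+c*z)+y*(b*x+d*y+e*z)+z*(c*x+e*y-(a+d)*z))*(x^2+y^2+z^2))^2
    + (2*(x^2+y^2+z^2)^2*(-(a+d)) - 2*(x^2+y^2+z^2)*(2*z*(c*x+e*y-(a+d)*z))
      + (x*(a*x+b*y+c*z)+y*(b*x+d*y+e*z)+z*(c*x+e*y-(a+d)*z))*z^2
      + (x*(a*x+b*y+c*z)+y*(b*x+d*y+e*z)+z*(c*x+e*y-(a+d)*z))*(x^2+y^2+z^2))^2
    + 2*(2*(x^2+y^2+z^2)^2*b - 2*(x^2+y^2+z^2)*(x*(b*x+d*y+e*z)+y*(a*x+b*y+c*z))
      + (x*(a*x+b*y+c*z)+y*(b*x+d*y+e*z)+z*(c*x+e*y-(a+d)*z))*x*y)^2
    + 2*(2*(x^2+y^2+z^2)^2*c - 2*(x^2+y^2+z^2)*(x*(c*x+e*y-(a+d)*z)+z*(a*x+b*y+c*z))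
      + (x*(a*x+b*y+c*z)+y*(b*x+d*y+e*z)+z*(c*x+e*y-(a+d)*z))*x*z)^2
    + 2*(2*(x^2+y^2+z^2)^2*e - 2*(x^2+y^2+z^2)*(y*(c*x+e*y-(a+d)*z)+z*(b*x+d*y+e*z))
      +(x*(a*x+b*y+c*z)+y*(b*x+d*y+e*z)+z*(c*x+e*y-(a+d)*z))*y*z)^2 := by
  ring

lemma poly_ineq (a b c d e x y z : ℝ) (h : 0 < x^2+y^2+z^2) :
    0 ≤ (x^2+y^2+z^2)^2*(a^2+d^2+(a+d)^2+2*b^2+2*c^2+2*e^2)
      - 2*(x^2+y^2+z^2)*((a*x+b*y+c*z)^2+(b*x+d*y+e*z)^2+(c*x+e*y-(a+d)*z)^2)
      + (x*(a*x+b*y+c*z)+y*(b*x+d*y+e*z)+z*(c*x+e*y-(a+d)*z))^2/2 := by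
  have h1 := poly_id a b c d e x y z
  have h2 : 0 < 4*(x^2+y^2+z^2)^2 := by positivity
  by_contra hcon
  push Not at hcon
  have h3 := mul_neg_of_pos_of_neg h2 hcon
  rw [h1] at h3
  exact absurd h3 (not_lt.2 (by positivity))

/-- For a traceless matrix `A` with curl vector `w`:
`4 |w|² |A w|² - (w · A w)² ≤ |w|⁴ (2 tr (A²) + |w|²)`. -/
lemma mat_ineq {A : Matrix (Fin 3) (Fin 3) ℝ} (htr : A.trace = 0) (h0 : cv A ≠ 0) :
    4 * (cv A ⬝ᵥ cv A) * (A.mulVec (cv A) ⬝ᵥ A.mulVec (cv A)) - (cv A ⬝ᵥ A.mulVec (cv A)) ^ 2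
      ≤ (cv A ⬝ᵥ cv A) ^ 2 * (2 * (A * A).trace + cv A ⬝ᵥ cv A) := by
  have ht : A 0 0 + A 1 1 + A 2 2 = 0 := by
    simpa [Matrix.trace, Fin.sum_univ_three] using htr
  obtain ⟨x, hx⟩ : ∃ x, x = A 2 1 - A 1 2 := ⟨_, rfl⟩
  obtain ⟨y, hy⟩ : ∃ y, y = A 0 2 - A 2 0 := ⟨_, rfl⟩
  obtain ⟨z, hz⟩ : ∃ z, z = A 1 0 - A 0 1 := ⟨_, rfl⟩
  obtain ⟨a, ha⟩ : ∃ a, a = A 0 0 := ⟨_, rfl⟩
  obtain ⟨d, hd⟩ : ∃ d, d = A 1 1 := ⟨_, rfl⟩
  obtain ⟨b, hb⟩ : ∃ b, b = (A 0 1 + A 1 0) / 2 := ⟨_, rfl⟩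
  obtain ⟨c, hc⟩ : ∃ c, c = (A 0 2 + A 2 0) / 2 := ⟨_, rfl⟩
  obtain ⟨e, he⟩ : ∃ e, e = (A 1 2 + A 2 1) / 2 := ⟨_, rfl⟩
  have e22 : A 2 2 = -(a + d) := by rw [ha, hd]; linarith
  have e01 : A 0 1 = b - z / 2 := by rw [hb, hz]; ring
  have e10 : A 1 0 = b + z / 2 := by rw [hb, hz]; ring
  have e02 : A 0 2 = c + y / 2 := by rw [hc, hy]; ring
  have e20 : A 2 0 = c - y / 2 := by rw [hc, hy]; ring
  have e12 : A 1 2 = e - x / 2 := by rw [he, hx]; ring
  have e21 : A 2 1 = e + x / 2 := by rw [he, hx]; ring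
  have hcv : cv A = ![x, y, z] := by
    unfold cv
    rw [← hx, ← hy, ← hz]
  have hn : cv A ⬝ᵥ cv A = x^2+y^2+z^2 := by
    rw [hcv]
    simp [dotProduct, Fin.sum_univ_three]
    ring
  have hmv : A.mulVec (cv A) = ![a*x+b*y+c*z, b*x+d*y+e*z, c*x+e*y-(a+d)*z] := by
    rw [hcv]
    ext i
    fin_cases i
    · simp [Matrix.mulVec, dotProduct, Fin.sum_univ_three, e01, e02, ← ha]
      ring
    · simp [Matrix.mulVec, dotProduct, Fin.sum_univ_three, e10, e12, ← hd]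
      ring
    · simp [Matrix.mulVec, dotProduct, Fin.sum_univ_three, e20, e21, e22]
      ring
  have htr2 : (A * A).trace = a^2+d^2+(a+d)^2 + 2*(b^2 - z^2/4) + 2*(c^2 - y^2/4)
      + 2*(e^2 - x^2/4) := by
    simp [Matrix.trace, Matrix.mul_apply, Fin.sum_univ_three, e01, e10, e02, e20, e12, e21, e22,
      ← ha, ← hd]
    ring
  have hpos : 0 < x^2+y^2+z^2 := by
    rw [← hn]
    rw [← nrm_sq]
    have := nrm_pos h0
    positivity
  have key := poly_ineq a b c d e x y z hpos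
  have h1 : A.mulVec (cv A) ⬝ᵥ A.mulVec (cv A)
      = (a*x+b*y+c*z)^2+(b*x+d*y+e*z)^2+(c*x+e*y-(a+d)*z)^2 := by
    rw [hmv]
    simp [dotProduct, Fin.sum_univ_three]
    ring
  have h2 : cv A ⬝ᵥ A.mulVec (cv A)
      = x*(a*x+b*y+c*z)+y*(b*x+d*y+e*z)+z*(c*x+e*y-(a+d)*z) := by
    rw [hmv, hcv]
    simp [dotProduct, Fin.sum_univ_three]
  rw [hn, h1, h2, htr2]
  nlinarith [key]

variable {T : ℝ} {u : ℝ → V → V} {p : ℝ → V → ℝ}

/-- `Δp = - tr ((∇u)²)`. -/
lemma trace_hess (h : IsC2Solution T u p) {t : ℝ} (ht : t ∈ Ioo 0 T) (x : V) :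
    (hess (p t) x).trace = -(grad (u t) x * grad (u t) x).trace := by
  obtain ⟨a', ha1, ha2⟩ := exists_between ht.1
  obtain ⟨X, hX, hXx⟩ := exists_traj h.sol ha1.le ha2.le ht.2 x
  have hsub2 : Icc a' t ⊆ Ioo 0 T := fun s hs => ⟨ha1.trans_le hs.1, hs.2.trans_lt ht.2⟩
  have htI : t ∈ Icc a' t := ⟨ha2.le, le_rfl⟩
  have h1 : HasDerivWithinAt (fun s => ∑ i, grad (u s) (X s) i i)
      (∑ i, (-(grad (u t) (X t) * grad (u t) (X t)) i i - hess (p t) (X t) i i)) (Icc a' t) t :=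
    HasDerivWithinAt.fun_sum fun i _ => grad_deriv h hX hsub2 htI i i
  have h2 : HasDerivWithinAt (fun s => ∑ i, grad (u s) (X s) i i) 0 (Icc a' t) t := by
    refine (hasDerivWithinAt_const t (Icc a' t) (0 : ℝ)).congr (fun s hs => ?_) ?_
    · exact h.sol.div_free s ⟨(hsub2 hs).1.le, (hsub2 hs).2⟩ (X s)
    · exact h.sol.div_free t ⟨ht.1.le, ht.2⟩ (X t)
  have hu : UniqueDiffWithinAt ℝ (Icc a' t) t := uniqueDiffOn_Icc ha2 t htI
  have h3 := hu.eq_deriv _ h1 h2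
  rw [hXx] at h3
  simp only [Matrix.neg_apply, Finset.sum_sub_distrib, Finset.sum_neg_distrib] at h3
  simp only [Matrix.trace, Matrix.diag_apply]
  linarith

/-- The condition at a point for the pressure: `-2 Δp ≤ 4 |(∇v)ξ - αξ|² + (3k² - 1) |ω|²`. -/
def Cond (k : ℝ) (v : V → V) (q : V → ℝ) (x : V) : Prop :=
  -2 * (hess q x).trace ≤ 4 * (turn v x ⬝ᵥ turn v x) + (3 * k ^ 2 - 1) * (vort v x ⬝ᵥ vort v x)

lemma turn_sq {v : V → V} {x : V} (h0 : vort v x ≠ 0) :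
    (turn v x ⬝ᵥ turn v x) * (vort v x ⬝ᵥ vort v x) ^ 2
      = ((grad v x).mulVec (vort v x) ⬝ᵥ (grad v x).mulVec (vort v x)) * (vort v x ⬝ᵥ vort v x)
        - (vort v x ⬝ᵥ (grad v x).mulVec (vort v x)) ^ 2 := by
  have h1 := crit_eq 1 (v := v) (q := fun _ => 0) (x := x) h0
  have h2 : hess (fun _ : V => (0 : ℝ)) x = 0 := by
    ext i j
    simp [hess]
  unfold crit at h1
  rw [h2] at h1
  simp only [sub_self, zero_mul, add_zero, Matrix.zero_mulVec, dotProduct_zero, sub_zero] at h1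
  linarith

/-- The stretching rate at a point with the condition. -/
lemma rate_of_cond (h : IsC2Solution T u p) {t : ℝ} (ht : t ∈ Ioo 0 T) {x : V} {k : ℝ} (hk : 0 ≤ k)
    (hne : vort (u t) x ≠ 0) (hc : Cond k (u t) (p t) x) :
    Pq u t x ≤ k * nrm (vort (u t) x) * Wq u t x := by
  have hdiv := h.sol.div_free t ⟨ht.1.le, ht.2⟩ x
  have h1 := mat_ineq (A := grad (u t) x) hdiv (by rw [← vort_eq]; exact hne)
  rw [← vort_eq] at h1
  have h2 := turn_sq (v := u t) (x := x) hne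
  have h3 := trace_hess h ht x
  unfold Cond at hc
  rw [h3] at hc
  have hnp := nrm_pos hne
  have hn := nrm_sq (vort (u t) x)
  unfold Pq
  rw [Wq_eq]
  set n := vort (u t) x ⬝ᵥ vort (u t) x with hndef
  set m := nrm (vort (u t) x) with hm
  set a := vort (u t) x ⬝ᵥ (grad (u t) x).mulVec (vort (u t) x) with ha
  set Y := (grad (u t) x).mulVec (vort (u t) x) ⬝ᵥ (grad (u t) x).mulVec (vort (u t) x) with hY
  set τ := turn (u t) x ⬝ᵥ turn (u t) x with hτ
  set R := (grad (u t) x * grad (u t) x).trace with hR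
  have hnpos : 0 < n := by rw [← hn]; positivity
  have h4 : n ^ 2 * (2 * R) ≤ n ^ 2 * (4 * τ + (3 * k ^ 2 - 1) * n) := by
    have : 2 * R ≤ 4 * τ + (3 * k ^ 2 - 1) * n := by linarith
    gcongr
  have h5 : a ^ 2 ≤ k ^ 2 * n ^ 3 := by
    have e1 : τ * n ^ 2 = Y * n - a ^ 2 := h2
    nlinarith
  have h6 : a ^ 2 ≤ (k * m * m ^ 2) ^ 2 := by
    refine h5.trans (le_of_eq ?_)
    rw [← hn]
    ring
  exact (le_abs_self _).trans (abs_le_of_sq_le_sq h6 (by positivity))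

/-! ## Growth of the maximum -/

/-- Growth of the maximum at most at the rate `k |ω|`. -/
lemma growth_nl (h : IsC2Solution T u p) {a b : ℝ} (ha : 0 ≤ a) (hab : a ≤ b) (hb : b < T)
    {k : ℝ} (hk : 0 ≤ k)
    (hmax : ∀ᵐ t, t ∈ Ioo a b → ∃ x, IsMaxPt u t x ∧
      Pq u t x ≤ k * nrm (vort (u t) x) * Wq u t x)
    {K : ℝ} (hK0 : 0 < K) (hK : ∀ y, nrm (vort (u a) y) ≤ K) (x : V) :
    nrm (vort (u b) x) * (1 - k * K * (b - a)) ≤ K := by
  obtain ⟨C, hC0, hC⟩ := Mx_growth h hb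
  set m := nrm (vort (u b) x) with hm
  have hm0 : 0 ≤ m := nrm_nonneg _
  rcases hm0.eq_or_lt with hz | hmpos
  · rw [← hz, zero_mul]
    exact hK0.le
  have key : ∀ ε : ℝ, 0 < ε → 1 / Real.sqrt (K ^ 2 + ε) - k * (b - a) ≤ 1 / Real.sqrt (m ^ 2 + ε) := by
    intro ε hε
    have hpos : ∀ t, 0 < Mx u t + ε := fun t => by have := Mx_nonneg (u := u) t; linarith
    have hsq : ∀ t, 0 < Real.sqrt (Mx u t + ε) := fun t => Real.sqrt_pos.2 (hpos t)
    have hle : ∀ t, Real.sqrt ε ≤ Real.sqrt (Mx u t + ε) := fun t =>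
      Real.sqrt_le_sqrt (by have := Mx_nonneg (u := u) t; linarith)
    have hsε : 0 < Real.sqrt ε := Real.sqrt_pos.2 hε
    have h1 : -(1 / Real.sqrt (Mx u b + ε)) - -(1 / Real.sqrt (Mx u a + ε)) ≤ ∫ _t in a..b, k := by
      refine growth_of_ae (L := fun t => -(1 / Real.sqrt (Mx u t + ε))) (C := C / Real.sqrt ε) hab
        ?_ intervalIntegrable_const ?_
      · intro s hs t ht hst
        have h2 := hC s ⟨ha.trans hs.1, hs.2⟩ t ⟨ha.trans ht.1, ht.2⟩ hst
        have hts : 0 ≤ t - s := by linarith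
        have h3 : 1 ≤ Real.exp (2 * C * (t - s)) := Real.one_le_exp (by positivity)
        have h4 : Mx u t + ε ≤ (Mx u s + ε) * Real.exp (C * (t - s)) ^ 2 := by
          have e1 : Real.exp (C * (t - s)) ^ 2 = Real.exp (2 * C * (t - s)) := by
            rw [← Real.exp_nat_mul]
            congr 1
            push_cast
            ring
          rw [e1]
          nlinarith
        have h5 : Real.sqrt (Mx u t + ε) ≤ Real.sqrt (Mx u s + ε) * Real.exp (C * (t - s)) := by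
          have := Real.sqrt_le_sqrt h4
          rwa [Real.sqrt_mul (hpos s).le, Real.sqrt_sq (Real.exp_pos _).le] at this
        have h6 : 1 / (Real.sqrt (Mx u s + ε) * Real.exp (C * (t - s)))
            ≤ 1 / Real.sqrt (Mx u t + ε) := one_div_le_one_div_of_le (hsq t) h5
        have h7 : 1 / (Real.sqrt (Mx u s + ε) * Real.exp (C * (t - s)))
            = (1 / Real.sqrt (Mx u s + ε)) * Real.exp (-(C * (t - s))) := by
          rw [Real.exp_neg]
          field_simp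
        rw [h7] at h6
        have h8 : 1 - C * (t - s) ≤ Real.exp (-(C * (t - s))) := by
          have := Real.add_one_le_exp (-(C * (t - s)))
          linarith
        have h9 : 0 < 1 / Real.sqrt (Mx u s + ε) := by have := hsq s; positivity
        have h10 : (1 / Real.sqrt (Mx u s + ε)) * (1 - C * (t - s)) ≤ 1 / Real.sqrt (Mx u t + ε) :=
          (mul_le_mul_of_nonneg_left h8 h9.le).trans h6
        have h11 : 1 / Real.sqrt (Mx u s + ε) ≤ 1 / Real.sqrt ε :=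
          one_div_le_one_div_of_le hsε (hle s)
        have h12 : (1 / Real.sqrt (Mx u s + ε)) * (C * (t - s)) ≤ 1 / Real.sqrt ε * (C * (t - s)) := by
          gcongr
        have h13 : C / Real.sqrt ε * (t - s) = 1 / Real.sqrt ε * (C * (t - s)) := by ring
        rw [h13]
        linarith
      · filter_upwards [hmax] with t ht htI d hd
        obtain ⟨z, hz, hz2⟩ := ht htI
        have htT : t ∈ Ioo 0 T := ⟨ha.trans_lt htI.1, htI.2.trans hb⟩
        have hW0 := Wq_nonneg (u := u) t z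
        have h4 : 0 < Wq u t z + ε := by linarith
        have hs4 : 0 < Real.sqrt (Wq u t z + ε) := Real.sqrt_pos.2 h4
        have hΦd : HasDerivAt (fun y => -(1 / Real.sqrt (y + ε)))
            (1 / (2 * Real.sqrt (Wq u t z + ε) * (Wq u t z + ε))) (Wq u t z) := by
          have h5 : HasDerivAt (fun y => Real.sqrt (y + ε)) (1 / (2 * Real.sqrt (Wq u t z + ε)))
              (Wq u t z) := ((hasDerivAt_id (Wq u t z)).add_const ε).sqrt h4.ne'
          have h6 := (h5.fun_inv hs4.ne').neg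
          simp only [one_div]
          refine h6.congr_deriv ?_
          rw [Real.sq_sqrt h4.le]
          field_simp
        have h2 := deriv_le h htT hz (Φ := fun y => -(1 / Real.sqrt (y + ε))) (by
          intro y hy w _ hyw
          have : (0 : ℝ) ≤ y := hy
          have h5 : Real.sqrt (y + ε) ≤ Real.sqrt (w + ε) := Real.sqrt_le_sqrt (by linarith)
          have h6 : 0 < Real.sqrt (y + ε) := Real.sqrt_pos.2 (by linarith)
          have h7 := one_div_le_one_div_of_le h6 h5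
          simp only
          linarith) hΦd hd
        refine h2.trans ?_
        have h5 : vort (u t) z ⬝ᵥ (grad (u t) z).mulVec (vort (u t) z)
            ≤ k * nrm (vort (u t) z) * Wq u t z := hz2
        have h6 : nrm (vort (u t) z) ≤ Real.sqrt (Wq u t z + ε) := by
          rw [Wq_eq]
          refine Real.le_sqrt_of_sq_le ?_
          linarith
        have h7 : k * nrm (vort (u t) z) * Wq u t z
            ≤ k * Real.sqrt (Wq u t z + ε) * (Wq u t z + ε) := by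
          have h8 := nrm_nonneg (vort (u t) z)
          gcongr
          linarith
        calc 1 / (2 * Real.sqrt (Wq u t z + ε) * (Wq u t z + ε))
              * (2 * (vort (u t) z ⬝ᵥ (grad (u t) z).mulVec (vort (u t) z)))
            ≤ 1 / (2 * Real.sqrt (Wq u t z + ε) * (Wq u t z + ε))
              * (2 * (k * Real.sqrt (Wq u t z + ε) * (Wq u t z + ε))) := by
              gcongr
              exact h5.trans h7
          _ = k := by
              field_simp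
    rw [intervalIntegral.integral_const, smul_eq_mul] at h1
    have h2 : 1 / Real.sqrt (K ^ 2 + ε) ≤ 1 / Real.sqrt (Mx u a + ε) := by
      refine one_div_le_one_div_of_le (hsq a) (Real.sqrt_le_sqrt ?_)
      have := Mx_le hK
      linarith
    have h3 : 1 / Real.sqrt (Mx u b + ε) ≤ 1 / Real.sqrt (m ^ 2 + ε) := by
      refine one_div_le_one_div_of_le (Real.sqrt_pos.2 (by positivity)) (Real.sqrt_le_sqrt ?_)
      have := Wq_le h.sol ⟨ha.trans hab, hb⟩ x
      rw [Wq_eq] at this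
      linarith
    linarith
  -- the limit `ε → 0`
  have hlim : 1 / K - k * (b - a) ≤ 1 / m := by
    have hK1 : Tendsto (fun ε : ℝ => 1 / Real.sqrt (K ^ 2 + ε) - k * (b - a)) (𝓝[>] 0)
        (𝓝 (1 / Real.sqrt (K ^ 2 + 0) - k * (b - a))) := by
      have hc : ContinuousAt (fun ε : ℝ => 1 / Real.sqrt (K ^ 2 + ε) - k * (b - a)) 0 := by
        refine ContinuousAt.sub (ContinuousAt.div continuousAt_const ?_ ?_) continuousAt_const
        · fun_prop
        · rw [add_zero]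
          exact (Real.sqrt_pos.2 (by positivity)).ne'
      exact hc.tendsto.mono_left nhdsWithin_le_nhds
    have hm1 : Tendsto (fun ε : ℝ => 1 / Real.sqrt (m ^ 2 + ε)) (𝓝[>] 0)
        (𝓝 (1 / Real.sqrt (m ^ 2 + 0))) := by
      have hc : ContinuousAt (fun ε : ℝ => 1 / Real.sqrt (m ^ 2 + ε)) 0 := by
        refine ContinuousAt.div continuousAt_const ?_ ?_
        · fun_prop
        · rw [add_zero]
          exact (Real.sqrt_pos.2 (by positivity)).ne'
      exact hc.tendsto.mono_left nhdsWithin_le_nhds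
    have h1 := le_of_tendsto_of_tendsto hK1 hm1 (by
      filter_upwards [self_mem_nhdsWithin] with ε hε
      exact key ε hε)
    rwa [add_zero, add_zero, Real.sqrt_sq hK0.le, Real.sqrt_sq hmpos.le] at h1
  have h1 : m * (1 / K - k * (b - a)) ≤ 1 := by
    have := mul_le_mul_of_nonneg_left hlim hmpos.le
    rwa [mul_one_div_cancel hmpos.ne'] at this
  have h2 : m * (1 - k * K * (b - a)) = K * (m * (1 / K - k * (b - a))) := by
    field_simp
  rw [h2]
  calc K * (m * (1 / K - k * (b - a))) ≤ K * 1 := by gcongr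
    _ = K := mul_one K

/-- Comparison with the solutions `1 / (k (T₁ - t))` of `Y' = k Y²`. -/
lemma comp_nl (h : IsC2Solution T u p) {a b T₁ : ℝ} (ha : 0 < a) (hab : a ≤ b) (hb : b < T)
    (hT₁ : b < T₁) {k : ℝ} (hk : 0 < k)
    (h0 : ∀ y, nrm (vort (u a) y) ≤ 1 / (k * (T₁ - a)))
    (hmax : ∀ᵐ t, t ∈ Ioo a b → ∃ x, IsMaxPt u t x ∧
      (1 / (k * (T₁ - a)) < nrm (vort (u t) x) → Pq u t x ≤ k * nrm (vort (u t) x) * Wq u t x))
    (x : V) : nrm (vort (u b) x) ≤ 1 / (k * (T₁ - b)) := by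
  by_contra hcon
  push Not at hcon
  have hnc : ∀ y, ContinuousOn (fun t => nrm (vort (u t) y)) (Icc a b) := by
    intro y
    have h1 := nrm_vort_cont h.sol hb
    have h2 : Continuous fun t : ℝ => ((t, y) : ℝ × V) := by fun_prop
    have h3 := h1.comp (s := Icc a b) h2.continuousOn
      fun t ht => ⟨⟨ha.le.trans ht.1, ht.2⟩, mem_univ _⟩
    simpa only [Function.comp_def] using h3
  have hGc : ContinuousOn (fun t => 1 / (k * (T₁ - t))) (Icc a b) := by
    refine ContinuousOn.div continuousOn_const (by fun_prop) fun t ht => ?_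
    have : 0 < T₁ - t := by linarith [ht.2]
    positivity
  set S : Set ℝ := {t ∈ Icc a b | ∀ y, nrm (vort (u t) y) ≤ 1 / (k * (T₁ - t))} with hS
  have hSc : IsCompact S := by
    have : IsClosed S := by
      have h1 : S = Icc a b ∩ ⋂ y, (Icc a b ∩
          (fun t => nrm (vort (u t) y) - 1 / (k * (T₁ - t))) ⁻¹' Iic 0) := by
        ext t
        simp only [hS, mem_inter_iff, mem_iInter, mem_preimage, mem_Iic, sub_nonpos]
        constructor
        · rintro ⟨h1, h2⟩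
          exact ⟨h1, fun y => ⟨h1, h2 y⟩⟩
        · rintro ⟨h1, h2⟩
          exact ⟨h1, fun y => (h2 y).2⟩
      rw [h1]
      exact isClosed_Icc.inter (isClosed_iInter fun y =>
        ((hnc y).sub hGc).preimage_isClosed_of_isClosed isClosed_Icc isClosed_Iic)
    exact isCompact_Icc.of_isClosed_subset this fun t ht => ht.1
  have hSne : S.Nonempty := ⟨a, ⟨le_rfl, hab⟩, h0⟩
  obtain ⟨hsI, hsG⟩ := hSc.sSup_mem hSne
  set s := sSup S with hs
  have hsT : 0 < T₁ - s := by linarith [hsI.2]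
  have hlt : ∀ t ∈ Ioc s b, ∀ z, IsMaxPt u t z → 1 / (k * (T₁ - a)) < nrm (vort (u t) z) := by
    intro t ht z hz
    have htI : t ∈ Icc a b := ⟨hsI.1.trans ht.1.le, ht.2⟩
    have htT : 0 < T₁ - t := by linarith [ht.2]
    have h2 : 1 / (k * (T₁ - a)) ≤ 1 / (k * (T₁ - t)) := by
      apply one_div_le_one_div_of_le (by positivity)
      have := htI.1
      gcongr
    by_contra h1
    push Not at h1
    have : t ∈ S := ⟨htI, fun y => (hz y).trans (h1.trans h2)⟩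
    exact absurd (le_csSup hSc.bddAbove this) (not_le.2 ht.1)
  have h1 := growth_nl h (ha.le.trans hsI.1) hsI.2 hb hk.le (by
      filter_upwards [hmax] with t ht htI
      obtain ⟨z, hz, hz2⟩ := ht ⟨hsI.1.trans_lt htI.1, htI.2⟩
      exact ⟨z, hz, hz2 (hlt t ⟨htI.1, htI.2.le⟩ z hz)⟩) (K := 1 / (k * (T₁ - s)))
      (by positivity) hsG x
  have hbT : 0 < T₁ - b := by linarith
  have h2 : 1 - k * (1 / (k * (T₁ - s))) * (b - s) = (T₁ - b) / (T₁ - s) := by
    field_simp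
    ring
  rw [h2] at h1
  have h3 : nrm (vort (u b) x) ≤ 1 / (k * (T₁ - b)) := by
    have h4 : nrm (vort (u b) x) = nrm (vort (u b) x) * ((T₁ - b) / (T₁ - s)) * ((T₁ - s) / (T₁ - b)) := by
      field_simp
    rw [h4]
    calc nrm (vort (u b) x) * ((T₁ - b) / (T₁ - s)) * ((T₁ - s) / (T₁ - b))
        ≤ 1 / (k * (T₁ - s)) * ((T₁ - s) / (T₁ - b)) := by gcongr
      _ = 1 / (k * (T₁ - b)) := by field_simp
  exact absurd h3 (not_le.2 hcon)

/-- The lower bound for the maximum of the vorticity before a singularity. -/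
theorem lower (h : IsC2Solution T u p) {k Λ s : ℝ} (hk : 0 < k) (hs : s ∈ Ioo 0 T)
    (hΛ : k * Λ * (T - s) < 1) (hsing : ¬ BKMFinite T u)
    (hmax : ∀ᵐ t, t ∈ Ioo s T → ∃ x, IsMaxPt u t x ∧
      (Λ < nrm (vort (u t) x) → Cond k (u t) (p t) x)) :
    ∃ x, 1 / (k * (T - s)) ≤ nrm (vort (u s) x) := by
  obtain ⟨z, hz⟩ := exists_isMaxPt h.sol ⟨hs.1.le, hs.2⟩
  refine ⟨z, ?_⟩
  by_contra hcon
  push Not at hcon
  set m := nrm (vort (u s) z) with hm
  have hTs : 0 < T - s := sub_pos.2 hs.2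
  -- a slightly later blow-up time
  have hmL : max m Λ < 1 / (k * (T - s)) := by
    refine max_lt hcon ?_
    rw [lt_div_iff₀ (by positivity)]
    linarith
  obtain ⟨r, hr1, hr2⟩ := exists_between hmL
  rcases le_or_gt r 0 with hr0 | hr0
  · -- no vorticity
    have : m < 0 := (le_max_left m Λ).trans_lt (hr1.trans_le hr0)
    exact absurd (nrm_nonneg (vort (u s) z)) (not_le.2 this)
  set T₁ := s + 1 / (k * r) with hT₁
  have hT₁T : T < T₁ := by
    have h1 : T - s < 1 / (k * r) := by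
      rw [lt_div_iff₀ (by positivity)]
      have := (lt_div_iff₀ (by positivity)).1 hr2
      linarith
    linarith
  have hT₁s : 1 / (k * (T₁ - s)) = r := by
    rw [hT₁, add_sub_cancel_left]
    field_simp
  have hb : ∀ b ∈ Ico s T, ∀ x, nrm (vort (u b) x) ≤ 1 / (k * (T₁ - T)) := by
    intro b hb x
    have h1 := comp_nl h hs.1 hb.1 hb.2 (hb.2.trans hT₁T) hk (T₁ := T₁)
      (fun y => by rw [hT₁s]; exact (hz y).trans ((le_max_left m Λ).trans hr1.le)) (by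
        filter_upwards [hmax] with t ht htI
        have htT : t ∈ Ioo 0 T := ⟨hs.1.trans htI.1, htI.2.trans hb.2⟩
        obtain ⟨y, hy, hy2⟩ := ht ⟨htI.1, htI.2.trans hb.2⟩
        refine ⟨y, hy, fun hlt => ?_⟩
        rw [hT₁s] at hlt
        have h2 : vort (u t) y ≠ 0 := by
          intro h0
          rw [h0] at hlt
          have : nrm (0 : V) = 0 := by simp [nrm]
          rw [this] at hlt
          linarith
        exact rate_of_cond h htT hk.le h2 (hy2 ((le_max_right m Λ).trans_lt (hr1.trans hlt)))) x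
    refine h1.trans ?_
    have h3 : 0 < T₁ - T := by linarith
    apply one_div_le_one_div_of_le (by positivity)
    have := hb.2.le
    gcongr
  apply hsing
  refine Pool.Agent.TH340.RC.bkm_of_bound h.sol hs (F := fun _ => 1 / (k * (T₁ - T))) hb ?_
  rw [setLIntegral_const, Real.volume_Ioo]
  exact ENNReal.mul_lt_top ENNReal.ofReal_lt_top ENNReal.ofReal_lt_top

end Pool.Agent.X85.EulerQ
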