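import Pool.Agent.X85.EulerQ

/-!
# Sharpness: linear flows
-/

set_option autoImplicit false

open MeasureTheory Set Filter
open scoped ENNReal NNReal Topology

namespace Pool.Agent.X85.EulerQ

open Pool.Agent.H708R2.EulerSign Pool.Agent.H708R2.EulerTypeI

/-- The vorticity of the linear flow. -/
noncomputable def yk (k T t : ℝ) : ℝ := (k * (T - t))⁻¹

/-- The stretching rate of the linear flow. -/
noncomputable def ak (T t : ℝ) : ℝ := (T - t)⁻¹

/-- The derivative of the stretching rate. -/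
noncomputable def bk (T t : ℝ) : ℝ := ((T - t)⁻¹) ^ 2

/-- The linear flow. -/
noncomputable def uk (k T t : ℝ) (x : V) : V :=
  ![-(ak T t / 2) * x 0 - yk k T t / 2 * x 1, yk k T t / 2 * x 0 - ak T t / 2 * x 1,
    ak T t * x 2]

/-- The coefficient of `x₀² + x₁²` in twice the pressure. -/
noncomputable def hk (k T t : ℝ) : ℝ := bk T t / 2 - ak T t ^ 2 / 4 + yk k T t ^ 2 / 4

/-- The pressure of the linear flow. -/
noncomputable def pk (k T t : ℝ) (x : V) : ℝ :=
  (hk k T t * (x 0 ^ 2 + x 1 ^ 2) - (bk T t + ak T t ^ 2) * x 2 ^ 2) / 2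

variable {k T : ℝ}

lemma yk_hasDerivAt (hk : 0 < k) {t : ℝ} (ht : t ∈ Ico 0 T) :
    HasDerivAt (yk k T) (ak T t * yk k T t) t := by
  have h3 : HasDerivAt (fun t => k * (T - t)) (k * -1) t := by
    have : HasDerivAt (fun t => T - t) (-1) t := by
      simpa using (hasDerivAt_id t).const_sub T
    exact this.const_mul k
  have hs : 0 < T - t := sub_pos.2 ht.2
  refine (h3.fun_inv (by positivity)).congr_deriv ?_
  unfold ak yk
  field_simp

lemma ak_hasDerivAt {t : ℝ} (ht : t ∈ Ico 0 T) : HasDerivAt (ak T) (bk T t) t := by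
  have h3 : HasDerivAt (fun t => T - t) (-1) t := by
    simpa using (hasDerivAt_id t).const_sub T
  have hs : 0 < T - t := sub_pos.2 ht.2
  refine (h3.fun_inv hs.ne').congr_deriv ?_
  unfold bk
  field_simp
  try ring

/-- The velocity gradient of the linear flow. -/
noncomputable def Ak (k T t : ℝ) : Matrix (Fin 3) (Fin 3) ℝ :=
  !![-(ak T t / 2), -(yk k T t / 2), 0; yk k T t / 2, -(ak T t / 2), 0; 0, 0, ak T t]

lemma uk_eq (k T t : ℝ) : uk k T t = (Ak k T t).mulVec := by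
  ext x i
  fin_cases i <;> simp [uk, Ak, Matrix.mulVec, dotProduct, Fin.sum_univ_three] <;> ring

lemma uk_fderiv (k T t : ℝ) (x : V) :
    HasFDerivAt (uk k T t) (Matrix.mulVecLin (Ak k T t)).toContinuousLinearMap x := by
  rw [uk_eq]
  exact (Matrix.mulVecLin (Ak k T t)).toContinuousLinearMap.hasFDerivAt

lemma uk_fderiv_apply (k T t : ℝ) (x : V) (i j : Fin 3) :
    fderiv ℝ (uk k T t) x (Pi.single j 1) i = Ak k T t i j := by
  rw [(uk_fderiv k T t x).fderiv]
  simp

lemma uk_grad (k T t : ℝ) (x : V) : grad (uk k T t) x = Ak k T t := by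
  ext i j
  exact uk_fderiv_apply k T t x i j

lemma uk_vort (k T t : ℝ) (x : V) : vort (uk k T t) x = ![0, 0, yk k T t] := by
  unfold vort
  rw [uk_grad]
  ext i
  fin_cases i <;> simp [Ak]

/-- The eigenvalues of the pressure Hessian of the linear flow. -/
noncomputable def dk (k T t : ℝ) : V := ![hk k T t, hk k T t, -(bk T t + ak T t ^ 2)]

lemma pk_fderiv (k T t : ℝ) (x : V) (i : Fin 3) :
    fderiv ℝ (pk k T t) x (Pi.single i 1) = dk k T t i * x i := by
  have h0 : ∀ i : Fin 3, HasFDerivAt (fun x : V => x i) (ContinuousLinearMap.proj i : V →L[ℝ] ℝ) x :=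
    fun i => (ContinuousLinearMap.proj i : V →L[ℝ] ℝ).hasFDerivAt
  have h1 : HasFDerivAt (pk k T t) _ x :=
    (((((h0 0).pow 2).add ((h0 1).pow 2)).const_mul (hk k T t)).sub
      (((h0 2).pow 2).const_mul (bk T t + ak T t ^ 2))).mul_const (1 / 2) |>.congr_of_eventuallyEq
      (Eventually.of_forall fun y => by simp [pk]; ring)
  rw [h1.fderiv]
  fin_cases i <;> simp [dk] <;> ring

lemma pk_hess (k T t : ℝ) (x : V) : hess (pk k T t) x = Matrix.diagonal (dk k T t) := by
  ext i j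
  show fderiv ℝ (fun y => fderiv ℝ (pk k T t) y (Pi.single i 1)) x (Pi.single j 1) = _
  have h0 : (fun y => fderiv ℝ (pk k T t) y (Pi.single i 1)) = fun y => dk k T t i * y i := by
    funext y; exact pk_fderiv k T t y i
  have h1 : HasFDerivAt (fun y : V => dk k T t i * y i)
      (dk k T t i • (ContinuousLinearMap.proj i : V →L[ℝ] ℝ)) x :=
    ((ContinuousLinearMap.proj i : V →L[ℝ] ℝ).hasFDerivAt (x := x)).const_mul (dk k T t i)
  rw [h0, h1.fderiv]
  by_cases hij : i = j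
  · subst hij; simp
  · simp [Matrix.diagonal_apply_ne _ hij, Pi.single_eq_of_ne hij]

lemma cd_inv : ContDiffOn ℝ (⊤ : ℕ∞) (fun z : ℝ × V => (T - z.1)⁻¹) (Ico 0 T ×ˢ univ) := by
  have h1 : ContDiffOn ℝ (⊤ : ℕ∞) (fun z : ℝ × V => T - z.1) (Ico 0 T ×ˢ univ) := by fun_prop
  exact h1.inv (fun z hz => (sub_pos.2 hz.1.2).ne')

lemma cd_ak : ContDiffOn ℝ (⊤ : ℕ∞) (fun z : ℝ × V => ak T z.1) (Ico 0 T ×ˢ univ) := cd_inv

lemma cd_bk : ContDiffOn ℝ (⊤ : ℕ∞) (fun z : ℝ × V => bk T z.1) (Ico 0 T ×ˢ univ) :=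
  cd_inv.pow 2

lemma cd_yk (hk : 0 < k) :
    ContDiffOn ℝ (⊤ : ℕ∞) (fun z : ℝ × V => yk k T z.1) (Ico 0 T ×ˢ univ) := by
  have h1 : ContDiffOn ℝ (⊤ : ℕ∞) (fun z : ℝ × V => k * (T - z.1)) (Ico 0 T ×ˢ univ) := by fun_prop
  exact h1.inv (fun z hz => (mul_pos hk (sub_pos.2 hz.1.2)).ne')

lemma cd_hk (hk0 : 0 < k) :
    ContDiffOn ℝ (⊤ : ℕ∞) (fun z : ℝ × V => hk k T z.1) (Ico 0 T ×ˢ univ) := by
  unfold hk
  exact ((cd_bk.div_const 2).sub ((cd_ak.pow 2).div_const 4)).add
    (((cd_yk hk0).pow 2).div_const 4)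

/-- The linear flow solves the Euler equations. -/
theorem uk_solution (hk0 : 0 < k) (T : ℝ) : IsSpaceSolution T (uk k T) (pk k T) := by
  have c : ∀ i : Fin 3, ContDiffOn ℝ (⊤ : ℕ∞) (fun z : ℝ × V => z.2 i) (Ico 0 T ×ˢ univ) :=
    fun i => (contDiff_coord i).contDiffOn
  refine ⟨?_, ?_, ?_, ?_⟩
  · rw [contDiffOn_pi]
    intro i
    fin_cases i
    · exact ((cd_ak.div_const 2).neg.mul (c 0)).sub (((cd_yk hk0).div_const 2).mul (c 1))
    · exact (((cd_yk hk0).div_const 2).mul (c 0)).sub ((cd_ak.div_const 2).mul (c 1))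
    · exact cd_ak.mul (c 2)
  · unfold pk
    exact (((cd_hk hk0).mul (((c 0).pow 2).add ((c 1).pow 2))).sub
      ((cd_bk.add (cd_ak.pow 2)).mul ((c 2).pow 2))).div_const 2
  · intro t _ x
    unfold divergence
    rw [uk_grad]
    simp [Matrix.trace, Fin.sum_univ_three, Ak]
    ring
  · intro t ht x i
    simp only [uk_fderiv_apply, pk_fderiv]
    have hu : UniqueDiffWithinAt ℝ (Ico 0 T) t := uniqueDiffOn_Ico 0 T t ht
    have ha := (ak_hasDerivAt ht).hasDerivWithinAt (s := Ico 0 T)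
    have hy := (yk_hasDerivAt hk0 ht).hasDerivWithinAt (s := Ico 0 T)
    fin_cases i
    · have h1 : HasDerivWithinAt (fun s => uk k T s x 0) _ (Ico 0 T) t :=
        ((ha.div_const 2).neg.mul_const (x 0)).sub ((hy.div_const 2).mul_const (x 1))
      simp only [Fin.zero_eta, Fin.isValue]
      rw [h1.derivWithin hu]
      simp [Fin.sum_univ_three, uk, Ak, dk, hk]
      ring
    · have h1 : HasDerivWithinAt (fun s => uk k T s x 1) _ (Ico 0 T) t :=
        ((hy.div_const 2).mul_const (x 0)).sub ((ha.div_const 2).mul_const (x 1))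
      simp only [Fin.mk_one, Fin.isValue]
      rw [h1.derivWithin hu]
      simp [Fin.sum_univ_three, uk, Ak, dk, hk]
      ring
    · have h1 : HasDerivWithinAt (fun s => uk k T s x 2) _ (Ico 0 T) t := ha.mul_const (x 2)
      simp only [Fin.reduceFinMk, Fin.isValue]
      rw [h1.derivWithin hu]
      simp [Fin.sum_univ_three, uk, Ak, dk]
      ring

/-- The condition holds with equality. -/
lemma uk_cond (hk0 : 0 < k) {t : ℝ} (ht : t < T) (x : V) : Cond k (uk k T t) (pk k T t) x := by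
  have hs : 0 < T - t := sub_pos.2 ht
  have hy : 0 < yk k T t := by unfold yk; positivity
  have d1 : dirv (uk k T t) x = ![0, 0, 1] := by
    unfold dirv
    rw [uk_vort, nrm_e2, abs_of_pos hy]
    ext i
    fin_cases i <;> simp [hy.ne']
  have d2 : stretch (uk k T t) x = ak T t := by
    unfold stretch
    rw [d1, uk_grad]
    simp [Matrix.mulVec, dotProduct, Fin.sum_univ_three, Ak]
  have d3 : turn (uk k T t) x = 0 := by
    unfold turn
    rw [d2, d1, uk_grad]
    ext i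
    fin_cases i <;> simp [Ak]
  have d4 : (hess (pk k T t) x).trace = -(3 / 2) * ak T t ^ 2 + yk k T t ^ 2 / 2 := by
    rw [pk_hess, Matrix.trace_diagonal]
    simp [Fin.sum_univ_three, dk, hk]
    unfold bk ak
    ring
  unfold Cond
  rw [d3, d4, uk_vort]
  have e : ak T t = k * yk k T t := by
    unfold ak yk
    field_simp
  rw [e]
  simp [dotProduct, Fin.sum_univ_three]
  apply le_of_eq
  ring

lemma uk_nrm (hk0 : 0 < k) {t : ℝ} (ht : t < T) (x : V) :
    nrm (vort (uk k T t) x) = 1 / (k * (T - t)) := by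
  have hs : 0 < T - t := sub_pos.2 ht
  have hy : 0 < yk k T t := by unfold yk; positivity
  rw [uk_vort, nrm_e2, abs_of_pos hy]
  unfold yk
  rw [one_div]

/-- The Beale-Kato-Majda integral diverges. -/
theorem uk_not_bkm (hk0 : 0 < k) (hT : 0 < T) : ¬ BKMFinite T (uk k T) := by
  intro hfin
  refine Pool.Agent.TH340.RC.ug_not_bkm (α := 1) le_rfl hT ?_
  unfold BKMFinite at hfin ⊢
  have h1 : ∀ t ∈ Ioo 0 T, (⨆ x, ENNReal.ofReal (nrm (vort (Pool.Agent.TH340.RC.ug 1 T t) x)))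
      = ENNReal.ofReal k * ⨆ x, ENNReal.ofReal (nrm (vort (uk k T t) x)) := by
    intro t ht
    have hs : 0 < T - t := sub_pos.2 ht.2
    rw [ENNReal.mul_iSup]
    refine iSup_congr fun x => ?_
    rw [← ENNReal.ofReal_mul hk0.le, uk_nrm hk0 ht.2, Pool.Agent.TH340.RC.ug_vort, nrm_e2]
    congr 1
    unfold Pool.Agent.TH340.RC.yg
    rw [Real.rpow_neg_one, abs_of_pos (by positivity)]
    field_simp
  rw [setLIntegral_congr_fun measurableSet_Ioo h1, lintegral_const_mul' _ _ ENNReal.ofReal_ne_top]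
  exact ENNReal.mul_lt_top ENNReal.ofReal_lt_top hfin

end Pool.Agent.X85.EulerQ

namespace Pool.Agent.X85.EulerQ

open Pool.Agent.H708R2.EulerSign Pool.Agent.H708R2.EulerTypeI

/-- The pointwise inequality for the rates of stretching and of turning of the vorticity. -/
theorem pt_ineq {T : ℝ} {u : ℝ → V → V} {p : ℝ → V → ℝ} (h : IsC2Solution T u p) {t : ℝ}
    (ht : t ∈ Ioo 0 T) {x : V} (hne : vort (u t) x ≠ 0) :
    3 * stretch (u t) x ^ 2 + 4 * (turn (u t) x ⬝ᵥ turn (u t) x)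
      ≤ vort (u t) x ⬝ᵥ vort (u t) x - 2 * (hess (p t) x).trace := by
  have hdiv := h.sol.div_free t ⟨ht.1.le, ht.2⟩ x
  have h1 := mat_ineq (A := grad (u t) x) hdiv (by rw [← vort_eq]; exact hne)
  rw [← vort_eq] at h1
  have h2 := turn_sq (v := u t) (x := x) hne
  have h3 := trace_hess h ht x
  have hnp := nrm_pos hne
  have hn := nrm_sq (vort (u t) x)
  have hst : stretch (u t) x
      = (vort (u t) x ⬝ᵥ (grad (u t) x).mulVec (vort (u t) x)) / (vort (u t) x ⬝ᵥ vort (u t) x) := by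
    rw [← hn]
    unfold stretch dirv
    rw [Matrix.mulVec_smul, smul_dotProduct, dotProduct_smul, smul_eq_mul, smul_eq_mul]
    field_simp
  rw [hst, h3]
  set n := vort (u t) x ⬝ᵥ vort (u t) x with hndef
  set a := vort (u t) x ⬝ᵥ (grad (u t) x).mulVec (vort (u t) x) with ha
  set Y := (grad (u t) x).mulVec (vort (u t) x) ⬝ᵥ (grad (u t) x).mulVec (vort (u t) x) with hY
  set τ := turn (u t) x ⬝ᵥ turn (u t) x with hτ
  set R := (grad (u t) x * grad (u t) x).trace with hR
  have hnpos : 0 < n := by rw [← hn]; positivity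
  have h4 : n ^ 2 * (3 * (a / n) ^ 2 + 4 * τ) ≤ n ^ 2 * (n - 2 * -R) := by
    have e1 : n ^ 2 * (3 * (a / n) ^ 2 + 4 * τ) = 3 * a ^ 2 + 4 * (τ * n ^ 2) := by
      field_simp
    rw [e1, h2]
    nlinarith
  exact le_of_mul_le_mul_left h4 (by positivity)

end Pool.Agent.X85.EulerQ
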