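import Pool.Agent.X85.EulerOne

/-!
# The one-sided threshold for the stretching rate (`θ = 0`)
-/

open MeasureTheory Set Filter
open scoped ENNReal NNReal Topology

namespace Pool.Agent.X85.EulerOne

open Pool.Agent.H708R2.EulerSign Pool.Agent.H708R2.EulerTypeI

variable {T : ℝ} {u : ℝ → V → V} {p : ℝ → V → ℝ}

/-- If `f'' ≤ g''` then `f ≤ g + C`. -/
lemma log_comp {a b : ℝ} (hab : a ≤ b) {f f1 f2 g g1 g2 : ℝ → ℝ}
    (hf : ∀ t ∈ Icc a b, HasDerivWithinAt f (f1 t) (Icc a b) t)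
    (hf1 : ∀ t ∈ Icc a b, HasDerivWithinAt f1 (f2 t) (Icc a b) t)
    (hg : ∀ t ∈ Icc a b, HasDerivWithinAt g (g1 t) (Icc a b) t)
    (hg1 : ∀ t ∈ Icc a b, HasDerivWithinAt g1 (g2 t) (Icc a b) t)
    (h2 : ∀ t ∈ Icc a b, f2 t ≤ g2 t) :
    f b - g b ≤ f a - g a + |f1 a - g1 a| * (b - a) := by
  have hW : ∀ t ∈ Icc a b, f1 t - g1 t ≤ f1 a - g1 a := by
    refine image_le_of_deriv_right_le_deriv_boundary (f := fun t => f1 t - g1 t)
      (f' := fun t => f2 t - g2 t) (B := fun _ => f1 a - g1 a) (B' := fun _ => 0) ?_ ?_ le_rfl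
      continuousOn_const (fun t ht => hasDerivWithinAt_const _ _ _) ?_
    · exact fun t ht => ((hf1 t ht).sub (hg1 t ht)).continuousWithinAt
    · exact fun t ht => right_of_Icc ht
        ((hf1 t (Ico_subset_Icc_self ht)).sub (hg1 t (Ico_subset_Icc_self ht)))
    · intro t ht
      have := h2 t (Ico_subset_Icc_self ht)
      linarith
  have hq : ∀ t ∈ Icc a b, f t - g t ≤ f a - g a + |f1 a - g1 a| * (t - a) := by
    refine image_le_of_deriv_right_le_deriv_boundary (f := fun t => f t - g t)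
      (f' := fun t => f1 t - g1 t)
      (B' := fun _ => |f1 a - g1 a|) ?_ ?_ (by simp)
      (by fun_prop) (fun t ht => ?_) ?_
    · exact fun t ht => ((hf t ht).sub (hg t ht)).continuousWithinAt
    · exact fun t ht => right_of_Icc ht
        ((hf t (Ico_subset_Icc_self ht)).sub (hg t (Ico_subset_Icc_self ht)))
    · have := (((hasDerivAt_id t).sub_const a).const_mul (|f1 a - g1 a|)).const_add (f a - g a)
      simpa using this.hasDerivWithinAt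
    · intro t ht
      exact (hW t (Ico_subset_Icc_self ht)).trans (le_abs_self _)
  exact hq b ⟨hab, le_rfl⟩

/-- The comparison principle for the logarithm of the vorticity. -/
theorem vort_comp_log (h : IsC2Solution T u p) {t₀ : ℝ} (ht₀ : t₀ ∈ Ioo 0 T) {G G1 G2 : ℝ → ℝ}
    (hG : ∀ t ∈ Ico t₀ T, HasDerivAt G (G1 t) t) (hG1 : ∀ t ∈ Ico t₀ T, HasDerivAt G1 (G2 t) t)
    (hyp : ∀ t ∈ Ico t₀ T, ∀ x, vort (u t) x ≠ 0 → crit 0 (u t) (p t) x ≤ G2 t) :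
    ∃ C : ℝ, 0 ≤ C ∧ ∀ t ∈ Ico t₀ T, ∀ x, nrm (vort (u t) x) ≤ C * Real.exp (G t) := by
  obtain ⟨M, hM0, hM⟩ := vort_bound h.sol ht₀.2
  have h00 : t₀ ∈ Icc 0 t₀ := ⟨ht₀.1.le, le_rfl⟩
  have hTt : 0 < T - t₀ := sub_pos.2 ht₀.2
  refine ⟨(M + 1) * Real.exp (-G t₀ + (M + |G1 t₀|) * (T - t₀)), by positivity,
    fun t₁ ht₁ x => ?_⟩
  by_cases hx0 : vort (u t₁) x = 0
  · rw [hx0]
    have : nrm (0 : V) = 0 := by simp [nrm]
    rw [this]
    positivity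
  obtain ⟨X, hX, hXx⟩ := exists_traj h.sol ht₀.1.le ht₁.1 ht₁.2 x
  have hsub : Icc t₀ t₁ ⊆ Ico t₀ T := Icc_subset_Ico_right ht₁.2
  have hsub2 : Icc t₀ t₁ ⊆ Ioo 0 T := fun t ht => ⟨ht₀.1.trans_le ht.1, ht.2.trans_lt ht₁.2⟩
  have hne := vort_ne_zero h hX hsub2 (by rwa [hXx])
  set y : ℝ → V := fun t => vort (u t) (X t) with hy
  set y1 : ℝ → V := fun t => (grad (u t) (X t)).mulVec (vort (u t) (X t)) with hy1
  set y2 : ℝ → V := fun t => -(hess (p t) (X t)).mulVec (vort (u t) (X t)) with hy2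
  have hyd : ∀ t ∈ Icc t₀ t₁, HasDerivWithinAt y (y1 t) (Icc t₀ t₁) t := fun t ht =>
    vort_deriv h hX hsub2 ht
  have hy1d : ∀ t ∈ Icc t₀ t₁, HasDerivWithinAt y1 (y2 t) (Icc t₀ t₁) t := fun t ht =>
    vort_deriv2 h hX hsub2 ht
  have hpos : ∀ t ∈ Icc t₀ t₁, 0 < y t ⬝ᵥ y t := by
    intro t ht
    rw [← nrm_sq]
    have := nrm_pos (hne t ht)
    positivity
  have dotd : ∀ {f g : ℝ → V} {f' g' : V} {t : ℝ}, HasDerivWithinAt f f' (Icc t₀ t₁) t →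
      HasDerivWithinAt g g' (Icc t₀ t₁) t →
      HasDerivWithinAt (fun t => f t ⬝ᵥ g t) (f' ⬝ᵥ g t + f t ⬝ᵥ g') (Icc t₀ t₁) t := by
    intro f g f' g' t hf hg
    have h1 : HasDerivWithinAt (fun t => ∑ i, f t i * g t i)
        (∑ i, (f' i * g t i + f t i * g' i)) (Icc t₀ t₁) t :=
      HasDerivWithinAt.fun_sum fun i _ =>
        (hasDerivWithinAt_pi.1 hf i).mul (hasDerivWithinAt_pi.1 hg i)
    refine h1.congr_deriv ?_
    simp [dotProduct, Finset.sum_add_distrib]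
  have hfd : ∀ t ∈ Icc t₀ t₁, HasDerivWithinAt (fun t => Real.log (y t ⬝ᵥ y t) / 2)
      ((y t ⬝ᵥ y1 t) / (y t ⬝ᵥ y t)) (Icc t₀ t₁) t := by
    intro t ht
    have h1 := ((dotd (hyd t ht) (hyd t ht)).log (hpos t ht).ne').div_const 2
    refine h1.congr_deriv ?_
    rw [dotProduct_comm (y1 t) (y t)]
    ring
  have hf1d : ∀ t ∈ Icc t₀ t₁, HasDerivWithinAt (fun t => (y t ⬝ᵥ y1 t) / (y t ⬝ᵥ y t))
      (crit 0 (u t) (p t) (X t)) (Icc t₀ t₁) t := by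
    intro t ht
    have hp0 := hpos t ht
    have h1 := (dotd (hyd t ht) (hy1d t ht)).div (dotd (hyd t ht) (hyd t ht)) hp0.ne'
    refine h1.congr_deriv ?_
    have h2 := crit_eq 0 (v := u t) (q := p t) (x := X t) (hne t ht)
    rw [div_eq_iff (by positivity), h2]
    simp only [hy, hy1, hy2, dotProduct_neg]
    rw [dotProduct_comm ((grad (u t) (X t)).mulVec (vort (u t) (X t))) (vort (u t) (X t))]
    ring
  have key := log_comp ht₁.1 hfd hf1d (fun t ht => (hG t (hsub ht)).hasDerivWithinAt)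
    (fun t ht => (hG1 t (hsub ht)).hasDerivWithinAt)
    (fun t ht => hyp t (hsub ht) (X t) (hne t ht))
  have hI : t₀ ∈ Icc t₀ t₁ := ⟨le_rfl, ht₁.1⟩
  have hlog : ∀ t, Real.log (y t ⬝ᵥ y t) / 2 = Real.log (nrm (vort (u t) (X t))) := by
    intro t
    rw [← nrm_sq, Real.log_pow]
    push_cast
    ring
  have hb1 : |(y t₀ ⬝ᵥ y1 t₀) / (y t₀ ⬝ᵥ y t₀)| ≤ M := by
    have hp0 := hpos t₀ hI
    rw [abs_div, abs_of_pos hp0, div_le_iff₀ hp0]
    exact (hM t₀ h00 (X t₀)).2.2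
  have hb0 : Real.log (nrm (vort (u t₀) (X t₀))) ≤ Real.log (M + 1) := by
    have h1 := nrm_pos (hne t₀ hI)
    exact Real.log_le_log h1 (by linarith [(hM t₀ h00 (X t₀)).1])
  have hb2 : |(y t₀ ⬝ᵥ y1 t₀) / (y t₀ ⬝ᵥ y t₀) - G1 t₀| * (t₁ - t₀)
      ≤ (M + |G1 t₀|) * (T - t₀) := by
    have h1 : |(y t₀ ⬝ᵥ y1 t₀) / (y t₀ ⬝ᵥ y t₀) - G1 t₀| ≤ M + |G1 t₀| :=
      (abs_sub _ _).trans (by linarith)
    have h2 : 0 ≤ t₁ - t₀ := by linarith [ht₁.1]
    have h3 : t₁ - t₀ ≤ T - t₀ := by linarith [ht₁.2]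
    gcongr
  have hn1 : 0 < nrm (vort (u t₁) (X t₁)) := nrm_pos (hne t₁ ⟨ht₁.1, le_rfl⟩)
  simp only [hlog] at key
  have hfin : Real.log (nrm (vort (u t₁) x))
      ≤ Real.log (M + 1) + (-G t₀ + (M + |G1 t₀|) * (T - t₀)) + G t₁ := by
    rw [hXx] at key
    linarith
  rw [hXx] at hn1
  rw [← Real.exp_log hn1, ← Real.exp_log (show 0 < M + 1 by linarith), ← Real.exp_add,
    ← Real.exp_add]
  rw [Real.exp_le_exp]
  exact hfin

/-- The one-sided criterion for `θ = 0`. -/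
theorem one_sided_zero (hT : 0 < T) (h : IsC2Solution T u p) {κ : ℝ} (hκ : 1 < κ)
    (hyp : ∀ᶠ t in 𝓝[<] T, ∀ x, vort (u t) x ≠ 0 →
      (T - t) ^ 2 * crit 0 (u t) (p t) x ≤ 1 - κ / Real.log (1 / (T - t))) :
    (∃ C : ℝ, ∀ᶠ t in 𝓝[<] T, ∀ x,
      nrm (vort (u t) x) ≤ C / ((T - t) * Real.log (1 / (T - t)) ^ κ)) ∧
    BKMFinite T u := by
  obtain ⟨t₀, ht₀, hP⟩ := exists_start hT hyp 1
  have hLpos : ∀ t ∈ Ico t₀ T, 0 < Lf T t := fun t ht => lt_of_lt_of_le one_pos (hP t ht).2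
  have hG : ∀ t ∈ Ico t₀ T, HasDerivAt (fun t => Lf T t - κ * Real.log (Lf T t))
      ((1 - κ / Lf T t) / (T - t)) t := by
    intro t ht
    have hL := hLpos t ht
    have h1 := Lf_hasDerivAt ht.2
    have h2 := h1.fun_sub ((h1.log hL.ne').const_mul κ)
    refine h2.congr_deriv ?_
    have := (sub_pos.2 ht.2).ne'
    field_simp
  have hG1 : ∀ t ∈ Ico t₀ T, HasDerivAt (fun t => (1 - κ / Lf T t) / (T - t))
      ((1 - κ / Lf T t + κ / (Lf T t) ^ 2) / (T - t) ^ 2) t := by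
    intro t ht
    have hL := hLpos t ht
    have h1 := Lf_hasDerivAt ht.2
    have hs : T - t ≠ 0 := (sub_pos.2 ht.2).ne'
    have h3 : HasDerivAt (fun t => T - t) (-1) t := by
      simpa using (hasDerivAt_id t).const_sub T
    have h4 : HasDerivAt (fun t => 1 - κ / Lf T t) (κ / (Lf T t) ^ 2 * (1 / (T - t))) t := by
      have := ((hasDerivAt_const t κ).div h1 hL.ne').const_sub 1
      refine this.congr_deriv ?_
      field_simp
      ring
    refine (h4.fun_div h3 hs).congr_deriv ?_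
    have := hL.ne'
    field_simp
    ring
  obtain ⟨C, hC0, hC⟩ := vort_comp_log h ht₀ hG hG1 (by
    intro t ht x hx
    have h4 : 0 < T - t := sub_pos.2 ht.2
    have h6 := (hP t ht).1 x hx
    have hl := hLpos t ht
    rw [← Lf_eq] at h6
    rw [le_div_iff₀ (by positivity)]
    have e2 : 0 ≤ κ / (Lf T t) ^ 2 := by positivity
    linarith)
  have hfin : ∀ t ∈ Ico t₀ T, ∀ x,
      nrm (vort (u t) x) ≤ C * (1 / (T - t) * (Lf T t) ^ (-κ)) := by
    intro t ht x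
    have h1 := hLpos t ht
    have h4 : 0 < T - t := sub_pos.2 ht.2
    refine (hC t ht x).trans (le_of_eq ?_)
    congr 1
    rw [Real.exp_sub, mul_comm κ, ← Real.rpow_def_of_pos h1, Real.rpow_neg h1.le,
      div_eq_mul_inv]
    congr 1
    rw [Lf, Real.exp_neg, Real.exp_log h4, one_div]
  refine ⟨⟨C, ?_⟩, bkm_of_rate h.sol ht₀ hκ hLpos hfin⟩
  have hmem : Ico t₀ T ∈ 𝓝[<] T := Ico_mem_nhdsLT ht₀.2
  filter_upwards [hmem] with t ht x
  refine (hfin t ht x).trans (le_of_eq ?_)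
  rw [← Lf_eq, Real.rpow_neg (hLpos t ht).le]
  have h4 : 0 < T - t := sub_pos.2 ht.2
  have h5 : 0 < (Lf T t) ^ κ := Real.rpow_pos_of_pos (hLpos t ht) _
  field_simp

end Pool.Agent.X85.EulerOne
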