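import Mathlib
import Pool.Agent.H275R3.OhFlow

/-!
# Finite-dimensional tools: evaluation functionals, conservative ODEs, vanishing of polynomials
-/

set_option autoImplicit false

open Set Filter Topology
open scoped ContDiff

namespace Pool.Agent.X85.FD

/-- The coordinates of a finite-dimensional space of functions are combinations of evaluations. -/
theorem coord_eval {ι : Type*} {n : ℕ} (e : Fin n → ι → ℝ) (he : LinearIndependent ℝ e)
    (j : Fin n) : ∃ (s : Finset ι) (a : ι → ℝ), ∀ c : Fin n → ℝ,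
      ∑ z ∈ s, a z * (∑ i, c i * e i z) = c j := by
  classical
  set ψ : ι → (Fin n → ℝ) := fun z i => e i z with hψ
  have htop : Submodule.span ℝ (range ψ) = ⊤ := by
    by_contra hne
    obtain ⟨f, hf0, hf⟩ := Submodule.exists_le_ker_of_lt_top _ (lt_top_iff_ne_top.2 hne)
    apply hf0
    have h1 : ∑ i, f (Pi.single i 1) • e i = 0 := by
      funext z
      have h2 : f (ψ z) = 0 := hf (Submodule.subset_span ⟨z, rfl⟩)
      have h3 : ψ z = ∑ i, ψ z i • (Pi.single i (1 : ℝ) : Fin n → ℝ) := by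
        ext k
        simp [Finset.sum_apply, Pi.single_apply]
      rw [h3, map_sum] at h2
      simp only [map_smul, smul_eq_mul] at h2
      simp only [Finset.sum_apply, Pi.smul_apply, smul_eq_mul, Pi.zero_apply]
      rw [← h2]
      exact Finset.sum_congr rfl fun i _ => mul_comm _ _
    have h4 := Fintype.linearIndependent_iff.1 he _ h1
    refine LinearMap.pi_ext' fun i => ?_
    ext
    simpa using h4 i
  have hmem : (Pi.single j (1 : ℝ) : Fin n → ℝ) ∈ Submodule.span ℝ (range ψ) := by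
    rw [htop]; trivial
  obtain ⟨l, hl⟩ := (Finsupp.mem_span_range_iff_exists_finsupp).1 hmem
  refine ⟨l.support, fun z => l z, fun c => ?_⟩
  have h5 : ∀ i, ∑ z ∈ l.support, l z * e i z = (Pi.single j (1 : ℝ) : Fin n → ℝ) i := by
    intro i
    rw [← hl, Finsupp.sum, Finset.sum_apply]
    rfl
  calc ∑ z ∈ l.support, l z * (∑ i, c i * e i z)
      = ∑ i, c i * ∑ z ∈ l.support, l z * e i z := by
        simp_rw [Finset.mul_sum]
        rw [Finset.sum_comm]
        refine Finset.sum_congr rfl fun i _ => Finset.sum_congr rfl fun z _ => ?_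
        ring
    _ = c j := by
        simp_rw [h5]
        simp [Pi.single_apply]

/-- A vector field which preserves a positive definite diagonal quadratic form has global
solutions. -/
theorem global_of_conserved {n : ℕ} {F : (Fin n → ℝ) → (Fin n → ℝ)} (hF : ContDiff ℝ 1 F)
    {w : Fin n → ℝ} (hw : ∀ i, 0 < w i) (hc : ∀ x, ∑ i, w i * (x i * F x i) = 0)
    (t₀ : ℝ) (x₀ : Fin n → ℝ) :
    ∃ c : ℝ → (Fin n → ℝ), c t₀ = x₀ ∧ (∀ t, HasDerivAt c (F (c t)) t) ∧ ∃ M, ∀ t, ‖c t‖ ≤ M := by
  classical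
  set Q : (Fin n → ℝ) → ℝ := fun x => ∑ i, w i * x i ^ 2 with hQ
  -- sublevel sets are bounded
  obtain ⟨r, hr, hrQ⟩ : ∃ r : ℝ, 0 < r ∧ ∀ x, Q x ≤ Q x₀ → ‖x‖ ≤ r := by
    refine ⟨1 + ∑ i, Q x₀ / w i, ?_, fun x hx => ?_⟩
    · have : 0 ≤ ∑ i, Q x₀ / w i := Finset.sum_nonneg fun i _ =>
        div_nonneg (Finset.sum_nonneg fun i _ => mul_nonneg (hw i).le (sq_nonneg _)) (hw i).le
      linarith
    · have hS : 0 ≤ ∑ i, Q x₀ / w i := Finset.sum_nonneg fun i _ =>
        div_nonneg (Finset.sum_nonneg fun i _ => mul_nonneg (hw i).le (sq_nonneg _)) (hw i).le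
      rw [pi_norm_le_iff_of_nonneg (by linarith)]
      intro i
      have h1 : w i * x i ^ 2 ≤ Q x := by
        refine Finset.single_le_sum (f := fun i => w i * x i ^ 2)
          (fun i _ => mul_nonneg (hw i).le (sq_nonneg _)) (Finset.mem_univ i)
      have h2 : x i ^ 2 ≤ Q x₀ / w i := by
        rw [le_div_iff₀ (hw i)]
        linarith
      have h3 : Q x₀ / w i ≤ ∑ i, Q x₀ / w i :=
        Finset.single_le_sum (f := fun i => Q x₀ / w i)
          (fun i _ => div_nonneg (Finset.sum_nonneg fun i _ => mul_nonneg (hw i).le (sq_nonneg _))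
            (hw i).le) (Finset.mem_univ i)
      rw [Real.norm_eq_abs]
      have h4 : |x i| ^ 2 = x i ^ 2 := sq_abs _
      nlinarith [sq_nonneg (|x i| - 1)]
  -- the cut-off field
  let f : ContDiffBump (0 : Fin n → ℝ) := ⟨r + 1, r + 2, by linarith, by linarith⟩
  set v : (Fin n → ℝ) → (Fin n → ℝ) := fun x => f x • F x with hv
  have hv1 : ContDiff ℝ 1 v := f.contDiff.smul hF
  have hvs : HasCompactSupport v := f.hasCompactSupport.smul_right
  obtain ⟨K, hK⟩ := hv1.lipschitzWith_of_hasCompactSupport hvs one_ne_zero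
  obtain ⟨B, hB⟩ := hv1.continuous.bounded_above_of_compact_support hvs
  have hB0 : 0 ≤ B := (norm_nonneg _).trans (hB 0)
  obtain ⟨φ, h0, hφ⟩ := Pool.Agent.H275R3.exists_global_flow v (B := ⟨B, hB0⟩) hK hB
  set c : ℝ → (Fin n → ℝ) := fun t => φ (t - t₀) x₀ with hcdef
  have hc1 : ∀ t, HasDerivAt c (v (c t)) t := by
    intro t
    have h1 : HasDerivAt (fun t => φ (t - t₀) x₀) ((1 : ℝ) • v (φ (t - t₀) x₀)) t :=
      HasDerivAt.scomp (h := fun s : ℝ => s - t₀) (h' := 1) t (hφ x₀ (t - t₀))
        ((hasDerivAt_id t).sub_const t₀)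
    rw [one_smul] at h1
    exact h1
  have hQc : ∀ t, Q (c t) = Q x₀ := by
    have hd : ∀ t, HasDerivAt (fun t => Q (c t)) 0 t := by
      intro t
      have h1 : HasDerivAt (fun t => ∑ i, w i * c t i ^ 2)
          (∑ i, w i * (2 * c t i ^ (2 - 1) * v (c t) i)) t := by
        refine HasDerivAt.fun_sum fun i _ => ?_
        have h2 : HasDerivAt (fun t => c t i) (v (c t) i) t := hasDerivAt_pi.1 (hc1 t) i
        exact (h2.pow 2).const_mul (w i)
      refine h1.congr_deriv ?_
      have h3 : ∑ i, w i * (2 * c t i ^ (2 - 1) * v (c t) i)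
          = 2 * f (c t) * ∑ i, w i * (c t i * F (c t) i) := by
        rw [Finset.mul_sum]
        refine Finset.sum_congr rfl fun i _ => ?_
        simp only [hv, Pi.smul_apply, smul_eq_mul]
        ring
      rw [h3, hc, mul_zero]
    intro t
    have h2 := is_const_of_deriv_eq_zero (f := fun t => Q (c t))
      (fun t => (hd t).differentiableAt) (fun t => (hd t).deriv) t t₀
    rw [h2]
    simp [hcdef, h0]
  have hn : ∀ t, ‖c t‖ ≤ r := fun t => hrQ _ (hQc t).le
  refine ⟨c, by simp [hcdef, h0], fun t => ?_, r, hn⟩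
  have h1 := hc1 t
  have h2 : f (c t) = 1 := by
    refine f.one_of_mem_closedBall ?_
    rw [mem_closedBall_zero_iff]
    exact (hn t).trans (by show r ≤ r + 1; linarith)
  simpa [hv, h2] using h1

open MvPolynomial in
/-- The derivative of a polynomial along a polynomial ODE. -/
theorem hasDerivAt_eval {n : ℕ} {F : Fin n → MvPolynomial (Fin n) ℝ} {c : ℝ → Fin n → ℝ} {t : ℝ}
    (hc : HasDerivAt c (fun i => eval (c t) (F i)) t) (P : MvPolynomial (Fin n) ℝ) :
    HasDerivAt (fun s => eval (c s) P) (eval (c t) (mkDerivation ℝ F P)) t := by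
  induction P using MvPolynomial.induction_on with
  | C a =>
    rw [derivation_C, map_zero]
    simp only [eval_C]
    exact hasDerivAt_const _ _
  | add p q hp hq =>
    simp only [map_add]
    exact hp.add hq
  | mul_X p i hp =>
    have h1 : HasDerivAt (fun s => c s i) (eval (c t) (F i)) t := hasDerivAt_pi.1 hc i
    have h2 := hp.mul h1
    simp only [map_mul, eval_X]
    refine h2.congr_deriv ?_
    rw [Derivation.leibniz, mkDerivation_X]
    simp only [smul_eq_mul, map_add, map_mul, eval_X]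
    ring

open MvPolynomial in
/-- If polynomials vanish along a piece of a bounded trajectory of a polynomial ODE, they vanish
along the whole trajectory. -/
theorem vanish {n : ℕ} {F : Fin n → MvPolynomial (Fin n) ℝ} {S : Set (MvPolynomial (Fin n) ℝ)}
    {c : ℝ → Fin n → ℝ} {a b : ℝ} (hc : ∀ t ∈ Ioo a b, HasDerivAt c (fun i => eval (c t) (F i)) t)
    (hS : ∀ P ∈ S, ∀ t ∈ Ioo a b, eval (c t) P = 0)
    {d : ℝ → Fin n → ℝ} (hd : ∀ t, HasDerivAt d (fun i => eval (d t) (F i)) t)
    {M : ℝ} (hM : ∀ t, ‖d t‖ ≤ M) {t₀ : ℝ} (ht₀ : t₀ ∈ Ioo a b) (h0 : d t₀ = c t₀) :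
    ∀ P ∈ S, ∀ t, eval (d t) P = 0 := by
  classical
  set D := mkDerivation ℝ F with hD
  set G : Set (MvPolynomial (Fin n) ℝ) := {g | ∃ k : ℕ, ∃ P ∈ S, g = (D^[k]) P} with hG
  -- the iterated Lie derivatives vanish on the piece
  have hz : ∀ g ∈ G, eval (d t₀) g = 0 := by
    rintro g ⟨k, P, hP, rfl⟩
    rw [h0]
    have : ∀ k : ℕ, ∀ t ∈ Ioo a b, eval (c t) ((D^[k]) P) = 0 := by
      intro k
      induction k with
      | zero => exact fun t ht => hS P hP t ht
      | succ k ih =>
        intro t ht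
        rw [Function.iterate_succ_apply']
        have h1 := hasDerivAt_eval (hc t ht) ((D^[k]) P)
        have h2 : HasDerivAt (fun s => eval (c s) ((D^[k]) P)) 0 t := by
          refine (hasDerivAt_const t (0 : ℝ)).congr_of_eventuallyEq ?_
          filter_upwards [Ioo_mem_nhds ht.1 ht.2] with s hs
          exact ih s hs
        exact h1.unique h2
    exact this k t₀ ht₀
  -- Noetherian
  have hfg : (Ideal.span G).FG := (isNoetherianRing_iff_ideal_fg _).1 inferInstance _
  obtain ⟨S', hS'G, hspan⟩ := (Submodule.fg_span_iff_fg_span_finset_subset G).1 hfg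
  have hstab : ∀ g ∈ G, D g ∈ Ideal.span (S' : Set (MvPolynomial (Fin n) ℝ)) := by
    rintro g ⟨k, P, hP, rfl⟩
    have h1 : D ((D^[k]) P) ∈ G := ⟨k + 1, P, hP, by rw [Function.iterate_succ_apply']⟩
    have h2 : Ideal.span (S' : Set (MvPolynomial (Fin n) ℝ)) = Ideal.span G := hspan.symm
    rw [h2]
    exact Ideal.subset_span h1
  -- the linear system
  have hrel : ∀ g : S', ∃ A : S' → MvPolynomial (Fin n) ℝ, D (g : MvPolynomial (Fin n) ℝ)
      = ∑ h : S', A h * (h : MvPolynomial (Fin n) ℝ) := by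
    intro g
    have h1 := hstab g (hS'G g.2)
    obtain ⟨f, hf⟩ := (Submodule.mem_span_finset'.1 h1)
    exact ⟨f, hf.symm⟩
  choose A hA using hrel
  -- bounds of the coefficients
  have hbd : ∀ P : MvPolynomial (Fin n) ℝ, ∃ K, ∀ t, |eval (d t) P| ≤ K := by
    intro P
    have hK : IsCompact (Metric.closedBall (0 : Fin n → ℝ) M) := isCompact_closedBall _ _
    obtain ⟨K, hK⟩ := hK.exists_bound_of_continuousOn
      (f := fun x => eval x P) (MvPolynomial.continuous_eval P).continuousOn
    exact ⟨K, fun t => hK _ (by rw [mem_closedBall_zero_iff]; exact hM t)⟩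
  choose Kb hKb using hbd
  have hKb0 : ∀ P, 0 ≤ Kb P := fun P => (abs_nonneg _).trans (hKb P 0)
  set K : ℝ := ∑ g : S', ∑ h : S', Kb (A g h) with hKdef
  set y : ℝ → (S' → ℝ) := fun t g => eval (d t) (g : MvPolynomial (Fin n) ℝ) with hy
  set y' : ℝ → (S' → ℝ) := fun t g => eval (d t) (D (g : MvPolynomial (Fin n) ℝ)) with hy'
  have hyd : ∀ t, HasDerivAt y (y' t) t := by
    intro t
    rw [hasDerivAt_pi]
    intro g
    exact hasDerivAt_eval (hd t) _
  have hyb : ∀ t, ‖y' t‖ ≤ K * ‖y t‖ := by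
    intro t
    have hK0 : 0 ≤ K := Finset.sum_nonneg fun g _ => Finset.sum_nonneg fun h _ => hKb0 _
    rw [pi_norm_le_iff_of_nonneg (by positivity)]
    intro g
    simp only [hy']
    rw [hA g, map_sum]
    calc ‖∑ h : S', eval (d t) (A g h * (h : MvPolynomial (Fin n) ℝ))‖
        ≤ ∑ h : S', ‖eval (d t) (A g h * (h : MvPolynomial (Fin n) ℝ))‖ := norm_sum_le _ _
      _ ≤ ∑ h : S', Kb (A g h) * ‖y t‖ := by
          refine Finset.sum_le_sum fun h _ => ?_
          rw [map_mul, norm_mul]
          gcongr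
          · exact hKb0 _
          · exact hKb _ t
          · exact norm_le_pi_norm (y t) h
      _ = (∑ h : S', Kb (A g h)) * ‖y t‖ := by rw [Finset.sum_mul]
      _ ≤ K * ‖y t‖ := by
          gcongr
          exact Finset.single_le_sum (f := fun g => ∑ h : S', Kb (A g h))
            (fun g _ => Finset.sum_nonneg fun h _ => hKb0 _) (Finset.mem_univ g)
  have hy0 : y t₀ = 0 := by
    funext g
    exact hz g (hS'G g.2)
  have hyz : ∀ t, y t = 0 := by
    intro t
    rcases le_total t₀ t with h | h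
    · exact eq_zero_of_abs_deriv_le_mul_abs_self_of_eq_zero_right (f := y) (f' := y') (K := K)
        (a := t₀) (b := t) (fun s _ => (hyd s).continuousAt.continuousWithinAt)
        (fun s _ => (hyd s).hasDerivWithinAt) hy0 (fun s _ => hyb s) t ⟨h, le_rfl⟩
    · have hneg : ∀ s, HasDerivAt (fun s => y (-s)) (-(y' (-s))) s := by
        intro s
        have h1 : HasDerivAt (fun s => y (-s)) ((-1 : ℝ) • y' (-s)) s :=
          (hyd (-s)).scomp s (hasDerivAt_neg s)
        rw [neg_one_smul] at h1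
        exact h1
      have h2 := eq_zero_of_abs_deriv_le_mul_abs_self_of_eq_zero_right (f := fun s => y (-s))
        (f' := fun s => -(y' (-s))) (K := K)
        (a := -t₀) (b := -t) (fun s _ => (hneg s).continuousAt.continuousWithinAt)
        (fun s _ => (hneg s).hasDerivWithinAt) (by simp only [neg_neg]; exact hy0)
        (fun s _ => by simp only [norm_neg]; exact hyb _) (-t) ⟨by linarith, le_rfl⟩
      simpa using h2
  intro P hP t
  have h1 : P ∈ Ideal.span (S' : Set (MvPolynomial (Fin n) ℝ)) := by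
    have h2 : Ideal.span (S' : Set (MvPolynomial (Fin n) ℝ)) = Ideal.span G := hspan.symm
    rw [h2]
    exact Ideal.subset_span ⟨0, P, hP, rfl⟩
  obtain ⟨f, hf⟩ := (Submodule.mem_span_finset'.1 h1)
  rw [← hf, map_sum]
  refine Finset.sum_eq_zero fun g _ => ?_
  have h3 : eval (d t) (g : MvPolynomial (Fin n) ℝ) = 0 := congrFun (hyz t) g
  rw [smul_eq_mul, map_mul, h3, mul_zero]

end Pool.Agent.X85.FD
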