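import Pool.Agent.X85.FDAlg
import Pool.Agent.X85.EulerMod

/-!
# Euler solutions whose velocities span a finite-dimensional space
-/

set_option autoImplicit false

open Set Filter Topology MeasureTheory
open scoped ContDiff

namespace Pool.Agent.X85.FD

open Pool.Agent.H708R2.EulerSign

/-- Continuously differentiable, periodic, divergence-free fields. -/
def Good : Submodule ℝ (V → V) where
  carrier := {f | ContDiff ℝ 1 f ∧ Periodic3 f ∧ ∀ x, divergence f x = 0}
  zero_mem' := by
    refine ⟨contDiff_const, fun _ _ => rfl, fun x => ?_⟩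
    rw [divergence_eq_sum]
    have : fderiv ℝ (0 : V → V) x = 0 := by
      show fderiv ℝ (fun _ : V => (0 : V)) x = 0
      simp
    simp [this]
  add_mem' := by
    rintro f g ⟨f1, f2, f3⟩ ⟨g1, g2, g3⟩
    refine ⟨f1.add g1, fun i x => ?_, fun x => ?_⟩
    · rw [Pi.add_apply, Pi.add_apply, f2 i x, g2 i x]
    · have hf := (f1.differentiable one_ne_zero) x
      have hg := (g1.differentiable one_ne_zero) x
      have := f3 x
      have := g3 x
      rw [divergence_eq_sum] at *
      rw [fderiv_add hf hg]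
      simp only [add_apply, Pi.add_apply, Finset.sum_add_distrib]
      linarith
  smul_mem' := by
    rintro c f ⟨f1, f2, f3⟩
    refine ⟨f1.const_smul c, fun i x => ?_, fun x => ?_⟩
    · rw [Pi.smul_apply, Pi.smul_apply, f2 i x]
    · have hf := (f1.differentiable one_ne_zero) x
      have := f3 x
      rw [divergence_eq_sum] at *
      rw [fderiv_const_smul hf c]
      simp only [smul_apply, Pi.smul_apply, smul_eq_mul, ← Finset.mul_sum]
      rw [this, mul_zero]

/-- Gradients of continuously differentiable periodic functions. -/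
def Gr : Submodule ℝ (V → V) where
  carrier := {g | ∃ q : V → ℝ, ContDiff ℝ 1 q ∧ Periodic3 q ∧
    ∀ x i, g x i = fderiv ℝ q x (Pi.single i 1)}
  zero_mem' := ⟨fun _ => 0, contDiff_const, fun _ _ => rfl, fun x i => by simp⟩
  add_mem' := by
    rintro f g ⟨q, q1, q2, q3⟩ ⟨r, r1, r2, r3⟩
    refine ⟨q + r, q1.add r1, fun i x => ?_, fun x i => ?_⟩
    · rw [Pi.add_apply, Pi.add_apply, q2 i x, r2 i x]
    · rw [fderiv_add ((q1.differentiable one_ne_zero) x) ((r1.differentiable one_ne_zero) x)]
      simp [q3, r3]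
  smul_mem' := by
    rintro c f ⟨q, q1, q2, q3⟩
    refine ⟨c • q, q1.const_smul c, fun i x => ?_, fun x i => ?_⟩
    · rw [Pi.smul_apply, Pi.smul_apply, q2 i x]
    · rw [fderiv_const_smul ((q1.differentiable one_ne_zero) x) c]
      simp [q3]

/-- The inner product of `L²(𝕋³)`. -/
noncomputable def ip (f g : V → V) : ℝ := ∫ x in Dom, ∑ i, f x i * g x i

lemma ip_cont {f g : V → V} (hf : Continuous f) (hg : Continuous g) :
    Continuous (fun x => ∑ i, f x i * g x i) :=
  continuous_finsetSum _ fun i _ =>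
    ((continuous_apply i).comp hf).mul ((continuous_apply i).comp hg)

lemma ip_per {f g : V → V} (hf : Periodic3 f) (hg : Periodic3 g) :
    Periodic3 (fun x => ∑ i, f x i * g x i) := by
  intro i x
  simp only
  rw [hf i x, hg i x]

lemma ip_int {f g : V → V} (hf : Continuous f) (hg : Continuous g) (hf2 : Periodic3 f)
    (hg2 : Periodic3 g) : IntegrableOn (fun x => ∑ i, f x i * g x i) Dom :=
  (ip_per hf2 hg2).integrableOn (ip_cont hf hg)

lemma ip_comm (f g : V → V) : ip f g = ip g f := by
  unfold ip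
  simp_rw [mul_comm]

lemma ip_add {f g h : V → V} (hf : Continuous f) (hg : Continuous g) (hh : Continuous h)
    (hf2 : Periodic3 f) (hg2 : Periodic3 g) (hh2 : Periodic3 h) :
    ip (f + g) h = ip f h + ip g h := by
  unfold ip
  rw [← integral_add (ip_int hf hh hf2 hh2) (ip_int hg hh hg2 hh2)]
  refine integral_congr_ae (Eventually.of_forall fun x => ?_)
  simp only [Pi.add_apply]
  rw [← Finset.sum_add_distrib]
  exact Finset.sum_congr rfl fun i _ => by ring

lemma ip_smul (c : ℝ) (f g : V → V) : ip (c • f) g = c * ip f g := by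
  unfold ip
  rw [← integral_const_mul]
  refine integral_congr_ae (Eventually.of_forall fun x => ?_)
  simp only [Pi.smul_apply, smul_eq_mul]
  rw [Finset.mul_sum]
  exact Finset.sum_congr rfl fun i _ => by ring

/-- Continuous periodic fields. -/
def CP (f : V → V) : Prop := Continuous f ∧ Periodic3 f

lemma ip_sum {ι : Type*} (s : Finset ι) (a : ι → ℝ) (f : ι → V → V) (hf : ∀ i, CP (f i))
    {h : V → V} (hh : CP h) : ip (∑ i ∈ s, a i • f i) h = ∑ i ∈ s, a i * ip (f i) h := by
  classical
  induction s using Finset.induction_on with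
  | empty => simp [ip]
  | insert i s hi ih =>
    rw [Finset.sum_insert hi, Finset.sum_insert hi, ← ih, ← ip_smul]
    have hc : CP (∑ i ∈ s, a i • f i) := by
      constructor
      · have : Continuous (fun x => ∑ i ∈ s, (a i • f i) x) :=
          continuous_finsetSum _ fun i _ => (hf i).1.const_smul (a i)
        have e : (∑ i ∈ s, a i • f i) = fun x => ∑ i ∈ s, (a i • f i) x := by
          funext x
          rw [Finset.sum_apply]
        rw [e]
        exact this
      · intro k x
        simp only [Finset.sum_apply, Pi.smul_apply]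
        exact Finset.sum_congr rfl fun i _ => by rw [(hf i).2 k x]
    refine ip_add ((hf i).1.const_smul _) hc.1 hh.1 (fun k x => ?_) hc.2 hh.2
    simp only [Pi.smul_apply]
    rw [(hf i).2 k x]

lemma ip_pos {f : V → V} (hf : CP f) (h0 : f ≠ 0) : 0 < ip f f := by
  have h1 : 0 ≤ ip f f := integral_nonneg fun x => Finset.sum_nonneg fun i _ => mul_self_nonneg _
  refine h1.lt_of_ne' fun h => h0 ?_
  have h2 := eq_zero_of_integral_eq_zero (ip_per hf.2 hf.2) (ip_cont hf.1 hf.1)
    (fun x => Finset.sum_nonneg fun i _ => mul_self_nonneg _) h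
  funext x i
  have h3 := (Finset.sum_eq_zero_iff_of_nonneg (fun i _ => mul_self_nonneg (f x i))).1 (h2 x) i
    (Finset.mem_univ i)
  simpa using h3

/-- Gradients are orthogonal to divergence-free fields. -/
lemma ip_gr {g f : V → V} (hg : g ∈ Gr) (hf : f ∈ Good) : ip g f = 0 := by
  obtain ⟨q, q1, q2, q3⟩ := hg
  obtain ⟨f1, f2, f3⟩ := hf
  have h1 : ContDiff ℝ 1 (fun y => q y • f y) := q1.smul f1
  have h2 : Periodic3 (fun y => q y • f y) := by
    intro i x
    simp only
    rw [q2 i x, f2 i x]
  rw [← integral_divergence_eq_zero h1 h2]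
  unfold ip
  refine integral_congr_ae (Eventually.of_forall fun x => ?_)
  simp only
  rw [divergence_smul ((q1.differentiable one_ne_zero) x) ((f1.differentiable one_ne_zero) x), f3,
    mul_zero, zero_add, ← sum_mul_clm' (fderiv ℝ q x) (f x)]
  exact Finset.sum_congr rfl fun i _ => by rw [q3]; ring

/-- The transport term `(f · ∇) g`. -/
noncomputable def tr (f g : V → V) : V → V := fun x => fderiv ℝ g x (f x)

lemma tr_cp {f g : V → V} (hf : f ∈ Good) (hg : g ∈ Good) : CP (tr f g) := by
  obtain ⟨f1, f2, f3⟩ := hf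
  obtain ⟨g1, g2, g3⟩ := hg
  constructor
  · exact (g1.continuous_fderiv one_ne_zero).clm_apply f1.continuous
  · intro i x
    unfold tr
    rw [g2.fderiv i x, f2 i x]

lemma good_cp {f : V → V} (hf : f ∈ Good) : CP f := ⟨hf.1.continuous, hf.2.1⟩

lemma ip_tr {f g h : V → V} (hf : f ∈ Good) (hg : g ∈ Good) (hh : h ∈ Good) :
    ip (tr f g) h = -ip (tr f h) g := by
  have hc1 := tr_cp hf hg
  have hc2 := tr_cp hf hh
  have hg' := good_cp hg
  have hh' := good_cp hh
  obtain ⟨f1, f2, f3⟩ := hf
  obtain ⟨g1, g2, g3⟩ := hg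
  obtain ⟨h1, h2, h3⟩ := hh
  set φ : V → ℝ := fun x => ∑ i, g x i * h x i with hφ
  have p1 : ContDiff ℝ 1 φ := ContDiff.sum fun i _ =>
    ((contDiff_apply ℝ ℝ i).comp g1).mul ((contDiff_apply ℝ ℝ i).comp h1)
  have p2 : Periodic3 φ := ip_per g2 h2
  have k1 : ContDiff ℝ 1 (fun y => φ y • f y) := p1.smul f1
  have k2 : Periodic3 (fun y => φ y • f y) := by
    intro i x
    simp only
    rw [p2 i x, f2 i x]
  have key := integral_divergence_eq_zero k1 k2
  have e : ∀ x, divergence (fun y => φ y • f y) x
      = ∑ i, tr f g x i * h x i + ∑ i, tr f h x i * g x i := by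
    intro x
    rw [divergence_smul ((p1.differentiable one_ne_zero) x) ((f1.differentiable one_ne_zero) x),
      f3, mul_zero, zero_add]
    have hgd : HasFDerivAt g (fderiv ℝ g x) x := ((g1.differentiable one_ne_zero) x).hasFDerivAt
    have hhd : HasFDerivAt h (fderiv ℝ h x) x := ((h1.differentiable one_ne_zero) x).hasFDerivAt
    have hs : HasFDerivAt φ (∑ i, (g x i • ((ContinuousLinearMap.proj i).comp (fderiv ℝ h x))
        + h x i • ((ContinuousLinearMap.proj i).comp (fderiv ℝ g x)))) x := by
      refine HasFDerivAt.fun_sum fun i _ => ?_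
      exact (hasFDerivAt_pi'.1 hgd i).mul (hasFDerivAt_pi'.1 hhd i)
    rw [hs.fderiv]
    simp only [sum_apply, add_apply,
      smul_apply, ContinuousLinearMap.comp_apply,
      ContinuousLinearMap.proj_apply, smul_eq_mul]
    rw [← Finset.sum_add_distrib]
    exact Finset.sum_congr rfl fun i _ => by unfold tr; ring
  simp_rw [e] at key
  rw [integral_add (ip_int hc1.1 hh'.1 hc1.2 hh'.2) (ip_int hc2.1 hg'.1 hc2.2 hg'.2)] at key
  unfold ip
  linarith

/-- An orthogonal basis of a finite-dimensional space of good fields. -/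
theorem exists_basis (E : Submodule ℝ (V → V)) [FiniteDimensional ℝ E] (hE : E ≤ Good) :
    ∃ (n : ℕ) (e : Fin n → V → V), LinearIndependent ℝ e ∧ Submodule.span ℝ (range e) = E ∧
      (∀ i, e i ∈ E) ∧ (∀ i j, i ≠ j → ip (e i) (e j) = 0) ∧ ∀ i, 0 < ip (e i) (e i) := by
  have hcp : ∀ v : E, CP (v : V → V) := fun v => good_cp (hE v.2)
  let B : LinearMap.BilinForm ℝ E := LinearMap.mk₂ ℝ (fun v w => ip (v : V → V) (w : V → V))
    (fun v v' w => ip_add (hcp v).1 (hcp v').1 (hcp w).1 (hcp v).2 (hcp v').2 (hcp w).2)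
    (fun c v w => ip_smul c _ _)
    (fun v w w' => by
      rw [ip_comm, ip_comm (v : V → V) w, ip_comm (v : V → V) w']
      exact ip_add (hcp w).1 (hcp w').1 (hcp v).1 (hcp w).2 (hcp w').2 (hcp v).2)
    (fun c v w => by
      rw [ip_comm, ip_comm (v : V → V) w]
      exact ip_smul c _ _)
  have hsymm : LinearMap.IsSymm B := ⟨fun v w => ip_comm _ _⟩
  obtain ⟨b, hb⟩ := LinearMap.BilinForm.exists_orthogonal_basis (K := ℝ) (V := E) (B := B) hsymm
  refine ⟨Module.finrank ℝ E, fun i => (b i : V → V), ?_, ?_, fun i => (b i).2, ?_, fun i => ?_⟩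
  · exact b.linearIndependent.map' E.subtype (Submodule.ker_subtype E)
  · have h1 : (range fun i => (b i : V → V)) = E.subtype '' range b := by
      rw [← range_comp]; rfl
    rw [h1, Submodule.span_image, b.span_eq, Submodule.map_subtype_top]
  · intro i j hij
    exact hb hij
  · refine ip_pos (hcp _) fun h => ?_
    exact b.ne_zero i (Subtype.ext h)

end Pool.Agent.X85.FD
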