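import Pool.Agent.X85.FDMain

/-!
# Euler solutions whose velocities span a finite-dimensional space are global
-/

set_option autoImplicit false

open Set Filter Topology MeasureTheory
open scoped ContDiff

namespace Pool.Agent.X85.FD

open Pool.Agent.H708R2.EulerSign

/-- Uniqueness of classical solutions, forward and backward in time. -/
theorem unique_of {T : ℝ} {w u : ℝ → V → V} {q p : ℝ → V → ℝ}
    (hw' : IsClassicalSolution (Ico 0 T) w q) (hu' : IsClassicalSolution (Ico 0 T) u p) {K : ℝ}
    (hK : ∀ t ∈ Ico 0 T, ∀ x i j, |grad (u t) x i j| ≤ K) {t₀ : ℝ} (ht₀ : t₀ ∈ Ico 0 T)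
    (h0 : w t₀ = u t₀) : ∀ t ∈ Ico 0 T, w t = u t := by
  have hw := EulerMod.none_iff.2 hw'
  have hu := EulerMod.none_iff.2 hu'
  have hcont := Y302.Trunc.en_continuousOn hw hu
  have hE0 : Y302.Trunc.en w u t₀ = 0 := by
    unfold Y302.Trunc.en
    rw [h0]
    simp [sq3]
  have hEz : ∀ t ∈ Ico 0 T, Y302.Trunc.en w u t = 0 := by
    intro t ht
    refine le_antisymm ?_ (Y302.Trunc.en_nonneg t)
    rcases le_total t₀ t with htt | htt
    · -- forward in time
      have hanti : AntitoneOn (fun s => Y302.Trunc.en w u s * Real.exp (-(6 * K) * s))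
          (Ico t₀ T) := by
        have hder : ∀ s ∈ interior (Ico t₀ T), HasDerivAt
            (fun s => Y302.Trunc.en w u s * Real.exp (-(6 * K) * s))
            ((∫ x in Dom, Y302.Trunc.dS w u s x) * Real.exp (-(6 * K) * s)
              + Y302.Trunc.en w u s * (Real.exp (-(6 * K) * s) * (-(6 * K) * 1))) s := by
          intro s hs
          rw [interior_Ico] at hs
          have hs' : s ∈ Ioo 0 T := ⟨ht₀.1.trans_lt hs.1, hs.2⟩
          exact (Y302.Trunc.en_hasDerivAt hw hu hs').mul
            (((hasDerivAt_id s).const_mul (-(6 * K))).exp)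
        refine antitoneOn_of_deriv_nonpos (convex_Ico _ _) ?_ ?_ ?_
        · exact (hcont.mono (Ico_subset_Ico_left ht₀.1)).mul (by fun_prop)
        · intro s hs
          exact (hder s hs).differentiableAt.differentiableWithinAt
        · intro s hs
          rw [(hder s hs).deriv]
          rw [interior_Ico] at hs
          have hs' : s ∈ Ioo 0 T := ⟨ht₀.1.trans_lt hs.1, hs.2⟩
          have h1 := (abs_le.1 (Y302.Trunc.en_deriv_le hw hu hK hs')).2
          have h2 : 0 < Real.exp (-(6 * K) * s) := Real.exp_pos _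
          nlinarith
      have h1 := hanti ⟨le_rfl, ht₀.2⟩ ⟨htt, ht.2⟩ htt
      simp only [hE0, zero_mul] at h1
      exact nonpos_of_mul_nonpos_left h1 (Real.exp_pos _)
    · -- backward in time
      have hmono : MonotoneOn (fun s => Y302.Trunc.en w u s * Real.exp ((6 * K) * s))
          (Icc 0 t₀) := by
        have hder : ∀ s ∈ interior (Icc 0 t₀), HasDerivAt
            (fun s => Y302.Trunc.en w u s * Real.exp ((6 * K) * s))
            ((∫ x in Dom, Y302.Trunc.dS w u s x) * Real.exp ((6 * K) * s)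
              + Y302.Trunc.en w u s * (Real.exp ((6 * K) * s) * ((6 * K) * 1))) s := by
          intro s hs
          rw [interior_Icc] at hs
          have hs' : s ∈ Ioo 0 T := ⟨hs.1, hs.2.trans ht₀.2⟩
          exact (Y302.Trunc.en_hasDerivAt hw hu hs').mul
            (((hasDerivAt_id s).const_mul (6 * K)).exp)
        refine monotoneOn_of_deriv_nonneg (convex_Icc _ _) ?_ ?_ ?_
        · exact (hcont.mono (Icc_subset_Ico_right ht₀.2)).mul (by fun_prop)
        · intro s hs
          exact (hder s hs).differentiableAt.differentiableWithinAt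
        · intro s hs
          rw [(hder s hs).deriv]
          rw [interior_Icc] at hs
          have hs' : s ∈ Ioo 0 T := ⟨hs.1, hs.2.trans ht₀.2⟩
          have h1 := (abs_le.1 (Y302.Trunc.en_deriv_le hw hu hK hs')).1
          have h2 : 0 < Real.exp ((6 * K) * s) := Real.exp_pos _
          nlinarith
      have h1 := hmono ⟨ht.1, htt⟩ ⟨ht₀.1, le_rfl⟩ htt
      simp only [hE0, zero_mul] at h1
      exact nonpos_of_mul_nonpos_left h1 (Real.exp_pos _)
  intro t ht
  have hwt : ContDiff ℝ 1 (w t) := contDiff_slice hw.contDiffOn_u ht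
  have hut : ContDiff ℝ 1 (u t) := contDiff_slice hu.contDiffOn_u ht
  have hW : ContDiff ℝ 1 (fun y => w t y - u t y) := hwt.sub hut
  have hper : Periodic3 (fun x => sq3 (w t x - u t x)) := by
    intro i x
    simp only
    rw [hw.periodic_u t ht i x, hu.periodic_u t ht i x]
  have hz := eq_zero_of_integral_eq_zero hper ((sq3_contDiff (n := 1)).comp hW).continuous
    (fun x => sq3_nonneg _) (hEz t ht)
  ext1 x
  exact sub_eq_zero.1 (sq3_eq_zero (hz x))

/-- Restriction of a solution for all times to `[0, T)`. -/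
theorem restrict_univ {T : ℝ} {u : ℝ → V → V} {p : ℝ → V → ℝ}
    (h : IsClassicalSolution univ u p) : IsClassicalSolution (Ico 0 T) u p := by
  refine ⟨h.contDiffOn_u.mono (prod_mono (subset_univ _) subset_rfl),
    h.contDiffOn_p.mono (prod_mono (subset_univ _) subset_rfl), fun t _ => h.periodic_u t trivial,
    fun t _ => h.periodic_p t trivial, fun t _ => h.div_free t trivial, fun t ht x i => ?_⟩
  have h1 : DifferentiableAt ℝ (fun s => u s x i) t := by
    have hline : HasDerivAt (fun s : ℝ => ((s, x) : ℝ × V)) (1, 0) t :=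
      (hasDerivAt_id t).prodMk (hasDerivAt_const t x)
    have h1 : DifferentiableAt ℝ (fun z : ℝ × V => u z.1 z.2) (t, x) := by
      refine (h.contDiffOn_u.contDiffAt ?_).differentiableAt one_ne_zero
      rw [univ_prod_univ]
      exact Filter.univ_mem
    have h2 := HasFDerivAt.comp_hasDerivAt (f := fun s : ℝ => ((s, x) : ℝ × V)) t h1.hasFDerivAt
      hline
    exact (hasDerivAt_pi.1 h2 i).differentiableAt
  have h2 := h.momentum t trivial x i
  rw [derivWithin_univ] at h2
  rw [h1.derivWithin (uniqueDiffOn_Ico 0 T t ht)]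
  exact h2

/-- Bounds of all derivatives of combinations of periodic fields. -/
lemma sobolev_bound {n : ℕ} {e : Fin n → V → V} {m : ℕ} (he : ∀ i, ContDiff ℝ m (e i))
    (hp : ∀ i, Periodic3 (e i)) (M : ℝ) :
    ∃ B, ∀ c : Fin n → ℝ, ‖c‖ ≤ M → sobolevSq m (comb e c) ≤ B := by
  have h1 : ∀ i (j : ℕ), ∃ C : ℝ, 0 ≤ C ∧ (j ≤ m → ∀ x, ‖iteratedFDeriv ℝ j (e i) x‖ ≤ C) := by
    intro i j
    by_cases hj : j ≤ m
    · have hper : Periodic3 (iteratedFDeriv ℝ j (e i)) := by
        intro k x
        have h2 : (fun y => e i (y + Pi.single k (2 * Real.pi))) = e i := by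
          funext y
          rw [hp i k y]
        conv_rhs => rw [← h2]
        rw [iteratedFDeriv_comp_add_right]
      have hcont : Continuous (iteratedFDeriv ℝ j (e i)) :=
        (he i).continuous_iteratedFDeriv (by exact_mod_cast hj)
      obtain ⟨C, hC0, hC⟩ := hper.bounded hcont
      exact ⟨C, hC0, fun _ => hC⟩
    · exact ⟨0, le_rfl, fun h => absurd h hj⟩
  choose C hC0 hC using h1
  have hb : ∀ j ∈ Finset.range (m + 1), ∀ c : Fin n → ℝ, ‖c‖ ≤ M → ∀ x,
      ‖iteratedFDeriv ℝ j (comb e c) x‖ ^ 2 ≤ (∑ i, |M| * C i j) ^ 2 := by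
    intro j hj c hc x
    have hj' : j ≤ m := Nat.lt_succ_iff.1 (Finset.mem_range.1 hj)
    have he' : ∀ i, ContDiffAt ℝ j (e i) x := fun i =>
      ((he i).of_le (by exact_mod_cast hj')).contDiffAt
    have e1 : iteratedFDeriv ℝ j (comb e c) x = ∑ i, c i • iteratedFDeriv ℝ j (e i) x := by
      unfold comb
      have e0 : iteratedFDeriv ℝ j (∑ i, c i • e i) x = ∑ i, iteratedFDeriv ℝ j (c i • e i) x :=
        iteratedFDeriv_sum_apply (fun i _ => (he' i).const_smul (c i))
      rw [e0]
      refine Finset.sum_congr rfl fun i _ => ?_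
      rw [iteratedFDeriv_const_smul_apply (he' i)]
    have e2 : ‖iteratedFDeriv ℝ j (comb e c) x‖ ≤ ∑ i, |M| * C i j := by
      rw [e1]
      refine (norm_sum_le _ _).trans (Finset.sum_le_sum fun i _ => ?_)
      rw [norm_smul]
      have h3 : ‖c i‖ ≤ |M| := (norm_le_pi_norm c i).trans (hc.trans (le_abs_self M))
      have h4 := hC i j hj' x
      gcongr
    exact pow_le_pow_left₀ (norm_nonneg _) e2 2
  refine ⟨∑ j ∈ Finset.range (m + 1), (∑ i, |M| * C i j) ^ 2 *
    (volume (Icc (fun _ : Fin 3 => -Real.pi) (fun _ => Real.pi))).toReal, fun c hc => ?_⟩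
  unfold sobolevSq
  refine Finset.sum_le_sum fun j hj => ?_
  have hfin : volume (Icc (fun _ : Fin 3 => -Real.pi) (fun _ => Real.pi)) < ⊤ :=
    isCompact_Icc.measure_lt_top
  have h5 := norm_setIntegral_le_of_norm_le_const (μ := volume)
    (s := Icc (fun _ : Fin 3 => -Real.pi) (fun _ => Real.pi))
    (f := fun x => ‖iteratedFDeriv ℝ j (comb e c) x‖ ^ 2)
    (C := (∑ i, |M| * C i j) ^ 2) hfin (fun x _ => by
      rw [Real.norm_of_nonneg (by positivity)]
      exact hb j hj c hc x)
  exact (le_abs_self _).trans h5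

open MvPolynomial in
/-- **Main theorem.** -/
theorem main {T : ℝ} {u : ℝ → V → V} {p : ℝ → V → ℝ} (h : IsClassicalSolution (Ico 0 T) u p)
    {a b : ℝ} (ha : 0 ≤ a) (hab : a < b) (hb : b ≤ T) (E : Submodule ℝ (V → V))
    [FiniteDimensional ℝ E] (hE : ∀ t ∈ Ioo a b, u t ∈ E) :
    ∃ (v : ℝ → V → V) (q : ℝ → V → ℝ), IsClassicalSolution univ v q ∧
      (∀ t ∈ Ico 0 T, v t = u t) ∧ (∀ t, v t ∈ E) ∧
      (∃ M, ∀ t x i j, |v t x i| ≤ M ∧ |grad (v t) x i j| ≤ M) ∧
      (∀ x i, ContDiff ℝ ∞ (fun t => v t x i)) ∧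
      ∀ m : ℕ, (∀ t ∈ Ioo a b, ContDiff ℝ m (u t)) → ∃ M, ∀ t, sobolevSq m (v t) ≤ M := by
  classical
  have hsub : Ioo a b ⊆ Ioo 0 T := Ioo_subset_Ioo ha hb
  have hsub' : Ioo a b ⊆ Ico 0 T := hsub.trans Ioo_subset_Ico_self
  set E₁ : Submodule ℝ (V → V) := Submodule.span ℝ (u '' Ioo a b) with hE₁
  have hle : E₁ ≤ E := by
    rw [hE₁, Submodule.span_le]
    rintro _ ⟨t, ht, rfl⟩
    exact hE t ht
  have hgood : E₁ ≤ Good := by
    rw [hE₁, Submodule.span_le]
    rintro _ ⟨t, ht, rfl⟩
    exact ⟨contDiff_slice h.contDiffOn_u (hsub' ht), h.periodic_u t (hsub' ht),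
      h.div_free t (hsub' ht)⟩
  have : FiniteDimensional ℝ E₁ := Submodule.finiteDimensional_of_le hle
  obtain ⟨n, e, hli, hspan, heE, ho, hpos⟩ := exists_basis E₁ hgood
  have hg : ∀ i, e i ∈ Good := fun i => hgood (heE i)
  have hd : ∀ i, Differentiable ℝ (e i) := fun i => (hg i).1.differentiable one_ne_zero
  obtain ⟨c, hcu, hode, hGr⟩ := local_ode h hsub hli hg ho hpos (fun t ht => by
    rw [hspan]
    exact Submodule.subset_span ⟨t, ht, rfl⟩)
  -- the projection onto the gradients
  obtain ⟨π, hπ⟩ := LinearMap.exists_leftInverse_of_injective Gr.subtype (Submodule.ker_subtype Gr)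
  have hπ' : ∀ g ∈ Gr, ((π g : Gr) : V → V) = g := by
    intro g hg
    have := LinearMap.congr_fun hπ ⟨g, hg⟩
    simp only [LinearMap.comp_apply, Submodule.subtype_apply, LinearMap.id_apply] at this
    rw [this]
  -- the global solution of the reduced equations
  set t₀ : ℝ := (a + b) / 2 with ht₀d
  have ht₀ : t₀ ∈ Ioo a b := ⟨by rw [ht₀d]; linarith, by rw [ht₀d]; linarith⟩
  set F : (Fin n → ℝ) → (Fin n → ℝ) := fun x l => eval x (Fp e l) with hF
  have hpoly : ∀ P : MvPolynomial (Fin n) ℝ, ContDiff ℝ ∞ (fun x : Fin n → ℝ => eval x P) := by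
    intro P
    induction P using MvPolynomial.induction_on with
    | C a => simp only [eval_C]; exact contDiff_const
    | add p q hp hq => simp only [map_add]; exact hp.add hq
    | mul_X p i hp => simp only [map_mul, eval_X]; exact hp.mul (contDiff_apply ℝ ℝ i)
  have hFs : ContDiff ℝ ∞ F := contDiff_pi.2 fun l => hpoly _
  obtain ⟨d, hd0, hdd, M, hdM⟩ := global_of_conserved (F := F) (hFs.of_le (by exact_mod_cast le_top))
    hpos (conserved hg hpos) t₀ (c t₀)
  have hdc : Continuous d := continuous_iff_continuousAt.2 fun t => (hdd t).continuousAt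
  have hds : ContDiff ℝ ∞ d := by
    rw [contDiff_infty]
    intro k
    induction k with
    | zero => exact contDiff_zero.2 hdc
    | succ k ih =>
      have h1 : ContDiff ℝ ((k : ℕ∞ω) + 1) d := by
        rw [contDiff_succ_iff_deriv]
        refine ⟨fun t => (hdd t).differentiableAt, fun h => ?_, ?_⟩
        · exact absurd h (by exact_mod_cast WithTop.coe_ne_top)
        · have h2 : deriv d = fun t => F (d t) := funext fun t => (hdd t).deriv
          rw [h2]
          exact (hFs.of_le (by exact_mod_cast le_top)).comp ih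
      exact_mod_cast h1
  -- the defect
  set S : Set (MvPolynomial (Fin n) ℝ) := {P | ∃ x : V, ∃ i : Fin 3,
    P = Dp e (fun k => e k x i - (π (e k) : V → V) x i)
      (fun z => tr (e z.1) (e z.2) x i - (π (tr (e z.1) (e z.2)) : V → V) x i)} with hS
  set Df : (Fin n → ℝ) → (V → V) := fun y => comb e (F y) + tr (comb e y) (comb e y) with hDf
  have hDfe : ∀ y, Df y = ∑ k, F y k • e k + ∑ z : Fin n × Fin n, (y z.1 * y z.2) •
      tr (e z.1) (e z.2) := by
    intro y
    simp only [hDf]
    rw [tr_comb hd]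
    rfl
  have hDfπ : ∀ y, ((π (Df y) : Gr) : V → V) = ∑ k, F y k • (π (e k) : V → V)
      + ∑ z : Fin n × Fin n, (y z.1 * y z.2) • (π (tr (e z.1) (e z.2)) : V → V) := by
    intro y
    rw [hDfe, map_add, map_sum, map_sum]
    simp only [map_smul, Submodule.coe_add, Submodule.coe_sum, Submodule.coe_smul]
  have hev : ∀ y x i, eval y (Dp e (fun k => e k x i - (π (e k) : V → V) x i)
      (fun z => tr (e z.1) (e z.2) x i - (π (tr (e z.1) (e z.2)) : V → V) x i))
      = Df y x i - (π (Df y) : V → V) x i := by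
    intro y x i
    rw [eval_Dp, hDfe, ← hDfe, hDfπ, hDfe]
    simp only [Pi.add_apply, Finset.sum_apply, Pi.smul_apply, smul_eq_mul]
    have e1 : ∑ k, (e k x i - (π (e k) : V → V) x i) * eval y (Fp e k)
        = ∑ k, F y k * e k x i - ∑ k, F y k * (π (e k) : V → V) x i := by
      rw [← Finset.sum_sub_distrib]
      exact Finset.sum_congr rfl fun k _ => by simp only [hF]; ring
    have e2 : ∑ z : Fin n × Fin n, (tr (e z.1) (e z.2) x i
        - (π (tr (e z.1) (e z.2)) : V → V) x i) * (y z.1 * y z.2)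
        = ∑ z : Fin n × Fin n, y z.1 * y z.2 * tr (e z.1) (e z.2) x i
          - ∑ z : Fin n × Fin n, y z.1 * y z.2 * (π (tr (e z.1) (e z.2)) : V → V) x i := by
      rw [← Finset.sum_sub_distrib]
      exact Finset.sum_congr rfl fun z _ => by ring
    rw [e1, e2]
    ring
  have hvan : ∀ P ∈ S, ∀ t, eval (d t) P = 0 := by
    refine vanish (a := a) (b := b) (c := c) hode ?_ hdd hdM ht₀ hd0
    rintro P ⟨x, i, rfl⟩ t ht
    rw [hev]
    have h1 : Df (c t) ∈ Gr := by
      have := hGr t ht
      rw [hcu t ht] at this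
      exact this
    rw [hπ' _ h1, sub_self]
  have hDGr : ∀ t, Df (d t) = (π (Df (d t)) : V → V) := by
    intro t
    funext x i
    have h1 := hvan _ ⟨x, i, rfl⟩ t
    rw [hev] at h1
    linarith
  -- potentials
  have hpot : ∀ g : V → V, ∃ q : V → ℝ, ContDiff ℝ 1 q ∧ Periodic3 q ∧
      ∀ x i, (π g : V → V) x i = fderiv ℝ q x (Pi.single i 1) := fun g => (π g).2
  choose Q hQ1 hQ2 hQ3 using hpot
  set v : ℝ → V → V := fun t => comb e (d t) with hv
  set q : ℝ → V → ℝ := fun t x => -(∑ k, F (d t) k * Q (e k) x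
    + ∑ z : Fin n × Fin n, (d t z.1 * d t z.2) * Q (tr (e z.1) (e z.2)) x) with hq
  have hvg : ∀ t, v t ∈ Good := fun t => comb_mem hg _
  have hd1 : ContDiff ℝ 1 d := hds.of_le (by exact_mod_cast le_top)
  have hsol : IsClassicalSolution univ v q := by
    refine ⟨?_, ?_, fun t _ => (hvg t).2.1, fun t _ => ?_, fun t _ => (hvg t).2.2,
      fun t _ x i => ?_⟩
    · refine ContDiff.contDiffOn ?_
      have e1 : (fun z : ℝ × V => v z.1 z.2) = fun z => ∑ k, d z.1 k • e k z.2 := by
        funext z
        simp only [hv]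
        rw [comb_apply']
      rw [e1]
      refine ContDiff.sum fun k _ => ?_
      exact ((contDiff_apply ℝ ℝ k).comp (hd1.comp contDiff_fst)).smul ((hg k).1.comp contDiff_snd)
    · refine ContDiff.contDiffOn (ContDiff.neg (ContDiff.add ?_ ?_))
      · refine ContDiff.sum fun k _ => ?_
        exact ((contDiff_apply ℝ ℝ k).comp ((hFs.of_le (by exact_mod_cast le_top)).comp
          (hd1.comp contDiff_fst))).mul ((hQ1 _).comp contDiff_snd)
      · refine ContDiff.sum fun z _ => ?_
        exact (((contDiff_apply ℝ ℝ z.1).comp (hd1.comp contDiff_fst)).mul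
          ((contDiff_apply ℝ ℝ z.2).comp (hd1.comp contDiff_fst))).mul ((hQ1 _).comp contDiff_snd)
    · intro i x
      simp only [hq]
      congr 1
      congr 1
      · exact Finset.sum_congr rfl fun k _ => by rw [hQ2 _ i x]
      · exact Finset.sum_congr rfl fun z _ => by rw [hQ2 _ i x]
    · have h1 : HasDerivAt (fun s => v s x i) (comb e (F (d t)) x i) t := by
        have h2 : HasDerivAt (fun s => ∑ k, d s k * e k x i) (∑ k, F (d t) k * e k x i) t :=
          HasDerivAt.fun_sum fun k _ => (hasDerivAt_pi.1 (hdd t) k).mul_const _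
        rw [comb_apply]
        refine h2.congr_of_eventuallyEq (Eventually.of_forall fun s => ?_)
        simp only [hv]
        rw [comb_apply]
      rw [derivWithin_univ, h1.deriv, sum_mul_clm]
      have h3 : fderiv ℝ (q t) x (Pi.single i 1) = -((π (Df (d t)) : V → V) x i) := by
        have h4 : HasFDerivAt (q t) (-(∑ k, F (d t) k • fderiv ℝ (Q (e k)) x
            + ∑ z : Fin n × Fin n, (d t z.1 * d t z.2) • fderiv ℝ (Q (tr (e z.1) (e z.2))) x)) x := by
          refine HasFDerivAt.neg (HasFDerivAt.add ?_ ?_)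
          · refine HasFDerivAt.fun_sum fun k _ => ?_
            exact (((hQ1 (e k)).differentiable one_ne_zero) x).hasFDerivAt.const_mul _
          · refine HasFDerivAt.fun_sum fun z _ => ?_
            exact (((hQ1 (tr (e z.1) (e z.2))).differentiable one_ne_zero) x).hasFDerivAt.const_mul _
        rw [h4.fderiv, hDfπ]
        simp only [neg_apply, add_apply, sum_apply,
          smul_apply, smul_eq_mul, Pi.add_apply, Finset.sum_apply, Pi.smul_apply,
          hQ3]
      rw [h3, neg_neg, ← hDGr]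
      rfl
  -- the gradient is bounded
  have hgb : ∀ k, ∃ C : ℝ, 0 ≤ C ∧ ∀ x, ‖fderiv ℝ (e k) x‖ ≤ C := by
    intro k
    exact (hg k).2.1.fderiv.bounded ((hg k).1.continuous_fderiv one_ne_zero)
  have hfb : ∀ k, ∃ C : ℝ, 0 ≤ C ∧ ∀ x, ‖e k x‖ ≤ C := fun k =>
    (hg k).2.1.bounded (hg k).1.continuous
  choose C₁ hC₁0 hC₁ using hgb
  choose C₂ hC₂0 hC₂ using hfb
  have hM0 : 0 ≤ M := (norm_nonneg _).trans (hdM 0)
  have hbound1 : ∀ t x i, |v t x i| ≤ ∑ k, M * C₂ k := by
    intro t x i
    simp only [hv]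
    rw [comb_apply]
    refine (Finset.abs_sum_le_sum_abs _ _).trans (Finset.sum_le_sum fun k _ => ?_)
    rw [abs_mul]
    have h1 : |d t k| ≤ M := (norm_le_pi_norm (d t) k).trans (hdM t)
    have h2 : |e k x i| ≤ C₂ k := (norm_le_pi_norm (e k x) i).trans (hC₂ k x)
    gcongr
  have hbound2 : ∀ t x i j, |grad (v t) x i j| ≤ ∑ k, M * C₁ k := by
    intro t x i j
    have e1 : grad (v t) x i j = ∑ k, d t k * fderiv ℝ (e k) x (Pi.single j 1) i := by
      show fderiv ℝ (comb e (d t)) x (Pi.single j 1) i = _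
      rw [comb_fderiv hd]
      simp only [sum_apply, smul_apply, Finset.sum_apply, Pi.smul_apply, smul_eq_mul]
    rw [e1]
    refine (Finset.abs_sum_le_sum_abs _ _).trans (Finset.sum_le_sum fun k _ => ?_)
    rw [abs_mul]
    have h1 : |d t k| ≤ M := (norm_le_pi_norm (d t) k).trans (hdM t)
    have h2 : |fderiv ℝ (e k) x (Pi.single j 1) i| ≤ C₁ k := by
      have h3 := norm_le_pi_norm (fderiv ℝ (e k) x (Pi.single j 1)) i
      have h4 := (fderiv ℝ (e k) x).le_opNorm (Pi.single j 1 : V)
      have h5 : ‖(Pi.single j 1 : V)‖ = 1 := by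
        rw [Pi.norm_single]
        simp
      rw [h5, mul_one] at h4
      exact h3.trans (h4.trans (hC₁ k x))
    gcongr
  refine ⟨v, q, hsol, ?_, fun t => hle (comb_mem heE _), ⟨max (∑ k, M * C₂ k) (∑ k, M * C₁ k),
    fun t x i j => ⟨(hbound1 t x i).trans (le_max_left _ _),
      (hbound2 t x i j).trans (le_max_right _ _)⟩⟩, ?_, ?_⟩
  · intro t ht
    refine (unique_of h (restrict_univ hsol) (K := ∑ k, M * C₁ k)
      (fun t _ x i j => hbound2 t x i j) (hsub' ht₀) ?_ t ht).symm
    simp only [hv]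
    rw [hd0, hcu t₀ ht₀]
  · intro x i
    have e1 : (fun t => v t x i) = fun t => ∑ k, d t k * e k x i := by
      funext t
      simp only [hv]
      rw [comb_apply]
    rw [e1]
    exact ContDiff.sum fun k _ => ((contDiff_apply ℝ ℝ k).comp hds).mul contDiff_const
  · intro m hm
    have hem : ∀ i, ContDiff ℝ m (e i) := by
      let W : Submodule ℝ (V → V) :=
        { carrier := {f | ContDiff ℝ m f}
          zero_mem' := by
            rw [Set.mem_ofPred_eq]
            exact contDiff_const
          add_mem' := by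
            intro f g hf hg
            rw [Set.mem_ofPred_eq] at *
            exact hf.add hg
          smul_mem' := by
            intro c f hf
            rw [Set.mem_ofPred_eq] at *
            exact hf.const_smul c }
      have hW : E₁ ≤ W := by
        rw [hE₁, Submodule.span_le]
        rintro _ ⟨t, ht, rfl⟩
        exact hm t ht
      exact fun i => hW (heE i)
    obtain ⟨B, hB⟩ := sobolev_bound hem (fun i => (hg i).2.1) M
    exact ⟨B, fun t => hB _ (hdM t)⟩

end Pool.Agent.X85.FD
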