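import Pool.Agent.X85.FDEuler

/-!
# Euler solutions whose velocities span a finite-dimensional space: the reduced equations
-/

set_option autoImplicit false

open Set Filter Topology MeasureTheory
open scoped ContDiff

namespace Pool.Agent.X85.FD

open Pool.Agent.H708R2.EulerSign

section comb

variable {n : ℕ} (e : Fin n → V → V)

/-- Linear combinations. -/
noncomputable def comb (c : Fin n → ℝ) : V → V := ∑ k, c k • e k

lemma comb_apply (c : Fin n → ℝ) (x : V) (i : Fin 3) : comb e c x i = ∑ k, c k * e k x i := by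
  simp [comb, Finset.sum_apply]

lemma comb_apply' (c : Fin n → ℝ) (x : V) : comb e c x = ∑ k, c k • e k x := by
  simp [comb, Finset.sum_apply]

variable {e}

lemma comb_mem {E : Submodule ℝ (V → V)} (he : ∀ i, e i ∈ E) (c : Fin n → ℝ) : comb e c ∈ E :=
  Submodule.sum_mem _ fun i _ => Submodule.smul_mem _ _ (he i)

lemma comb_fderiv (he : ∀ i, Differentiable ℝ (e i)) (c : Fin n → ℝ) (x : V) :
    fderiv ℝ (comb e c) x = ∑ k, c k • fderiv ℝ (e k) x := by
  unfold comb
  rw [fderiv_sum fun i _ => ((he i).const_smul (c i)) x]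
  exact Finset.sum_congr rfl fun i _ => fderiv_const_smul (he i x) (c i)

lemma tr_comb (he : ∀ i, Differentiable ℝ (e i)) (c : Fin n → ℝ) :
    tr (comb e c) (comb e c) = ∑ z : Fin n × Fin n, (c z.1 * c z.2) • tr (e z.1) (e z.2) := by
  funext x
  unfold tr
  rw [comb_fderiv he, comb_apply', Finset.sum_apply, Fintype.sum_prod_type, sum_apply,
    Finset.sum_comm]
  refine Finset.sum_congr rfl fun k _ => ?_
  rw [smul_apply, map_sum, Finset.smul_sum]
  refine Finset.sum_congr rfl fun j _ => ?_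
  rw [map_smul, smul_smul, Pi.smul_apply, mul_comm]

end comb

open MvPolynomial

section poly

variable {n : ℕ} (e : Fin n → V → V)

/-- The components of the reduced vector field. -/
noncomputable def Fp (l : Fin n) : MvPolynomial (Fin n) ℝ :=
  ∑ z : Fin n × Fin n,
    C (-(ip (tr (e z.1) (e z.2)) (e l)) / ip (e l) (e l)) * (X z.1 * X z.2)

lemma eval_Fp (c : Fin n → ℝ) (l : Fin n) : eval c (Fp e l)
    = ∑ z : Fin n × Fin n, (-(ip (tr (e z.1) (e z.2)) (e l)) / ip (e l) (e l)) * (c z.1 * c z.2) := by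
  unfold Fp
  simp only [map_sum, map_mul, eval_C, eval_X]

/-- The defect, tested with a function. -/
noncomputable def Dp (A : Fin n → ℝ) (N : Fin n × Fin n → ℝ) : MvPolynomial (Fin n) ℝ :=
  ∑ k, C (A k) * Fp e k + ∑ z : Fin n × Fin n, C (N z) * (X z.1 * X z.2)

lemma eval_Dp (A : Fin n → ℝ) (N : Fin n × Fin n → ℝ) (c : Fin n → ℝ) : eval c (Dp e A N)
    = ∑ k, A k * eval c (Fp e k) + ∑ z : Fin n × Fin n, N z * (c z.1 * c z.2) := by
  unfold Dp
  simp only [map_sum, map_add, map_mul, eval_C, eval_X]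

variable {e}

lemma conserved (he : ∀ i, e i ∈ Good) (hpos : ∀ i, 0 < ip (e i) (e i)) (c : Fin n → ℝ) :
    ∑ l, ip (e l) (e l) * (c l * eval c (Fp e l)) = 0 := by
  have h1 : ∀ l, ip (e l) (e l) * (c l * eval c (Fp e l))
      = -∑ j, ∑ k, ip (tr (e j) (e k)) (e l) * (c j * c k * c l) := by
    intro l
    rw [eval_Fp, Fintype.sum_prod_type, Finset.mul_sum, Finset.mul_sum, ← Finset.sum_neg_distrib]
    refine Finset.sum_congr rfl fun j _ => ?_
    rw [Finset.mul_sum, Finset.mul_sum, ← Finset.sum_neg_distrib]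
    refine Finset.sum_congr rfl fun k _ => ?_
    have := (hpos l).ne'
    field_simp
  simp_rw [h1]
  rw [Finset.sum_neg_distrib, neg_eq_zero]
  set S := ∑ l, ∑ j, ∑ k, ip (tr (e j) (e k)) (e l) * (c j * c k * c l) with hS
  have e1 : S = ∑ j, ∑ l, ∑ k, ip (tr (e j) (e k)) (e l) * (c j * c k * c l) := by
    rw [hS, Finset.sum_comm]
  have e2 : S = -S := by
    conv_lhs => rw [e1]
    conv_rhs => rw [e1]
    rw [← Finset.sum_neg_distrib]
    refine Finset.sum_congr rfl fun j _ => ?_
    conv_lhs => rw [Finset.sum_comm]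
    rw [← Finset.sum_neg_distrib]
    refine Finset.sum_congr rfl fun k _ => ?_
    rw [← Finset.sum_neg_distrib]
    refine Finset.sum_congr rfl fun l _ => ?_
    rw [ip_tr (he j) (he k) (he l)]
    ring
  linarith

end poly

variable {T : ℝ} {u : ℝ → V → V} {p : ℝ → V → ℝ}

/-- The reduced equations. -/
theorem local_ode (h : IsClassicalSolution (Ico 0 T) u p) {a b : ℝ} (hsub : Ioo a b ⊆ Ioo 0 T)
    {n : ℕ} {e : Fin n → V → V} (hli : LinearIndependent ℝ e) (hg : ∀ i, e i ∈ Good)
    (ho : ∀ i j, i ≠ j → ip (e i) (e j) = 0) (hpos : ∀ i, 0 < ip (e i) (e i))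
    (hu : ∀ t ∈ Ioo a b, u t ∈ Submodule.span ℝ (range e)) :
    ∃ c : ℝ → Fin n → ℝ, (∀ t ∈ Ioo a b, u t = comb e (c t)) ∧
      (∀ t ∈ Ioo a b, HasDerivAt c (fun l => eval (c t) (Fp e l)) t) ∧
      (∀ t ∈ Ioo a b, comb e (fun l => eval (c t) (Fp e l)) + tr (u t) (u t) ∈ Gr) := by
  classical
  have hd : ∀ i, Differentiable ℝ (e i) := fun i => (hg i).1.differentiable one_ne_zero
  -- coordinates as combinations of evaluations
  have hli' : LinearIndependent ℝ (fun (i : Fin n) (z : V × Fin 3) => e i z.1 z.2) := by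
    rw [Fintype.linearIndependent_iff] at hli ⊢
    intro g hg0
    refine hli g ?_
    funext x i
    have h1 := congrFun hg0 (x, i)
    simpa [Finset.sum_apply] using h1
  choose s α hα using coord_eval _ hli'
  set c : ℝ → Fin n → ℝ := fun t j => ∑ z ∈ s j, α j z * u t z.1 z.2 with hc
  have hcu : ∀ t ∈ Ioo a b, u t = comb e (c t) := by
    intro t ht
    obtain ⟨c', hc'⟩ := (Submodule.mem_span_range_iff_exists_fun ℝ).1 (hu t ht)
    have h1 : c t = c' := by
      funext j
      rw [← hα j c']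
      simp only [hc]
      refine Finset.sum_congr rfl fun z _ => ?_
      rw [← hc']
      simp [Finset.sum_apply]
    rw [h1, ← hc']
    rfl
  -- the time derivative
  have hder : ∀ t ∈ Ioo a b, ∀ x i, HasDerivAt (fun s => u s x i)
      (-(tr (u t) (u t) x i) - fderiv ℝ (p t) x (Pi.single i 1)) t := by
    intro t ht x i
    have ht' := hsub ht
    have hmem : Ico 0 T ×ˢ (univ : Set V) ∈ 𝓝 (t, x) :=
      prod_mem_nhds (Ico_mem_nhds ht'.1 ht'.2) Filter.univ_mem
    have hline : HasDerivAt (fun s : ℝ => ((s, x) : ℝ × V)) (1, 0) t :=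
      (hasDerivAt_id t).prodMk (hasDerivAt_const t x)
    have h1 : DifferentiableAt ℝ (fun z : ℝ × V => u z.1 z.2) (t, x) :=
      (h.contDiffOn_u.contDiffAt hmem).differentiableAt one_ne_zero
    have h2 : DifferentiableAt ℝ (fun s => u s x) t := by
      have := HasFDerivAt.comp_hasDerivAt (f := fun s : ℝ => ((s, x) : ℝ × V)) t h1.hasFDerivAt hline
      exact this.differentiableAt
    have h3 : HasDerivAt (fun s => u s x i) (deriv (fun s => u s x i) t) t :=
      (hasDerivAt_pi.1 h2.hasDerivAt i).differentiableAt.hasDerivAt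
    refine h3.congr_deriv ?_
    have h4 := h.momentum t ⟨ht'.1.le, ht'.2⟩ x i
    rw [derivWithin_of_mem_nhds (Ico_mem_nhds ht'.1 ht'.2), sum_mul_clm] at h4
    unfold tr
    linarith
  have key : ∀ t ∈ Ioo a b, ∃ c' : Fin n → ℝ, HasDerivAt c c' t ∧
      (∀ x i, comb e c' x i = -(tr (u t) (u t) x i) - fderiv ℝ (p t) x (Pi.single i 1)) := by
    intro t ht
    refine ⟨fun j => ∑ z ∈ s j, α j z * (-(tr (u t) (u t) z.1 z.2)
      - fderiv ℝ (p t) z.1 (Pi.single z.2 1)), ?_, ?_⟩
    · rw [hasDerivAt_pi]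
      intro j
      exact HasDerivAt.fun_sum fun z _ => (hder t ht z.1 z.2).const_mul (α j z)
    · intro x i
      have h1 : HasDerivAt (fun s => u s x i) (comb e (fun j => ∑ z ∈ s j, α j z *
          (-(tr (u t) (u t) z.1 z.2) - fderiv ℝ (p t) z.1 (Pi.single z.2 1))) x i) t := by
        have h2 : HasDerivAt (fun s => ∑ k, c s k * e k x i) (∑ k, (∑ z ∈ s k, α k z *
          (-(tr (u t) (u t) z.1 z.2) - fderiv ℝ (p t) z.1 (Pi.single z.2 1))) * e k x i) t := by
          refine HasDerivAt.fun_sum fun k _ => ?_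
          exact (HasDerivAt.fun_sum fun z _ => (hder t ht z.1 z.2).const_mul (α k z)).mul_const _
        rw [comb_apply]
        refine h2.congr_of_eventuallyEq ?_
        filter_upwards [Ioo_mem_nhds ht.1 ht.2] with r hr
        rw [hcu r hr, comb_apply]
      exact h1.unique (hder t ht x i)
  have hPg : ∀ t ∈ Ioo a b, (fun x i => fderiv ℝ (p t) x (Pi.single i 1) : V → V) ∈ Gr := by
    intro t ht
    have ht' : t ∈ Ico 0 T := ⟨(hsub ht).1.le, (hsub ht).2⟩
    exact ⟨p t, contDiff_slice h.contDiffOn_p ht', h.periodic_p t ht', fun x i => rfl⟩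
  have key2 : ∀ t ∈ Ioo a b, HasDerivAt c (fun l => eval (c t) (Fp e l)) t ∧
      comb e (fun l => eval (c t) (Fp e l)) + tr (u t) (u t) ∈ Gr := by
    intro t ht
    obtain ⟨c', hc1, hc2⟩ := key t ht
    have ht' : t ∈ Ico 0 T := ⟨(hsub ht).1.le, (hsub ht).2⟩
    have hug : u t ∈ Good := ⟨contDiff_slice h.contDiffOn_u ht', h.periodic_u t ht', h.div_free t ht'⟩
    have heq : comb e c' + tr (u t) (u t)
        = (-1 : ℝ) • (fun x i => fderiv ℝ (p t) x (Pi.single i 1) : V → V) := by
      funext x i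
      simp only [Pi.add_apply, Pi.smul_apply, smul_eq_mul]
      rw [hc2 x i]
      ring
    have hGr : comb e c' + tr (u t) (u t) ∈ Gr := by
      rw [heq]
      exact Submodule.smul_mem _ _ (hPg t ht)
    have hc' : c' = fun l => eval (c t) (Fp e l) := by
      funext l
      have h1 : ip (comb e c' + tr (u t) (u t)) (e l) = 0 := ip_gr hGr (hg l)
      have hcomb : comb e c' ∈ Good := comb_mem hg c'
      have hcp := good_cp hcomb
      have htr := tr_cp hug hug
      have hel := good_cp (hg l)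
      rw [ip_add hcp.1 htr.1 hel.1 hcp.2 htr.2 hel.2] at h1
      have h2 : ip (comb e c') (e l) = c' l * ip (e l) (e l) := by
        unfold comb
        rw [ip_sum _ _ _ (fun i => good_cp (hg i)) hel, Finset.sum_eq_single l]
        · intro j _ hj
          rw [ho j l hj, mul_zero]
        · intro hl
          exact absurd (Finset.mem_univ l) hl
      have h3 : ip (tr (u t) (u t)) (e l) = ∑ z : Fin n × Fin n,
          (c t z.1 * c t z.2) * ip (tr (e z.1) (e z.2)) (e l) := by
        rw [hcu t ht, tr_comb hd]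
        exact ip_sum _ _ _ (fun z : Fin n × Fin n => tr_cp (hg z.1) (hg z.2)) hel
      rw [h2, h3] at h1
      rw [eval_Fp]
      have h4 : ∑ z : Fin n × Fin n, (-(ip (tr (e z.1) (e z.2)) (e l)) / ip (e l) (e l))
          * (c t z.1 * c t z.2) = -(∑ z : Fin n × Fin n,
          (c t z.1 * c t z.2) * ip (tr (e z.1) (e z.2)) (e l)) / ip (e l) (e l) := by
        rw [← Finset.sum_neg_distrib, Finset.sum_div]
        exact Finset.sum_congr rfl fun z _ => by ring
      rw [h4, eq_div_iff (hpos l).ne']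
      linarith
    rw [← hc']
    exact ⟨hc1, hGr⟩
  exact ⟨c, hcu, fun t ht => (key2 t ht).1, fun t ht => (key2 t ht).2⟩

end Pool.Agent.X85.FD
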