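import Pool.Agent.Y957.MC.Maps

set_option autoImplicit false

/-!
# One map at Beatty type times: complex functions and arbitrary bounded systems of weights

`bty_cx` and `bty_Linf` extend `Pool.Agent.Y957.MC.bty_all` to complex functions in `L^∞` and to all bounded
sequences of weights; `sys` is the version with weights which depend on the point.
-/

namespace Pool.Agent.X85.GenExp

open MeasureTheory Filter Finset Pool.Agent.Y957.MC

universe u

/-- complex functions -/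
theorem bty_cx {X : Type u} [MeasurableSpace X] {μ : Measure X} [IsProbabilityMeasure μ] {T : X → X}
    (hT : MeasurePreserving T μ μ) {p : ℕ → ℝ} (hp : Good p) {h : X → ℂ} (hh : Measurable h)
    (hhb : ∃ C : ℝ, ∀ x, ‖h x‖ ≤ C) :
    ∀ᵐ x ∂μ, ∀ B : ℕ → ℂ, (∀ n, ‖B n‖ ≤ 1) → ∀ᵐ c : ℝ ∂(volume.restrict (Set.Ioi (0 : ℝ))),
      Tendsto (fun N : ℕ => (1 / (N : ℂ)) * ∑ n ∈ Icc 1 N, B n *
        (h (T^[⌊c * p n⌋₊] x) - (μ[h | MeasurableSpace.invariants T]) x)) atTop (nhds 0) := by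
  obtain ⟨C, hC⟩ := hhb
  have hint : Integrable h μ := Integrable.of_bound hh.aestronglyMeasurable C (ae_of_all _ hC)
  have h1 := bty_all p hp X μ T (fun y => (h y).re) hT (Complex.measurable_re.comp hh)
    ⟨C, fun x => (Complex.abs_re_le_norm _).trans (hC x)⟩
  have h2 := bty_all p hp X μ T (fun y => (h y).im) hT (Complex.measurable_im.comp hh)
    ⟨C, fun x => (Complex.abs_im_le_norm _).trans (hC x)⟩
  filter_upwards [h1, h2, condExp_re_im (m := MeasurableSpace.invariants T) hint] with x hx1 hx2 hx3 B hB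
  filter_upwards [hx1 B hB, hx2 B hB] with c hc1 hc2
  have h3 := hc1.add (hc2.const_mul Complex.I)
  rw [mul_zero, add_zero] at h3
  refine h3.congr fun N => ?_
  rw [hx3, mul_left_comm, ← mul_add, mul_sum, ← sum_add_distrib]
  congr 1
  refine sum_congr rfl fun n _ => ?_
  have e : h (T^[⌊c * p n⌋₊] x) = (((h (T^[⌊c * p n⌋₊] x)).re : ℝ) : ℂ) +
      (((h (T^[⌊c * p n⌋₊] x)).im : ℝ) : ℂ) * Complex.I := (Complex.re_add_im _).symm
  rw [e]
  simp only [Complex.add_re, Complex.ofReal_re, Complex.mul_re, Complex.I_re, Complex.I_im, Complex.add_im,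
    Complex.ofReal_im, Complex.mul_im]
  push_cast
  ring

/-- `L^∞` functions, arbitrary bounded weights -/
theorem bty_Linf {X : Type u} [MeasurableSpace X] {μ : Measure X} [IsProbabilityMeasure μ] {T : X → X}
    (hT : MeasurePreserving T μ μ) {p : ℕ → ℝ} (hp : Good p) {h : X → ℂ} (hh : AEStronglyMeasurable h μ)
    (hhb : ∃ C : ℝ, ∀ᵐ x ∂μ, ‖h x‖ ≤ C) :
    ∀ᵐ x ∂μ, ∀ B : ℕ → ℂ, (∃ C : ℝ, ∀ n, ‖B n‖ ≤ C) → ∀ᵐ c : ℝ, 0 < c →
      Tendsto (fun N : ℕ => (1 / (N : ℂ)) * ∑ n ∈ Icc 1 N, B n *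
        (h (T^[⌊c * p n⌋₊] x) - (μ[h | MeasurableSpace.invariants T]) x)) atTop (nhds 0) := by
  obtain ⟨g, hgm, hgb, hhg⟩ := exists_version hh hhb
  have h1 := bty_cx (μ := μ) hT hp hgm hgb
  have h2 : ∀ᵐ x ∂μ, (μ[h | MeasurableSpace.invariants T]) x = (μ[g | MeasurableSpace.invariants T]) x :=
    condExp_congr_ae hhg
  have h3 : ∀ᵐ x ∂μ, ∀ k : ℕ, h (T^[k] x) = g (T^[k] x) := by
    rw [ae_all_iff]
    exact fun k => (hT.iterate k).quasiMeasurePreserving.ae hhg
  filter_upwards [h1, h2, h3] with x hx1 hx2 hx3 B hB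
  obtain ⟨C0, hC0⟩ := hB
  set D : ℝ := max C0 1 with hD
  have hD1 : 1 ≤ D := le_max_right _ _
  have hDpos : 0 < D := by linarith
  have hDne : (D : ℂ) ≠ 0 := by exact_mod_cast hDpos.ne'
  have h4 := hx1 (fun n => B n / D) (fun n => by
    rw [norm_div, Complex.norm_real, Real.norm_of_nonneg hDpos.le, div_le_one hDpos]
    exact (hC0 n).trans (le_max_left _ _))
  rw [ae_restrict_iff' measurableSet_Ioi] at h4
  filter_upwards [h4] with c hc hc0
  have h5 := (hc hc0).const_mul (D : ℂ)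
  rw [mul_zero] at h5
  refine h5.congr fun N => ?_
  rw [mul_left_comm, mul_sum]
  congr 1
  refine sum_congr rfl fun n _ => ?_
  rw [hx2, hx3]
  field_simp

/-- weights which depend on the point -/
theorem sys {X : Type u} [MeasurableSpace X] {μ : Measure X} [IsProbabilityMeasure μ] {T : X → X}
    (hT : MeasurePreserving T μ μ) {p : ℕ → ℝ} (hp : Good p) {h : X → ℂ} (hh : AEStronglyMeasurable h μ)
    (hhb : ∃ C : ℝ, ∀ᵐ x ∂μ, ‖h x‖ ≤ C) {W : ℕ → X → ℂ} (hW : ∀ n, AEStronglyMeasurable (W n) μ)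
    (hWb : ∃ C : ℝ, ∀ n, ∀ᵐ x ∂μ, ‖W n x‖ ≤ C) :
    ∀ᵐ c : ℝ, 0 < c → ∀ᵐ x ∂μ,
      Tendsto (fun N : ℕ => (1 / (N : ℂ)) * ∑ n ∈ Icc 1 N, W n x *
        (h (T^[⌊c * p n⌋₊] x) - (μ[h | MeasurableSpace.invariants T]) x)) atTop (nhds 0) := by
  obtain ⟨g, hgm, ⟨C, hC⟩, hhg⟩ := exists_version hh hhb
  obtain ⟨D0, hD0⟩ := hWb
  have h2 : ∀ᵐ x ∂μ, (μ[h | MeasurableSpace.invariants T]) x = (μ[g | MeasurableSpace.invariants T]) x :=
    condExp_congr_ae hhg
  have h3 : ∀ᵐ x ∂μ, ∀ k : ℕ, h (T^[k] x) = g (T^[k] x) := by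
    rw [ae_all_iff]
    exact fun k => (hT.iterate k).quasiMeasurePreserving.ae hhg
  -- measurable bounded versions of the weights
  have hver : ∀ n, ∃ V : X → ℂ, Measurable V ∧ (∀ x, ‖V x‖ ≤ max D0 0) ∧ W n =ᵐ[μ] V := by
    intro n
    have hm : Measurable ((hW n).mk (W n)) := (hW n).stronglyMeasurable_mk.measurable
    refine ⟨fun x => if ‖(hW n).mk (W n) x‖ ≤ D0 then (hW n).mk (W n) x else 0, ?_, fun x => ?_, ?_⟩
    · exact Measurable.ite (measurableSet_le hm.norm measurable_const) hm measurable_const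
    · dsimp only
      split_ifs with h
      · exact h.trans (le_max_left _ _)
      · simp
    · filter_upwards [hD0 n, (hW n).ae_eq_mk] with x h1 h2
      rw [← h2, if_pos h1]
  choose V hVm hV1 hVW using hver
  have h8 : ∀ᵐ x ∂μ, ∀ n, W n x = V n x := by
    rw [ae_all_iff]
    exact hVW
  have hEm : Measurable (μ[g | MeasurableSpace.invariants T]) :=
    (stronglyMeasurable_condExp.mono (MeasurableSpace.invariants_le T)).measurable
  have h7 : ∀ᵐ c : ℝ ∂(volume.restrict (Set.Ioi (0 : ℝ))), ∀ᵐ x ∂μ,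
      Tendsto (fun N : ℕ => (1 / (N : ℂ)) * ∑ n ∈ Icc 1 N, V n x *
        (g (T^[⌊c * p n⌋₊] x) - (μ[g | MeasurableSpace.invariants T]) x)) atTop (nhds 0) := by
    have hset : MeasurableSet {q : X × ℝ | Tendsto (fun N : ℕ => (1 / (N : ℂ)) * ∑ n ∈ Icc 1 N, V n q.1 *
        (g (T^[⌊q.2 * p n⌋₊] q.1) - (μ[g | MeasurableSpace.invariants T]) q.1)) atTop (nhds 0)} := by
      refine measurableSet_tendsto _ fun N => ?_
      refine measurable_const.mul (Finset.measurable_sum _ fun n _ => ?_)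
      refine ((hVm n).comp measurable_fst).mul (Measurable.sub ?_ (hEm.comp measurable_fst))
      have h1 : Measurable fun q : X × ℕ => g (T^[q.2] q.1) :=
        measurable_from_prod_countable_left fun k => hgm.comp (hT.iterate k).measurable
      have h2 : Measurable fun q : X × ℝ => (q.1, ⌊q.2 * p n⌋₊) :=
        measurable_fst.prodMk (Nat.measurable_floor.comp (measurable_snd.mul_const _))
      exact h1.comp h2
    refine (Measure.ae_ae_comm hset).mp ?_
    filter_upwards [bty_Linf (μ := μ) hT hp hgm.aestronglyMeasurable ⟨C, ae_of_all _ hC⟩] with x hx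
    rw [ae_restrict_iff' measurableSet_Ioi]
    exact hx (fun n => V n x) ⟨_, fun n => hV1 n x⟩
  rw [ae_restrict_iff' measurableSet_Ioi] at h7
  filter_upwards [h7] with c hc hc0
  filter_upwards [hc hc0, h2, h3, h8] with x hx hx2 hx3 hx8
  refine hx.congr fun N => ?_
  congr 1
  refine sum_congr rfl fun n _ => ?_
  rw [hx8, hx2, hx3]

end Pool.Agent.X85.GenExp
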