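import Mathlib

/-! Definitions: Hardy fields, thick sets, upper density, return-time sets. -/

set_option autoImplicit false
open Filter Topology

namespace Pool.Agent.X85.HF

/-- `H` is a Hardy field: a subfield of the ring of germs at infinity of real functions (half-line
functions are extended arbitrarily to the line, which does not change the germ), closed under
differentiation. -/
structure IsHardyField (H : Subring (Germ (atTop : Filter ℝ) ℝ)) : Prop where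
  inv : ∀ g ∈ H, g ≠ 0 → ∃ h ∈ H, g * h = 1
  diff : ∀ f : ℝ → ℝ, (f : Germ (atTop : Filter ℝ) ℝ) ∈ H →
    (∀ᶠ t in atTop, DifferentiableAt ℝ f t) ∧ ((deriv f : ℝ → ℝ) : Germ (atTop : Filter ℝ) ℝ) ∈ H

/-- Every element `c_1 f_1^(m_1) + … + c_k f_k^(m_k)` of `S(f_1, …, f_k)` satisfies
`lim |f(t)| = 0` or `lim |f(t)| = ∞`. -/
def LimitHypothesis {k : ℕ} (f : Fin k → ℝ → ℝ) : Prop :=
  ∀ (c : Fin k → ℤ) (m : Fin k → ℕ),
    Tendsto (fun t : ℝ => |∑ i, (c i : ℝ) * iteratedDeriv (m i) (f i) t|) atTop (𝓝 0) ∨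
    Tendsto (fun t : ℝ => |∑ i, (c i : ℝ) * iteratedDeriv (m i) (f i) t|) atTop atTop

/-- The upper density of `E ⊆ {1, 2, …}`. -/
noncomputable def upperDensity (E : Set ℕ) : ℝ :=
  limsup (fun N : ℕ => ((E ∩ Set.Icc 1 N).ncard : ℝ) / N) atTop

/-- The set `R_f(E)` of the `n ≥ 1` with `E ∩ (E - ⌊f n⌋) ≠ ∅`. -/
def returnSet (f : ℝ → ℝ) (E : Set ℕ) : Set ℕ :=
  {n | 1 ≤ n ∧ ∃ e ∈ E, ∃ e' ∈ E, (e : ℤ) = (e' : ℤ) - ⌊f n⌋}

/-- `R` contains arbitrarily long intervals. -/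
def Thick (R : Set ℕ) : Prop := ∀ L : ℕ, ∃ a : ℕ, ∀ i < L, a + i ∈ R

/-- the two functions `t ^ (3/2)` and `α t ^ (3/2) + t` -/
noncomputable def ff (α : ℝ) : Fin 2 → ℝ → ℝ :=
  ![fun t => t ^ (3 / 2 : ℝ), fun t => α * t ^ (3 / 2 : ℝ) + t]

end Pool.Agent.X85.HF
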