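import Mathlib

/-! Correlations of dilated arcs on the circle. -/

set_option autoImplicit false
open MeasureTheory Filter Topology Set

namespace Pool.Agent.X85.Kh

instance instProbCircle : IsProbabilityMeasure (volume : Measure UnitAddCircle) :=
  ⟨by rw [AddCircle.measure_univ, ENNReal.ofReal_one]⟩

/-- Lebesgue measure on the circle -/
noncomputable abbrev vol : Measure UnitAddCircle := volume

/-- number of translates by multiples of `p / Q` in an arc -/
lemma count (p Q : ℕ) (hQ : 0 < Q) (hpQ : Nat.Coprime p Q) (r : ℝ) (hr : 0 ≤ r)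
    (y : UnitAddCircle) :
    (((Finset.range Q).filter fun j : ℕ =>
      ‖y + (((p : ℝ) * j / Q : ℝ) : UnitAddCircle)‖ ≤ r).card : ℝ) ≤ 2 * r * Q + 1 := by
  classical
  obtain ⟨y, rfl⟩ := QuotientAddGroup.mk_surjective y
  change (((Finset.range Q).filter fun j : ℕ =>
      ‖((y : ℝ) : UnitAddCircle) + (((p : ℝ) * j / Q : ℝ) : UnitAddCircle)‖ ≤ r).card : ℝ) ≤ _
  have hQR : (0 : ℝ) < Q := by exact_mod_cast hQ
  set F := (Finset.range Q).filter fun j : ℕ =>
      ‖((y : ℝ) : UnitAddCircle) + (((p : ℝ) * j / Q : ℝ) : UnitAddCircle)‖ ≤ r with hF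
  rcases F.eq_empty_or_nonempty with h0 | h0
  · rw [h0, Finset.card_empty, Nat.cast_zero]
    positivity
  set n : ℕ → ℤ := fun j => p * j - Q * round (y + (p : ℝ) * j / Q) with hn
  set a : ℤ := ⌈-(r * Q) - Q * y⌉ with ha
  set b : ℤ := ⌊r * Q - Q * y⌋ with hb
  have hmaps : ∀ j ∈ F, n j ∈ Finset.Icc a b := by
    intro j hj
    rw [hF, Finset.mem_filter] at hj
    have h1 := hj.2
    rw [← AddCircle.coe_add, UnitAddCircle.norm_eq, abs_le] at h1
    rw [Finset.mem_Icc, ha, hb, Int.ceil_le, Int.le_floor, hn]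
    push_cast
    have e : (Q : ℝ) * (y + (p : ℝ) * j / Q - round (y + (p : ℝ) * j / Q)) =
        Q * y + (p * j - Q * round (y + (p : ℝ) * j / Q)) := by
      field_simp
      ring
    have h2 := mul_le_mul_of_nonneg_left h1.1 hQR.le
    have h3 := mul_le_mul_of_nonneg_left h1.2 hQR.le
    rw [e] at h2 h3
    constructor <;> linarith
  have hinj : Set.InjOn n F := by
    intro i hi j hj hij
    have hi' := Finset.mem_range.1 (Finset.mem_filter.1 hi).1
    have hj' := Finset.mem_range.1 (Finset.mem_filter.1 hj).1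
    have h1 : (Q : ℤ) ∣ p * ((i : ℤ) - j) := by
      refine ⟨round (y + (p : ℝ) * i / Q) - round (y + (p : ℝ) * j / Q), ?_⟩
      simp only [hn] at hij
      linear_combination hij
    have h2 : (Q : ℤ) ∣ (i : ℤ) - j := by
      refine IsCoprime.dvd_of_dvd_mul_left ?_ h1
      exact (Nat.isCoprime_iff_coprime.2 hpQ).symm
    obtain ⟨z, hz⟩ := h2
    have hz0 : z = 0 := by
      have h3 : |(i : ℤ) - j| < Q := by rw [abs_lt]; constructor <;> omega
      rw [hz, abs_mul, Nat.abs_cast] at h3
      have hQZ : (0 : ℤ) < Q := by exact_mod_cast hQ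
      have h4 : |z| < 1 := by
        by_contra hcon
        push Not at hcon
        nlinarith
      exact Int.abs_lt_one_iff.1 h4
    rw [hz0, mul_zero] at hz
    omega
  have hcard : F.card ≤ (Finset.Icc a b).card := Finset.card_le_card_of_injOn n hmaps hinj
  rw [Int.card_Icc] at hcard
  have h1 : (F.card : ℤ) ≤ b + 1 - a := by
    have hpos : 0 < F.card := h0.card_pos
    omega
  have h2 : (F.card : ℝ) ≤ b + 1 - a := by exact_mod_cast h1
  have h3 : (b : ℝ) ≤ r * Q - Q * y := Int.floor_le _
  have h4 : -(r * Q) - Q * y ≤ a := Int.le_ceil _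
  linarith

lemma mp_nsmul (n : ℕ) (hn : 0 < n) : MeasurePreserving (fun z : UnitAddCircle => n • z) vol vol := by
  have h := Measure.measurePreserving_zsmul (vol : Measure UnitAddCircle) (n := (n : ℤ)) (by omega)
  simpa using h

lemma corr (m m' D p Q : ℕ) (hm' : 0 < m') (hD : 0 < D) (hDm : D ∣ m') (hQ : 0 < Q)
    (hmQ : m * Q = p * D) (hpQ : Nat.Coprime p Q) (r : ℝ) (hr : 0 ≤ r) {J : Set UnitAddCircle}
    (hJ : MeasurableSet J) :
    vol.real {z : UnitAddCircle | ‖m • z‖ ≤ r ∧ m' • z ∈ J} ≤ (2 * r + 1 / Q) * vol.real J := by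
  classical
  have hQR : (0 : ℝ) < Q := by exact_mod_cast hQ
  have hDR : (0 : ℝ) < D := by exact_mod_cast hD
  set B : Set UnitAddCircle := {z | ‖m • z‖ ≤ r ∧ m' • z ∈ J} with hB
  have hcm : ∀ k : ℕ, Continuous fun z : UnitAddCircle => k • z := fun k => continuous_nsmul k
  have hBm : MeasurableSet B :=
    ((measurableSet_le (hcm m).norm.measurable measurable_const)).inter ((hcm m').measurable hJ)
  set τ : ℕ → UnitAddCircle := fun j => (((j : ℝ) / D : ℝ) : UnitAddCircle) with hτ
  have hτm' : ∀ j, m' • τ j = 0 := by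
    intro j
    obtain ⟨e, he⟩ := hDm
    rw [hτ]
    simp only
    rw [← AddCircle.coe_nsmul, AddCircle.coe_eq_zero_iff]
    refine ⟨e * j, ?_⟩
    rw [he]
    simp only [zsmul_eq_mul, nsmul_eq_mul]
    push_cast
    field_simp
  have hτm : ∀ j, m • τ j = (((p : ℝ) * j / Q : ℝ) : UnitAddCircle) := by
    intro j
    rw [hτ]
    simp only
    rw [← AddCircle.coe_nsmul, nsmul_eq_mul]
    congr 1
    have : (m : ℝ) * Q = p * D := by exact_mod_cast hmQ
    field_simp
    linear_combination (j : ℝ) * this
  have hshift : ∀ j : ℕ, vol.real B = ∫ z, B.indicator (fun _ => (1 : ℝ)) (z + τ j) ∂vol := by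
    intro j
    have h1 := (measurePreserving_add_right vol (τ j))
    have h2 : ∫ z, B.indicator (fun _ => (1 : ℝ)) (z + τ j) ∂vol =
        ∫ z, B.indicator (fun _ => (1 : ℝ)) z ∂vol := integral_add_right_eq_self _ _
    rw [h2, integral_indicator_const _ hBm]; simp
  have hint : ∀ j : ℕ, Integrable (fun z => B.indicator (fun _ => (1 : ℝ)) (z + τ j)) vol := by
    intro j
    refine Integrable.of_bound (C := 1) ?_ ?_
    · exact ((measurable_const.indicator hBm).comp (measurable_id.add_const _)).aestronglyMeasurable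
    · refine Eventually.of_forall fun z => ?_
      by_cases h : z + τ j ∈ B
      · rw [indicator_of_mem h]; simp
      · rw [indicator_of_notMem h]; simp
  have hsum : (Q : ℝ) * vol.real B = ∫ z, ∑ j ∈ Finset.range Q,
      B.indicator (fun _ => (1 : ℝ)) (z + τ j) ∂vol := by
    rw [integral_finsetSum _ fun j _ => hint j, Finset.sum_congr rfl fun j _ => (hshift j).symm]
    simp
  have hle : ∫ z, ∑ j ∈ Finset.range Q, B.indicator (fun _ => (1 : ℝ)) (z + τ j) ∂vol ≤
      ∫ z, (2 * r * Q + 1) * J.indicator (fun _ => (1 : ℝ)) (m' • z) ∂vol := by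
    refine integral_mono (integrable_finsetSum _ fun j _ => hint j) ?_ fun z => ?_
    · refine Integrable.const_mul ?_ _
      refine Integrable.of_bound (C := 1) ?_ ?_
      · exact ((measurable_const.indicator hJ).comp (hcm m').measurable).aestronglyMeasurable
      · refine Eventually.of_forall fun z => ?_
        by_cases h : m' • z ∈ J
        · rw [indicator_of_mem h]; simp
        · rw [indicator_of_notMem h]; simp
    · simp only
      by_cases h : m' • z ∈ J
      · rw [indicator_of_mem h, mul_one]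
        have h1 := count p Q hQ hpQ r hr (m • z)
        refine le_trans (le_of_eq ?_) h1
        rw [Finset.card_filter]
        push_cast
        refine Finset.sum_congr rfl fun j _ => ?_
        have h2 : z + τ j ∈ B ↔ ‖m • z + (((p : ℝ) * j / Q : ℝ) : UnitAddCircle)‖ ≤ r := by
          rw [hB, mem_ofPred_eq, smul_add, smul_add, hτm', hτm, add_zero]
          exact ⟨fun h => h.1, fun h' => ⟨h', h⟩⟩
        by_cases h3 : z + τ j ∈ B
        · rw [indicator_of_mem h3, if_pos (h2.1 h3)]
        · rw [indicator_of_notMem h3, if_neg (fun h => h3 (h2.2 h))]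
      · rw [indicator_of_notMem h, mul_zero]
        refine Finset.sum_nonpos fun j _ => ?_
        have h2 : z + τ j ∉ B := by
          intro h3
          have h4 := h3.2
          rw [smul_add, hτm', add_zero] at h4
          exact h h4
        rw [indicator_of_notMem h2]
  have hJi : ∫ z, (2 * r * Q + 1) * J.indicator (fun _ => (1 : ℝ)) (m' • z) ∂vol =
      (2 * r * Q + 1) * vol.real J := by
    rw [integral_const_mul]
    congr 1
    have h1 := (mp_nsmul m' hm')
    have h2 := integral_map (μ := vol) (φ := fun z : UnitAddCircle => m' • z) h1.measurable.aemeasurable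
      (f := J.indicator (fun _ => (1 : ℝ))) (by
        exact (measurable_const.indicator hJ).aestronglyMeasurable)
    rw [h1.map_eq] at h2
    rw [← h2, integral_indicator_const _ hJ]; simp
  have hfin : (Q : ℝ) * vol.real B ≤ (2 * r * Q + 1) * vol.real J := by
    rw [hsum, ← hJi]; exact hle
  have e : (2 * r + 1 / (Q : ℝ)) * vol.real J = ((2 * r * Q + 1) * vol.real J) / Q := by
    field_simp
  rw [e, le_div_iff₀ hQR]
  linarith

end Pool.Agent.X85.Kh
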