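import Pool.Agent.X85.KhA

set_option autoImplicit false
open MeasureTheory Filter Topology Set

namespace Pool.Agent.X85.Kh

/-- second moment inequality -/
lemma cheb {ι : Type*} (S : Finset ι) (E : ι → Set UnitAddCircle) (hE : ∀ s, MeasurableSet (E s))
    (δ : ℝ) (hδ : ∀ s ∈ S, vol.real (E s) = δ) (w : ι → ι → ℝ)
    (hw : ∀ s ∈ S, ∀ t ∈ S, vol.real (E s ∩ E t) ≤ δ ^ 2 + δ * w s t) :
    ((S.card : ℝ) * δ) ^ 2 * vol.real {z | ∀ s ∈ S, z ∉ E s} ≤ δ * ∑ s ∈ S, ∑ t ∈ S, w s t := by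
  classical
  set e : ι → UnitAddCircle → ℝ := fun s => (E s).indicator (fun _ => (1 : ℝ)) with he
  have hem : ∀ s, Measurable (e s) := fun s => measurable_const.indicator (hE s)
  have heb : ∀ s z, |e s z| ≤ 1 := by
    intro s z
    by_cases h : z ∈ E s
    · simp only [he, indicator_of_mem h]; simp
    · simp only [he, indicator_of_notMem h]; simp
  have hb2 : ∀ s t, Integrable (fun z => e s z * e t z) vol := fun s t =>
    Integrable.of_bound ((hem s).mul (hem t)).aestronglyMeasurable 1 (Eventually.of_forall fun z => by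
      rw [Real.norm_eq_abs, abs_mul]
      exact mul_le_one₀ (heb s z) (abs_nonneg _) (heb t z))
  have hb1 : ∀ s, Integrable (e s) vol := fun s =>
    Integrable.of_bound (hem s).aestronglyMeasurable 1 (Eventually.of_forall fun z => heb s z)
  have i1 : ∀ s ∈ S, ∫ z, e s z ∂vol = δ := by
    intro s hs
    rw [he]
    simp only
    rw [integral_indicator_const _ (hE s), hδ s hs]; simp
  have i2 : ∀ s t, ∫ z, e s z * e t z ∂vol = vol.real (E s ∩ E t) := by
    intro s t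
    have : ∀ z, e s z * e t z = (E s ∩ E t).indicator (fun _ => (1 : ℝ)) z := by
      intro z
      simp only [he]
      by_cases h1 : z ∈ E s
      · by_cases h2 : z ∈ E t
        · rw [indicator_of_mem h1, indicator_of_mem h2, indicator_of_mem (mem_inter h1 h2), one_mul]
        · have h3 : z ∉ E s ∩ E t := fun h => h2 h.2
          rw [indicator_of_notMem h2, indicator_of_notMem h3, mul_zero]
      · have h3 : z ∉ E s ∩ E t := fun h => h1 h.1
        rw [indicator_of_notMem h1, indicator_of_notMem h3, zero_mul]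
    simp only [this]
    rw [integral_indicator_const _ ((hE s).inter (hE t))]; simp
  -- the variance
  have hpw : ∀ z, (∑ s ∈ S, (e s z - δ)) ^ 2 =
      ∑ s ∈ S, ∑ t ∈ S, (e s z * e t z - δ * e s z - δ * e t z + δ ^ 2) := by
    intro z
    rw [sq, Finset.sum_mul_sum]
    refine Finset.sum_congr rfl fun s _ => Finset.sum_congr rfl fun t _ => ?_
    ring
  have hvar : ∫ z, (∑ s ∈ S, (e s z - δ)) ^ 2 ∂vol = ∑ s ∈ S, ∑ t ∈ S, (vol.real (E s ∩ E t) - δ ^ 2) := by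
    simp only [hpw]
    rw [integral_finsetSum]
    · refine Finset.sum_congr rfl fun s hs => ?_
      rw [integral_finsetSum]
      · refine Finset.sum_congr rfl fun t ht => ?_
        have h1 : ∫ z, (e s z * e t z - δ * e s z - δ * e t z + δ ^ 2) ∂vol =
            ∫ z, e s z * e t z ∂vol - δ * ∫ z, e s z ∂vol - δ * ∫ z, e t z ∂vol + δ ^ 2 := by
          have a1 : Integrable (fun z => e s z * e t z - δ * e s z) vol :=
            (hb2 s t).sub ((hb1 s).const_mul δ)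
          have a2 : Integrable (fun z => e s z * e t z - δ * e s z - δ * e t z) vol :=
            a1.sub ((hb1 t).const_mul δ)
          rw [integral_add a2 (integrable_const _), integral_sub a1
            ((hb1 t).const_mul δ), integral_sub (hb2 s t) ((hb1 s).const_mul δ),
            integral_const_mul, integral_const_mul]
          simp
        rw [h1, i2, i1 s hs, i1 t ht]; ring
      · intro t _
        exact (((hb2 s t).sub ((hb1 s).const_mul δ)).sub ((hb1 t).const_mul δ)).add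
          (integrable_const _)
    · intro s _
      refine integrable_finsetSum _ fun t _ => ?_
      exact (((hb2 s t).sub ((hb1 s).const_mul δ)).sub ((hb1 t).const_mul δ)).add
          (integrable_const _)
  have hint : Integrable (fun z => (∑ s ∈ S, (e s z - δ)) ^ 2) vol := by
    simp only [hpw]
    refine integrable_finsetSum _ fun s _ => integrable_finsetSum _ fun t _ => ?_
    exact (((hb2 s t).sub ((hb1 s).const_mul δ)).sub ((hb1 t).const_mul δ)).add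
          (integrable_const _)
  set B : Set UnitAddCircle := {z | ∀ s ∈ S, z ∉ E s} with hB
  have hBm : MeasurableSet B := by
    have : B = ⋂ s ∈ S, (E s)ᶜ := by ext z; simp [hB]
    rw [this]
    exact Finset.measurableSet_biInter S fun s _ => (hE s).compl
  have hlow : ((S.card : ℝ) * δ) ^ 2 * vol.real B ≤ ∫ z, (∑ s ∈ S, (e s z - δ)) ^ 2 ∂vol := by
    have h1 : ∫ z in B, ((S.card : ℝ) * δ) ^ 2 ∂vol ≤ ∫ z in B, (∑ s ∈ S, (e s z - δ)) ^ 2 ∂vol := by
      refine setIntegral_mono_on (integrable_const _).integrableOn hint.integrableOn hBm fun z hz => ?_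
      have : ∑ s ∈ S, (e s z - δ) = -((S.card : ℝ) * δ) := by
        have h2 : ∀ s ∈ S, e s z - δ = -δ := by
          intro s hs
          simp only [he, indicator_of_notMem (hz s hs)]; ring
        rw [Finset.sum_congr rfl h2, Finset.sum_const, nsmul_eq_mul]; ring
      rw [this, neg_sq]
    have h2 : ∫ z in B, (∑ s ∈ S, (e s z - δ)) ^ 2 ∂vol ≤ ∫ z, (∑ s ∈ S, (e s z - δ)) ^ 2 ∂vol :=
      setIntegral_le_integral hint (Eventually.of_forall fun z => sq_nonneg _)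
    rw [setIntegral_const, smul_eq_mul, mul_comm] at h1
    exact h1.trans h2
  refine hlow.trans ?_
  rw [hvar, Finset.mul_sum]
  refine Finset.sum_le_sum fun s hs => ?_
  rw [Finset.mul_sum]
  refine Finset.sum_le_sum fun t ht => ?_
  have := hw s hs t ht
  linarith

/-- the multipliers -/
def MM (c : ℕ) (Λ : ℕ → ℕ) (s : ℕ × ℕ) : ℕ := 3 ^ (c * (s.1 + 1)) * 2 ^ (Λ s.1 + s.2)

lemma MM_pos (c : ℕ) (Λ : ℕ → ℕ) (s : ℕ × ℕ) : 0 < MM c Λ s := by unfold MM; positivity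

/-- the arcs -/
def EE (c : ℕ) (Λ : ℕ → ℕ) (r : ℝ) (s : ℕ × ℕ) : Set UnitAddCircle := {z | ‖MM c Λ s • z‖ ≤ r}

lemma EE_meas (c : ℕ) (Λ : ℕ → ℕ) (r : ℝ) (s : ℕ × ℕ) : MeasurableSet (EE c Λ r s) :=
  measurableSet_le (continuous_nsmul _).norm.measurable measurable_const

lemma vol_ball {r : ℝ} (hr : 0 ≤ r) (hr2 : r ≤ 1 / 2) :
    vol.real (Metric.closedBall (0 : UnitAddCircle) r) = 2 * r := by
  rw [Measure.real, AddCircle.volume_closedBall, min_eq_right (by linarith),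
    ENNReal.toReal_ofReal (by linarith)]

lemma EE_vol (c : ℕ) (Λ : ℕ → ℕ) {r : ℝ} (hr : 0 ≤ r) (hr2 : r ≤ 1 / 2) (s : ℕ × ℕ) :
    vol.real (EE c Λ r s) = 2 * r := by
  have h := (mp_nsmul (MM c Λ s) (MM_pos c Λ s)).measure_preimage
    (s := Metric.closedBall (0 : UnitAddCircle) r) measurableSet_closedBall.nullMeasurableSet
  have e : (fun z : UnitAddCircle => MM c Λ s • z) ⁻¹' Metric.closedBall 0 r = EE c Λ r s := by
    ext z; simp [EE, dist_zero_right]
  rw [e] at h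
  rw [Measure.real, h]
  exact vol_ball hr hr2

/-- the weights -/
noncomputable def ww (c : ℕ) (s t : ℕ × ℕ) : ℝ :=
  if s.1 = t.1 then (1 / 2) ^ (((s.2 : ℤ) - t.2).natAbs) else (1 / 3) ^ c

lemma corr_same (c : ℕ) (Λ : ℕ → ℕ) {r : ℝ} (hr : 0 ≤ r) (hr2 : r ≤ 1 / 2) (j p q : ℕ)
    (hpq : p ≤ q) : vol.real (EE c Λ r (j, p) ∩ EE c Λ r (j, q)) ≤
      (2 * r) ^ 2 + 2 * r * (1 / 2) ^ (q - p) := by
  have h := corr (MM c Λ (j, p)) (MM c Λ (j, q)) (2 ^ (Λ j + q)) (3 ^ (c * (j + 1))) (2 ^ (q - p))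
    (MM_pos _ _ _) (by positivity) ⟨3 ^ (c * (j + 1)), by simp only [MM]; ring⟩ (by positivity) (by
      simp only [MM]
      rw [mul_assoc, ← pow_add]
      congr 2; omega) (Nat.Coprime.pow _ _ (by norm_num)) r hr
    (J := Metric.closedBall 0 r) measurableSet_closedBall
  have e : {z : UnitAddCircle | ‖MM c Λ (j, p) • z‖ ≤ r ∧ MM c Λ (j, q) • z ∈ Metric.closedBall 0 r} =
      EE c Λ r (j, p) ∩ EE c Λ r (j, q) := by
    ext z; simp [EE, dist_zero_right]
  rw [e, vol_ball hr hr2] at h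
  refine h.trans (le_of_eq ?_)
  push_cast
  rw [one_div_pow]
  ring

lemma corr_diff (c : ℕ) (Λ : ℕ → ℕ) {r : ℝ} (hr : 0 ≤ r) (hr2 : r ≤ 1 / 2) (i j p q : ℕ)
    (hij : i < j) : vol.real (EE c Λ r (i, p) ∩ EE c Λ r (j, q)) ≤
      (2 * r) ^ 2 + 2 * r * (1 / 3) ^ c := by
  have h := corr (MM c Λ (i, p)) (MM c Λ (j, q)) (3 ^ (c * (j + 1))) (2 ^ (Λ i + p))
    (3 ^ (c * (j - i)))
    (MM_pos _ _ _) (by positivity) ⟨2 ^ (Λ j + q), by simp only [MM]⟩ (by positivity) (by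
      simp only [MM]
      have : 3 ^ (c * (j + 1)) = 3 ^ (c * (i + 1)) * 3 ^ (c * (j - i)) := by
        rw [← pow_add, ← mul_add]; congr 2; omega
      rw [this]; ring) (Nat.Coprime.pow _ _ (by norm_num)) r hr
    (J := Metric.closedBall 0 r) measurableSet_closedBall
  have e : {z : UnitAddCircle | ‖MM c Λ (i, p) • z‖ ≤ r ∧ MM c Λ (j, q) • z ∈ Metric.closedBall 0 r} =
      EE c Λ r (i, p) ∩ EE c Λ r (j, q) := by
    ext z; simp [EE, dist_zero_right]
  rw [e, vol_ball hr hr2] at h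
  refine h.trans ?_
  have h2 : 1 / ((3 ^ (c * (j - i)) : ℕ) : ℝ) ≤ (1 / 3) ^ c := by
    push_cast
    rw [one_div_pow]
    apply one_div_le_one_div_of_le (by positivity)
    exact pow_le_pow_right₀ (by norm_num) (Nat.le_mul_of_pos_right _ (by omega))
  nlinarith

lemma corr_all (c : ℕ) (Λ : ℕ → ℕ) {r : ℝ} (hr : 0 ≤ r) (hr2 : r ≤ 1 / 2) (s t : ℕ × ℕ) :
    vol.real (EE c Λ r s ∩ EE c Λ r t) ≤ (2 * r) ^ 2 + 2 * r * ww c s t := by
  obtain ⟨i, p⟩ := s
  obtain ⟨j, q⟩ := t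
  unfold ww
  rcases lt_trichotomy i j with h | h | h
  · rw [if_neg h.ne]
    exact corr_diff c Λ hr hr2 i j p q h
  · subst h
    rw [if_pos rfl]
    rcases le_total p q with h | h
    · have := corr_same c Λ hr hr2 i p q h
      have e : ((p : ℤ) - q).natAbs = q - p := by omega
      simp only [e]
      exact this
    · have := corr_same c Λ hr hr2 i q p h
      rw [inter_comm] at this
      have e : ((p : ℤ) - q).natAbs = p - q := by omega
      simp only [e]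
      exact this
  · rw [if_neg h.ne']
    have := corr_diff c Λ hr hr2 j i q p h
    rw [inter_comm] at this
    exact this

lemma geo_sum (A : Finset ℕ) (p : ℕ) :
    ∑ q ∈ A, (1 / 2 : ℝ) ^ (((p : ℤ) - q).natAbs) ≤ 3 := by
  classical
  have h1 : ∑ q ∈ A.filter (fun q => q < p), (1 / 2 : ℝ) ^ (((p : ℤ) - q).natAbs) ≤ 1 := by
    have h2 : ∑ q ∈ A.filter (fun q => q < p), (1 / 2 : ℝ) ^ (((p : ℤ) - q).natAbs) ≤
        ∑ q ∈ Finset.range p, (1 / 2 : ℝ) ^ (((p : ℤ) - q).natAbs) := by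
      refine Finset.sum_le_sum_of_subset_of_nonneg (fun q hq => ?_) fun _ _ _ => by positivity
      exact Finset.mem_range.2 (Finset.mem_filter.1 hq).2
    refine h2.trans ?_
    have h3 : ∀ p : ℕ, ∑ q ∈ Finset.range p, (1 / 2 : ℝ) ^ (((p : ℤ) - q).natAbs) = 1 - (1 / 2) ^ p := by
      intro p
      rw [← Finset.sum_range_reflect]
      have h4 : ∀ q ∈ Finset.range p, (1 / 2 : ℝ) ^ (((p : ℤ) - ((p - 1 - q : ℕ) : ℤ)).natAbs) =
          (1 / 2) * (1 / 2) ^ q := by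
        intro q hq
        have hq' := Finset.mem_range.1 hq
        have : ((p : ℤ) - ((p - 1 - q : ℕ) : ℤ)).natAbs = q + 1 := by omega
        rw [this, pow_succ]; ring
      rw [Finset.sum_congr rfl h4, ← Finset.mul_sum, geom_sum_eq (by norm_num)]
      ring
    rw [h3]
    have : (0 : ℝ) < (1 / 2) ^ p := by positivity
    linarith
  have h2 : ∑ q ∈ A.filter (fun q => ¬ q < p), (1 / 2 : ℝ) ^ (((p : ℤ) - q).natAbs) ≤ 2 := by
    obtain ⟨N, hN⟩ : ∃ N : ℕ, ∀ q ∈ A, q < p + N := by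
      refine ⟨A.sup id + 1, fun q hq => ?_⟩
      have : q ≤ A.sup id := Finset.le_sup (f := id) hq
      omega
    have h3 : ∑ q ∈ A.filter (fun q => ¬ q < p), (1 / 2 : ℝ) ^ (((p : ℤ) - q).natAbs) ≤
        ∑ q ∈ Finset.Ico p (p + N), (1 / 2 : ℝ) ^ (((p : ℤ) - q).natAbs) := by
      refine Finset.sum_le_sum_of_subset_of_nonneg (fun q hq => ?_) fun _ _ _ => by positivity
      have := Finset.mem_filter.1 hq
      exact Finset.mem_Ico.2 ⟨not_lt.1 this.2, hN q this.1⟩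
    refine h3.trans ?_
    rw [Finset.sum_Ico_eq_sum_range]
    simp only [add_tsub_cancel_left]
    have h4 : ∀ i ∈ Finset.range N, (1 / 2 : ℝ) ^ (((p : ℤ) - ((p + i : ℕ) : ℤ)).natAbs) = (1 / 2) ^ i := by
      intro i _
      congr 1
      omega
    rw [Finset.sum_congr rfl h4, geom_sum_eq (by norm_num)]
    have : (0 : ℝ) < (1 / 2) ^ N := by positivity
    have e : ((1 / 2 : ℝ) ^ N - 1) / (1 / 2 - 1) = 2 - 2 * (1 / 2) ^ N := by
      rw [div_eq_iff (by norm_num)]; ring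
    linarith
  rw [← Finset.sum_filter_add_sum_filter_not A (fun q => q < p)]
  linarith

lemma ww_sum (c J : ℕ) (A : Finset ℕ) :
    ∑ s ∈ Finset.range J ×ˢ A, ∑ t ∈ Finset.range J ×ˢ A, ww c s t ≤
      3 * ((Finset.range J ×ˢ A).card : ℝ) + ((Finset.range J ×ˢ A).card : ℝ) ^ 2 * (1 / 3) ^ c := by
  classical
  set S := Finset.range J ×ˢ A with hS
  have h : ∀ s ∈ S, ∑ t ∈ S, ww c s t ≤ 3 + (S.card : ℝ) * (1 / 3) ^ c := by
    intro s hs
    have h1 : ∀ t ∈ S, ww c s t ≤ (if s.1 = t.1 then (1 / 2 : ℝ) ^ (((s.2 : ℤ) - t.2).natAbs) else 0) +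
        (1 / 3) ^ c := by
      intro t _
      unfold ww
      have : (0 : ℝ) < (1 / 3) ^ c := by positivity
      split_ifs
      · linarith
      · linarith
    refine (Finset.sum_le_sum h1).trans ?_
    rw [Finset.sum_add_distrib, Finset.sum_const, nsmul_eq_mul]
    refine add_le_add ?_ le_rfl
    rw [hS, Finset.sum_product]
    have h2 : ∀ j ∈ Finset.range J, ∑ q ∈ A,
        (if s.1 = j then (1 / 2 : ℝ) ^ (((s.2 : ℤ) - q).natAbs) else 0) =
        if s.1 = j then ∑ q ∈ A, (1 / 2 : ℝ) ^ (((s.2 : ℤ) - q).natAbs) else 0 := by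
      intro j _
      split_ifs
      · rfl
      · simp
    simp only
    rw [Finset.sum_congr rfl h2, Finset.sum_ite_eq]
    split_ifs
    · exact geo_sum A s.2
    · norm_num
  refine (Finset.sum_le_sum h).trans (le_of_eq ?_)
  rw [Finset.sum_const, nsmul_eq_mul]; ring

/-- the key probabilistic estimate -/
lemma key (k β : ℕ) (Λ : ℕ → ℕ) :
    vol.real {z | ∀ s ∈ Finset.range (3 * 4 ^ (k + 1)) ×ˢ
        Finset.Ico (2 ^ (β * (3 * 4 ^ (k + 1)))) (2 ^ (β * (3 * 4 ^ (k + 1)) + 1)),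
        z ∉ EE (2 * (β * (3 * 4 ^ (k + 1)) + 1 + k)) Λ
          ((1 / 2) ^ (β * (3 * 4 ^ (k + 1)) + 1 + k) / 2) s} ≤ (1 / 2) ^ k := by
  set J : ℕ := 3 * 4 ^ (k + 1) with hJ
  set n : ℕ := β * J with hn
  set b : ℕ := n + 1 + k with hb
  set δ : ℝ := (1 / 2) ^ b with hδ
  have hδ0 : 0 < δ := by positivity
  have hδ1 : δ ≤ 1 := pow_le_one₀ (by norm_num) (by norm_num)
  set S := Finset.range J ×ˢ Finset.Ico (2 ^ n) (2 ^ (n + 1)) with hS
  have hcard : (S.card : ℝ) = J * 2 ^ n := by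
    rw [hS, Finset.card_product, Finset.card_range, Nat.card_Ico, pow_succ]
    have : 2 ^ n * 2 - 2 ^ n = 2 ^ n := by omega
    rw [this]; push_cast; rfl
  have hr : (0 : ℝ) ≤ δ / 2 := by positivity
  have hr2 : δ / 2 ≤ 1 / 2 := by linarith
  have hch := cheb S (EE (2 * b) Λ (δ / 2)) (EE_meas _ _ _) δ
    (fun s _ => by rw [EE_vol _ _ hr hr2]; ring) (ww (2 * b)) (fun s _ t _ => by
      have := corr_all (2 * b) Λ hr hr2 s t
      have e : 2 * (δ / 2) = δ := by ring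
      rw [e] at this
      exact this)
  have hsum := ww_sum (2 * b) J (Finset.Ico (2 ^ n) (2 ^ (n + 1)))
  rw [← hS] at hsum
  have hM : (S.card : ℝ) * δ = 3 * 2 ^ (k + 1) := by
    have e1 : (2 : ℝ) ^ n * (1 / 2) ^ n = 1 := by rw [← mul_pow]; norm_num
    have e2 : (4 : ℝ) ^ (k + 1) = 2 ^ (k + 1) * 2 ^ (k + 1) := by rw [← mul_pow]; norm_num
    have e3 : (2 : ℝ) ^ (k + 1) * ((1 / 2) ^ 1 * (1 / 2) ^ k) = 1 := by
      rw [← pow_add, add_comm 1 k, ← mul_pow]; norm_num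
    have e4 : (J : ℝ) = 3 * 4 ^ (k + 1) := by rw [hJ]; push_cast; rfl
    have e5 : δ = (1 / 2) ^ n * ((1 / 2) ^ 1 * (1 / 2) ^ k) := by
      rw [hδ, hb, ← pow_add, ← pow_add]; congr 1; omega
    calc (S.card : ℝ) * δ = 3 * 4 ^ (k + 1) * (2 ^ n * (1 / 2) ^ n) * ((1 / 2) ^ 1 * (1 / 2) ^ k) := by
          rw [hcard, e4, e5]; ring
      _ = 3 * 2 ^ (k + 1) * (2 ^ (k + 1) * ((1 / 2) ^ 1 * (1 / 2) ^ k)) := by rw [e1, e2]; ring
      _ = _ := by rw [e3, mul_one]
  -- bound of the right-hand side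
  set V := vol.real {z | ∀ s ∈ S, z ∉ EE (2 * b) Λ (δ / 2) s} with hV
  have hmain : (3 * 2 ^ (k + 1) : ℝ) ^ 2 * V ≤
      3 * (3 * 2 ^ (k + 1)) + (3 * 2 ^ (k + 1)) ^ 2 * ((1 / 3) ^ (2 * b) / δ) := by
    have h1 := hch.trans (mul_le_mul_of_nonneg_left hsum hδ0.le)
    rw [hM] at h1
    refine h1.trans (le_of_eq ?_)
    have e : δ * (3 * (S.card : ℝ) + (S.card : ℝ) ^ 2 * (1 / 3) ^ (2 * b)) =
        3 * ((S.card : ℝ) * δ) + ((S.card : ℝ) * δ) ^ 2 * ((1 / 3) ^ (2 * b) / δ) := by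
      field_simp
    rw [e, hM]
  have h9 : (1 / 3 : ℝ) ^ (2 * b) / δ ≤ (1 / 2) ^ (k + 1) := by
    rw [hδ, pow_mul, ← div_pow]
    calc ((1 / 3 : ℝ) ^ 2 / (1 / 2)) ^ b ≤ (1 / 2) ^ b := by
          apply pow_le_pow_left₀ (by positivity); norm_num
      _ ≤ (1 / 2) ^ (k + 1) := pow_le_pow_of_le_one (by norm_num) (by norm_num) (by omega)
  have hpos : (0 : ℝ) < 2 ^ (k + 1) := by positivity
  have h10 : (3 * 2 ^ (k + 1) : ℝ) ^ 2 * V ≤ (3 * 2 ^ (k + 1)) ^ 2 * (1 / 2) ^ k := by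
    have e1 : (2 : ℝ) ^ (k + 1) * (1 / 2) ^ (k + 1) = 1 := by rw [← mul_pow]; norm_num
    have e2 : (1 / 2 : ℝ) ^ k = 2 * (1 / 2) ^ (k + 1) := by rw [pow_succ]; ring
    have h11 : (3 * 2 ^ (k + 1) : ℝ) ^ 2 * ((1 / 3) ^ (2 * b) / δ) ≤
        (3 * 2 ^ (k + 1)) ^ 2 * (1 / 2) ^ (k + 1) := mul_le_mul_of_nonneg_left h9 (by positivity)
    have h12 : (3 * 2 ^ (k + 1) : ℝ) ^ 2 * (1 / 2) ^ (k + 1) = 9 * 2 ^ (k + 1) := by
      calc (3 * 2 ^ (k + 1) : ℝ) ^ 2 * (1 / 2) ^ (k + 1)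
          = 9 * 2 ^ (k + 1) * (2 ^ (k + 1) * (1 / 2) ^ (k + 1)) := by ring
        _ = _ := by rw [e1, mul_one]
    rw [e2]
    have h13 : (3 * 2 ^ (k + 1) : ℝ) ^ 2 * (2 * (1 / 2) ^ (k + 1)) = 2 * (9 * 2 ^ (k + 1)) := by
      rw [← h12]; ring
    rw [h13]
    linarith
  exact le_of_mul_le_mul_left h10 (by positivity)

end Pool.Agent.X85.Kh
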