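import Pool.Agent.X85.KhB

set_option autoImplicit false
open MeasureTheory Filter Topology Set

namespace Pool.Agent.X85.Kh

/-- total number of factors two before block `j` -/
def La (β : ℕ) (j : ℕ) : ℕ := ∑ i ∈ Finset.range j, 2 ^ (β * (i + 1))

/-- the words -/
def W (β c : ℕ) : ℕ → List ℕ
  | 0 => []
  | j + 1 => W β c j ++ (List.replicate c 3 ++ List.replicate (2 ^ (β * (j + 1))) 2)

lemma W_mem (β c j : ℕ) : ∀ m ∈ W β c j, m = 2 ∨ m = 3 := by
  induction j with
  | zero => simp [W]
  | succ j ih =>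
    intro m hm
    simp only [W, List.mem_append, List.mem_replicate] at hm
    rcases hm with h | h | h
    · exact ih m h
    · exact Or.inr h.2
    · exact Or.inl h.2

lemma W_len (β c j : ℕ) : (W β c j).length = j * c + La β j := by
  induction j with
  | zero => simp [W, La]
  | succ j ih =>
    simp only [W, List.length_append, List.length_replicate, ih, La, Finset.sum_range_succ]
    ring

lemma W_prod (β c j : ℕ) : (W β c j).prod = 3 ^ (c * j) * 2 ^ La β j := by
  induction j with
  | zero => simp [W, La]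
  | succ j ih =>
    simp only [W, List.prod_append, List.prod_replicate, ih, La, Finset.sum_range_succ]
    ring

lemma W_take (β c j t : ℕ) (ht : t ≤ 2 ^ (β * (j + 1))) :
    ((W β c (j + 1)).take ((W β c j).length + c + t)).prod = 3 ^ (c * (j + 1)) * 2 ^ (La β j + t) := by
  have e1 : (W β c (j + 1)).take ((W β c j).length + c + t) =
      W β c j ++ (List.replicate c 3 ++ List.replicate t 2) := by
    rw [W, add_assoc, List.take_length_add_append]
    congr 1
    have : (List.replicate c 3 : List ℕ).length = c := List.length_replicate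
    nth_rw 1 [← this]
    rw [List.take_length_add_append, List.take_replicate, min_eq_left ht]
  rw [e1, List.prod_append, List.prod_append, List.prod_replicate, List.prod_replicate, W_prod]
  ring

lemma W_prefix (β c : ℕ) {i j : ℕ} (h : i ≤ j) : W β c i <+: W β c j := by
  induction j with
  | zero => rw [Nat.le_zero.1 h]
  | succ j ih =>
    rcases Nat.lt_or_ge j i with h1 | h1
    · have : i = j + 1 := by omega
      rw [this]
    · exact (ih h1).trans ⟨_, rfl⟩

lemma La_le (β j : ℕ) (hβ : 1 ≤ β) : La β j ≤ 2 * 2 ^ (β * j) := by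
  induction j with
  | zero => simp [La]
  | succ j ih =>
    rw [La, Finset.sum_range_succ]
    have h1 : (2 : ℕ) ^ (β * (j + 1)) = 2 ^ β * 2 ^ (β * j) := by rw [mul_add, mul_one, pow_add]; ring
    have h2 : 2 ≤ 2 ^ β := by
      calc 2 = 2 ^ 1 := by norm_num
        _ ≤ 2 ^ β := Nat.pow_le_pow_right (by norm_num) hβ
    have h3 : La β j ≤ 2 * 2 ^ (β * j) := ih
    unfold La at h3
    rw [h1]
    have h4 : 0 < 2 ^ (β * j) := by positivity
    nlinarith

lemma exists_beta (a d : ℕ) : ∃ β : ℕ, 1 ≤ β ∧ a + d * β ≤ 2 ^ β := by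
  refine ⟨2 * (a + 2 * d + 1), by omega, ?_⟩
  have h1 : a + 2 * d + 1 < 2 ^ (a + 2 * d + 1) := Nat.lt_two_pow_self
  have h2 : (2 : ℕ) ^ (2 * (a + 2 * d + 1)) = 2 ^ (a + 2 * d + 1) * 2 ^ (a + 2 * d + 1) := by
    rw [← pow_add]; congr 1; omega
  rw [h2]
  have h3 : (a + 2 * d + 1) * (a + 2 * d + 1) ≤ 2 ^ (a + 2 * d + 1) * 2 ^ (a + 2 * d + 1) :=
    Nat.mul_le_mul h1.le h1.le
  nlinarith

open Classical in
/-- the number of hits -/
noncomputable def hits (w : List ℕ) (A : Set UnitAddCircle) (i : ℕ) (y : UnitAddCircle) : ℕ :=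
  ((Finset.Icc 1 i).filter fun i' => (w.take i').prod • y ∈ A).card

lemma core (k n0 : ℕ) : ∃ (w : List ℕ) (A : Set UnitAddCircle), (∀ m ∈ w, m = 2 ∨ m = 3) ∧
    MeasurableSet A ∧ vol.real A ≤ (1 / 2) ^ k ∧
    vol.real {y | ¬ ∃ i ≤ w.length, 1 ≤ i ∧
      (1 - (1 / 2 : ℝ) ^ k) * ((n0 : ℝ) + i) ≤ hits w A i y} ≤ (1 / 2) ^ k := by
  classical
  set J : ℕ := 3 * 4 ^ (k + 1) with hJ
  obtain ⟨β, hβ1, hβ⟩ := exists_beta (2 ^ k * (n0 + 2 + (J + 1) * (2 * (1 + k))))
    (2 ^ k * ((J + 1) * (2 * J)))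
  set b : ℕ := β * J + 1 + k with hb
  set c : ℕ := 2 * b with hc
  set r : ℝ := (1 / 2) ^ b / 2 with hr
  have hr0 : 0 ≤ r := by positivity
  have hr1 : r ≤ 1 / 2 := by
    have : (1 / 2 : ℝ) ^ b ≤ 1 := pow_le_one₀ (by norm_num) (by norm_num)
    rw [hr]; linarith
  set A : Set UnitAddCircle := {z | ∃ p ∈ Finset.range (2 ^ (β * J + 1)), ‖(2 ^ p) • z‖ ≤ r} with hA
  have hAu : A = ⋃ p ∈ Finset.range (2 ^ (β * J + 1)),
      (fun z : UnitAddCircle => (2 ^ p) • z) ⁻¹' Metric.closedBall 0 r := by
    ext z; simp [hA, dist_zero_right]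
  have hAm : MeasurableSet A := by
    rw [hAu]
    exact Finset.measurableSet_biUnion _ fun p _ =>
      (continuous_nsmul _).measurable measurableSet_closedBall
  refine ⟨W β c J, A, W_mem β c J, hAm, ?_, ?_⟩
  · rw [hAu]
    refine (measureReal_biUnion_finset_le _ _).trans ?_
    have h1 : ∀ p ∈ Finset.range (2 ^ (β * J + 1)),
        vol.real ((fun z : UnitAddCircle => (2 ^ p) • z) ⁻¹' Metric.closedBall 0 r) = 2 * r := by
      intro p _
      rw [Measure.real, (mp_nsmul (2 ^ p) (by positivity)).measure_preimage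
        measurableSet_closedBall.nullMeasurableSet]
      exact vol_ball hr0 hr1
    rw [Finset.sum_congr rfl h1, Finset.sum_const, Finset.card_range, nsmul_eq_mul, hr, hb]
    push_cast
    have e : (2 : ℝ) ^ (β * J + 1) * (1 / 2) ^ (β * J + 1) = 1 := by rw [← mul_pow]; norm_num
    calc (2 : ℝ) ^ (β * J + 1) * (2 * ((1 / 2) ^ (β * J + 1 + k) / 2))
        = (2 ^ (β * J + 1) * (1 / 2) ^ (β * J + 1)) * (1 / 2) ^ k := by rw [pow_add _ _ k]; ring
      _ = (1 / 2) ^ k := by rw [e, one_mul]
      _ ≤ (1 / 2) ^ k := le_rfl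
  · refine le_trans (measureReal_mono ?_ (measure_ne_top _ _)) (key k β (La β))
    intro y hy s hs hsE
    apply hy
    rw [Finset.mem_product, Finset.mem_range, Finset.mem_Ico] at hs
    obtain ⟨j, p⟩ := s
    obtain ⟨hj, hp1, hp2⟩ := hs
    simp only at hj hp1 hp2
    rw [← hJ] at hj hp1 hp2
    set Lj : ℕ := 2 ^ (β * (j + 1)) with hLj
    have hLp : Lj ≤ p := by
      refine le_trans ?_ hp1
      exact Nat.pow_le_pow_right (by norm_num) (Nat.mul_le_mul_left _ hj)
    have hpre : W β c (j + 1) <+: W β c J := W_prefix β c hj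
    have hlen1 : (W β c (j + 1)).length = (W β c j).length + c + Lj := by
      simp only [W, List.length_append, List.length_replicate]; ring
    have htake : ∀ t ≤ Lj, ((W β c J).take ((W β c j).length + c + t)).prod =
        3 ^ (c * (j + 1)) * 2 ^ (La β j + t) := by
      intro t ht
      rw [← W_take β c j t ht]
      congr 1
      obtain ⟨u, hu⟩ := hpre
      rw [← hu, List.take_append_of_le_length]
      rw [hlen1]; exact Nat.add_le_add_left ht _
    refine ⟨(W β c j).length + c + Lj, ?_, le_trans Nat.one_le_two_pow (Nat.le_add_left Lj _), ?_⟩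
    · rw [← hlen1]; exact hpre.length_le
    -- the hits
    have hhits : Lj + 1 ≤ hits (W β c J) A ((W β c j).length + c + Lj) y := by
      unfold hits
      have hinj : Function.Injective fun t : ℕ => (W β c j).length + c + t := by
        intro a a' h; simpa using h
      have hsub : (Finset.range (Lj + 1)).map ⟨_, hinj⟩ ⊆
          (Finset.Icc 1 ((W β c j).length + c + Lj)).filter
            fun i' => ((W β c J).take i').prod • y ∈ A := by
        intro i' hi'
        rw [Finset.mem_map] at hi'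
        obtain ⟨t, ht, rfl⟩ := hi'
        rw [Finset.mem_range] at ht
        simp only [Function.Embedding.coeFn_mk, Finset.mem_filter, Finset.mem_Icc]
        refine ⟨⟨by omega, by omega⟩, ?_⟩
        have ht' : t ≤ Lj := Nat.lt_succ_iff.1 ht
        rw [htake t ht']
        refine ⟨p - t, Finset.mem_range.2 (lt_of_le_of_lt (Nat.sub_le _ _) hp2), ?_⟩
        rw [← mul_smul]
        have e : 2 ^ (p - t) * (3 ^ (c * (j + 1)) * 2 ^ (La β j + t)) =
            MM c (La β) (j, p) := by
          have h1 : 2 ^ (La β j + p) = 2 ^ (p - t) * 2 ^ (La β j + t) := by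
            rw [← pow_add]; congr 1
            have := ht'.trans hLp
            omega
          simp only [MM, h1]; ring
        rw [e]
        exact hsE
      have := Finset.card_le_card hsub
      rw [Finset.card_map, Finset.card_range] at this
      convert this
    -- arithmetic
    have hbig : 2 ^ k * (n0 + (W β c j).length + c) ≤ Lj := by
      rw [W_len]
      have h1 := La_le β j hβ1
      have h2 : j * c + c ≤ J * c := by
        have : (j + 1) * c ≤ J * c := Nat.mul_le_mul_right _ hj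
        linarith
      have h3 : 1 ≤ 2 ^ (β * j) := Nat.one_le_two_pow
      have h4 : n0 + (j * c + La β j) + c ≤ (n0 + 2 + (J + 1) * c) * 2 ^ (β * j) := by
        have h5 : n0 + J * c ≤ (n0 + J * c) * 2 ^ (β * j) := Nat.le_mul_of_pos_right _ h3
        nlinarith [Nat.zero_le (c * 2 ^ (β * j))]
      have h6 : 2 ^ k * (n0 + 2 + (J + 1) * c) ≤ 2 ^ β := by
        refine le_trans (le_of_eq ?_) hβ
        rw [hc, hb]; ring
      calc 2 ^ k * (n0 + (j * c + La β j) + c)
          ≤ 2 ^ k * ((n0 + 2 + (J + 1) * c) * 2 ^ (β * j)) := Nat.mul_le_mul_left _ h4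
        _ = (2 ^ k * (n0 + 2 + (J + 1) * c)) * 2 ^ (β * j) := by ring
        _ ≤ 2 ^ β * 2 ^ (β * j) := Nat.mul_le_mul_right _ h6
        _ = Lj := by rw [hLj, mul_add, mul_one, pow_add]; ring
    have hbigR : (2 : ℝ) ^ k * ((n0 : ℝ) + ((W β c j).length : ℝ) + c) ≤ Lj := by exact_mod_cast hbig
    have hhR : ((Lj : ℝ) + 1) ≤ hits (W β c J) A ((W β c j).length + c + Lj) y := by
      exact_mod_cast hhits
    refine le_trans ?_ hhR
    push_cast
    set m : ℝ := (n0 : ℝ) + ((W β c j).length : ℝ) + c with hm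
    set e : ℝ := (1 / 2 : ℝ) ^ k with he
    have he1 : e * 2 ^ k = 1 := by rw [he, ← mul_pow]; norm_num
    have he0 : 0 < e := by positivity
    have he2 : e ≤ 1 := pow_le_one₀ (by norm_num) (by norm_num)
    have h7 : m ≤ e * Lj := by
      calc m = e * (2 ^ k * m) := by rw [← mul_assoc, he1, one_mul]
        _ ≤ e * Lj := mul_le_mul_of_nonneg_left hbigR he0.le
    have h8 : (n0 : ℝ) + (((W β c j).length : ℝ) + c + Lj) = m + Lj := by rw [hm]; ring
    have hL0 : (0 : ℝ) ≤ Lj := by positivity
    have h9 : (1 - e) * (m + Lj) ≤ (1 - e) * (e * Lj + Lj) :=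
      mul_le_mul_of_nonneg_left (by linarith) (by linarith)
    have h10 : (1 - e) * (e * Lj + Lj) = Lj - e ^ 2 * Lj := by ring
    have h11 : 0 ≤ e ^ 2 * Lj := by positivity
    rw [h8]
    linarith

end Pool.Agent.X85.Kh
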