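import Mathlib
import Pool.Agent.H165R3.BPE

/-! The maximal ergodic inequality and the pointwise ergodic theorem for integrable functions. -/

set_option autoImplicit false
open MeasureTheory Filter Topology Set
open scoped ENNReal

namespace Pool.Agent.X85.Max

variable {X : Type*} [MeasurableSpace X]

/-- the ergodic averages -/
noncomputable def Av (T : X → X) (f : X → ℝ) (k : ℕ) (x : X) : ℝ :=
  (k : ℝ)⁻¹ * ∑ j ∈ Finset.range k, f (T^[j] x)

/-- maximal partial sums -/
noncomputable def Mx (T : X → X) (φ : X → ℝ) : ℕ → X → ℝ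
  | 0, _ => 0
  | n + 1, x => max 0 (φ x + Mx T φ n (T x))

omit [MeasurableSpace X] in
lemma Mx_nonneg (T : X → X) (φ : X → ℝ) (n : ℕ) (x : X) : 0 ≤ Mx T φ n x := by
  cases n with
  | zero => simp [Mx]
  | succ n => simp [Mx]

lemma Mx_meas {T : X → X} (hT : Measurable T) {φ : X → ℝ} (hφ : Measurable φ) (n : ℕ) :
    Measurable (Mx T φ n) := by
  induction n with
  | zero => exact (measurable_const : Measurable fun _ : X => (0 : ℝ))
  | succ n ih =>
    have : Mx T φ (n + 1) = fun x => max 0 (φ x + Mx T φ n (T x)) := rfl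
    rw [this]
    exact measurable_const.max (hφ.add (ih.comp hT))

omit [MeasurableSpace X] in
lemma Mx_mono (T : X → X) (φ : X → ℝ) (n : ℕ) (x : X) : Mx T φ n x ≤ Mx T φ (n + 1) x := by
  induction n generalizing x with
  | zero => exact Mx_nonneg T φ 1 x
  | succ n ih =>
    have h1 := ih (T x)
    show max 0 (φ x + Mx T φ n (T x)) ≤ max 0 (φ x + Mx T φ (n + 1) (T x))
    exact max_le_max le_rfl (by linarith)

omit [MeasurableSpace X] in
lemma Mx_monotone (T : X → X) (φ : X → ℝ) (x : X) : Monotone fun n => Mx T φ n x :=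
  monotone_nat_of_le_succ fun n => Mx_mono T φ n x

omit [MeasurableSpace X] in
lemma Mx_sum (T : X → X) (φ : X → ℝ) (n : ℕ) (x : X) :
    ∑ k ∈ Finset.range n, φ (T^[k] x) ≤ Mx T φ n x := by
  induction n generalizing x with
  | zero => simp [Mx]
  | succ n ih =>
    rw [Finset.sum_range_succ']
    have h1 := ih (T x)
    simp only [Function.iterate_succ_apply, Function.iterate_zero, id_eq]
    refine le_trans ?_ (le_max_right _ _)
    linarith

variable {μ : Measure X} [IsProbabilityMeasure μ]

lemma Mx_int {T : X → X} (hT : MeasurePreserving T μ μ) {φ : X → ℝ} (hφ : Measurable φ)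
    (hi : Integrable φ μ) (n : ℕ) : Integrable (Mx T φ n) μ := by
  induction n with
  | zero => exact integrable_zero _ _ _
  | succ n ih =>
    have h1 : Integrable (fun x => φ x + Mx T φ n (T x)) μ :=
      hi.add ((hT.integrable_comp (Mx_meas hT.measurable hφ n).aestronglyMeasurable).2 ih)
    have : Mx T φ (n + 1) = fun x => max (φ x + Mx T φ n (T x)) 0 := by
      funext x; exact max_comm _ _
    rw [this]
    exact h1.pos_part

/-- the maximal ergodic theorem -/
lemma garsia {T : X → X} (hT : MeasurePreserving T μ μ) {φ : X → ℝ} (hφ : Measurable φ)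
    (hi : Integrable φ μ) (n : ℕ) : 0 ≤ ∫ x in {x | 0 < Mx T φ n x}, φ x ∂μ := by
  cases n with
  | zero =>
    have : {x : X | 0 < Mx T φ 0 x} = ∅ := by ext x; simp [Mx]
    rw [this]; simp
  | succ n =>
    set S : Set X := {x | 0 < Mx T φ (n + 1) x} with hS
    have hSm : MeasurableSet S := measurableSet_lt measurable_const (Mx_meas hT.measurable hφ _)
    have hM := Mx_int hT hφ hi (n + 1)
    have hMT : Integrable (fun x => Mx T φ (n + 1) (T x)) μ :=
      (hT.integrable_comp (Mx_meas hT.measurable hφ _).aestronglyMeasurable).2 hM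
    have h1 : ∫ x in S, (Mx T φ (n + 1) x - Mx T φ (n + 1) (T x)) ∂μ ≤ ∫ x in S, φ x ∂μ := by
      refine setIntegral_mono_on (hM.sub hMT).integrableOn hi.integrableOn hSm fun x hx => ?_
      have hx' : 0 < max 0 (φ x + Mx T φ n (T x)) := hx
      have h2 : Mx T φ (n + 1) x = φ x + Mx T φ n (T x) := by
        show max 0 (φ x + Mx T φ n (T x)) = _
        rcases le_total (φ x + Mx T φ n (T x)) 0 with h | h
        · rw [max_eq_left h] at hx'; exact absurd hx' (lt_irrefl _)
        · exact max_eq_right h
      have h3 := Mx_mono T φ n (T x)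
      linarith
    refine le_trans ?_ h1
    rw [integral_sub hM.integrableOn hMT.integrableOn]
    have h4 : ∫ x in S, Mx T φ (n + 1) x ∂μ = ∫ x, Mx T φ (n + 1) x ∂μ := by
      rw [setIntegral_eq_integral_of_forall_compl_eq_zero]
      intro x hx
      have h5 : ¬ 0 < Mx T φ (n + 1) x := hx
      exact le_antisymm (not_lt.1 h5) (Mx_nonneg _ _ _ _)
    have h5 : ∫ x in S, Mx T φ (n + 1) (T x) ∂μ ≤ ∫ x, Mx T φ (n + 1) (T x) ∂μ :=
      setIntegral_le_integral hMT (Eventually.of_forall fun x => Mx_nonneg _ _ _ _)
    have h6 : ∫ x, Mx T φ (n + 1) (T x) ∂μ = ∫ x, Mx T φ (n + 1) x ∂μ := by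
      have := integral_map (μ := μ) (φ := T) hT.measurable.aemeasurable
        (f := Mx T φ (n + 1)) (by
          rw [hT.map_eq]; exact (Mx_meas hT.measurable hφ _).aestronglyMeasurable)
      rw [hT.map_eq] at this
      exact this.symm
    linarith

/-- the weak type inequality -/
lemma weak {T : X → X} (hT : MeasurePreserving T μ μ) {g : X → ℝ} (hg : Measurable g)
    (hi : Integrable g μ) (hg0 : ∀ x, 0 ≤ g x) {l : ℝ} (hl : 0 < l) :
    μ.real {x | ∃ k : ℕ, l < Av T g k x} ≤ (∫ x, g x ∂μ) / l := by
  set φ : X → ℝ := fun x => g x - l with hφ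
  have hφm : Measurable φ := hg.sub_const l
  have hφi : Integrable φ μ := hi.sub (integrable_const l)
  set E : ℕ → Set X := fun n => {x | 0 < Mx T φ n x} with hE
  have hEm : ∀ n, MeasurableSet (E n) := fun n =>
    measurableSet_lt measurable_const (Mx_meas hT.measurable hφm _)
  have hEb : ∀ n, μ.real (E n) ≤ (∫ x, g x ∂μ) / l := by
    intro n
    have h1 := garsia hT hφm hφi n
    have h2 : ∫ x in E n, φ x ∂μ = ∫ x in E n, g x ∂μ - l * μ.real (E n) := by
      rw [hφ, integral_sub hi.integrableOn (integrable_const l).integrableOn, setIntegral_const,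
        smul_eq_mul, mul_comm]
    have h3 : ∫ x in E n, g x ∂μ ≤ ∫ x, g x ∂μ :=
      setIntegral_le_integral hi (Eventually.of_forall hg0)
    rw [le_div_iff₀ hl]
    have : 0 ≤ ∫ x in E n, φ x ∂μ := h1
    linarith
  have hmono : Monotone E := by
    intro m n hmn x hx
    exact lt_of_lt_of_le (show 0 < Mx T φ m x from hx) (Mx_monotone T φ x hmn)
  have hsub : {x | ∃ k : ℕ, l < Av T g k x} ⊆ ⋃ n, E n := by
    rintro x ⟨k, hk⟩
    rw [mem_iUnion]
    refine ⟨k, ?_⟩
    have hk0 : 0 < k := by
      rcases Nat.eq_zero_or_pos k with h | h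
      · rw [h] at hk; simp [Av] at hk; linarith
      · exact h
    have hkR : (0 : ℝ) < k := by exact_mod_cast hk0
    refine lt_of_lt_of_le ?_ (Mx_sum T φ k x)
    rw [hφ, Finset.sum_sub_distrib, Finset.sum_const, Finset.card_range, nsmul_eq_mul]
    unfold Av at hk
    rw [lt_inv_mul_iff₀ hkR] at hk
    linarith
  have hlim : Tendsto (fun n => μ.real (E n)) atTop (𝓝 (μ.real (⋃ n, E n))) := by
    have := tendsto_measure_iUnion_atTop (μ := μ) hmono
    exact (ENNReal.tendsto_toReal (measure_ne_top _ _)).comp this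
  refine (measureReal_mono hsub (measure_ne_top _ _)).trans ?_
  exact le_of_tendsto' hlim hEb

omit [MeasurableSpace X] in
lemma Av_sub (T : X → X) (f g : X → ℝ) (k : ℕ) (x : X) :
    Av T (fun y => f y - g y) k x = Av T f k x - Av T g k x := by
  unfold Av; rw [Finset.sum_sub_distrib]; ring

omit [MeasurableSpace X] in
lemma Av_add (T : X → X) (f g : X → ℝ) (k : ℕ) (x : X) :
    Av T (fun y => f y + g y) k x = Av T f k x + Av T g k x := by
  unfold Av; rw [Finset.sum_add_distrib]; ring

omit [MeasurableSpace X] in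
lemma Av_mono (T : X → X) {f g : X → ℝ} (h : ∀ x, f x ≤ g x) (k : ℕ) (x : X) :
    Av T f k x ≤ Av T g k x := by
  unfold Av; gcongr; exact h _

omit [MeasurableSpace X] in
lemma Av_abs (T : X → X) (f : X → ℝ) (k : ℕ) (x : X) :
    |Av T f k x| ≤ Av T (fun y => |f y|) k x := by
  unfold Av
  rw [abs_mul, abs_of_nonneg (by positivity : (0 : ℝ) ≤ (k : ℝ)⁻¹)]
  gcongr
  exact Finset.abs_sum_le_sum_abs _ _

omit [MeasurableSpace X] in
lemma Av_const_le (T : X → X) {l : ℝ} (hl : 0 ≤ l) (k : ℕ) (x : X) :
    Av T (fun _ => l) k x ≤ l := by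
  unfold Av
  rw [Finset.sum_const, Finset.card_range, nsmul_eq_mul]
  rcases Nat.eq_zero_or_pos k with h | h
  · rw [h]; simpa using hl
  · have : (0 : ℝ) < k := by exact_mod_cast h
    rw [← mul_assoc, inv_mul_cancel₀ this.ne', one_mul]

omit [MeasurableSpace X] in
lemma Av_nonneg (T : X → X) {f : X → ℝ} (h : ∀ x, 0 ≤ f x) (k : ℕ) (x : X) : 0 ≤ Av T f k x := by
  unfold Av
  exact mul_nonneg (by positivity) (Finset.sum_nonneg fun _ _ => h _)

lemma Av_meas {T : X → X} (hT : Measurable T) {f : X → ℝ} (hf : Measurable f) (k : ℕ) :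
    Measurable (Av T f k) :=
  (Finset.measurable_fun_sum _ fun j _ => hf.comp (hT.iterate j)).const_mul _

/-- pointwise ergodic theorem for integrable functions -/
theorem birkhoff {T : X → X} (hT : MeasurePreserving T μ μ) {f : X → ℝ} (hf : Measurable f)
    (hi : Integrable f μ) :
    ∀ᵐ x ∂μ, Tendsto (fun k : ℕ => Av T f k x) atTop
      (𝓝 ((μ[f | MeasurableSpace.invariants T]) x)) := by
  set F : X → ℝ := μ[f | MeasurableSpace.invariants T] with hF
  -- for all `ε`, the limsup of the distance exceeds `3 ε` with small probability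
  have key : ∀ ε : ℝ, 0 < ε → ∀ η : ℝ, 0 < η →
      ∃ S : Set X, μ.real S ≤ 2 * η ∧ ∀ᵐ x ∂μ, x ∉ S → ∀ᶠ k : ℕ in atTop, |Av T f k x - F x| < 3 * ε := by
    intro ε hε η hη
    -- bounded approximation
    obtain ⟨C, hC⟩ : ∃ C : ℕ, ∫ x, |f x - max (-(C : ℝ)) (min C (f x))| ∂μ ≤ ε * η := by
      have hlim : Tendsto (fun C : ℕ => ∫ x, |f x - max (-(C : ℝ)) (min C (f x))| ∂μ) atTop
          (𝓝 (∫ _, (0 : ℝ) ∂μ)) := by
        refine tendsto_integral_of_dominated_convergence (fun x => |f x|) ?_ hi.abs ?_ ?_
        · intro C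
          exact (Measurable.abs (hf.sub (measurable_const.max
            (measurable_const.min hf)))).aestronglyMeasurable
        · intro C
          refine Eventually.of_forall fun x => ?_
          rw [Real.norm_eq_abs, abs_abs]
          have hC0 : (0 : ℝ) ≤ C := by positivity
          rcases le_total (f x) 0 with h | h
          · rw [min_eq_right (by linarith)]
            rcases le_total (-(C : ℝ)) (f x) with h' | h'
            · rw [max_eq_right h']; simp
            · rw [max_eq_left h', abs_of_nonpos (by linarith), abs_of_nonpos h]; linarith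
          · rcases le_total (C : ℝ) (f x) with h' | h'
            · rw [min_eq_left h', max_eq_right (by linarith), abs_of_nonneg (by linarith),
                abs_of_nonneg h]; linarith
            · rw [min_eq_right h', max_eq_right (by linarith)]; simp
        · refine Eventually.of_forall fun x => ?_
          refine tendsto_const_nhds.congr' ?_
          obtain ⟨N, hN⟩ := exists_nat_ge |f x|
          filter_upwards [eventually_ge_atTop N] with C hC
          have hC' : |f x| ≤ C := hN.trans (by exact_mod_cast hC)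
          rw [abs_le] at hC'
          rw [min_eq_right hC'.2, max_eq_right hC'.1]; simp
      rw [integral_zero] at hlim
      exact (hlim.eventually (ge_mem_nhds (by positivity))).exists
    set g : X → ℝ := fun x => max (-(C : ℝ)) (min C (f x)) with hg
    have hgm : Measurable g := measurable_const.max (measurable_const.min hf)
    have hgb : ∀ x, |g x| ≤ C := by
      intro x
      rw [abs_le]
      have : (0 : ℝ) ≤ C := by positivity
      exact ⟨le_max_left _ _, max_le (by linarith) (min_le_left _ _)⟩
    have hgi : Integrable g μ :=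
      Integrable.of_bound hgm.aestronglyMeasurable C (Eventually.of_forall hgb)
    have hbk := Pool.Agent.H165R3.BPE.birkhoff hT g hgm C hgb
    set h : X → ℝ := fun x => |f x - g x| with hh
    have hhm : Measurable h := (hf.sub hgm).abs
    have hhi : Integrable h μ := (hi.sub hgi).abs
    set G : X → ℝ := μ[g | MeasurableSpace.invariants T] with hG
    have hle := MeasurableSpace.invariants_le T
    refine ⟨{x | ∃ k : ℕ, ε < Av T h k x} ∪ {x | ε ≤ |F x - G x|}, ?_, ?_⟩
    · refine (measureReal_union_le _ _).trans ?_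
      have h1 := weak hT hhm hhi (fun _ => abs_nonneg _) hε
      have h2 : (∫ x, h x ∂μ) / ε ≤ η := by
        rw [div_le_iff₀ hε]; linarith
      have h3 : μ.real {x | ε ≤ |F x - G x|} ≤ η := by
        have h4 : ∫ x, |F x - G x| ∂μ ≤ ε * η := by
          have h5 : (fun x => F x - G x) =ᵐ[μ]
              μ[fun x => f x - g x | MeasurableSpace.invariants T] :=
            (condExp_sub hi hgi _).symm
          have h6 : ∫ x, |F x - G x| ∂μ =
              ∫ x, |(μ[fun x => f x - g x | MeasurableSpace.invariants T]) x| ∂μ := by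
            refine integral_congr_ae ?_
            filter_upwards [h5] with x hx
            rw [hx]
          rw [h6]
          refine (integral_abs_condExp_le _).trans hC
        have h7 := mul_meas_ge_le_integral_of_nonneg (μ := μ) (f := fun x => |F x - G x|)
          (Eventually.of_forall fun _ => abs_nonneg _)
          ((integrable_condExp.sub integrable_condExp).abs) ε
        have h8 : ε * μ.real {x | ε ≤ |F x - G x|} ≤ ε * η := h7.trans h4
        exact le_of_mul_le_mul_left h8 hε
      linarith
    · filter_upwards [hbk] with x hx hxS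
      rw [mem_union, not_or] at hxS
      have h1 : ∀ k : ℕ, Av T h k x ≤ ε := by
        intro k
        by_contra hcon
        exact hxS.1 ⟨k, not_le.1 hcon⟩
      have h2 : |F x - G x| < ε := not_le.1 hxS.2
      have h3 : ∀ᶠ k : ℕ in atTop, |Av T g k x - G x| < ε := by
        have := (Metric.tendsto_nhds.1 hx) ε hε
        filter_upwards [this] with k hk
        rw [Real.dist_eq] at hk
        exact hk
      filter_upwards [h3] with k hk
      have h4 : |Av T f k x - Av T g k x| ≤ ε := by
        rw [← Av_sub]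
        exact (Av_abs T _ k x).trans (h1 k)
      have h5 : Av T f k x - F x = (Av T f k x - Av T g k x) + (Av T g k x - G x) - (F x - G x) := by
        ring
      rw [h5]
      have h6 := abs_sub ((Av T f k x - Av T g k x) + (Av T g k x - G x)) (F x - G x)
      have h7 := abs_add_le (Av T f k x - Av T g k x) (Av T g k x - G x)
      linarith
  -- conclude
  have key2 : ∀ j : ℕ, ∀ᵐ x ∂μ, ∀ᶠ k : ℕ in atTop, |Av T f k x - F x| < 3 * (1 / ((j : ℝ) + 1)) := by
    intro j
    rw [ae_iff]
    have hle : ∀ η : ℝ, 0 < η →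
        μ {x | ¬ ∀ᶠ k : ℕ in atTop, |Av T f k x - F x| < 3 * (1 / ((j : ℝ) + 1))} ≤
          ENNReal.ofReal (2 * η) := by
      intro η hη
      obtain ⟨S, hS, hS2⟩ := key (1 / ((j : ℝ) + 1)) (by positivity) η hη
      calc μ {x | ¬ ∀ᶠ k : ℕ in atTop, |Av T f k x - F x| < 3 * (1 / ((j : ℝ) + 1))}
          ≤ μ S := by
            apply measure_mono_ae
            filter_upwards [hS2] with x hx hx2
            by_contra hxS
            exact hx2 (hx hxS)
        _ ≤ ENNReal.ofReal (2 * η) := by
            rw [← ofReal_measureReal]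
            exact ENNReal.ofReal_le_ofReal hS
    refine le_antisymm (ENNReal.le_of_forall_pos_le_add fun δ hδ _ => ?_) zero_le
    rw [zero_add]
    have hδ' : (0 : ℝ) < δ := hδ
    refine (hle (δ / 2) (by positivity)).trans ?_
    rw [show 2 * ((δ : ℝ) / 2) = δ by ring, ENNReal.ofReal_coe_nnreal]
  rw [← ae_all_iff] at key2
  filter_upwards [key2] with x hx
  rw [Metric.tendsto_nhds]
  intro ε hε
  obtain ⟨j, hj⟩ := exists_nat_one_div_lt (show (0 : ℝ) < ε / 3 by linarith)
  filter_upwards [hx j] with k hk
  rw [Real.dist_eq]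
  linarith

end Pool.Agent.X85.Max
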