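import Mathlib

set_option autoImplicit false

open Complex Metric Set Filter Topology Real MeasureTheory

namespace Pool.Agent.X85.Pk

theorem poisson_one {r : ℝ} (s : ℂ) (hs : ‖s‖ < r) :
    circleAverage (fun ζ : ℂ => (‖s‖ / ‖ζ - s‖) ^ 2) 0 r = ‖s‖ ^ 2 / (r ^ 2 - ‖s‖ ^ 2) := by
  have hr : 0 < r := (norm_nonneg s).trans_lt hs
  have hw : s ∈ ball (0 : ℂ) r := by simpa using hs
  have h1 : DiffContOnCl ℂ (fun _ : ℂ => (1 : ℂ)) (ball 0 r) := diffContOnCl_const
  have h2 := h1.circleAverage_poissonKernel_smul' hw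
  have hne : r ^ 2 - ‖s‖ ^ 2 ≠ 0 := by
    have : ‖s‖ ^ 2 < r ^ 2 := by
      apply pow_lt_pow_left₀ hs (norm_nonneg _) two_ne_zero
    linarith
  have hcont : ContinuousOn (fun ζ : ℂ => (‖s‖ / ‖ζ - s‖) ^ 2) (sphere (0 : ℂ) |r|) := by
    apply ContinuousOn.pow
    apply ContinuousOn.div continuousOn_const (by fun_prop)
    intro z hz h
    rw [norm_eq_zero, sub_eq_zero] at h
    subst h
    rw [mem_sphere_zero_iff_norm, abs_of_pos hr] at hz
    linarith
  have hci : CircleIntegrable (fun ζ : ℂ => (‖s‖ / ‖ζ - s‖) ^ 2) 0 r :=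
    hcont.circleIntegrable'
  have h3 : circleAverage (fun z : ℂ =>
      ((‖z - 0‖ ^ 2 - ‖s - 0‖ ^ 2) / ‖(z - 0) - (s - 0)‖ ^ 2) • (1 : ℂ)) 0 r
      = circleAverage (fun z : ℂ => (((‖s‖ / ‖z - s‖) ^ 2 : ℝ) : ℂ) *
        (((r ^ 2 - ‖s‖ ^ 2) / ‖s‖ ^ 2 : ℝ) : ℂ)) 0 r ∨ s = 0 := by
    by_cases h0 : s = 0
    · right; exact h0
    left
    apply circleAverage_congr_sphere
    intro z hz
    rw [mem_sphere_zero_iff_norm, abs_of_pos hr] at hz
    have h0' : ‖s‖ ≠ 0 := norm_ne_zero_iff.mpr h0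
    simp only [sub_zero, hz, real_smul, mul_one]
    rw [← ofReal_mul]
    congr 1
    rw [div_pow]
    field_simp
  rcases h3 with h3 | h3
  · rw [h3] at h2
    have h4 : circleAverage (fun z : ℂ => (((‖s‖ / ‖z - s‖) ^ 2 : ℝ) : ℂ) *
        (((r ^ 2 - ‖s‖ ^ 2) / ‖s‖ ^ 2 : ℝ) : ℂ)) 0 r =
        (((circleAverage (fun ζ : ℂ => (‖s‖ / ‖ζ - s‖) ^ 2) 0 r) *
          ((r ^ 2 - ‖s‖ ^ 2) / ‖s‖ ^ 2) : ℝ) : ℂ) := by
      rw [ofReal_mul]
      have e1 := ContinuousLinearMap.circleAverage_comp_comm ofRealCLM hci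
      have e2 : circleAverage (fun z : ℂ => (((‖s‖ / ‖z - s‖) ^ 2 : ℝ) : ℂ)) 0 r =
          ((circleAverage (fun ζ : ℂ => (‖s‖ / ‖ζ - s‖) ^ 2) 0 r : ℝ) : ℂ) := e1
      rw [← e2]
      simp only [circleAverage_def]
      rw [intervalIntegral.integral_mul_const]
      simp only [real_smul]
      ring
    rw [h4] at h2
    have h5 : (circleAverage (fun ζ : ℂ => (‖s‖ / ‖ζ - s‖) ^ 2) 0 r) *
          ((r ^ 2 - ‖s‖ ^ 2) / ‖s‖ ^ 2) = 1 := by exact_mod_cast h2
    have h0' : ‖s‖ ≠ 0 := by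
      intro h
      rw [h] at h5
      simp at h5
    field_simp at h5 ⊢
    linarith
  · subst h3
    simp [circleAverage_def]

/-- Cauchy-Schwarz in the Hardy space. -/
theorem hardy_r {F : ℂ → ℂ} {r : ℝ} (hF : DiffContOnCl ℂ F (ball 0 r)) (h0 : F 0 = 0) {A : ℝ}
    (hA : circleAverage (fun ζ => ‖F ζ‖ ^ 2) 0 r ≤ A) {s : ℂ} (hs : ‖s‖ < r) :
    ‖F s‖ ^ 2 ≤ A * (‖s‖ ^ 2 / (r ^ 2 - ‖s‖ ^ 2)) := by
  have hr : 0 < r := (norm_nonneg s).trans_lt hs
  have hw : s ∈ ball (0 : ℂ) |r| := by simpa [abs_of_pos hr] using hs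
  have hF' : DiffContOnCl ℂ F (ball 0 |r|) := by rwa [abs_of_pos hr]
  have h1 := hF'.circleAverage_smul_div hw
  have h2 := hF'.circleAverage
  have hcF : ContinuousOn F (sphere (0 : ℂ) |r|) := by
    have := hF'.2
    rw [closure_ball _ (by rw [abs_of_pos hr]; exact hr.ne')] at this
    exact this.mono sphere_subset_closedBall
  have hsub : ContinuousOn (fun ζ : ℂ => ζ - s) (sphere (0 : ℂ) |r|) := by fun_prop
  have hne : ∀ z ∈ sphere (0 : ℂ) |r|, z - s ≠ 0 := by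
    intro z hz h
    rw [sub_eq_zero] at h
    subst h
    rw [mem_sphere_zero_iff_norm, abs_of_pos hr] at hz
    linarith
  have c1 : CircleIntegrable (fun z : ℂ => ((z - 0) / (z - s)) • F z) 0 r :=
    (ContinuousOn.smul (ContinuousOn.div (by fun_prop) hsub hne) hcF).circleIntegrable'
  have c2 : CircleIntegrable F 0 r := hcF.circleIntegrable'
  have h3 : circleAverage (fun z : ℂ => (s / (z - s)) * F z) 0 r = F s := by
    have := circleAverage_fun_sub c1 c2
    rw [h1, h2, h0, sub_zero] at this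
    rw [← this]
    apply circleAverage_congr_sphere
    intro z hz
    have := hne z hz
    simp only [smul_eq_mul, sub_zero]
    field_simp
    ring
  set B := ‖s‖ ^ 2 / (r ^ 2 - ‖s‖ ^ 2) with hB
  have hB0 : 0 ≤ B := by
    rw [hB]
    apply div_nonneg (by positivity)
    have : ‖s‖ ^ 2 < r ^ 2 := pow_lt_pow_left₀ hs (norm_nonneg _) two_ne_zero
    linarith
  have hA0 : 0 ≤ A := by
    refine le_trans ?_ hA
    apply circleAverage_nonneg_of_nonneg
    intro z _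
    positivity
  have c3 : CircleIntegrable (fun ζ : ℂ => ‖F ζ‖ ^ 2) 0 r := (hcF.norm.pow 2).circleIntegrable'
  have c4 : CircleIntegrable (fun ζ : ℂ => (‖s‖ / ‖ζ - s‖) ^ 2) 0 r := by
    apply ContinuousOn.circleIntegrable'
    apply ContinuousOn.pow
    apply ContinuousOn.div continuousOn_const hsub.norm
    intro z hz
    exact norm_ne_zero_iff.mpr (hne z hz)
  have c5 : CircleIntegrable (fun z : ℂ => (s / (z - s)) * F z) 0 r :=
    (ContinuousOn.mul (ContinuousOn.div continuousOn_const hsub hne) hcF).circleIntegrable'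
  have key : ∀ t : ℝ, 0 < t → 2 * ‖F s‖ ≤ t * A + t⁻¹ * B := by
    intro t ht
    have c6 : CircleIntegrable (fun z : ℂ => (t / 2) • ‖F z‖ ^ 2) 0 r :=
      ((hcF.norm.pow 2).const_smul (t / 2)).circleIntegrable'
    have c7 : CircleIntegrable (fun z : ℂ => (t⁻¹ / 2) • (‖s‖ / ‖z - s‖) ^ 2) 0 r := by
      apply ContinuousOn.circleIntegrable'
      simp only [smul_eq_mul]
      apply ContinuousOn.mul continuousOn_const
      apply ContinuousOn.pow
      apply ContinuousOn.div continuousOn_const hsub.norm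
      intro z hz
      exact norm_ne_zero_iff.mpr (hne z hz)
    have k1 : ‖F s‖ ≤ circleAverage (fun z : ℂ => ‖(s / (z - s)) * F z‖) 0 r := by
      rw [← h3]
      simp only [circleAverage_def, norm_smul]
      have := intervalIntegral.norm_integral_le_integral_norm
        (f := fun θ : ℝ => (s / (circleMap 0 r θ - s)) * F (circleMap 0 r θ))
        (μ := volume) (show (0 : ℝ) ≤ 2 * π by positivity)
      rw [Real.norm_of_nonneg (by positivity : (0 : ℝ) ≤ (2 * π)⁻¹)]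
      exact mul_le_mul_of_nonneg_left this (by positivity)
    have k2 : circleAverage (fun z : ℂ => ‖(s / (z - s)) * F z‖) 0 r ≤
        circleAverage (fun z : ℂ => (t / 2) • ‖F z‖ ^ 2 + (t⁻¹ / 2) • (‖s‖ / ‖z - s‖) ^ 2) 0 r := by
      apply circleAverage_mono
      · exact ((ContinuousOn.mul (ContinuousOn.div continuousOn_const hsub hne) hcF).norm).circleIntegrable'
      · exact c6.add c7
      · intro z hz
        simp only [norm_mul, norm_div, smul_eq_mul]
        set u := ‖s‖ / ‖z - s‖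
        set v := ‖F z‖
        have : 0 ≤ (t * v - u) ^ 2 / (2 * t) := by positivity
        have e : (t * v - u) ^ 2 / (2 * t) = t / 2 * v ^ 2 + t⁻¹ / 2 * u ^ 2 - u * v := by
          field_simp
          ring
        linarith
    rw [circleAverage_fun_add c6 c7, circleAverage_fun_smul,
      circleAverage_fun_smul, poisson_one s hs] at k2
    simp only [smul_eq_mul] at k2
    rw [← hB] at k2
    have : t / 2 * circleAverage (fun ζ => ‖F ζ‖ ^ 2) 0 r ≤ t / 2 * A :=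
      mul_le_mul_of_nonneg_left hA (by positivity)
    linarith
  rcases (norm_nonneg (F s)).eq_or_lt with hx | hx
  · rw [← hx]
    simp only [ne_eq, OfNat.ofNat_ne_zero, not_false_eq_true, zero_pow]
    positivity
  · apply le_of_forall_pos_le_add
    intro ε hε
    -- choose `A' > A`
    obtain ⟨A', hA', hA'2⟩ : ∃ A' : ℝ, A < A' ∧ A' * B ≤ A * B + ε := by
      refine ⟨A + ε / (B + 1), by linarith [show 0 < ε / (B + 1) by positivity], ?_⟩
      rw [add_mul]
      have : ε / (B + 1) * B ≤ ε := by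
        rw [div_mul_eq_mul_div, div_le_iff₀ (by positivity)]
        nlinarith
      linarith
    have hA'0 : 0 < A' := hA0.trans_lt hA'
    have k := key (‖F s‖ / A') (by positivity)
    have k1 : ‖F s‖ / A' * A ≤ ‖F s‖ := by
      rw [div_mul_eq_mul_div, div_le_iff₀ hA'0]
      exact mul_le_mul_of_nonneg_left hA'.le hx.le
    have k2 : ‖F s‖ ≤ A' / ‖F s‖ * B := by
      rw [inv_div] at k
      linarith
    have k3 : ‖F s‖ ^ 2 ≤ A' * B := by
      rw [div_mul_eq_mul_div, le_div_iff₀ hx] at k2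
      rw [pow_two]
      exact k2
    linarith

theorem hardy {F : ℂ → ℂ} (hF : DifferentiableOn ℂ F (ball 0 1)) (h0 : F 0 = 0) {A : ℝ}
    (hA : ∀ r : ℝ, 0 < r → r < 1 → circleAverage (fun ζ => ‖F ζ‖ ^ 2) 0 r ≤ A) {s : ℂ}
    (hs : ‖s‖ < 1) : ‖F s‖ ^ 2 ≤ A * (‖s‖ ^ 2 / (1 - ‖s‖ ^ 2)) := by
  have h1 : ∀ r : ℝ, ‖s‖ < r → r < 1 → ‖F s‖ ^ 2 ≤ A * (‖s‖ ^ 2 / (r ^ 2 - ‖s‖ ^ 2)) := by
    intro r h1 h2
    have hr : 0 < r := (norm_nonneg s).trans_lt h1
    apply hardy_r _ h0 (hA r hr h2) h1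
    apply DifferentiableOn.diffContOnCl
    rw [closure_ball _ hr.ne']
    exact hF.mono (closedBall_subset_ball h2)
  have h2 : Tendsto (fun r : ℝ => A * (‖s‖ ^ 2 / (r ^ 2 - ‖s‖ ^ 2))) (𝓝[<] 1)
      (𝓝 (A * (‖s‖ ^ 2 / (1 ^ 2 - ‖s‖ ^ 2)))) := by
    apply Tendsto.mono_left _ nhdsWithin_le_nhds
    apply ContinuousAt.tendsto (f := fun r : ℝ => A * (‖s‖ ^ 2 / (r ^ 2 - ‖s‖ ^ 2)))
    apply ContinuousAt.mul continuousAt_const
    apply ContinuousAt.div continuousAt_const (by fun_prop)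
    have : ‖s‖ ^ 2 < 1 := by
      have := norm_nonneg s
      nlinarith
    intro h
    linarith
  rw [one_pow] at h2
  apply ge_of_tendsto h2
  have : ∀ᶠ r : ℝ in 𝓝[<] 1, ‖s‖ < r := mem_nhdsWithin_of_mem_nhds (lt_mem_nhds hs)
  filter_upwards [this, self_mem_nhdsWithin] with r h3 h4
  exact h1 r h3 h4

end Pool.Agent.X85.Pk
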