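import Pool.Agent.W820.BM.Asm7
import Pool.Agent.X85.PkHardy

set_option autoImplicit false

open Topology Filter Metric Set Polynomial MeasureTheory Real
open Pool.Agent.H713R3.ZA

namespace Pool.Agent.X85.Pk

/-- the peak function, normalized -/
theorem peak {a : ℂ} (ha : a ≠ 0) {n : ℕ} (hn : 1 ≤ n) (b : ℝ) :
    ∃ C : ℝ, 0 < C ∧ ∀ t : PE n, ‖(fam a n t).coeff n‖ ≤ b →
      (∀ i, t (some i) ∈ KJ (fam a n t)) → volume (KJ (fam a n t)) < ⊤ ∧
      ∀ δ : ℝ, 0 < δ →
      ∃ (Ω : Set (PE n)) (h : PE n → ℂ), IsOpen Ω ∧ DifferentiableOn ℂ h Ω ∧ h t = 0 ∧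
        ∀ x : PE n, (fam a n x).coeff n = (fam a n t).coeff n →
          (∀ i, x (some i) ∈ KJ (fam a n x)) → x ∈ Ω ∧ ∀ j : ℕ,
            (h x).re + ‖(fam a n x).coeff j - (fam a n t).coeff j‖ ^ 2 ≤
              C * (volume (KJ (fam a n t))).toReal + δ := by
  obtain ⟨C, hC, h⟩ := Pool.Agent.W820.BM.peakQ ha hn (c₀ := |b| / ‖a‖) (by positivity)
  refine ⟨C ^ 2, by positivity, fun t htb hcrit => ?_⟩
  obtain ⟨hvol, h⟩ := h t (Pool.Agent.W820.BM.sum_bound hn ha htb) hcrit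
  refine ⟨hvol, fun δ hδ => ?_⟩
  obtain ⟨Ω, g, hΩ, hg, hg0, hg1⟩ := h (δ / C ^ 2) (by positivity)
  refine ⟨Ω, fun x => (C : ℂ) ^ 2 * g x, hΩ, hg.const_mul _, by simp [hg0], ?_⟩
  intro x hx1 hx2
  obtain ⟨k1, k2⟩ := hg1 x ((Pool.Agent.W820.BM.coeff_eq_iff hn ha x t).mp hx1) hx2
  refine ⟨k1, fun j => ?_⟩
  have k3 := k2 j
  have e : ((C : ℂ) ^ 2 * g x).re = C ^ 2 * (g x).re := by
    rw [← Complex.ofReal_pow, Complex.re_ofReal_mul]
  rw [e]
  have k4 := mul_le_mul_of_nonneg_left k3 (show (0 : ℝ) ≤ C ^ 2 by positivity)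
  have e2 : C ^ 2 * ((g x).re + (‖(fam a n x).coeff j - (fam a n t).coeff j‖ / C) ^ 2) =
      C ^ 2 * (g x).re + ‖(fam a n x).coeff j - (fam a n t).coeff j‖ ^ 2 := by
    field_simp
  have e3 : C ^ 2 * ((volume (KJ (fam a n t))).toReal + δ / C ^ 2) =
      C ^ 2 * (volume (KJ (fam a n t))).toReal + δ := by
    field_simp
  linarith

theorem coeff_diff (a : ℂ) (n : ℕ) (j : ℕ) :
    Differentiable ℂ (fun x : PE n => (fam a n x).coeff j) :=
  (pfe_fam a n j).differentiable one_ne_zero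

/-- representing measures -/
theorem meas {n : ℕ} {a : ℂ} {t : PE n} {Ω : Set (PE n)} {h : PE n → ℂ} {A : ℝ} {j : ℕ}
    (hd : DifferentiableOn ℂ h Ω) {L : Set (PE n)} (hL : IsCompact L) (hLΩ : L ⊆ Ω)
    (hb : ∀ x ∈ L, (h x).re + ‖(fam a n x).coeff j - (fam a n t).coeff j‖ ^ 2 ≤ A)
    (μ : Measure (PE n)) [IsProbabilityMeasure μ] (hμ : μ Lᶜ = 0) (hr : ∫ x, h x ∂μ = 0) :
    Integrable (fun x => ‖(fam a n x).coeff j - (fam a n t).coeff j‖ ^ 2) μ ∧
    ∫ x, ‖(fam a n x).coeff j - (fam a n t).coeff j‖ ^ 2 ∂μ ≤ A := by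
  have hres : μ.restrict L = μ := Measure.restrict_eq_self_of_ae_mem (by
    rw [ae_iff]
    exact hμ)
  have hLm : MeasurableSet L := hL.measurableSet
  have i1 : Integrable h μ := by
    rw [← hres]
    exact ((hd.continuousOn.mono hLΩ).integrableOn_compact hL)
  have hc : Continuous (fun x : PE n => ‖(fam a n x).coeff j - (fam a n t).coeff j‖ ^ 2) :=
    (((coeff_diff a n j).continuous.sub continuous_const).norm).pow 2
  have i2 : Integrable (fun x => ‖(fam a n x).coeff j - (fam a n t).coeff j‖ ^ 2) μ := by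
    rw [← hres]
    exact hc.continuousOn.integrableOn_compact hL
  refine ⟨i2, ?_⟩
  have i1r : Integrable (fun x => (h x).re) μ := i1.re
  have i3 : ∫ x, (h x).re ∂μ = 0 := by
    have := integral_re i1
    simp only [RCLike.re_to_complex] at this
    rw [this, hr]
    simp
  have i4 : ∫ x, (h x).re + ‖(fam a n x).coeff j - (fam a n t).coeff j‖ ^ 2 ∂μ ≤ A := by
    have k : ∫ x, (h x).re + ‖(fam a n x).coeff j - (fam a n t).coeff j‖ ^ 2 ∂μ ≤ ∫ _x, A ∂μ := by
      apply integral_mono_ae (i1r.add i2) (integrable_const _)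
      have : ∀ᵐ x ∂μ, x ∈ L := by
        rw [ae_iff]
        exact hμ
      filter_upwards [this] with x hx
      exact hb x hx
    simpa using k
  rw [integral_add i1r i2, i3] at i4
  linarith

/-- representing measures, zero area -/
theorem meas_zero {n : ℕ} {a : ℂ} {t : PE n} (μ : Measure (PE n))
    (hi : ∀ j, Integrable (fun x => ‖(fam a n x).coeff j - (fam a n t).coeff j‖ ^ 2) μ)
    (h0 : ∀ j, ∫ x, ‖(fam a n x).coeff j - (fam a n t).coeff j‖ ^ 2 ∂μ ≤ 0) :
    ∀ᵐ x ∂μ, fam a n x = fam a n t := by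
  have h1 : ∀ j, ∀ᵐ x ∂μ, (fam a n x).coeff j = (fam a n t).coeff j := by
    intro j
    have h2 : ∫ x, ‖(fam a n x).coeff j - (fam a n t).coeff j‖ ^ 2 ∂μ = 0 :=
      le_antisymm (h0 j) (integral_nonneg fun x => by positivity)
    rw [integral_eq_zero_iff_of_nonneg (fun x => by positivity) (hi j)] at h2
    filter_upwards [h2] with x hx
    simp only [Pi.zero_apply, ne_eq, OfNat.ofNat_ne_zero, not_false_eq_true, pow_eq_zero_iff,
      norm_eq_zero] at hx
    exact sub_eq_zero.mp hx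
  filter_upwards [ae_all_iff.mpr h1] with x hx
  exact Polynomial.ext hx

/-- circles in analytic discs -/
theorem disc {n : ℕ} {a : ℂ} {t : PE n} {Ω : Set (PE n)} {h : PE n → ℂ} {A : ℝ} {j : ℕ}
    (hd : DifferentiableOn ℂ h Ω) (h0 : h t = 0) {x : ℂ → PE n}
    (hx : DifferentiableOn ℂ x (ball 0 1)) (hx0 : x 0 = t) (hxΩ : ∀ s ∈ ball (0 : ℂ) 1, x s ∈ Ω)
    (hb : ∀ s ∈ ball (0 : ℂ) 1,
      (h (x s)).re + ‖(fam a n (x s)).coeff j - (fam a n t).coeff j‖ ^ 2 ≤ A)
    {r : ℝ} (hr0 : 0 < r) (hr : r < 1) :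
    circleAverage (fun s => ‖(fam a n (x s)).coeff j - (fam a n t).coeff j‖ ^ 2) 0 r ≤ A := by
  have hsub : closedBall (0 : ℂ) r ⊆ ball 0 1 := closedBall_subset_ball hr
  have hsph : sphere (0 : ℂ) |r| ⊆ ball 0 1 := by
    rw [abs_of_pos hr0]
    exact sphere_subset_closedBall.trans hsub
  have d1 : DifferentiableOn ℂ (fun s => h (x s)) (ball 0 1) := hd.comp hx hxΩ
  have d2 : DiffContOnCl ℂ (fun s => h (x s)) (ball 0 |r|) := by
    apply DifferentiableOn.diffContOnCl
    rw [abs_of_pos hr0, closure_ball _ hr0.ne']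
    exact d1.mono hsub
  have e1 : circleAverage (fun s => h (x s)) 0 r = 0 := by
    rw [d2.circleAverage, hx0, h0]
  have c1 : CircleIntegrable (fun s => h (x s)) 0 r :=
    (d1.continuousOn.mono hsph).circleIntegrable'
  have c1' : CircleIntegrable (fun s => (h (x s)).re) 0 r :=
    (Complex.continuous_re.comp_continuousOn (d1.continuousOn.mono hsph)).circleIntegrable'
  have c2 : CircleIntegrable (fun s => ‖(fam a n (x s)).coeff j - (fam a n t).coeff j‖ ^ 2) 0 r := by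
    apply ContinuousOn.circleIntegrable'
    have : ContinuousOn (fun s => (fam a n (x s)).coeff j) (ball 0 1) :=
      (coeff_diff a n j).continuous.comp_continuousOn hx.continuousOn
    exact (((this.mono hsph).sub continuousOn_const).norm).pow 2
  have e2 : circleAverage (fun s => (h (x s)).re) 0 r = 0 := by
    have := ContinuousLinearMap.circleAverage_comp_comm Complex.reCLM c1
    have e : circleAverage (fun s => (h (x s)).re) 0 r =
      (circleAverage (fun s => h (x s)) 0 r).re := this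
    rw [e, e1]
    rfl
  have e3 : circleAverage (fun s => (h (x s)).re +
      ‖(fam a n (x s)).coeff j - (fam a n t).coeff j‖ ^ 2) 0 r ≤ A := by
    apply circleAverage_mono_on_of_le_circle (c1'.add c2)
    intro s hs
    exact hb s (hsph hs)
  rw [circleAverage_fun_add c1' c2, e2] at e3
  linarith

end Pool.Agent.X85.Pk
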