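import Pool.Agent.TH705.SM.Corr

set_option autoImplicit false

/-!
# Correlations of the standard map: rate for product observables
-/

open Real MeasureTheory Function

namespace Pool.Agent.X85.SMix

open Pool.Agent.TH705.SM

/-- product observables: `F(x, y) = g(x) H(y)` -/
def PO (V : ℝ) (F : T2 → ℝ) : Prop :=
  ∃ (g : UnitAddCircle → ℝ) (H : ℝ → ℝ), Continuous g ∧ (∀ x, |g x| ≤ 1) ∧ ContDiff ℝ 1 H ∧
    Periodic H 1 ∧ (∀ y, |H y| ≤ 1) ∧ (∫ y in (0:ℝ)..1, |deriv H y|) ≤ V ∧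
    ∀ (x : UnitAddCircle) (y : ℝ), F (x, (y : UnitAddCircle)) = g x * H y

/-- derivative of a periodic function -/
theorem dper {f f' : ℝ → ℝ} (d : ∀ x, HasDerivAt f (f' x) x) (p : Periodic f 1) :
    Periodic f' 1 := by
  intro x
  have h1 : HasDerivAt (fun y => f (y + 1)) (f' (x + 1)) x := (d (x + 1)).comp_add_const x 1
  have h2 : (fun y => f (y + 1)) = f := funext p
  rw [h2] at h1
  exact h1.unique (d x)

theorem int_fst {g : UnitAddCircle → ℝ} {h : UnitAddCircle → ℝ} :
    ∫ p : T2, g p.1 * h p.2 = (∫ x, g x) * ∫ y, h y :=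
  integral_prod_mul g h

theorem abs_int_le {g : UnitAddCircle → ℝ} (h : ∀ x, |g x| ≤ 1) : |∫ x, g x| ≤ 1 := by
  have := norm_integral_le_of_norm_le_const (μ := (volume : Measure UnitAddCircle)) (f := g)
    (C := 1) (Filter.Eventually.of_forall fun x => by rw [norm_eq_abs]; exact h x)
  simpa using this

theorem abs_int_le2 {g : T2 → ℝ} (h : ∀ x, |g x| ≤ 1) : |∫ x, g x| ≤ 1 := by
  have := norm_integral_le_of_norm_le_const (μ := (volume : Measure T2)) (f := g)
    (C := 1) (Filter.Eventually.of_forall fun x => by rw [norm_eq_abs]; exact h x)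
  simpa using this

/-- the error -/
noncomputable def er (a l : ℝ) (m : ℕ) (V : ℝ) : ℝ :=
  208 * KK * π ^ 2 / l + 4 / l * (2 * V) + 2 * m * (l / |a|)

theorem cor_l {a l : ℝ} (hl' : l0 ≤ l) (hla : l ≤ |a|) {n : ℕ} (hn : 3 ≤ n) {V : ℝ} {F G : T2 → ℝ}
    (hF : PO V F) (hG : PO V G) :
    |(∫ p : T2, F ((S a)^[n] p) * G p) - (∫ p, F p) * ∫ p, G p| ≤ 2 * er a l n V := by
  obtain ⟨m, rfl⟩ := Nat.exists_eq_add_of_le' hn
  obtain ⟨g, H, hg, hg1, hH, hHp, hH1, hHV, hFe⟩ := hF
  obtain ⟨g2, H2, hg2, hg21, hH2, hH2p, hH21, hH2V, hGe⟩ := hG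
  have hl : 16 ≤ l := l0_ge.trans hl'
  have hl0 : 0 < l := by linarith
  have ha : 0 < |a| := by linarith
  have hV : 0 ≤ V := le_trans (intervalIntegral.integral_nonneg zero_le_one
    fun _ _ => abs_nonneg _) hHV
  have d1 : ∀ x, HasDerivAt H (deriv H x) x := fun x => (hH.differentiable one_ne_zero x).hasDerivAt
  have d2 : ∀ x, HasDerivAt H2 (deriv H2 x) x :=
    fun x => (hH2.differentiable one_ne_zero x).hasDerivAt
  have hlc := lift_cont hHp hH.continuous
  have hlc2 := lift_cont hH2p hH2.continuous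
  have hFf : F = fun p => g p.1 * hHp.lift p.2 := by
    funext p
    obtain ⟨x, y⟩ := p
    obtain ⟨y', rfl⟩ := QuotientAddGroup.mk_surjective y
    have := hFe x y'
    rw [show ((QuotientAddGroup.mk y' : UnitAddCircle)) = (y' : UnitAddCircle) from rfl, this,
      hHp.lift_coe]
  have hGf : G = fun p => g2 p.1 * hH2p.lift p.2 := by
    funext p
    obtain ⟨x, y⟩ := p
    obtain ⟨y', rfl⟩ := QuotientAddGroup.mk_surjective y
    have := hGe x y'
    rw [show ((QuotientAddGroup.mk y' : UnitAddCircle)) = (y' : UnitAddCircle) from rfl, this,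
      hH2p.lift_coe]
  have hb1 : ∀ y, |hHp.lift y| ≤ 1 := by
    intro y
    obtain ⟨y', rfl⟩ := QuotientAddGroup.mk_surjective y
    exact hH1 y'
  have hGb : ∀ p, |G p| ≤ 1 := by
    intro p
    obtain ⟨x, y⟩ := p
    obtain ⟨y', rfl⟩ := QuotientAddGroup.mk_surjective y
    have := hGe x y'
    rw [show ((QuotientAddGroup.mk y' : UnitAddCircle)) = (y' : UnitAddCircle) from rfl, this,
      abs_mul]
    exact mul_le_one₀ (hg21 _) (abs_nonneg _) (hH21 _)
  have hFc : Continuous F := by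
    rw [hFf]; exact (hg.comp continuous_fst).mul (hlc.comp continuous_snd)
  have hGc : Continuous G := by
    rw [hGf]; exact (hg2.comp continuous_fst).mul (hlc2.comp continuous_snd)
  have hkk : 0 ≤ KK := by
    have := KK_one
    linarith
  -- first application
  have A1 := corr hl' hla (m := m + 2) (by omega) hg hg2 hg1 hg21 d1 (hH.continuous_deriv le_rfl)
    hHp (dper d1 hHp) hH1 d2 (hH2.continuous_deriv le_rfl) hH2p (dper d2 hH2p) hH21
  -- second application
  have A2 := corr hl' hla (m := m + 1) (by omega) hlc hg2 hb1 hg21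
    (H1 := fun _ => 1) (H1' := fun _ => 0) (fun x => hasDerivAt_const x 1) continuous_const
    (fun _ => rfl) (fun _ => rfl) (fun _ => by simp) d2 (hH2.continuous_deriv le_rfl) hH2p
    (dper d2 hH2p) hH21
  have hS := S_cont a
  have e1 : (∫ p : T2, F ((S a)^[m + 3] p) * G p) - (∫ p, F p) * ∫ p, G p =
      (∫ p : T2, (g (((S a)^[m + 2 + 1] p).1) - ∫ x, g x) * hHp.lift (((S a)^[m + 2 + 1] p).2) *
        (g2 p.1 * hH2p.lift p.2)) + (∫ x, g x) *
      (∫ p : T2, (hHp.lift (((S a)^[m + 1 + 1] p).1) - ∫ y, hHp.lift y) * 1 *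
        (g2 p.1 * hH2p.lift p.2)) := by
    have k0 : ∫ p, F p = (∫ x, g x) * ∫ y, hHp.lift y := by
      rw [hFf]; exact int_fst
    have it1 := hS.iterate (m + 3)
    have it2 := hS.iterate (m + 2)
    have c1 : Continuous (fun p : T2 => (g (((S a)^[m + 2 + 1] p).1) - ∫ x, g x) *
        hHp.lift (((S a)^[m + 2 + 1] p).2) * (g2 p.1 * hH2p.lift p.2)) :=
      (((hg.comp (continuous_fst.comp it1)).sub continuous_const).mul
        (hlc.comp (continuous_snd.comp it1))).mul
        ((hg2.comp continuous_fst).mul (hlc2.comp continuous_snd))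
    have c2 : Continuous (fun p : T2 => (hHp.lift (((S a)^[m + 1 + 1] p).1) - ∫ y, hHp.lift y) * 1 *
        (g2 p.1 * hH2p.lift p.2)) :=
      (((hlc.comp (continuous_fst.comp it2)).sub continuous_const).mul continuous_const).mul
        ((hg2.comp continuous_fst).mul (hlc2.comp continuous_snd))
    obtain ⟨gb, hgb⟩ : ∃ gb : ℝ, gb = ∫ x, g x := ⟨_, rfl⟩
    obtain ⟨hb, hhb⟩ : ∃ hb : ℝ, hb = ∫ y, hHp.lift y := ⟨_, rfl⟩
    rw [← hgb] at c1 ⊢
    rw [← hhb] at c2 ⊢
    rw [k0, ← hgb, ← hhb]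
    obtain ⟨u, hu⟩ : ∃ u : T2 → ℝ, u = fun p => (g (((S a)^[m + 2 + 1] p).1) - gb) *
        hHp.lift (((S a)^[m + 2 + 1] p).2) * (g2 p.1 * hH2p.lift p.2) := ⟨_, rfl⟩
    obtain ⟨w, hw⟩ : ∃ w : T2 → ℝ, w = fun p => (hHp.lift (((S a)^[m + 1 + 1] p).1) - hb) * 1 *
        (g2 p.1 * hH2p.lift p.2) := ⟨_, rfl⟩
    rw [← hu] at c1
    rw [← hw] at c2
    have eu : ∀ p, (g (((S a)^[m + 2 + 1] p).1) - gb) *
        hHp.lift (((S a)^[m + 2 + 1] p).2) * (g2 p.1 * hH2p.lift p.2) = u p := fun p => by rw [hu]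
    have ew : ∀ p, (hHp.lift (((S a)^[m + 1 + 1] p).1) - hb) * 1 *
        (g2 p.1 * hH2p.lift p.2) = w p := fun p => by rw [hw]
    simp_rw [eu, ew]
    have e0 : (∫ p : T2, F ((S a)^[m + 3] p) * G p) = ∫ p : T2,
        (u p + (gb * w p + (gb * hb) * G p)) := by
      apply integral_congr_ae
      refine Filter.Eventually.of_forall fun p => ?_
      simp only
      have k1 : ((S a)^[m + 2 + 1] p).2 = ((S a)^[m + 1 + 1] p).1 := by
        rw [iterate_succ_apply']
        rfl
      rw [hFf, hGf, hu, hw]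
      simp only
      rw [show m + 3 = m + 2 + 1 by rfl, k1]
      ring
    have i1 : Integrable (fun p : T2 => gb * w p) := (integrable_cont c2).const_mul gb
    have i2 : Integrable (fun p : T2 => (gb * hb) * G p) := (integrable_cont hGc).const_mul _
    have i3 : Integrable (fun p : T2 => gb * w p + (gb * hb) * G p) := i1.add i2
    rw [e0, integral_add (integrable_cont c1) i3, integral_add i1 i2, integral_const_mul,
      integral_const_mul]
    ring
  rw [e1]
  have hI := abs_int_le hg1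
  refine (abs_add_le _ _).trans ?_
  rw [abs_mul]
  have k2 : ∫ x in (0:ℝ)..1, |(0:ℝ)| = 0 := by simp
  have A2' : |∫ p : T2, (hHp.lift (((S a)^[m + 1 + 1] p).1) - ∫ y, hHp.lift y) * 1 *
        (g2 p.1 * hH2p.lift p.2)| ≤
      208 * KK * π ^ 2 / l + 4 / l * (0 + ∫ x in (0:ℝ)..1, |deriv H2 x|) +
        2 * ((m + 1 : ℕ) : ℝ) * (l / |a|) := by
    have h3 : ∀ y, (Periodic.lift (f := fun _ : ℝ => (1:ℝ)) (c := 1) (fun _ => rfl)) y = 1 := by
      intro y
      obtain ⟨y', rfl⟩ := QuotientAddGroup.mk_surjective y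
      rfl
    simp only [h3, k2] at A2
    exact A2
  have q0 : 0 ≤ 4 / l := by positivity
  have q1 : 0 ≤ l / |a| := by positivity
  have m1 : (m : ℝ) ≤ ((m + 3 : ℕ) : ℝ) := by push_cast; linarith
  have f1 : 208 * KK * π ^ 2 / l + 4 / l * ((∫ x in (0:ℝ)..1, |deriv H x|) +
      ∫ x in (0:ℝ)..1, |deriv H2 x|) + 2 * ((m + 2 : ℕ) : ℝ) * (l / |a|) ≤ er a l (m + 3) V := by
    unfold er
    gcongr
    · linarith
    · omega
  have f2 : 208 * KK * π ^ 2 / l + 4 / l * (0 + ∫ x in (0:ℝ)..1, |deriv H2 x|) +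
        2 * ((m + 1 : ℕ) : ℝ) * (l / |a|) ≤ er a l (m + 3) V := by
    unfold er
    gcongr
    · linarith
    · omega
  have f3 : 0 ≤ er a l (m + 3) V := by
    unfold er
    positivity
  calc _ ≤ er a l (m + 3) V + 1 * er a l (m + 3) V := by
        gcongr
        · exact A1.trans f1
        · exact A2'.trans f2
    _ = _ := by ring

/-- **rate** for product observables -/
theorem cor_rate : ∃ C : ℝ, 0 < C ∧ ∀ a : ℝ, 1 ≤ |a| → ∀ n : ℕ, 3 ≤ n → ∀ (V : ℝ) (F G : T2 → ℝ),
    PO V F → PO V G →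
    |(∫ p : T2, F ((S a)^[n] p) * G p) - (∫ p, F p) * ∫ p, G p| ≤ C * (1 + V) * √(n / |a|) := by
  have hkk : 0 ≤ KK := by
    have := KK_one
    linarith
  have hl00 := l0_ge
  have hl0 : 0 < l0 := by linarith
  refine ⟨416 * KK * π ^ 2 + 20 + 2 * l0, by positivity, ?_⟩
  intro a ha n hn V F G hF hG
  have hV : 0 ≤ V := by
    obtain ⟨g, H, -, -, -, -, -, h, -⟩ := hF
    exact le_trans (intervalIntegral.integral_nonneg zero_le_one fun _ _ => abs_nonneg _) h
  have ha0 : 0 < |a| := by linarith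
  have hn0 : (0 : ℝ) < n := by
    have : (3 : ℝ) ≤ n := by exact_mod_cast hn
    linarith
  have hb : ∀ K : T2 → ℝ, PO V K → (∀ p, |K p| ≤ 1) := by
    intro K hK p
    obtain ⟨g, H, hg, hg1, hH, hHp, hH1, hHV, hFe⟩ := hK
    obtain ⟨x, y⟩ := p
    obtain ⟨y', rfl⟩ := QuotientAddGroup.mk_surjective y
    have := hFe x y'
    rw [show ((QuotientAddGroup.mk y' : UnitAddCircle)) = (y' : UnitAddCircle) from rfl, this,
      abs_mul]
    exact mul_le_one₀ (hg1 _) (abs_nonneg _) (hH1 _)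
  set r : ℝ := √(n / |a|) with hr
  have hr0 : 0 < r := Real.sqrt_pos.2 (by positivity)
  by_cases hc : l0 ≤ 1 / r
  · have hrr : r ^ 2 = n / |a| := Real.sq_sqrt (by positivity)
    have hla : 1 / r ≤ |a| := by
      rw [div_le_iff₀ hr0]
      have h1 : r ≤ 1 := by
        have : 16 ≤ 1 / r := by linarith
        rw [le_div_iff₀ hr0] at this
        linarith
      have h2 : |a| * r ^ 2 = n := by rw [hrr]; field_simp
      have h3 : (3 : ℝ) ≤ n := by exact_mod_cast hn
      have h4 : |a| * r ^ 2 ≤ |a| * r := by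
        apply mul_le_mul_of_nonneg_left _ ha0.le
        nlinarith
      linarith
    refine (cor_l hc hla hn hF hG).trans ?_
    unfold er
    have e1 : 2 * (n : ℝ) * (1 / r / |a|) = 2 * r := by
      have : (n : ℝ) / |a| = r * r := by rw [← hrr]; ring
      calc 2 * (n : ℝ) * (1 / r / |a|) = 2 * (n / |a|) / r := by ring
        _ = 2 * r := by rw [this]; field_simp
    rw [e1]
    have e2 : 208 * KK * π ^ 2 / (1 / r) = 208 * KK * π ^ 2 * r := by
      rw [div_div_eq_mul_div]; ring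
    have e3 : 4 / (1 / r) * (2 * V) = 8 * V * r := by
      rw [div_div_eq_mul_div]; ring
    rw [e2, e3]
    have hp : 0 ≤ KK * π ^ 2 := by positivity
    have : 2 * (208 * KK * π ^ 2 * r + 8 * V * r + 2 * r) = (416 * (KK * π ^ 2) + 16 * V + 4) * r := by
      ring
    rw [this]
    apply mul_le_mul_of_nonneg_right _ hr0.le
    nlinarith [mul_nonneg hp hV, mul_nonneg hl0.le hV]
  · push Not at hc
    have h1 : 1 ≤ l0 * r := by
      rw [div_lt_iff₀ hr0] at hc
      exact hc.le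
    have h2 : |(∫ p : T2, F ((S a)^[n] p) * G p) - (∫ p, F p) * ∫ p, G p| ≤ 2 := by
      refine (abs_sub _ _).trans ?_
      rw [abs_mul]
      have i1 := abs_int_le2 (g := fun p => F ((S a)^[n] p) * G p) (fun p => by
        rw [abs_mul]
        exact mul_le_one₀ (hb F hF _) (abs_nonneg _) (hb G hG _))
      have i2 := abs_int_le2 (hb F hF)
      have i3 := abs_int_le2 (hb G hG)
      have i4 := abs_nonneg (∫ p, G p)
      have i5 := abs_nonneg (∫ p, F p)
      nlinarith
    refine h2.trans ?_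
    have hp : 0 ≤ KK * π ^ 2 := by positivity
    have h3 : 2 ≤ (2 * l0) * 1 * r := by nlinarith
    refine h3.trans ?_
    gcongr
    · nlinarith
    · linarith

end Pool.Agent.X85.SMix
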