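import Pool.Agent.X85.SMa

set_option autoImplicit false

/-!
# Asymptotic mixing of the standard map on `L²`
-/

open Real MeasureTheory Function Filter Topology

namespace Pool.Agent.X85.SMix

open Pool.Agent.TH705.SM

/-- convergence to zero of equi-Lipschitz functionals is a closed condition -/
theorem closed_aux {E : Type*} [NormedAddCommGroup E] (φ : ℕ → E → ℝ) (K : ℝ)
    (h : ∀ j x y, |φ j x - φ j y| ≤ K * ‖x - y‖) :
    IsClosed {x | Tendsto (fun j => φ j x) atTop (𝓝 0)} := by
  rw [← closure_subset_iff_isClosed]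
  intro x hx
  rw [Metric.mem_closure_iff] at hx
  show Tendsto (fun j => φ j x) atTop (𝓝 0)
  rw [Metric.tendsto_atTop]
  intro ε hε
  obtain ⟨y, hy, hxy⟩ := hx (ε / (2 * (|K| + 1))) (by positivity)
  have hy' : Tendsto (fun j => φ j y) atTop (𝓝 0) := hy
  obtain ⟨N, hN⟩ := (Metric.tendsto_atTop.1 hy') (ε / 2) (by positivity)
  refine ⟨N, fun j hj => ?_⟩
  have h1 := hN j hj
  rw [Real.dist_eq, sub_zero] at h1 ⊢
  have h2 := h j x y
  rw [dist_eq_norm] at hxy
  have h3 : K * ‖x - y‖ ≤ (|K| + 1) * ‖x - y‖ := by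
    apply mul_le_mul_of_nonneg_right _ (norm_nonneg _)
    linarith [le_abs_self K]
  have h4 : (|K| + 1) * ‖x - y‖ < ε / 2 := by
    have hK : 0 < |K| + 1 := by positivity
    have := mul_lt_mul_of_pos_left hxy hK
    calc _ < (|K| + 1) * (ε / (2 * (|K| + 1))) := this
      _ = ε / 2 := by field_simp
  calc |φ j x| = |(φ j x - φ j y) + φ j y| := by ring_nf
    _ ≤ |φ j x - φ j y| + |φ j y| := abs_add_le _ _
    _ < ε := by linarith

/-- product observables as continuous functions -/
def SS : Set C(T2, ℝ) := {f | ∃ V : ℝ, PO V f}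

theorem PO_mono {V W : ℝ} (h : V ≤ W) {F : T2 → ℝ} (hF : PO V F) : PO W F := by
  obtain ⟨g, H, h1, h2, h3, h4, h5, h6, h7⟩ := hF
  exact ⟨g, H, h1, h2, h3, h4, h5, h6.trans h, h7⟩

theorem SS_one : (1 : C(T2, ℝ)) ∈ SS := by
  refine ⟨0, fun _ => 1, fun _ => 1, continuous_const, fun _ => by simp, contDiff_const,
    fun _ => rfl, fun _ => by simp, by simp, fun _ _ => by simp⟩

theorem SS_mul {f g : C(T2, ℝ)} (hf : f ∈ SS) (hg : g ∈ SS) : f * g ∈ SS := by
  obtain ⟨V, u, H, h1, h2, h3, h4, h5, h6, h7⟩ := hf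
  obtain ⟨W, v, K, k1, k2, k3, k4, k5, k6, k7⟩ := hg
  refine ⟨∫ y in (0:ℝ)..1, |deriv (fun y => H y * K y) y|, fun x => u x * v x,
    fun y => H y * K y, h1.mul k1, fun x => ?_, h3.mul k3, fun y => ?_, fun y => ?_, le_rfl,
    fun x y => ?_⟩
  · rw [abs_mul]
    exact mul_le_one₀ (h2 _) (abs_nonneg _) (k2 _)
  · simp only
    rw [h4, k4]
  · rw [abs_mul]
    exact mul_le_one₀ (h5 _) (abs_nonneg _) (k5 _)
  · show f (x, y) * g (x, y) = _
    rw [h7, k7]
    ring

/-- the cosine and the sine on the circle -/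
noncomputable def cs (x : UnitAddCircle) : ℂ := (AddCircle.toCircle x : ℂ)

theorem cs_cont : Continuous cs := by
  unfold cs
  exact continuous_induced_dom.comp AddCircle.continuous_toCircle

theorem cs_inj : Injective cs := by
  intro x y h
  exact AddCircle.injective_toCircle one_ne_zero (Subtype.ext h)

theorem cs_coe (y : ℝ) : cs (y : UnitAddCircle) = Complex.exp (2 * π * y * Complex.I) := by
  unfold cs
  rw [AddCircle.toCircle_apply_mk]
  simp [Circle.coe_exp]

theorem cs_re (y : ℝ) : (cs (y : UnitAddCircle)).re = cos (2 * π * y) := by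
  rw [cs_coe, show (2 * (π : ℂ) * y * Complex.I) = ((2 * π * y : ℝ) : ℂ) * Complex.I by push_cast; ring,
    Complex.exp_ofReal_mul_I_re]

theorem cs_im (y : ℝ) : (cs (y : UnitAddCircle)).im = sin (2 * π * y) := by
  rw [cs_coe, show (2 * (π : ℂ) * y * Complex.I) = ((2 * π * y : ℝ) : ℂ) * Complex.I by push_cast; ring,
    Complex.exp_ofReal_mul_I_im]

theorem SS_first {g : UnitAddCircle → ℝ} (hg : Continuous g) (h1 : ∀ x, |g x| ≤ 1) :
    (⟨fun p => g p.1, hg.comp continuous_fst⟩ : C(T2, ℝ)) ∈ SS :=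
  ⟨0, g, fun _ => 1, hg, h1, contDiff_const, fun _ => rfl, fun _ => by simp, by simp,
    fun _ _ => by simp⟩

theorem SS_second {H : ℝ → ℝ} {k : UnitAddCircle → ℝ} (hk : Continuous k)
    (hkH : ∀ y : ℝ, k (y : UnitAddCircle) = H y) (h1 : ∀ x, |H x| ≤ 1) (hH : ContDiff ℝ 1 H)
    (hp : Periodic H 1) :
    (⟨fun p => k p.2, hk.comp continuous_snd⟩ : C(T2, ℝ)) ∈ SS :=
  ⟨_, fun _ => 1, H, continuous_const, fun _ => by simp, hH, hp, h1, le_rfl,
    fun _ y => by simp [hkH]⟩

theorem cos_per : Periodic (fun y : ℝ => cos (2 * π * y)) 1 := by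
  intro y
  show cos (2 * π * (y + 1)) = cos (2 * π * y)
  rw [mul_add, mul_one, cos_add_two_pi]

theorem sin_per : Periodic (fun y : ℝ => sin (2 * π * y)) 1 := by
  intro y
  show sin (2 * π * (y + 1)) = sin (2 * π * y)
  rw [mul_add, mul_one, sin_add_two_pi]

theorem cs_norm (x : UnitAddCircle) : ‖cs x‖ = 1 := Circle.norm_coe _

theorem sep : (Algebra.adjoin ℝ SS : Subalgebra ℝ C(T2, ℝ)).SeparatesPoints := by
  intro p q hpq
  have hsub : ∀ f ∈ SS, f p ≠ f q → ∃ f ∈ (fun f : C(T2, ℝ) => (f : T2 → ℝ)) ''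
      ((Algebra.adjoin ℝ SS : Subalgebra ℝ C(T2, ℝ)) : Set C(T2, ℝ)), f p ≠ f q := by
    intro f hf h
    exact ⟨f, ⟨f, Algebra.subset_adjoin hf, rfl⟩, h⟩
  by_cases h1 : p.1 = q.1
  · have h2 : p.2 ≠ q.2 := fun h => hpq (Prod.ext h1 h)
    have h3 : cs p.2 ≠ cs q.2 := fun h => h2 (cs_inj h)
    by_cases hre : (cs p.2).re = (cs q.2).re
    · have him : (cs p.2).im ≠ (cs q.2).im := fun h => h3 (Complex.ext hre h)
      exact hsub _ (SS_second (k := fun y => (cs y).im) (Complex.continuous_im.comp cs_cont)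
        cs_im (fun x => abs_sin_le_one _) (by fun_prop) sin_per) him
    · exact hsub _ (SS_second (k := fun y => (cs y).re) (Complex.continuous_re.comp cs_cont)
        cs_re (fun x => abs_cos_le_one _) (by fun_prop) cos_per) hre
  · have h3 : cs p.1 ≠ cs q.1 := fun h => h1 (cs_inj h)
    by_cases hre : (cs p.1).re = (cs q.1).re
    · have him : (cs p.1).im ≠ (cs q.1).im := fun h => h3 (Complex.ext hre h)
      exact hsub _ (SS_first (g := fun y => (cs y).im) (Complex.continuous_im.comp cs_cont)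
        (fun x => by rw [← cs_norm x]; exact Complex.abs_im_le_norm _)) him
    · exact hsub _ (SS_first (g := fun y => (cs y).re) (Complex.continuous_re.comp cs_cont)
        (fun x => by rw [← cs_norm x]; exact Complex.abs_re_le_norm _)) hre

theorem dense_C : (Algebra.adjoin ℝ SS : Subalgebra ℝ C(T2, ℝ)).topologicalClosure = ⊤ :=
  ContinuousMap.subalgebra_topologicalClosure_eq_top_of_separatesPoints _ sep

theorem adj_span (f : C(T2, ℝ)) (hf : f ∈ Algebra.adjoin ℝ SS) : f ∈ Submodule.span ℝ SS := by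
  have h1 : f ∈ Subalgebra.toSubmodule (Algebra.adjoin ℝ SS) := hf
  rw [Algebra.adjoin_eq_span] at h1
  have h2 : (Submonoid.closure SS : Set C(T2, ℝ)) ⊆ SS := by
    intro g hg
    induction hg using Submonoid.closure_induction with
    | mem x hx => exact hx
    | one => exact SS_one
    | mul x y _ _ hx hy => exact SS_mul hx hy
  exact Submodule.span_mono h2 h1

/-- the correlations -/
noncomputable def cor (a : ℝ) (n : ℕ) (F G : T2 → ℝ) : ℝ :=
  (∫ p : T2, F ((S a)^[n] p) * G p) - (∫ p, F p) * ∫ p, G p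

theorem cor_add_left (a : ℝ) (n : ℕ) (F F' G : C(T2, ℝ)) :
    cor a n (F + F' : C(T2, ℝ)) G = cor a n F G + cor a n F' G := by
  unfold cor
  have hS := (S_cont a).iterate n
  have i1 : Integrable (fun p : T2 => F ((S a)^[n] p) * G p) :=
    integrable_cont ((F.continuous.comp hS).mul G.continuous)
  have i2 : Integrable (fun p : T2 => F' ((S a)^[n] p) * G p) :=
    integrable_cont ((F'.continuous.comp hS).mul G.continuous)
  have e1 : (∫ p : T2, (F + F' : C(T2, ℝ)) ((S a)^[n] p) * G p) =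
      (∫ p : T2, F ((S a)^[n] p) * G p) + ∫ p : T2, F' ((S a)^[n] p) * G p := by
    rw [← integral_add i1 i2]
    apply integral_congr_ae
    refine Filter.Eventually.of_forall fun p => ?_
    simp only [ContinuousMap.add_apply]
    ring
  have e2 : (∫ p : T2, (F + F' : C(T2, ℝ)) p) = (∫ p : T2, F p) + ∫ p : T2, F' p := by
    rw [← integral_add (integrable_cont F.continuous) (integrable_cont F'.continuous)]
    rfl
  rw [e1, e2]
  ring

theorem cor_add_right (a : ℝ) (n : ℕ) (F G G' : C(T2, ℝ)) :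
    cor a n F (G + G' : C(T2, ℝ)) = cor a n F G + cor a n F G' := by
  unfold cor
  have hS := (S_cont a).iterate n
  have i1 : Integrable (fun p : T2 => F ((S a)^[n] p) * G p) :=
    integrable_cont ((F.continuous.comp hS).mul G.continuous)
  have i2 : Integrable (fun p : T2 => F ((S a)^[n] p) * G' p) :=
    integrable_cont ((F.continuous.comp hS).mul G'.continuous)
  have e1 : (∫ p : T2, F ((S a)^[n] p) * (G + G' : C(T2, ℝ)) p) =
      (∫ p : T2, F ((S a)^[n] p) * G p) + ∫ p : T2, F ((S a)^[n] p) * G' p := by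
    rw [← integral_add i1 i2]
    apply integral_congr_ae
    refine Filter.Eventually.of_forall fun p => ?_
    simp only [ContinuousMap.add_apply]
    ring
  have e2 : (∫ p : T2, (G + G' : C(T2, ℝ)) p) = (∫ p : T2, G p) + ∫ p : T2, G' p := by
    rw [← integral_add (integrable_cont G.continuous) (integrable_cont G'.continuous)]
    rfl
  rw [e1, e2]
  ring

theorem cor_smul_left (a : ℝ) (n : ℕ) (c : ℝ) (F G : C(T2, ℝ)) :
    cor a n (c • F : C(T2, ℝ)) G = c * cor a n F G := by
  unfold cor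
  have e1 : (∫ p : T2, (c • F : C(T2, ℝ)) ((S a)^[n] p) * G p) =
      c * ∫ p : T2, F ((S a)^[n] p) * G p := by
    rw [← integral_const_mul]
    apply integral_congr_ae
    refine Filter.Eventually.of_forall fun p => ?_
    simp only [ContinuousMap.smul_apply, smul_eq_mul]
    ring
  have e2 : (∫ p : T2, (c • F : C(T2, ℝ)) p) = c * ∫ p : T2, F p := by
    rw [← integral_const_mul]
    rfl
  rw [e1, e2]
  ring

theorem cor_smul_right (a : ℝ) (n : ℕ) (c : ℝ) (F G : C(T2, ℝ)) :
    cor a n F (c • G : C(T2, ℝ)) = c * cor a n F G := by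
  unfold cor
  have e1 : (∫ p : T2, F ((S a)^[n] p) * (c • G : C(T2, ℝ)) p) =
      c * ∫ p : T2, F ((S a)^[n] p) * G p := by
    rw [← integral_const_mul]
    apply integral_congr_ae
    refine Filter.Eventually.of_forall fun p => ?_
    simp only [ContinuousMap.smul_apply, smul_eq_mul]
    ring
  have e2 : (∫ p : T2, (c • G : C(T2, ℝ)) p) = c * ∫ p : T2, G p := by
    rw [← integral_const_mul]
    rfl
  rw [e1, e2]
  ring

section Seq

variable {a : ℕ → ℝ} {n : ℕ → ℕ}

theorem tend_SS (ha : ∀ᶠ j in atTop, 1 ≤ |a j|) (hn : ∀ j, 3 ≤ n j)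
    (hr : Tendsto (fun j => √(n j / |a j|)) atTop (𝓝 0)) {f g : C(T2, ℝ)} (hf : f ∈ SS)
    (hg : g ∈ SS) : Tendsto (fun j => cor (a j) (n j) f g) atTop (𝓝 0) := by
  obtain ⟨C, hC, H⟩ := cor_rate
  obtain ⟨V, hV⟩ := hf
  obtain ⟨W, hW⟩ := hg
  have h1 : Tendsto (fun j => C * (1 + max V W) * √(n j / |a j|)) atTop (𝓝 0) := by
    have := hr.const_mul (C * (1 + max V W))
    rwa [mul_zero] at this
  refine squeeze_zero_norm' ?_ h1
  filter_upwards [ha] with j hj
  exact H (a j) hj (n j) (hn j) _ f g (PO_mono (le_max_left _ _) hV) (PO_mono (le_max_right _ _) hW)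

theorem tend_span (ha : ∀ᶠ j in atTop, 1 ≤ |a j|) (hn : ∀ j, 3 ≤ n j)
    (hr : Tendsto (fun j => √(n j / |a j|)) atTop (𝓝 0)) {f g : C(T2, ℝ)}
    (hf : f ∈ Submodule.span ℝ SS) (hg : g ∈ Submodule.span ℝ SS) :
    Tendsto (fun j => cor (a j) (n j) f g) atTop (𝓝 0) := by
  have h1 : ∀ g ∈ SS, Tendsto (fun j => cor (a j) (n j) f g) atTop (𝓝 0) := by
    intro g hg
    induction hf using Submodule.span_induction with
    | mem x hx => exact tend_SS ha hn hr hx hg
    | zero =>
      have : ∀ j, cor (a j) (n j) ((0 : C(T2, ℝ)) : T2 → ℝ) g = 0 := by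
        intro j
        unfold cor
        simp
      simp_rw [this]
      exact tendsto_const_nhds
    | add x y _ _ hx hy =>
      have := hx.add hy
      rw [add_zero] at this
      refine this.congr fun j => ?_
      rw [cor_add_left]
    | smul c x _ hx =>
      have := hx.const_mul c
      rw [mul_zero] at this
      refine this.congr fun j => ?_
      rw [cor_smul_left]
  induction hg using Submodule.span_induction with
  | mem x hx => exact h1 x hx
  | zero =>
    have : ∀ j, cor (a j) (n j) f ((0 : C(T2, ℝ)) : T2 → ℝ) = 0 := by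
      intro j
      unfold cor
      simp
    simp_rw [this]
    exact tendsto_const_nhds
  | add x y _ _ hx hy =>
    have := hx.add hy
    rw [add_zero] at this
    refine this.congr fun j => ?_
    rw [cor_add_right]
  | smul c x _ hx =>
    have := hx.const_mul c
    rw [mul_zero] at this
    refine this.congr fun j => ?_
    rw [cor_smul_right]

end Seq

end Pool.Agent.X85.SMix
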