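import Pool.Agent.X85.SMb

set_option autoImplicit false

/-!
# Asymptotic mixing of the standard map on `L²`: the extension to all functions
-/

open Real MeasureTheory Function Filter Topology

namespace Pool.Agent.X85.SMix

open Pool.Agent.TH705.SM

/-- the Hilbert space -/
noncomputable abbrev L2T := Lp ℝ 2 (volume : Measure T2)

/-- the Koopman operator of the `n`-th iterate -/
noncomputable def KO (a : ℝ) (n : ℕ) : L2T →ₗᵢ[ℝ] L2T :=
  Lp.compMeasurePreservingₗᵢ ℝ ((S a)^[n]) (iter_mp a n)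

/-- the constant one -/
noncomputable def one2 : L2T := (memLp_const (1 : ℝ)).toLp (fun _ => 1)

theorem one2_norm : ‖one2‖ = 1 := by
  unfold one2
  rw [Lp.norm_toLp, eLpNorm_const _ (by norm_num) (NeZero.ne _)]
  simp

theorem inner_toLp {F G : T2 → ℝ} (hF : MemLp F 2 volume) (hG : MemLp G 2 volume) :
    inner ℝ (hF.toLp F) (hG.toLp G) = ∫ p, F p * G p := by
  rw [L2.inner_def]
  apply integral_congr_ae
  filter_upwards [hF.coeFn_toLp, hG.coeFn_toLp] with p h1 h2
  rw [h1, h2]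
  simp [mul_comm]

theorem KO_toLp {F : T2 → ℝ} (hF : MemLp F 2 volume) (a : ℝ) (n : ℕ) :
    KO a n (hF.toLp F) = (hF.comp_measurePreserving (iter_mp a n)).toLp (F ∘ (S a)^[n]) := by
  rfl

/-- the bilinear form -/
noncomputable def BF (a : ℝ) (n : ℕ) (F G : L2T) : ℝ :=
  inner ℝ (KO a n F) G - inner ℝ F one2 * inner ℝ G one2

theorem BF_toLp {F G : T2 → ℝ} (hF : MemLp F 2 volume) (hG : MemLp G 2 volume) (a : ℝ) (n : ℕ) :
    BF a n (hF.toLp F) (hG.toLp G) =
      (∫ p : T2, F ((S a)^[n] p) * G p) - (∫ p, F p) * ∫ p, G p := by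
  unfold BF one2
  rw [KO_toLp, inner_toLp, inner_toLp, inner_toLp]
  simp

theorem BF_left (a : ℝ) (n : ℕ) (G : L2T) (x y : L2T) :
    |BF a n x G - BF a n y G| ≤ (2 * ‖G‖) * ‖x - y‖ := by
  have h : BF a n x G - BF a n y G =
      inner ℝ (KO a n (x - y)) G - inner ℝ (x - y) one2 * inner ℝ G one2 := by
    unfold BF
    rw [map_sub, inner_sub_left, inner_sub_left]
    ring
  rw [h]
  refine (abs_sub _ _).trans ?_
  rw [abs_mul]
  have h1 := abs_real_inner_le_norm (KO a n (x - y)) G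
  rw [LinearIsometry.norm_map] at h1
  have h2 := abs_real_inner_le_norm (x - y) one2
  have h3 := abs_real_inner_le_norm G one2
  rw [one2_norm, mul_one] at h2 h3
  have h4 := mul_le_mul h2 h3 (abs_nonneg _) (norm_nonneg _)
  calc _ ≤ ‖x - y‖ * ‖G‖ + ‖x - y‖ * ‖G‖ := add_le_add h1 h4
    _ = _ := by ring

theorem BF_right (a : ℝ) (n : ℕ) (F : L2T) (x y : L2T) :
    |BF a n F x - BF a n F y| ≤ (2 * ‖F‖) * ‖x - y‖ := by
  have h : BF a n F x - BF a n F y =
      inner ℝ (KO a n F) (x - y) - inner ℝ F one2 * inner ℝ (x - y) one2 := by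
    unfold BF
    rw [inner_sub_right, inner_sub_left]
    ring
  rw [h]
  refine (abs_sub _ _).trans ?_
  rw [abs_mul]
  have h1 := abs_real_inner_le_norm (KO a n F) (x - y)
  rw [LinearIsometry.norm_map] at h1
  have h2 := abs_real_inner_le_norm (x - y) one2
  have h3 := abs_real_inner_le_norm F one2
  rw [one2_norm, mul_one] at h2 h3
  have h4 := mul_le_mul h3 h2 (abs_nonneg _) (norm_nonneg _)
  calc _ ≤ ‖F‖ * ‖x - y‖ + ‖F‖ * ‖x - y‖ := add_le_add h1 h4
    _ = _ := by ring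

/-- the dense set -/
def DD : Set L2T := (fun f : C(T2, ℝ) => ContinuousMap.toLp 2 volume ℝ f) ''
  {f | f ∈ Submodule.span ℝ SS}

theorem DD_dense : Dense DD := by
  have h1 : Dense ((Algebra.adjoin ℝ SS : Subalgebra ℝ C(T2, ℝ)) : Set C(T2, ℝ)) := by
    rw [dense_iff_closure_eq]
    have := congrArg (fun A : Subalgebra ℝ C(T2, ℝ) => (A : Set C(T2, ℝ))) dense_C
    simpa using this
  have h2 : DenseRange (ContinuousMap.toLp 2 (volume : Measure T2) ℝ : C(T2, ℝ) →L[ℝ] L2T) :=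
    ContinuousMap.toLp_denseRange ℝ (volume : Measure T2) ℝ (by norm_num)
  have h3 := h2.dense_image (ContinuousMap.toLp 2 (volume : Measure T2) ℝ).continuous h1
  refine h3.mono ?_
  rintro _ ⟨f, hf, rfl⟩
  exact ⟨f, adj_span f hf, rfl⟩

theorem toLp_eq (f : C(T2, ℝ)) : ∃ h : MemLp (f : T2 → ℝ) 2 (volume : Measure T2),
    ContinuousMap.toLp 2 volume ℝ f = h.toLp f := by
  have h : MemLp (f : T2 → ℝ) 2 (volume : Measure T2) := by
    refine MemLp.of_bound f.continuous.aestronglyMeasurable ‖f‖ ?_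
    exact Filter.Eventually.of_forall fun p => f.norm_coe_le_norm p
  refine ⟨h, ?_⟩
  apply Lp.ext
  exact (ContinuousMap.coeFn_toLp (p := 2) volume (𝕜 := ℝ) f).trans h.coeFn_toLp.symm

/-- **Asymptotic mixing.** -/
theorem mix {a : ℕ → ℝ} {n : ℕ → ℕ} (ha : ∀ᶠ j in atTop, 1 ≤ |a j|) (hn : ∀ j, 3 ≤ n j)
    (hr : Tendsto (fun j => √(n j / |a j|)) atTop (𝓝 0)) (F G : L2T) :
    Tendsto (fun j => BF (a j) (n j) F G) atTop (𝓝 0) := by
  have h1 : ∀ f ∈ DD, ∀ g ∈ DD, Tendsto (fun j => BF (a j) (n j) f g) atTop (𝓝 0) := by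
    rintro _ ⟨f, hf, rfl⟩ _ ⟨g, hg, rfl⟩
    obtain ⟨kf, ef⟩ := toLp_eq f
    obtain ⟨kg, eg⟩ := toLp_eq g
    refine (tend_span ha hn hr hf hg).congr fun j => ?_
    show _ = BF (a j) (n j) (ContinuousMap.toLp 2 volume ℝ f) (ContinuousMap.toLp 2 volume ℝ g)
    rw [ef, eg, BF_toLp]
    rfl
  have h2 : ∀ f : L2T, ∀ g ∈ DD, Tendsto (fun j => BF (a j) (n j) f g) atTop (𝓝 0) := by
    intro f g hg
    have hc : IsClosed {x : L2T | Tendsto (fun j => BF (a j) (n j) x g) atTop (𝓝 0)} :=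
      closed_aux (fun j x => BF (a j) (n j) x g) (2 * ‖g‖) (fun j x y => BF_left _ _ g x y)
    have hs : DD ⊆ {x : L2T | Tendsto (fun j => BF (a j) (n j) x g) atTop (𝓝 0)} :=
      fun x hx => h1 x hx g hg
    have := closure_minimal hs hc
    rw [DD_dense.closure_eq] at this
    exact this (Set.mem_univ f)
  have hc : IsClosed {x : L2T | Tendsto (fun j => BF (a j) (n j) F x) atTop (𝓝 0)} :=
    closed_aux (fun j x => BF (a j) (n j) F x) (2 * ‖F‖) (fun j x y => BF_right _ _ F x y)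
  have hs : DD ⊆ {x : L2T | Tendsto (fun j => BF (a j) (n j) F x) atTop (𝓝 0)} :=
    fun x hx => h2 F x hx
  have := closure_minimal hs hc
  rw [DD_dense.closure_eq] at this
  exact this (Set.mem_univ G)

theorem mix_fun {a : ℕ → ℝ} {n : ℕ → ℕ} (hn : ∀ j, 3 ≤ n j)
    (hr : Tendsto (fun j => |a j| / n j) atTop atTop) {F G : T2 → ℝ} (hF : MemLp F 2 volume)
    (hG : MemLp G 2 volume) :
    Tendsto (fun j => ∫ p : T2, F ((S (a j))^[n j] p) * G p) atTop
      (𝓝 ((∫ p, F p) * ∫ p, G p)) := by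
  have ha : ∀ᶠ j in atTop, 1 ≤ |a j| := by
    filter_upwards [hr.eventually_ge_atTop 1] with j hj
    have h1 : (1 : ℝ) ≤ n j := by
      have := hn j
      exact_mod_cast (by omega : 1 ≤ n j)
    rw [le_div_iff₀ (by linarith)] at hj
    linarith
  have hr2 : Tendsto (fun j => √(n j / |a j|)) atTop (𝓝 0) := by
    have h1 := tendsto_inv_atTop_zero.comp hr
    have h2 := (Real.continuous_sqrt.tendsto 0).comp h1
    rw [Real.sqrt_zero] at h2
    refine h2.congr fun j => ?_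
    simp only [Function.comp_apply, inv_div]
  have h := mix ha hn hr2 (hF.toLp F) (hG.toLp G)
  simp_rw [BF_toLp] at h
  have h2 := h.add_const ((∫ p, F p) * ∫ p, G p)
  rw [zero_add] at h2
  refine h2.congr fun j => ?_
  ring

end Pool.Agent.X85.SMix
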